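import Mathlib
import Pool.Agent.Lib.MP_6d896a_gt.OM.Defs
import Pool.Agent.Lib.MP_6d896a_gt.UR.Defs

/-!
Project CJ (the Kannan-Lovasz-Simonovits inequality for conjugation invariant log-concave random
matrices): definitions.
-/

set_option autoImplicit false
set_option linter.unusedSectionVars false

namespace Pool.Agent.Lib.MP_6d896a_gt.CJ

open MeasureTheory ProbabilityTheory Matrix Set Filter
open Pool.Agent.Lib.MP_6d896a_gt.OM Pool.Agent.Lib.MP_6d896a_gt.UC
open Pool.Agent.Lib.MP_6d896a_gt.UC.UR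
open scoped ENNReal Topology

section act

variable {r : Type} [Fintype r] [DecidableEq r] {N : ℕ}

/-- an isometric action of the group of rotations of `ℝ^r` on `ℝ^N` -/
structure Act (r : Type) [Fintype r] [DecidableEq r] (N : ℕ) where
  ρ : RotG r →* (Eu N ≃ₗᵢ[ℝ] Eu N)
  cont : Continuous fun p : RotG r × Eu N => ρ p.1 p.2

/-- orbit averages -/
noncomputable def Act.avg (R : Act r N) (f : Eu N → ℝ) (x : Eu N) : ℝ :=
  ∫ g, f (R.ρ g⁻¹ x) ∂(haarG r)

/-- there is no fixed vector -/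
def Act.NoFix (R : Act r N) : Prop := ∀ v : Eu N, (∀ g, R.ρ g v = v) → v = 0

/-- Poincare inequality on the orbits, with constant `c x` on the orbit of `x` -/
def Act.OP (R : Act r N) (c : Eu N → ℝ) : Prop :=
  ∀ f : Eu N → ℝ, UC.TT f → ∀ x : Eu N,
    ∫ g, f (R.ρ g⁻¹ x) ^ 2 ∂(haarG r) - (R.avg f x) ^ 2 ≤
      c x * ∫ g, ‖fderiv ℝ f (R.ρ g⁻¹ x)‖ ^ 2 ∂(haarG r)

/-- quadratic weights -/
structure Wt (c : Eu N → ℝ) : Prop where
  cont : Continuous c
  nn : ∀ x, 0 ≤ c x
  conv : ∀ (x y : Eu N) (t : ℝ), 0 < t → c (x + t • y) ≤ (1 + t) * c x + (t ^ 2 + t) * c y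
  bd : ∃ C : ℝ, ∀ x, c x ≤ C * ‖x‖ ^ 2

/-- measures invariant under the action -/
def Act.Inv (R : Act r N) (ν : Measure (Eu N)) : Prop := ∀ g, ν.map (R.ρ g) = ν

end act

section tuples

variable {κ r : Type} [Fintype κ] [Fintype r] [DecidableEq r]

/-- the space of tuples of matrices -/
abbrev Tup (κ r : Type) [Fintype κ] [Fintype r] := EuclideanSpace ℝ (κ × r × r)

/-- a matrix of a tuple -/
def mx (l : κ) : Tup κ r →ₗ[ℝ] Matrix r r ℝ where
  toFun x := Matrix.of fun i j => x (l, i, j)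
  map_add' x y := by ext i j; simp
  map_smul' c x := by ext i j; simp

@[simp] lemma mx_apply (l : κ) (x : Tup κ r) (i j : r) : mx l x i j = x (l, i, j) := rfl

/-- the tuple with given matrices -/
def tup (A : κ → Matrix r r ℝ) : Tup κ r := WithLp.toLp 2 fun p => A p.1 p.2.1 p.2.2

@[simp] lemma tup_apply (A : κ → Matrix r r ℝ) (p : κ × r × r) : tup A p = A p.1 p.2.1 p.2.2 := rfl

@[simp] lemma mx_tup (A : κ → Matrix r r ℝ) (l : κ) : mx l (tup A) = A l := by ext i j; simp

@[simp] lemma tup_mx (x : Tup κ r) : tup (fun l => mx l x) = x := by ext p; simp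

/-- conjugation by a matrix -/
def cj (U : Matrix r r ℝ) : Tup κ r →ₗ[ℝ] Tup κ r where
  toFun x := tup fun l => U * mx l x * Uᵀ
  map_add' x y := by
    ext p
    simp [Matrix.mul_add, Matrix.add_mul]
  map_smul' c x := by
    ext p
    simp

lemma cj_apply (U : Matrix r r ℝ) (x : Tup κ r) : cj U x = tup fun l => U * mx l x * Uᵀ := rfl

@[simp] lemma mx_cj (l : κ) (U : Matrix r r ℝ) (x : Tup κ r) :
    mx l (cj U x) = U * mx l x * Uᵀ := by
  rw [cj_apply, mx_tup]

lemma cj_mul (U V : Matrix r r ℝ) (x : Tup κ r) : cj (U * V) x = cj U (cj V x) := by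
  rw [cj_apply, cj_apply U]
  congr 1
  funext l
  rw [mx_cj, Matrix.transpose_mul]
  simp only [Matrix.mul_assoc]

@[simp] lemma cj_one (x : Tup κ r) : cj (1 : Matrix r r ℝ) x = x := by
  rw [cj_apply]
  simp

lemma inner_tup (x y : Tup κ r) :
    inner ℝ x y = ∑ l, ((mx l x)ᵀ * mx l y).trace := by
  rw [PiLp.inner_apply, Fintype.sum_prod_type]
  refine Finset.sum_congr rfl fun l _ => ?_
  rw [Fintype.sum_prod_type, Matrix.trace, Finset.sum_comm]
  refine Finset.sum_congr rfl fun j _ => ?_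
  simp only [Matrix.diag_apply, Matrix.mul_apply, Matrix.transpose_apply, mx_apply]
  refine Finset.sum_congr rfl fun i _ => ?_
  simp [mul_comm]

/-- conjugation by an orthogonal matrix, as an isometry -/
noncomputable def cjE (u : Matrix.orthogonalGroup r ℝ) : Tup κ r ≃ₗᵢ[ℝ] Tup κ r where
  toFun := cj (u : Matrix r r ℝ)
  invFun := cj (u : Matrix r r ℝ)ᵀ
  map_add' := map_add _
  map_smul' c x := by simp
  left_inv x := by rw [← cj_mul, orth_left, cj_one]
  right_inv x := by rw [← cj_mul, orth_right, cj_one]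
  norm_map' x := by
    change ‖cj (u : Matrix r r ℝ) x‖ = ‖x‖
    have h : ‖cj (u : Matrix r r ℝ) x‖ ^ 2 = ‖x‖ ^ 2 := by
      rw [← real_inner_self_eq_norm_sq, ← real_inner_self_eq_norm_sq, inner_tup, inner_tup]
      refine Finset.sum_congr rfl fun l _ => ?_
      rw [mx_cj]
      have e : ((u : Matrix r r ℝ) * mx l x * (u : Matrix r r ℝ)ᵀ)ᵀ *
          ((u : Matrix r r ℝ) * mx l x * (u : Matrix r r ℝ)ᵀ) =
          (u : Matrix r r ℝ) * ((mx l x)ᵀ * mx l x) * (u : Matrix r r ℝ)ᵀ := by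
        rw [Matrix.transpose_mul, Matrix.transpose_mul, Matrix.transpose_transpose]
        calc (u : Matrix r r ℝ) * ((mx l x)ᵀ * (u : Matrix r r ℝ)ᵀ) *
              ((u : Matrix r r ℝ) * mx l x * (u : Matrix r r ℝ)ᵀ)
            = (u : Matrix r r ℝ) * ((mx l x)ᵀ * (((u : Matrix r r ℝ)ᵀ * (u : Matrix r r ℝ)) *
                mx l x)) * (u : Matrix r r ℝ)ᵀ := by simp only [Matrix.mul_assoc]
          _ = _ := by rw [orth_left, Matrix.one_mul]
      rw [e, Matrix.trace_mul_comm, ← Matrix.mul_assoc, orth_left, Matrix.one_mul]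
    exact (pow_left_inj₀ (norm_nonneg _) (norm_nonneg _) (by norm_num)).mp h

@[simp] lemma cjE_apply (u : Matrix.orthogonalGroup r ℝ) (x : Tup κ r) :
    cjE u x = cj (u : Matrix r r ℝ) x := rfl

/-- tuples of trace zero matrices -/
def TrZ (κ r : Type) [Fintype κ] [Fintype r] : Submodule ℝ (Tup κ r) where
  carrier := {x | ∀ l, ∑ i, x (l, i, i) = 0}
  add_mem' := by
    intro x y hx hy l
    simp only [PiLp.add_apply, Finset.sum_add_distrib]
    rw [hx l, hy l, add_zero]
  zero_mem' := by intro l; simp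
  smul_mem' := by
    intro c x hx l
    simp only [PiLp.smul_apply, smul_eq_mul, ← Finset.mul_sum]
    rw [hx l, mul_zero]

lemma mem_TrZ {x : Tup κ r} : x ∈ TrZ κ r ↔ ∀ l, (mx l x).trace = 0 := Iff.rfl

lemma cj_mem_TrZ (u : Matrix.orthogonalGroup r ℝ) {x : Tup κ r} (hx : x ∈ TrZ κ r) :
    cj (u : Matrix r r ℝ) x ∈ TrZ κ r := by
  rw [mem_TrZ] at hx ⊢
  intro l
  rw [mx_cj, Matrix.trace_mul_comm, ← Matrix.mul_assoc, orth_left, Matrix.one_mul, hx l]

/-- dimension of the space of tuples of trace zero matrices -/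
noncomputable abbrev dW (κ r : Type) [Fintype κ] [Fintype r] : ℕ :=
  Module.finrank ℝ (TrZ κ r)

/-- orthonormal coordinates on the space of tuples of trace zero matrices -/
noncomputable def JW (κ r : Type) [Fintype κ] [Fintype r] : Eu (dW κ r) ≃ₗᵢ[ℝ] TrZ κ r :=
  (stdOrthonormalBasis ℝ (TrZ κ r)).repr.symm

/-- the tuple with given coordinates -/
noncomputable def jt : Eu (dW κ r) →ₗᵢ[ℝ] Tup κ r :=
  (TrZ κ r).subtypeₗᵢ.comp (JW κ r).toLinearIsometry

lemma jt_mem (x : Eu (dW κ r)) : (jt x : Tup κ r) ∈ TrZ κ r := (JW κ r x).2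

lemma jt_surj {y : Tup κ r} (hy : y ∈ TrZ κ r) : ∃ x : Eu (dW κ r), (jt x : Tup κ r) = y :=
  ⟨(JW κ r).symm ⟨y, hy⟩, by
    show ((JW κ r ((JW κ r).symm ⟨y, hy⟩) : TrZ κ r) : Tup κ r) = y
    rw [LinearIsometryEquiv.apply_symm_apply]⟩

/-- conjugation on the space of tuples of trace zero matrices -/
noncomputable def cjW (u : Matrix.orthogonalGroup r ℝ) : TrZ κ r ≃ₗᵢ[ℝ] TrZ κ r where
  toFun x := ⟨cj (u : Matrix r r ℝ) x, cj_mem_TrZ u x.2⟩
  invFun x := ⟨cj (u : Matrix r r ℝ)ᵀ x, by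
    have h := cj_mem_TrZ u⁻¹ x.2
    rwa [coe_inv_orth] at h⟩
  map_add' x y := by ext1; simp
  map_smul' c x := by ext1; simp
  left_inv x := by
    ext1
    simp only
    rw [← cj_mul, orth_left, cj_one]
  right_inv x := by
    ext1
    simp only
    rw [← cj_mul, orth_right, cj_one]
  norm_map' x := (cjE u).norm_map (x : Tup κ r)

lemma cjW_coe (u : Matrix.orthogonalGroup r ℝ) (x : TrZ κ r) :
    ((cjW u x : TrZ κ r) : Tup κ r) = cj (u : Matrix r r ℝ) (x : Tup κ r) := rfl

lemma continuous_cj : Continuous fun p : Matrix r r ℝ × Tup κ r => cj p.1 p.2 := by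
  have h : (fun p : Matrix r r ℝ × Tup κ r => cj p.1 p.2) =
      fun p : Matrix r r ℝ × Tup κ r => WithLp.toLp 2 (fun q : κ × r × r =>
        ∑ b, (∑ a, p.1 q.2.1 a * p.2 (q.1, a, b)) * p.1 q.2.2 b) := by
    funext p
    ext q
    simp [cj_apply, Matrix.mul_apply]
  rw [h]
  refine (PiLp.continuous_toLp 2 _).comp (continuous_pi fun q => ?_)
  fun_prop

/-- the action of the rotations on tuples of trace zero matrices -/
noncomputable def cjAct (κ r : Type) [Fintype κ] [Fintype r] [DecidableEq r] :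
    Act r (dW κ r) where
  ρ :=
    { toFun := fun g => ((JW κ r).trans (cjW (g : Matrix.orthogonalGroup r ℝ))).trans (JW κ r).symm
      map_one' := by
        ext1 x
        show (JW κ r).symm (cjW ((1 : RotG r) : Matrix.orthogonalGroup r ℝ) (JW κ r x)) = x
        rw [LinearIsometryEquiv.symm_apply_eq]
        ext1
        rw [cjW_coe]
        simp
      map_mul' := by
        intro g h
        ext1 x
        show (JW κ r).symm (cjW ((g * h : RotG r) : Matrix.orthogonalGroup r ℝ) (JW κ r x)) =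
          (JW κ r).symm (cjW (g : Matrix.orthogonalGroup r ℝ) (JW κ r ((JW κ r).symm
            (cjW (h : Matrix.orthogonalGroup r ℝ) (JW κ r x)))))
        rw [LinearIsometryEquiv.apply_symm_apply]
        congr 1
        ext1
        rw [cjW_coe, cjW_coe, cjW_coe, Subgroup.coe_mul, Submonoid.coe_mul, cj_mul] }
  cont := by
    have h1 : Continuous fun p : RotG r × Eu (dW κ r) =>
        (⟨cj (((p.1 : RotG r) : Matrix.orthogonalGroup r ℝ) : Matrix r r ℝ) (JW κ r p.2),
          cj_mem_TrZ _ (JW κ r p.2).2⟩ : TrZ κ r) := by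
      refine Continuous.subtype_mk ?_ _
      have h2 : Continuous fun p : RotG r × Eu (dW κ r) =>
          ((((p.1 : RotG r) : Matrix.orthogonalGroup r ℝ) : Matrix r r ℝ),
            (JW κ r p.2 : Tup κ r)) := by
        have h3 : Continuous (JW κ r) := (JW κ r).continuous
        fun_prop
      exact continuous_cj.comp h2
    exact (JW κ r).symm.continuous.comp h1

lemma jt_act (g : RotG r) (x : Eu (dW κ r)) :
    (jt ((cjAct κ r).ρ g x) : Tup κ r) =
      cj ((g : Matrix.orthogonalGroup r ℝ) : Matrix r r ℝ) (jt x) := by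
  show ((JW κ r ((JW κ r).symm (cjW (g : Matrix.orthogonalGroup r ℝ) (JW κ r x))) :
    TrZ κ r) : Tup κ r) = _
  rw [LinearIsometryEquiv.apply_symm_apply]
  rfl

/-- operator norm of a matrix -/
noncomputable def opn (A : Matrix r r ℝ) : ℝ := ‖Matrix.toEuclideanCLM (𝕜 := ℝ) A‖

/-- squared norm of the part of `|u| A u` orthogonal to `u` -/
def qf (A : Matrix r r ℝ) (u : r → ℝ) : ℝ :=
  (∑ i, (A *ᵥ u) i ^ 2) * (∑ i, u i ^ 2) - (∑ i, u i * (A *ᵥ u) i) ^ 2

/-- the weight -/
noncomputable def cW (κ r : Type) [Fintype κ] [Fintype r] [DecidableEq r]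
    (x : Eu (dW κ r)) : ℝ :=
  16 / ((Fintype.card r : ℝ) - 2) * ∑ l, opn (mx l (jt x)) ^ 2

end tuples

end Pool.Agent.Lib.MP_6d896a_gt.CJ
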