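import Mathlib
import Pool.Agent.Lib.MP_6d896a_gt.CJ.Defs

/-!
Project CJ, piece P11: from one direction to all directions.
-/

set_option autoImplicit false
set_option linter.unusedSectionVars false

namespace Pool.Agent.Lib.MP_6d896a_gt.CJ

open MeasureTheory ProbabilityTheory Matrix Set Filter
open Pool.Agent.Lib.MP_6d896a_gt.OM Pool.Agent.Lib.MP_6d896a_gt.UC
open Pool.Agent.Lib.MP_6d896a_gt.UC.UR
open scoped ENNReal Topology

section conj

variable {κ r : Type} [Fintype κ] [Fintype r] [DecidableEq r]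

/-- Lagrange's identity -/
private lemma ad_lagrange (a u : r → ℝ) :
    ∑ i, ∑ j, (a i * u j - u i * a j) ^ 2 =
      2 * ((∑ i, a i ^ 2) * (∑ i, u i ^ 2) - (∑ i, u i * a i) ^ 2) := by
  have h1 : (∑ i, a i ^ 2) * (∑ i, u i ^ 2) = ∑ i, ∑ j, a i ^ 2 * u j ^ 2 :=
    Finset.sum_mul_sum _ _ _ _
  have h2 : (∑ i, u i * a i) ^ 2 = ∑ i, ∑ j, (u i * a i) * (u j * a j) := by
    rw [sq, Finset.sum_mul_sum]
  have h3 : (∑ i, a i ^ 2) * (∑ i, u i ^ 2) = ∑ i, ∑ j, u i ^ 2 * a j ^ 2 := by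
    rw [mul_comm, Finset.sum_mul_sum]
  have h4 : 2 * ((∑ i, a i ^ 2) * (∑ i, u i ^ 2) - (∑ i, u i * a i) ^ 2) =
      (∑ i, a i ^ 2) * (∑ i, u i ^ 2) + (∑ i, a i ^ 2) * (∑ i, u i ^ 2) -
        2 * (∑ i, u i * a i) ^ 2 := by ring
  rw [h4]
  nth_rewrite 2 [h3]
  rw [h1, h2, Finset.mul_sum, ← Finset.sum_add_distrib, ← Finset.sum_sub_distrib]
  refine Finset.sum_congr rfl fun i _ => ?_
  rw [Finset.mul_sum, ← Finset.sum_add_distrib, ← Finset.sum_sub_distrib]
  refine Finset.sum_congr rfl fun j _ => ?_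
  ring

private lemma ad_split (A : Matrix r r ℝ) (u w : r → ℝ) {T : ℝ} (h : 4 * T < qf A u) :
    T < qf A (u + w) ∨ T < qf A (u - w) ∨ T < qf A w := by
  by_contra hc
  push Not at hc
  obtain ⟨h1, h2, h3⟩ := hc
  have L : ∀ v : r → ℝ, ∑ i, ∑ j, ((A *ᵥ v) i * v j - v i * (A *ᵥ v) j) ^ 2 = 2 * qf A v :=
    fun v => ad_lagrange (A *ᵥ v) v
  have key : ∑ i, ∑ j, ((A *ᵥ u) i * u j - u i * (A *ᵥ u) j) ^ 2 ≤
      ∑ i, ∑ j, (((A *ᵥ (u + w)) i * (u + w) j - (u + w) i * (A *ᵥ (u + w)) j) ^ 2 +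
        ((A *ᵥ (u - w)) i * (u - w) j - (u - w) i * (A *ᵥ (u - w)) j) ^ 2 +
        2 * ((A *ᵥ w) i * w j - w i * (A *ᵥ w) j) ^ 2) := by
    refine Finset.sum_le_sum fun i _ => Finset.sum_le_sum fun j _ => ?_
    rw [Matrix.mulVec_add, Matrix.mulVec_sub]
    simp only [Pi.add_apply, Pi.sub_apply]
    set p := (A *ᵥ u) i
    set q := (A *ᵥ u) j
    set p' := (A *ᵥ w) i
    set q' := (A *ᵥ w) j
    have e : p * u j - u i * q = (((p + p') * (u j + w j) - (u i + w i) * (q + q')) +
        ((p - p') * (u j - w j) - (u i - w i) * (q - q'))) / 2 - (p' * w j - w i * q') := by ring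
    rw [e]
    set a := (p + p') * (u j + w j) - (u i + w i) * (q + q')
    set b := (p - p') * (u j - w j) - (u i - w i) * (q - q')
    set c := p' * w j - w i * q'
    nlinarith [sq_nonneg (a - b), sq_nonneg ((a + b) / 2 + c)]
  simp only [Finset.sum_add_distrib, ← Finset.mul_sum] at key
  rw [L, L, L, L] at key
  linarith

private lemma ad_smul (A : Matrix r r ℝ) (s : ℝ) (u : r → ℝ) :
    qf A (s • u) = s ^ 4 * qf A u := by
  unfold qf
  rw [Matrix.mulVec_smul]
  simp only [Pi.smul_apply, smul_eq_mul, mul_pow]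
  have h1 : ∀ i, s * u i * (s * (A *ᵥ u) i) = s ^ 2 * (u i * (A *ᵥ u) i) := fun i => by ring
  simp_rw [h1]
  rw [← Finset.mul_sum, ← Finset.mul_sum, ← Finset.mul_sum]
  ring

private lemma ad_zero (A : Matrix r r ℝ) : qf A 0 = 0 := by
  have := ad_smul A 0 0
  simpa using this

private lemma ad_norm (z : EuclideanSpace ℝ r) : ∑ i, z i ^ 2 = ‖z‖ ^ 2 := by
  rw [EuclideanSpace.norm_sq_eq]
  simp

/-- from one direction to all directions -/
theorem all_dir {E : Type} [MeasurableSpace E] (ν : Measure E)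
    [IsProbabilityMeasure ν] (F : E → Matrix r r ℝ) (hF : ∀ i j, Measurable fun x => F x i j)
    (hr : 1 ≤ Fintype.card r) {S p : ℝ} (hS : 0 ≤ S) (hp : 0 ≤ p)
    (h : ∀ u : r → ℝ, u ≠ 0 → ν.real {x | S ^ 2 * (∑ i, u i ^ 2) ^ 2 ≤ qf (F x) u} ≤ p) :
    ν.real {x | ¬ ∀ u : r → ℝ, qf (F x) u ≤ (8 * S) ^ 2 * (∑ i, u i ^ 2) ^ 2} ≤
      3 * 2 ^ Fintype.card r * p := by
  classical
  -- the set of bad pairs
  let G : Set (E × EuclideanSpace ℝ r) := {q | q.2 ∈ Metric.ball (0 : EuclideanSpace ℝ r) 2 ∧ q.2 ≠ 0 ∧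
    S ^ 2 * (∑ i, q.2 i ^ 2) ^ 2 ≤ qf (F q.1) q.2.ofLp}
  have hqm : Measurable fun q : E × EuclideanSpace ℝ r => qf (F q.1) q.2.ofLp := by
    unfold qf
    have h1 : ∀ i : r, Measurable fun q : E × EuclideanSpace ℝ r => q.2 i := fun i => by fun_prop
    have h2 : ∀ i j : r, Measurable fun q : E × EuclideanSpace ℝ r => F q.1 i j := fun i j =>
      (hF i j).comp measurable_fst
    have h3 : ∀ i : r, Measurable fun q : E × EuclideanSpace ℝ r => (F q.1 *ᵥ q.2.ofLp) i := by
      intro i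
      have : (fun q : E × EuclideanSpace ℝ r => (F q.1 *ᵥ q.2.ofLp) i) =
          fun q : E × EuclideanSpace ℝ r => ∑ j, F q.1 i j * q.2 j := by
        funext q
        rfl
      rw [this]
      exact Finset.measurable_sum _ fun j _ => (h2 i j).mul (h1 j)
    refine Measurable.sub (Measurable.mul ?_ ?_) (Measurable.pow_const ?_ 2)
    · exact Finset.measurable_sum _ fun i _ => (h3 i).pow_const 2
    · exact Finset.measurable_sum _ fun i _ => (h1 i).pow_const 2
    · exact Finset.measurable_sum _ fun i _ => (h1 i).mul (h3 i)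
  have hnm : Measurable fun q : E × EuclideanSpace ℝ r => S ^ 2 * (∑ i, q.2 i ^ 2) ^ 2 := by fun_prop
  have hG : MeasurableSet G := by
    refine MeasurableSet.inter (measurable_snd Metric.isOpen_ball.measurableSet) ?_
    refine MeasurableSet.inter ?_ (measurableSet_le hnm hqm)
    exact measurable_snd (measurableSet_singleton (0 : EuclideanSpace ℝ r)).compl
  -- volume of the unit ball
  set β : ℝ≥0∞ := (volume : Measure (EuclideanSpace ℝ r)) (Metric.ball (0 : EuclideanSpace ℝ r) 1) with hβ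
  have hβ0 : β ≠ 0 := (Metric.measure_ball_pos (volume : Measure (EuclideanSpace ℝ r)) (0 : EuclideanSpace ℝ r) one_pos).ne'
  have hβt : β ≠ ∞ := measure_ball_lt_top.ne
  have hβ2 : (volume : Measure (EuclideanSpace ℝ r)) (Metric.ball (0 : EuclideanSpace ℝ r) 2) = 2 ^ Fintype.card r * β := by
    rw [Measure.addHaar_ball_of_pos (volume : Measure (EuclideanSpace ℝ r)) (0 : EuclideanSpace ℝ r) (by norm_num : (0 : ℝ) < 2),
      finrank_euclideanSpace, ENNReal.ofReal_pow (by norm_num), ENNReal.ofReal_ofNat]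
  -- Fubini
  have hfub : ∫⁻ x, (volume : Measure (EuclideanSpace ℝ r)) (Prod.mk x ⁻¹' G) ∂ν ≤ ENNReal.ofReal p * (2 ^ Fintype.card r * β) := by
    rw [← Measure.prod_apply hG, Measure.prod_apply_symm hG]
    calc ∫⁻ z, ν ((fun x => (x, z)) ⁻¹' G) ∂(volume : Measure (EuclideanSpace ℝ r))
        ≤ ∫⁻ z, (Metric.ball (0 : EuclideanSpace ℝ r) 2).indicator (fun _ => ENNReal.ofReal p) z ∂(volume : Measure (EuclideanSpace ℝ r)) := by
          refine lintegral_mono fun z => ?_
          by_cases hz : z ∈ Metric.ball (0 : EuclideanSpace ℝ r) 2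
          · rw [Set.indicator_of_mem hz]
            by_cases hz0 : z = 0
            · have : (fun x : E => (x, z)) ⁻¹' G = ∅ := by
                ext x
                simp [G, hz0]
              rw [this, measure_empty]
              exact zero_le
            · have hz1 : z.ofLp ≠ 0 := by
                intro hc
                apply hz0
                ext i
                exact congrFun hc i
              have h1 := h z.ofLp hz1
              have h2 : (fun x : E => (x, z)) ⁻¹' G ⊆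
                  {x | S ^ 2 * (∑ i, z.ofLp i ^ 2) ^ 2 ≤ qf (F x) z.ofLp} := fun x hx => hx.2.2
              refine (measure_mono h2).trans ?_
              rw [← ofReal_measureReal (measure_ne_top _ _)]
              exact ENNReal.ofReal_le_ofReal h1
          · have : (fun x : E => (x, z)) ⁻¹' G = ∅ := by
              ext x
              simp only [mem_preimage, mem_empty_iff_false, iff_false]
              exact fun hx => hz hx.1
            rw [this, measure_empty]
            exact zero_le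
      _ = ENNReal.ofReal p * (2 ^ Fintype.card r * β) := by
          rw [lintegral_indicator_const Metric.isOpen_ball.measurableSet, hβ2]
  -- covering
  have hcov : {x | ¬ ∀ u : r → ℝ, qf (F x) u ≤ (8 * S) ^ 2 * (∑ i, u i ^ 2) ^ 2} ⊆
      {x | β ≤ 3 * (volume : Measure (EuclideanSpace ℝ r)) (Prod.mk x ⁻¹' G)} := by
    intro x hx
    simp only [mem_ofPred_eq, not_forall, not_le] at hx
    obtain ⟨u, hu⟩ := hx
    have hu0 : (WithLp.toLp 2 u : EuclideanSpace ℝ r) ≠ 0 := by
      intro hc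
      have hc' : u = 0 := by
        funext i
        exact congrArg (fun z : EuclideanSpace ℝ r => z i) hc
      rw [hc', ad_zero] at hu
      simp at hu
    have hn : ∑ i, u i ^ 2 = ‖(WithLp.toLp 2 u : EuclideanSpace ℝ r)‖ ^ 2 := ad_norm (WithLp.toLp 2 u : EuclideanSpace ℝ r)
    set t : ℝ := ‖(WithLp.toLp 2 u : EuclideanSpace ℝ r)‖ with ht
    have ht0 : 0 < t := norm_pos_iff.mpr hu0
    set v : r → ℝ := t⁻¹ • u with hv
    have hv1 : ‖(WithLp.toLp 2 v : EuclideanSpace ℝ r)‖ = 1 := by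
      have : (WithLp.toLp 2 v : EuclideanSpace ℝ r) = t⁻¹ • (WithLp.toLp 2 u : EuclideanSpace ℝ r) := rfl
      rw [this, norm_smul, norm_inv, Real.norm_eq_abs, abs_of_pos ht0, ← ht,
        inv_mul_cancel₀ ht0.ne']
    have hv2 : 4 * (16 * S ^ 2) < qf (F x) v := by
      rw [hv, ad_smul]
      rw [hn] at hu
      have h1 : (t⁻¹) ^ 4 * ((8 * S) ^ 2 * (t ^ 2) ^ 2) < (t⁻¹) ^ 4 * qf (F x) u :=
        mul_lt_mul_of_pos_left hu (by positivity)
      have h2 : (t⁻¹) ^ 4 * ((8 * S) ^ 2 * (t ^ 2) ^ 2) = 4 * (16 * S ^ 2) := by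
        field_simp
        ring
      rwa [h2] at h1
    -- criterion for membership
    have hmem : ∀ z : EuclideanSpace ℝ r, ‖z‖ < 2 → 16 * S ^ 2 < qf (F x) z.ofLp → z ∈ Prod.mk x ⁻¹' G := by
      intro z hz hq
      refine ⟨by simpa using hz, ?_, ?_⟩
      · rintro rfl
        have : qf (F x) (0 : EuclideanSpace ℝ r).ofLp = 0 := ad_zero (F x)
        rw [this] at hq
        nlinarith [sq_nonneg S]
      · show S ^ 2 * (∑ i, z i ^ 2) ^ 2 ≤ qf (F x) z.ofLp
        rw [ad_norm]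
        have h1 : (‖z‖ ^ 2) ^ 2 ≤ 16 := by
          have h2 : ‖z‖ ^ 2 ≤ 4 := by nlinarith [norm_nonneg z]
          nlinarith [sq_nonneg ‖z‖]
        nlinarith [mul_le_mul_of_nonneg_left h1 (sq_nonneg S)]
    set V : EuclideanSpace ℝ r := WithLp.toLp 2 v with hV
    have hsub : Metric.ball (0 : EuclideanSpace ℝ r) 1 ⊆ ((fun w => V + w) ⁻¹' (Prod.mk x ⁻¹' G) ∪
        (fun w => V - w) ⁻¹' (Prod.mk x ⁻¹' G)) ∪ (Prod.mk x ⁻¹' G) := by
      intro w hw
      have hw1 : ‖w‖ < 1 := by simpa using hw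
      rcases ad_split (F x) v w.ofLp hv2 with h1 | h1 | h1
      · left; left
        refine hmem (V + w) ?_ h1
        calc ‖V + w‖ ≤ ‖V‖ + ‖w‖ := norm_add_le _ _
          _ < 2 := by rw [hv1]; linarith
      · left; right
        refine hmem (V - w) ?_ h1
        calc ‖V - w‖ ≤ ‖V‖ + ‖w‖ := norm_sub_le _ _
          _ < 2 := by rw [hv1]; linarith
      · right
        exact hmem w (by linarith) h1
    have hGx : MeasurableSet (Prod.mk x ⁻¹' G) := measurable_prodMk_left hG
    show β ≤ 3 * (volume : Measure (EuclideanSpace ℝ r)) (Prod.mk x ⁻¹' G)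
    calc β ≤ (volume : Measure (EuclideanSpace ℝ r)) (((fun w => V + w) ⁻¹' (Prod.mk x ⁻¹' G) ∪
        (fun w => V - w) ⁻¹' (Prod.mk x ⁻¹' G)) ∪ (Prod.mk x ⁻¹' G)) := measure_mono hsub
      _ ≤ (volume : Measure (EuclideanSpace ℝ r)) ((fun w => V + w) ⁻¹' (Prod.mk x ⁻¹' G)) + (volume : Measure (EuclideanSpace ℝ r)) ((fun w => V - w) ⁻¹' (Prod.mk x ⁻¹' G)) +
          (volume : Measure (EuclideanSpace ℝ r)) (Prod.mk x ⁻¹' G) :=
        (measure_union_le _ _).trans (add_le_add (measure_union_le _ _) le_rfl)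
      _ = 3 * (volume : Measure (EuclideanSpace ℝ r)) (Prod.mk x ⁻¹' G) := by
        have h2 := (Measure.measurePreserving_sub_left (volume : Measure (EuclideanSpace ℝ r))
          V).measure_preimage hGx.nullMeasurableSet
        rw [measure_preimage_add, h2]
        ring
  -- Markov
  have hmark : β * ν {x | β ≤ 3 * (volume : Measure (EuclideanSpace ℝ r)) (Prod.mk x ⁻¹' G)} ≤
      3 * (ENNReal.ofReal p * (2 ^ Fintype.card r * β)) := by
    have hm : Measurable fun x => 3 * (volume : Measure (EuclideanSpace ℝ r)) (Prod.mk x ⁻¹' G) :=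
      (measurable_measure_prodMk_left hG).const_mul 3
    refine (mul_meas_ge_le_lintegral hm β).trans ?_
    rw [lintegral_const_mul _ (measurable_measure_prodMk_left hG)]
    exact mul_le_mul_right hfub 3
  have hfin : ν {x | ¬ ∀ u : r → ℝ, qf (F x) u ≤ (8 * S) ^ 2 * (∑ i, u i ^ 2) ^ 2} ≤
      ENNReal.ofReal (3 * 2 ^ Fintype.card r * p) := by
    refine (measure_mono hcov).trans ?_
    have h1 : β * ν {x | β ≤ 3 * (volume : Measure (EuclideanSpace ℝ r)) (Prod.mk x ⁻¹' G)} ≤
        β * ENNReal.ofReal (3 * 2 ^ Fintype.card r * p) := by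
      refine hmark.trans (le_of_eq ?_)
      rw [ENNReal.ofReal_mul (by positivity), ENNReal.ofReal_mul (by norm_num),
        ENNReal.ofReal_pow (by norm_num)]
      simp only [ENNReal.ofReal_ofNat]
      ring
    exact (ENNReal.mul_le_mul_iff_right hβ0 hβt).mp h1
  have := ENNReal.toReal_mono ENNReal.ofReal_ne_top hfin
  rwa [ENNReal.toReal_ofReal (by positivity)] at this

end conj

end Pool.Agent.Lib.MP_6d896a_gt.CJ
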