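import Mathlib
import Pool.Agent.Lib.MP_6d896a_gt.CJ.Defs
import Pool.Agent.Lib.MP_6d896a_gt.OM.OrbitFlow

/-!
Project CJ, piece P8: the weight of the conjugation action, and there are no fixed vectors.
-/

set_option autoImplicit false
set_option linter.unusedSectionVars false

namespace Pool.Agent.Lib.MP_6d896a_gt.CJ

open MeasureTheory ProbabilityTheory Matrix Set Filter
open Pool.Agent.Lib.MP_6d896a_gt.OM Pool.Agent.Lib.MP_6d896a_gt.UC
open Pool.Agent.Lib.MP_6d896a_gt.UC.UR
open scoped ENNReal Topology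

section conj

variable {κ r : Type} [Fintype κ] [Fintype r] [DecidableEq r]

/-- the operator given by a matrix of the tuple -/
private noncomputable def cf_L (l : κ) :
    Eu (dW κ r) →ₗ[ℝ] (EuclideanSpace ℝ r →L[ℝ] EuclideanSpace ℝ r) :=
  ((Matrix.toEuclideanCLM (n := r) (𝕜 := ℝ)).toAlgEquiv.toLinearMap ∘ₗ mx l) ∘ₗ
    (jt (κ := κ) (r := r)).toLinearMap

private lemma cf_L_apply (l : κ) (x : Eu (dW κ r)) :
    ‖cf_L l x‖ = opn (mx l (jt x)) := rfl

theorem cW_wt (hr : 3 ≤ Fintype.card r) : Wt (cW κ r) := by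
  have hK : (0 : ℝ) ≤ 16 / ((Fintype.card r : ℝ) - 2) := by
    have : (3 : ℝ) ≤ Fintype.card r := by exact_mod_cast hr
    exact div_nonneg (by norm_num) (by linarith)
  have hc : cW κ r = fun x => 16 / ((Fintype.card r : ℝ) - 2) *
      ∑ l, ‖LinearMap.toContinuousLinearMap (cf_L (κ := κ) (r := r) l) x‖ ^ 2 := by
    funext x
    rfl
  rw [hc]
  refine ⟨?_, ?_, ?_, ?_⟩
  · refine continuous_const.mul (continuous_finsetSum _ fun l _ => ?_)
    exact ((LinearMap.toContinuousLinearMap (cf_L (κ := κ) (r := r) l)).continuous.norm).pow 2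
  · intro x
    exact mul_nonneg hK (Finset.sum_nonneg fun l _ => sq_nonneg _)
  · intro x y t ht
    have h : ∑ l, ‖LinearMap.toContinuousLinearMap (cf_L (κ := κ) (r := r) l) (x + t • y)‖ ^ 2 ≤
        (1 + t) * ∑ l, ‖LinearMap.toContinuousLinearMap (cf_L (κ := κ) (r := r) l) x‖ ^ 2 +
        (t ^ 2 + t) * ∑ l, ‖LinearMap.toContinuousLinearMap (cf_L (κ := κ) (r := r) l) y‖ ^ 2 := by
      rw [Finset.mul_sum, Finset.mul_sum, ← Finset.sum_add_distrib]
      refine Finset.sum_le_sum fun l _ => ?_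
      set L := LinearMap.toContinuousLinearMap (cf_L (κ := κ) (r := r) l)
      have h1 : ‖L (x + t • y)‖ ≤ ‖L x‖ + t * ‖L y‖ := by
        rw [map_add, map_smul]
        refine (norm_add_le _ _).trans ?_
        rw [norm_smul, Real.norm_eq_abs, abs_of_pos ht]
      have h2 : ‖L (x + t • y)‖ ^ 2 ≤ (‖L x‖ + t * ‖L y‖) ^ 2 :=
        pow_le_pow_left₀ (norm_nonneg _) h1 2
      nlinarith [mul_nonneg ht.le (sq_nonneg (‖L x‖ - ‖L y‖))]
    calc _ ≤ 16 / ((Fintype.card r : ℝ) - 2) * ((1 + t) *
        ∑ l, ‖LinearMap.toContinuousLinearMap (cf_L (κ := κ) (r := r) l) x‖ ^ 2 +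
        (t ^ 2 + t) * ∑ l, ‖LinearMap.toContinuousLinearMap (cf_L (κ := κ) (r := r) l) y‖ ^ 2) :=
          mul_le_mul_of_nonneg_left h hK
      _ = _ := by ring
  · refine ⟨16 / ((Fintype.card r : ℝ) - 2) *
      ∑ l, ‖LinearMap.toContinuousLinearMap (cf_L (κ := κ) (r := r) l)‖ ^ 2, fun x => ?_⟩
    have h : ∑ l, ‖LinearMap.toContinuousLinearMap (cf_L (κ := κ) (r := r) l) x‖ ^ 2 ≤
        (∑ l, ‖LinearMap.toContinuousLinearMap (cf_L (κ := κ) (r := r) l)‖ ^ 2) * ‖x‖ ^ 2 := by
      rw [Finset.sum_mul]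
      refine Finset.sum_le_sum fun l _ => ?_
      rw [← mul_pow]
      exact pow_le_pow_left₀ (norm_nonneg _) (ContinuousLinearMap.le_opNorm _ _) 2
    calc _ ≤ 16 / ((Fintype.card r : ℝ) - 2) *
        ((∑ l, ‖LinearMap.toContinuousLinearMap (cf_L (κ := κ) (r := r) l)‖ ^ 2) * ‖x‖ ^ 2) :=
          mul_le_mul_of_nonneg_left h hK
      _ = _ := by ring

/-- a matrix which commutes with all rotations commutes with all skew matrices -/
private lemma cf_comm {A : Matrix r r ℝ}
    (h : ∀ g : RotG r, ((g : Matrix.orthogonalGroup r ℝ) : Matrix r r ℝ) * A *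
      ((g : Matrix.orthogonalGroup r ℝ) : Matrix r r ℝ)ᵀ = A) {Z : Matrix r r ℝ}
    (hZ : Zᵀ = -Z) : Z * A = A * Z := by
  have h1 : ∀ t : ℝ, NormedSpace.exp (t • Z) * A = A * NormedSpace.exp (t • Z) := by
    intro t
    have htZ : (t • Z)ᵀ = -(t • Z) := by rw [Matrix.transpose_smul, hZ, smul_neg]
    have h2 := h ⟨expG (t • Z) htZ, expG_mem _ _⟩
    have h3 := orth_left (expG (t • Z) htZ)
    change NormedSpace.exp (t • Z) * A * (NormedSpace.exp (t • Z))ᵀ = A at h2
    change (NormedSpace.exp (t • Z))ᵀ * NormedSpace.exp (t • Z) = 1 at h3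
    calc NormedSpace.exp (t • Z) * A
        = NormedSpace.exp (t • Z) * A * ((NormedSpace.exp (t • Z))ᵀ * NormedSpace.exp (t • Z)) := by
          rw [h3, Matrix.mul_one]
      _ = (NormedSpace.exp (t • Z) * A * (NormedSpace.exp (t • Z))ᵀ) * NormedSpace.exp (t • Z) := by
          simp only [Matrix.mul_assoc]
      _ = _ := by rw [h2]
  ext i j
  have h4 : HasDerivAt (fun t : ℝ => ((NormedSpace.exp (t • Z) : Matrix r r ℝ) * A) i j)
      ((Z * A) i j) 0 := by
    have e : (fun t : ℝ => ((NormedSpace.exp (t • Z) : Matrix r r ℝ) * A) i j) = fun t =>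
        ∑ k, (NormedSpace.exp (t • Z) : Matrix r r ℝ) i k * A k j := by
      funext t
      exact Matrix.mul_apply
    rw [e]
    have e2 : (Z * A) i j = ∑ k, (Z * NormedSpace.exp ((0 : ℝ) • Z)) i k * A k j := by
      rw [zero_smul, NormedSpace.exp_zero, Matrix.mul_one]
      exact Matrix.mul_apply
    rw [e2]
    exact HasDerivAt.fun_sum fun k _ => (hasDerivAt_entry Z 0 i k).mul_const _
  have h5 : HasDerivAt (fun t : ℝ => (A * (NormedSpace.exp (t • Z) : Matrix r r ℝ)) i j)
      ((A * Z) i j) 0 := by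
    have e : (fun t : ℝ => (A * (NormedSpace.exp (t • Z) : Matrix r r ℝ)) i j) = fun t =>
        ∑ k, A i k * (NormedSpace.exp (t • Z) : Matrix r r ℝ) k j := by
      funext t
      exact Matrix.mul_apply
    rw [e]
    have e2 : (A * Z) i j = ∑ k, A i k * (Z * NormedSpace.exp ((0 : ℝ) • Z)) k j := by
      rw [zero_smul, NormedSpace.exp_zero, Matrix.mul_one]
      exact Matrix.mul_apply
    rw [e2]
    exact HasDerivAt.fun_sum fun k _ => (hasDerivAt_entry Z 0 k j).const_mul _
  have h6 : (fun t : ℝ => ((NormedSpace.exp (t • Z) : Matrix r r ℝ) * A) i j) =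
      fun t : ℝ => (A * (NormedSpace.exp (t • Z) : Matrix r r ℝ)) i j := by
    funext t
    rw [h1 t]
  rw [h6] at h4
  exact h4.unique h5

/-- a trace zero matrix which commutes with all rotations vanishes -/
private lemma cf_zero (hr : 3 ≤ Fintype.card r) {A : Matrix r r ℝ}
    (h : ∀ g : RotG r, ((g : Matrix.orthogonalGroup r ℝ) : Matrix r r ℝ) * A *
      ((g : Matrix.orthogonalGroup r ℝ) : Matrix r r ℝ)ᵀ = A) (htr : A.trace = 0) : A = 0 := by
  have hc : ∀ i j : r, rz i j * A = A * rz i j := fun i j => cf_comm h (rz_skew i j)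
  have hL : ∀ i j a b : r, (rz i j * A) a b =
      (if a = i then A j b else 0) - (if a = j then A i b else 0) := by
    intro i j a b
    simp only [rz, Matrix.sub_mul, Matrix.sub_apply]
    congr 1
    · by_cases hai : a = i
      · subst hai
        simp
      · rw [if_neg hai, Matrix.single_mul_apply_of_ne (h := hai)]
    · by_cases hai : a = j
      · subst hai
        simp
      · rw [if_neg hai, Matrix.single_mul_apply_of_ne (h := hai)]
  have hR : ∀ i j a b : r, (A * rz i j) a b =
      (if b = j then A a i else 0) - (if b = i then A a j else 0) := by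
    intro i j a b
    simp only [rz, Matrix.mul_sub, Matrix.sub_apply]
    congr 1
    · by_cases hai : b = j
      · subst hai
        simp
      · rw [if_neg hai, Matrix.mul_single_apply_of_ne (hbj := hai)]
    · by_cases hai : b = i
      · subst hai
        simp
      · rw [if_neg hai, Matrix.mul_single_apply_of_ne (hbj := hai)]
  have hoff : ∀ a i : r, a ≠ i → A a i = 0 := by
    intro a i hai
    obtain ⟨j, hj⟩ : ∃ j : r, j ∉ ({a, i} : Finset r) := by
      by_contra hcon
      push Not at hcon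
      have h1 : (Finset.univ : Finset r) ⊆ {a, i} := fun j _ => hcon j
      have h2 := Finset.card_le_card h1
      rw [Finset.card_univ, Finset.card_pair hai] at h2
      omega
    simp only [Finset.mem_insert, Finset.mem_singleton, not_or] at hj
    have h1 := congrFun (congrFun (hc i j) a) j
    rw [hL, hR, if_neg hai, if_neg (Ne.symm hj.1), if_pos rfl, if_neg hj.2] at h1
    linarith
  have hdiag : ∀ i j : r, A i i = A j j := by
    intro i j
    by_cases hij : i = j
    · rw [hij]
    have h1 := congrFun (congrFun (hc i j) i) j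
    rw [hL, hR, if_pos rfl, if_neg hij, if_pos rfl, if_neg (Ne.symm hij)] at h1
    linarith
  have hd0 : ∀ i : r, A i i = 0 := by
    intro i
    have h1 : A.trace = Fintype.card r * A i i := by
      have h3 : A.trace = ∑ _j : r, A i i := Finset.sum_congr rfl fun j _ => hdiag j i
      rw [h3, Finset.sum_const, Finset.card_univ, nsmul_eq_mul]
    rw [htr] at h1
    have h2 : (Fintype.card r : ℝ) ≠ 0 := by
      have : 0 < Fintype.card r := by omega
      exact_mod_cast this.ne'
    exact (mul_eq_zero.1 h1.symm).resolve_left h2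
  ext a b
  by_cases hab : a = b
  · subst hab
    simpa using hd0 a
  · simpa using hoff a b hab

theorem cj_nofix (hr : 3 ≤ Fintype.card r) : (cjAct κ r).NoFix := by
  intro v hv
  have h1 : (jt v : Tup κ r) = 0 := by
    have h2 : ∀ l, mx l (jt v : Tup κ r) = 0 := by
      intro l
      refine cf_zero hr (fun g => ?_) (mem_TrZ.1 (jt_mem v) l)
      have h3 := jt_act g v
      rw [hv g] at h3
      have h4 := congrArg (mx l) h3
      rw [mx_cj] at h4
      exact h4.symm
    rw [← tup_mx (jt v : Tup κ r)]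
    ext p
    simp [h2]
  have h5 : ‖(jt v : Tup κ r)‖ = ‖v‖ := LinearIsometry.norm_map _ v
  rw [h1, norm_zero] at h5
  exact norm_eq_zero.1 h5.symm

end conj

end Pool.Agent.Lib.MP_6d896a_gt.CJ
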