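import Mathlib
import Pool.Agent.Lib.MP_6d896a_gt.CJ.Defs
import Pool.Agent.Lib.MP_6d896a_gt.OM.OrbitAlg

/-!
Project CJ, piece P6: operator norms and the gradient bound.
-/

set_option autoImplicit false
set_option linter.unusedSectionVars false

namespace Pool.Agent.Lib.MP_6d896a_gt.CJ

open MeasureTheory ProbabilityTheory Matrix Set Filter
open Pool.Agent.Lib.MP_6d896a_gt.OM Pool.Agent.Lib.MP_6d896a_gt.UC
open Pool.Agent.Lib.MP_6d896a_gt.UC.UR
open scoped ENNReal Topology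

section conj

variable {κ r : Type} [Fintype κ] [Fintype r] [DecidableEq r]

lemma opn_nonneg (A : Matrix r r ℝ) : 0 ≤ opn A := norm_nonneg _

lemma opn_mulVec (A : Matrix r r ℝ) (w : r → ℝ) :
    ∑ i, (A *ᵥ w) i ^ 2 ≤ opn A ^ 2 * ∑ i, w i ^ 2 := by
  have h := (Matrix.toEuclideanCLM (n := r) (𝕜 := ℝ) A).le_opNorm (WithLp.toLp 2 w)
  rw [Matrix.toEuclideanCLM_toLp] at h
  have h2 := pow_le_pow_left₀ (norm_nonneg _) h 2
  rw [mul_pow, EuclideanSpace.norm_sq_eq, EuclideanSpace.norm_sq_eq] at h2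
  simpa [opn, Real.norm_eq_abs, sq_abs] using h2

lemma opn_le_of (A : Matrix r r ℝ) {S : ℝ} (hS : 0 ≤ S)
    (h : ∀ w : r → ℝ, ∑ i, (A *ᵥ w) i ^ 2 ≤ S ^ 2 * ∑ i, w i ^ 2) : opn A ≤ S := by
  refine ContinuousLinearMap.opNorm_le_bound _ hS fun x => ?_
  have h1 := h (WithLp.ofLp x)
  refine (pow_le_pow_iff_left₀ (norm_nonneg _) (by positivity) (two_ne_zero)).1 ?_
  rw [mul_pow, EuclideanSpace.norm_sq_eq, EuclideanSpace.norm_sq_eq]
  simpa [Real.norm_eq_abs, sq_abs] using h1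

private lemma gr_orth_sq (u : Matrix.orthogonalGroup r ℝ) (w : r → ℝ) :
    ∑ i, ((u : Matrix r r ℝ) *ᵥ w) i ^ 2 = ∑ i, w i ^ 2 := by
  have e : ∀ v : r → ℝ, ∑ i, v i ^ 2 = v ⬝ᵥ v := fun v => by simp only [dotProduct, sq]
  rw [e, e, Matrix.dotProduct_mulVec, Matrix.vecMul_mulVec, orth_left]
  simp

private lemma gr_conj_le (u : Matrix.orthogonalGroup r ℝ) (A : Matrix r r ℝ) :
    opn ((u : Matrix r r ℝ) * A * (u : Matrix r r ℝ)ᵀ) ≤ opn A := by
  refine opn_le_of _ (opn_nonneg A) fun w => ?_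
  rw [← Matrix.mulVec_mulVec, ← Matrix.mulVec_mulVec, gr_orth_sq]
  refine (opn_mulVec A _).trans ?_
  rw [← coe_inv_orth, gr_orth_sq]

lemma opn_conj (u : Matrix.orthogonalGroup r ℝ) (A : Matrix r r ℝ) :
    opn ((u : Matrix r r ℝ) * A * (u : Matrix r r ℝ)ᵀ) = opn A := by
  refine le_antisymm (gr_conj_le u A) ?_
  have h := gr_conj_le u⁻¹ ((u : Matrix r r ℝ) * A * (u : Matrix r r ℝ)ᵀ)
  rw [coe_inv_orth, Matrix.transpose_transpose] at h
  have e : (u : Matrix r r ℝ)ᵀ * ((u : Matrix r r ℝ) * A * (u : Matrix r r ℝ)ᵀ) *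
      (u : Matrix r r ℝ) = A := by
    calc (u : Matrix r r ℝ)ᵀ * ((u : Matrix r r ℝ) * A * (u : Matrix r r ℝ)ᵀ) *
          (u : Matrix r r ℝ)
        = ((u : Matrix r r ℝ)ᵀ * (u : Matrix r r ℝ)) * A *
          ((u : Matrix r r ℝ)ᵀ * (u : Matrix r r ℝ)) := by simp only [Matrix.mul_assoc]
      _ = A := by rw [orth_left, Matrix.one_mul, Matrix.mul_one]
  rwa [e] at h

private lemma gr_transpose (A : Matrix r r ℝ) : opn Aᵀ = opn A := by
  unfold opn
  have h : Matrix.toEuclideanCLM (n := r) (𝕜 := ℝ) Aᵀ =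
      star (Matrix.toEuclideanCLM (n := r) (𝕜 := ℝ) A) := by
    rw [← map_star, Matrix.star_eq_conjTranspose, Matrix.conjTranspose_eq_transpose_of_trivial]
  rw [h, ContinuousLinearMap.star_eq_adjoint]
  exact LinearIsometryEquiv.norm_map _ _

/-- the matrix as a vector -/
private noncomputable def gr_vec (M : Matrix r r ℝ) : EuclideanSpace ℝ (r × r) :=
  WithLp.toLp 2 fun p => M p.1 p.2

private lemma gr_vec_sq (M : Matrix r r ℝ) : ‖gr_vec M‖ ^ 2 = ∑ i, ∑ j, M i j ^ 2 := by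
  rw [EuclideanSpace.norm_sq_eq, Fintype.sum_prod_type]
  simp [gr_vec, Real.norm_eq_abs, sq_abs]

private lemma gr_left (A B : Matrix r r ℝ) : ‖gr_vec (A * Bᵀ)‖ ≤ opn A * ‖gr_vec B‖ := by
  refine (pow_le_pow_iff_left₀ (norm_nonneg _)
    (mul_nonneg (opn_nonneg A) (norm_nonneg _)) (two_ne_zero)).1 ?_
  rw [mul_pow, gr_vec_sq, gr_vec_sq, Finset.sum_comm, Finset.mul_sum]
  refine Finset.sum_le_sum fun j _ => ?_
  have h := opn_mulVec A (fun k => B j k)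
  refine le_trans (le_of_eq ?_) h
  refine Finset.sum_congr rfl fun i _ => ?_
  simp [Matrix.mul_apply, Matrix.mulVec, dotProduct]

private lemma gr_right (A B : Matrix r r ℝ) : ‖gr_vec (Bᵀ * A)‖ ≤ opn A * ‖gr_vec B‖ := by
  refine (pow_le_pow_iff_left₀ (norm_nonneg _)
    (mul_nonneg (opn_nonneg A) (norm_nonneg _)) (two_ne_zero)).1 ?_
  rw [mul_pow, gr_vec_sq, gr_vec_sq, Finset.sum_comm (f := fun i j => B i j ^ 2), Finset.mul_sum]
  refine Finset.sum_le_sum fun i _ => ?_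
  have h := opn_mulVec Aᵀ (fun k => B k i)
  rw [gr_transpose] at h
  refine le_trans (le_of_eq ?_) h
  refine Finset.sum_congr rfl fun j _ => ?_
  congr 1
  simp only [Matrix.mul_apply, Matrix.mulVec, dotProduct, Matrix.transpose_apply]
  exact Finset.sum_congr rfl fun k _ => mul_comm _ _

private lemma gr_trace_rz (M : Matrix r r ℝ) (i j : r) :
    (rz i j * M).trace = M j i - M i j := by
  rw [rz, Matrix.sub_mul, Matrix.trace_sub, Matrix.trace_single_mul, Matrix.trace_single_mul,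
    one_smul, one_smul]

/-- the gradient bound -/
theorem cj_grad (A B : κ → Matrix r r ℝ) :
    ∑ i, ∑ j, (∑ l, ((B l)ᵀ * (rz i j * A l - A l * rz i j)).trace) ^ 2 ≤
      16 * (∑ l, opn (A l) ^ 2) * ∑ l, ((B l)ᵀ * B l).trace := by
  set Y : Matrix r r ℝ := ∑ l, (A l * (B l)ᵀ - (B l)ᵀ * A l) with hY
  have h1 : ∀ i j : r, ∑ l, ((B l)ᵀ * (rz i j * A l - A l * rz i j)).trace = Y j i - Y i j := by
    intro i j
    rw [hY, Matrix.sum_apply, Matrix.sum_apply, ← Finset.sum_sub_distrib]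
    refine Finset.sum_congr rfl fun l _ => ?_
    rw [← gr_trace_rz (A l * (B l)ᵀ - (B l)ᵀ * A l) i j, Matrix.mul_sub, Matrix.mul_sub,
      Matrix.trace_sub, Matrix.trace_sub]
    congr 1
    · rw [Matrix.trace_mul_comm, Matrix.mul_assoc]
    · rw [← Matrix.mul_assoc, Matrix.trace_mul_comm]
  have h2 : ∑ i, ∑ j, (∑ l, ((B l)ᵀ * (rz i j * A l - A l * rz i j)).trace) ^ 2 ≤
      4 * ‖gr_vec Y‖ ^ 2 := by
    calc ∑ i, ∑ j, (∑ l, ((B l)ᵀ * (rz i j * A l - A l * rz i j)).trace) ^ 2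
        = ∑ i, ∑ j, (Y j i - Y i j) ^ 2 :=
          Finset.sum_congr rfl fun i _ => Finset.sum_congr rfl fun j _ => by rw [h1]
      _ ≤ ∑ i, ∑ j, (2 * Y j i ^ 2 + 2 * Y i j ^ 2) :=
          Finset.sum_le_sum fun i _ => Finset.sum_le_sum fun j _ => by
            nlinarith [sq_nonneg (Y j i + Y i j)]
      _ = 4 * ‖gr_vec Y‖ ^ 2 := by
          rw [gr_vec_sq]
          simp only [Finset.sum_add_distrib, ← Finset.mul_sum]
          rw [Finset.sum_comm (f := fun i j => Y j i ^ 2)]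
          ring
  have h3 : ‖gr_vec Y‖ ≤ ∑ l, 2 * (opn (A l) * ‖gr_vec (B l)‖) := by
    have e : gr_vec Y = ∑ l, (gr_vec (A l * (B l)ᵀ) - gr_vec ((B l)ᵀ * A l)) := by
      ext p
      simp [gr_vec, hY, Matrix.sum_apply]
    rw [e]
    refine (norm_sum_le _ _).trans (Finset.sum_le_sum fun l _ => ?_)
    refine (norm_sub_le _ _).trans ?_
    have := gr_left (A l) (B l)
    have := gr_right (A l) (B l)
    linarith
  have h4 : (∑ l, opn (A l) * ‖gr_vec (B l)‖) ^ 2 ≤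
      (∑ l, opn (A l) ^ 2) * ∑ l, ‖gr_vec (B l)‖ ^ 2 :=
    Finset.sum_mul_sq_le_sq_mul_sq _ _ _
  have h5 : ∑ l, ‖gr_vec (B l)‖ ^ 2 = ∑ l, ((B l)ᵀ * B l).trace := by
    refine Finset.sum_congr rfl fun l _ => ?_
    rw [gr_vec_sq, Finset.sum_comm, Matrix.trace]
    refine Finset.sum_congr rfl fun j _ => ?_
    simp [Matrix.mul_apply, sq]
  have h6 : ‖gr_vec Y‖ ^ 2 ≤ (2 * ∑ l, opn (A l) * ‖gr_vec (B l)‖) ^ 2 := by
    refine pow_le_pow_left₀ (norm_nonneg _) ?_ 2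
    rw [Finset.mul_sum]
    exact h3
  rw [← h5]
  nlinarith

end conj

end Pool.Agent.Lib.MP_6d896a_gt.CJ
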