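import Mathlib
import Pool.Agent.Lib.MP_6d896a_gt.OM.Orbit

/-!
Project CJ (conjugation invariant matrices): the Poincare inequality on the group of rotations.
-/

set_option autoImplicit false
set_option linter.unusedSectionVars false

namespace Pool.Agent.Lib.MP_6d896a_gt.CJ

open MeasureTheory ProbabilityTheory Matrix Set Filter
open Pool.Agent.Lib.MP_6d896a_gt.OM
open scoped ENNReal Topology

variable {r ι : Type} [Fintype r] [Fintype ι] [DecidableEq r] [DecidableEq ι]

/-- Poincare inequality on the orbits -/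
theorem orbit_L2 (hr : 3 ≤ Fintype.card r)
    {μ : Measure (EuclideanSpace ℝ (r × ι))} [IsProbabilityMeasure μ]
    (hinv : MInv μ) {ρ : ℝ} (hρ : ∀ᵐ x ∂μ, ‖x‖ ≤ ρ)
    {f g : EuclideanSpace ℝ (r × ι) → ℝ} (hf : ContDiff ℝ 1 f)
    (hg : Continuous g) (hginv : RInv g)
    (hfg : ∀ h : EuclideanSpace ℝ (r × ι) → ℝ, Continuous h → RInv h →
      ∫ x, (f x - g x) * h x ∂μ = 0) :
    ∫ x, (f x - g x) ^ 2 ∂μ ≤ 1 / ((Fintype.card r : ℝ) - 2) *
      ∫ x, ∑ i, ∑ j, (fderiv ℝ f x (act (rz i j) x)) ^ 2 ∂μ := by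
  have hγ : (0 : ℝ) < (Fintype.card r : ℝ) - 2 := by
    have : (3 : ℝ) ≤ (Fintype.card r : ℝ) := by exact_mod_cast hr
    linarith
  set γ : ℝ := (Fintype.card r : ℝ) - 2 with hγd
  have hgap : ∀ B : MvPolynomial (r × ι) ℝ →ₗ[ℝ] MvPolynomial (r × ι) ℝ →ₗ[ℝ] ℝ,
      (∀ p q, B p q = B q p) → (∀ p, 0 ≤ B p p) →
      (∀ (i j : r) p q, B (DZ (rz i j) p) q = - B p (DZ (rz i j) q)) →
      ∀ p, γ * ∑ i, ∑ j, B (DZ (rz i j) p) (DZ (rz i j) p) ≤ B (CasM p) (CasM p) := by
    intro B hsymm hpos hanti p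
    have h := poly_gap B hsymm hpos (fun i j p q => by rw [Dr_eq_DZ]; exact hanti i j p q) p
    simp only [Dr_eq_DZ] at h
    rw [CasM_apply]
    exact h
  have hfc : Continuous f := hf.continuous
  set u : EuclideanSpace ℝ (r × ι) → ℝ := fun x => f x - g x with hu
  have cu : Continuous u := hfc.sub hg
  have hanti : ∀ (i j : r) (p q : MvPolynomial (r × ι) ℝ),
      Bf μ hρ (DZ (rz i j) p) q = - Bf μ hρ p (DZ (rz i j) q) :=
    fun i j p q => Bf_anti hinv hρ (rz_skew i j) p q
  have hsymm : ∀ p q : MvPolynomial (r × ι) ℝ, Bf μ hρ p q = Bf μ hρ q p := by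
    intro p q
    rw [Bf_apply, Bf_apply]
    refine integral_congr_ae (Eventually.of_forall fun x => ?_)
    exact mul_comm _ _
  have hpos : ∀ p : MvPolynomial (r × ι) ℝ, 0 ≤ Bf μ hρ p p := by
    intro p
    rw [Bf_apply]
    exact integral_nonneg fun x => mul_self_nonneg _
  have hF0 : ∀ p : MvPolynomial (r × ι) ℝ, (∀ i j, DZ (rz i j) p = 0) → Ff μ hρ cu p = 0 := by
    intro p hp
    rw [Ff_apply]
    exact hfg _ (continuous_pe p) (pe_inv hp)
  have hfd : ∀ Z : Matrix r r ℝ, Continuous fun x : EuclideanSpace ℝ (r × ι) =>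
      fderiv ℝ f x (act Z x) := by
    intro Z
    exact (hf.continuous_fderiv (by norm_num)).clm_apply (continuous_act_fix Z)
  have hDc : Continuous fun x : EuclideanSpace ℝ (r × ι) =>
      ∑ i, ∑ j, (fderiv ℝ f x (act (rz i j) x)) ^ 2 :=
    continuous_finsetSum _ fun i _ => continuous_finsetSum _ fun j _ => (hfd (rz i j)).pow 2
  set D : ℝ := ∫ x, ∑ i, ∑ j, (fderiv ℝ f x (act (rz i j) x)) ^ 2 ∂μ with hD
  have hD0 : 0 ≤ D := integral_nonneg fun x =>
    Finset.sum_nonneg fun i _ => Finset.sum_nonneg fun j _ => sq_nonneg _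
  have hF : ∀ p : MvPolynomial (r × ι) ℝ, (Ff μ hρ cu (CasM p)) ^ 2 ≤
      (√D) ^ 2 * ∑ i, ∑ j, Bf μ hρ (DZ (rz i j) p) (DZ (rz i j) p) := by
    intro p
    rw [Real.sq_sqrt hD0]
    have h1 : ∀ i j, Ff μ hρ cu (DZ (rz i j) (DZ (rz i j) p)) =
        - ∫ x, fderiv ℝ f x (act (rz i j) x) * pe (DZ (rz i j) p) x ∂μ := by
      intro i j
      have h := flow_ibp hinv hρ (rz_skew i j) hfc (hfd (rz i j))
        (continuous_pe (DZ (rz i j) p)) (continuous_pe (DZ (rz i j) (DZ (rz i j) p))) hg hginv
        (fun x t => hasDerivAt_smooth (rz i j) hf x t)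
        (fun x t => hasDerivAt_pe (rz i j) (DZ (rz i j) p) x t)
      have c1 := hfd (rz i j)
      have c2 := continuous_pe (DZ (rz i j) p)
      have c3 := continuous_pe (DZ (rz i j) (DZ (rz i j) p))
      rw [integral_add (integrable_cont hρ (by fun_prop)) (integrable_cont hρ (by fun_prop))] at h
      rw [Ff_apply]
      simp only [hu]
      linarith
    have hcont : ∀ i j, Continuous fun x : EuclideanSpace ℝ (r × ι) =>
        fderiv ℝ f x (act (rz i j) x) * pe (DZ (rz i j) p) x :=
      fun i j => (hfd (rz i j)).mul (continuous_pe _)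
    have hscont : Continuous fun x : EuclideanSpace ℝ (r × ι) =>
        ∑ i, ∑ j, fderiv ℝ f x (act (rz i j) x) * pe (DZ (rz i j) p) x :=
      continuous_finsetSum _ fun i _ => continuous_finsetSum _ fun j _ => hcont i j
    have h2 : Ff μ hρ cu (CasM p) =
        - ∫ x, ∑ i, ∑ j, fderiv ℝ f x (act (rz i j) x) * pe (DZ (rz i j) p) x ∂μ := by
      rw [CasM_apply, map_sum, integral_finsetSum _ (fun i _ =>
        integrable_cont hρ (continuous_finsetSum _ fun j _ => hcont i j)),
        ← Finset.sum_neg_distrib]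
      refine Finset.sum_congr rfl fun i _ => ?_
      rw [map_sum, integral_finsetSum _ (fun j _ => integrable_cont hρ (hcont i j)),
        ← Finset.sum_neg_distrib]
      exact Finset.sum_congr rfl fun j _ => h1 i j
    have hbc : ∀ i j, Continuous fun x : EuclideanSpace ℝ (r × ι) =>
        pe (DZ (rz i j) p) x * pe (DZ (rz i j) p) x :=
      fun i j => (continuous_pe _).mul (continuous_pe _)
    have hEc : Continuous fun x : EuclideanSpace ℝ (r × ι) =>
        ∑ i, ∑ j, pe (DZ (rz i j) p) x * pe (DZ (rz i j) p) x :=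
      continuous_finsetSum _ fun i _ => continuous_finsetSum _ fun j _ => hbc i j
    have h3 : ∑ i, ∑ j, Bf μ hρ (DZ (rz i j) p) (DZ (rz i j) p) =
        ∫ x, ∑ i, ∑ j, pe (DZ (rz i j) p) x * pe (DZ (rz i j) p) x ∂μ := by
      rw [integral_finsetSum _ (fun i _ =>
        integrable_cont hρ (continuous_finsetSum _ fun j _ => hbc i j))]
      refine Finset.sum_congr rfl fun i _ => ?_
      rw [integral_finsetSum _ (fun j _ => integrable_cont hρ (hbc i j))]
      rfl
    rw [h2, neg_sq, h3]
    set E : ℝ := ∫ x, ∑ i, ∑ j, pe (DZ (rz i j) p) x * pe (DZ (rz i j) p) x ∂μ with hE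
    have hE0 : 0 ≤ E := integral_nonneg fun x =>
      Finset.sum_nonneg fun i _ => Finset.sum_nonneg fun j _ => mul_self_nonneg _
    set X : ℝ := ∫ x, ∑ i, ∑ j, fderiv ℝ f x (act (rz i j) x) * pe (DZ (rz i j) p) x ∂μ with hX
    -- discriminant
    have hq : ∀ t : ℝ, 0 ≤ D * (t * t) + (2 * X) * t + E := by
      intro t
      have e : D * (t * t) + (2 * X) * t + E = ∫ x, ∑ i, ∑ j,
          (t * fderiv ℝ f x (act (rz i j) x) + pe (DZ (rz i j) p) x) ^ 2 ∂μ := by
        have e1 : ∀ x : EuclideanSpace ℝ (r × ι), ∑ i, ∑ j,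
            (t * fderiv ℝ f x (act (rz i j) x) + pe (DZ (rz i j) p) x) ^ 2 =
            t * t * (∑ i, ∑ j, (fderiv ℝ f x (act (rz i j) x)) ^ 2) +
              2 * t * (∑ i, ∑ j, fderiv ℝ f x (act (rz i j) x) * pe (DZ (rz i j) p) x) +
              ∑ i, ∑ j, pe (DZ (rz i j) p) x * pe (DZ (rz i j) p) x := by
          intro x
          simp only [Finset.mul_sum]
          rw [← Finset.sum_add_distrib, ← Finset.sum_add_distrib]
          refine Finset.sum_congr rfl fun i _ => ?_
          rw [← Finset.sum_add_distrib, ← Finset.sum_add_distrib]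
          refine Finset.sum_congr rfl fun j _ => ?_
          ring
        simp only [e1]
        have i1 := integrable_cont hρ (hDc.const_mul (t * t))
        have i2 := integrable_cont hρ (hscont.const_mul (2 * t))
        have i3 := integrable_cont hρ hEc
        have i12 : Integrable (fun x : EuclideanSpace ℝ (r × ι) =>
            t * t * (∑ i, ∑ j, (fderiv ℝ f x (act (rz i j) x)) ^ 2) +
              2 * t * (∑ i, ∑ j, fderiv ℝ f x (act (rz i j) x) * pe (DZ (rz i j) p) x)) μ :=
          i1.add i2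
        rw [integral_add i12 i3, integral_add i1 i2, integral_const_mul,
          integral_const_mul]
        ring
      rw [e]
      exact integral_nonneg fun x =>
        Finset.sum_nonneg fun i _ => Finset.sum_nonneg fun j _ => sq_nonneg _
    have h5 := discrim_le_zero hq
    unfold discrim at h5
    nlinarith
  have hdual := duality hpos hsymm hanti (Ff μ hρ cu) hF0 (hgap _ hsymm hpos hanti) hF
  rw [Real.sq_sqrt hD0] at hdual
  -- limit
  set A : ℝ := ∫ x, u x ^ 2 ∂μ with hA
  have hA0 : 0 ≤ A := integral_nonneg fun x => sq_nonneg _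
  set K : ℝ := ∫ x, |u x| ∂μ with hK
  have hK0 : 0 ≤ K := integral_nonneg fun x => abs_nonneg _
  have hε : ∀ ε : ℝ, 0 < ε → γ * (max (A - ε * K) 0) ^ 2 ≤
      D * (A + 2 * ε * K + ε ^ 2) := by
    intro ε hε
    obtain ⟨p, hp⟩ := pe_dense cu ρ hε
    have cp := continuous_pe p
    have h1 : A - ε * K ≤ ∫ x, u x * pe p x ∂μ := by
      rw [hA, hK, ← integral_const_mul,
        ← integral_sub (integrable_cont hρ (by fun_prop)) (integrable_cont hρ (by fun_prop))]
      refine integral_mono_ae (integrable_cont hρ (by fun_prop))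
        (integrable_cont hρ (by fun_prop)) ?_
      filter_upwards [hρ] with x hx
      have h2 := (hp x hx).le
      have h3 : |u x * (pe p x - u x)| ≤ |u x| * ε := by
        rw [abs_mul]; exact mul_le_mul_of_nonneg_left h2 (abs_nonneg _)
      have h4 := neg_abs_le (u x * (pe p x - u x))
      nlinarith
    have h2 : ∫ x, pe p x * pe p x ∂μ ≤ A + 2 * ε * K + ε ^ 2 := by
      have h3 : ∫ x, pe p x * pe p x ∂μ ≤ ∫ x, (u x ^ 2 + 2 * ε * |u x|) + ε ^ 2 ∂μ := by
        refine integral_mono_ae (integrable_cont hρ (by fun_prop))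
          (integrable_cont hρ (by fun_prop)) ?_
        filter_upwards [hρ] with x hx
        have h2 := (hp x hx).le
        have h3 : |pe p x| ≤ |u x| + ε := by
          have : pe p x = u x + (pe p x - u x) := by ring
          rw [this]
          exact (abs_add_le _ _).trans (by linarith)
        have h4 : pe p x * pe p x = |pe p x| ^ 2 := by rw [sq_abs, sq]
        rw [h4, ← sq_abs (u x)]
        nlinarith [abs_nonneg (pe p x), abs_nonneg (u x)]
      refine h3.trans (le_of_eq ?_)
      rw [integral_add (integrable_cont hρ (by fun_prop)) (integrable_const _),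
        integral_add (integrable_cont hρ (by fun_prop)) (integrable_cont hρ (by fun_prop)),
        integral_const_mul, integral_const]
      simp [hA, hK]
    have h3 := hdual p
    rw [Ff_apply, Bf_apply] at h3
    have h4 : (max (A - ε * K) 0) ^ 2 ≤ (∫ x, u x * pe p x ∂μ) ^ 2 := by
      rcases le_total (A - ε * K) 0 with h | h
      · rw [max_eq_right h]; simpa using sq_nonneg _
      · rw [max_eq_left h]
        exact pow_le_pow_left₀ h h1 2
    calc γ * (max (A - ε * K) 0) ^ 2 ≤ γ * (∫ x, u x * pe p x ∂μ) ^ 2 :=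
          mul_le_mul_of_nonneg_left h4 hγ.le
      _ ≤ D * ∫ x, pe p x * pe p x ∂μ := h3
      _ ≤ D * (A + 2 * ε * K + ε ^ 2) :=
          mul_le_mul_of_nonneg_left h2 hD0
  have hlim : γ * (max (A - 0 * K) 0) ^ 2 ≤ D * (A + 2 * 0 * K + 0 ^ 2) := by
    have c1 : Continuous fun ε : ℝ => γ * (max (A - ε * K) 0) ^ 2 := by fun_prop
    have c2 : Continuous fun ε : ℝ => D * (A + 2 * ε * K + ε ^ 2) := by fun_prop
    refine le_of_tendsto_of_tendsto (b := 𝓝[>] (0 : ℝ))
      ((c1.tendsto 0).mono_left nhdsWithin_le_nhds)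
      ((c2.tendsto 0).mono_left nhdsWithin_le_nhds) ?_
    filter_upwards [self_mem_nhdsWithin] with ε hε' using hε ε hε'
  have hfin : γ * A ^ 2 ≤ D * A := by
    have e1 : max (A - 0 * K) 0 = A := by rw [zero_mul, sub_zero]; exact max_eq_left hA0
    rw [e1] at hlim
    nlinarith
  rw [one_div, ← div_eq_inv_mul, le_div_iff₀ hγ]
  rcases hA0.eq_or_lt with h | h
  · rw [← h, zero_mul]; exact hD0
  · have : A * (A * γ) ≤ A * D := by nlinarith
    exact le_of_mul_le_mul_left this h

/-- the law of a random rotation -/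
noncomputable def lawG (r : Type) [Fintype r] [DecidableEq r] :
    Measure (EuclideanSpace ℝ (r × r)) :=
  (haarG r).map fun u : RotG r => act ((u : Matrix.orthogonalGroup r ℝ) : Matrix r r ℝ) (me 1)

lemma continuous_actme : Continuous fun u : RotG r =>
    act ((u : Matrix.orthogonalGroup r ℝ) : Matrix r r ℝ) (me (1 : Matrix r r ℝ)) := by
  have h : Continuous fun u : RotG r => ((u, me 1) : RotG r × EuclideanSpace ℝ (r × r)) := by
    fun_prop
  exact continuous_actG.comp h

lemma lawG_prob : IsProbabilityMeasure (lawG r) :=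
  Measure.isProbabilityMeasure_map continuous_actme.measurable.aemeasurable

lemma lawG_MInv : MInv (lawG r) := by
  intro v hv
  have hm : Measurable (act (v : Matrix r r ℝ) : EuclideanSpace ℝ (r × r) → _) :=
    (continuous_act_fix _).measurable
  unfold lawG
  rw [Measure.map_map hm continuous_actme.measurable]
  have h1 : (act (v : Matrix r r ℝ) ∘ fun u : RotG r =>
      act ((u : Matrix.orthogonalGroup r ℝ) : Matrix r r ℝ) (me (1 : Matrix r r ℝ))) =
      (fun u : RotG r => act ((u : Matrix.orthogonalGroup r ℝ) : Matrix r r ℝ)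
        (me (1 : Matrix r r ℝ))) ∘
        (fun u : RotG r => (⟨v, hv⟩ : RotG r) * u) := by
    funext u
    simp only [Function.comp_apply, Subgroup.coe_mul, Submonoid.coe_mul]
    rw [act_mul]
  rw [h1, ← Measure.map_map continuous_actme.measurable (measurable_const_mul _),
    map_mul_left_eq_self]

/-- Poincare inequality on the group of rotations -/
theorem rot_poinc (hr : 3 ≤ Fintype.card r) {h : EuclideanSpace ℝ (r × r) → ℝ}
    (hh : ContDiff ℝ 1 h) :
    ∫ u : RotG r, h (me ((u : Matrix.orthogonalGroup r ℝ) : Matrix r r ℝ)) ^ 2 ∂(haarG r) -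
      (∫ u : RotG r, h (me ((u : Matrix.orthogonalGroup r ℝ) : Matrix r r ℝ)) ∂(haarG r)) ^ 2 ≤
    1 / ((Fintype.card r : ℝ) - 2) * ∫ u : RotG r, ∑ i, ∑ j,
      (fderiv ℝ h (me ((u : Matrix.orthogonalGroup r ℝ) : Matrix r r ℝ))
        (me (rz i j * ((u : Matrix.orthogonalGroup r ℝ) : Matrix r r ℝ)))) ^ 2 ∂(haarG r) := by
  have hprob : IsProbabilityMeasure (lawG r) := lawG_prob
  have hmu : ∀ u : RotG r, act ((u : Matrix.orthogonalGroup r ℝ) : Matrix r r ℝ)
      (me (1 : Matrix r r ℝ)) = me ((u : Matrix.orthogonalGroup r ℝ) : Matrix r r ℝ) := by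
    intro u
    rw [act_def, mt_me, Matrix.mul_one]
  have hint : ∀ F : EuclideanSpace ℝ (r × r) → ℝ, Continuous F → ∫ x, F x ∂(lawG r) =
      ∫ u : RotG r, F (me ((u : Matrix.orthogonalGroup r ℝ) : Matrix r r ℝ)) ∂(haarG r) := by
    intro F hF
    unfold lawG
    rw [integral_map continuous_actme.measurable.aemeasurable hF.aestronglyMeasurable]
    simp only [hmu]
  have hae : ∀ᵐ x ∂(lawG r), ∃ u : RotG r, x = act ((u : Matrix.orthogonalGroup r ℝ) :
      Matrix r r ℝ) (me 1) := by
    unfold lawG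
    refine (ae_map_iff continuous_actme.measurable.aemeasurable ?_).2
      (Eventually.of_forall fun u => ⟨u, rfl⟩)
    have : {x : EuclideanSpace ℝ (r × r) | ∃ u : RotG r, x =
        act ((u : Matrix.orthogonalGroup r ℝ) : Matrix r r ℝ) (me 1)} =
        Set.range fun u : RotG r =>
          act ((u : Matrix.orthogonalGroup r ℝ) : Matrix r r ℝ) (me 1) := by
      ext x
      simp [eq_comm]
    rw [this]
    exact (isCompact_range continuous_actme).isClosed.measurableSet
  have hρ : ∀ᵐ x ∂(lawG r), ‖x‖ ≤ ‖(me 1 : EuclideanSpace ℝ (r × r))‖ := by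
    filter_upwards [hae] with x hx
    obtain ⟨u, rfl⟩ := hx
    rw [norm_act]
  set c : ℝ := ∫ x, h x ∂(lawG r) with hc
  have hcint : ∀ F : EuclideanSpace ℝ (r × r) → ℝ, Continuous F → Integrable F (lawG r) :=
    fun F hF => integrable_cont hρ hF
  have hmain := orbit_L2 hr (lawG_MInv (r := r)) hρ hh (g := fun _ => c) continuous_const
    (fun _ _ _ => rfl) (by
      intro k hk hkinv
      have h1 : ∫ x, (h x - c) * k x ∂(lawG r) = ∫ x, (h x - c) * k (me 1) ∂(lawG r) := by
        refine integral_congr_ae ?_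
        filter_upwards [hae] with x hx
        obtain ⟨u, rfl⟩ := hx
        simp only [hkinv _ u.2]
      rw [h1, integral_mul_const, integral_sub (hcint h hh.continuous) (integrable_const _)]
      simp [hc])
  have e1 : ∫ x, (h x - c) ^ 2 ∂(lawG r) = ∫ x, h x ^ 2 ∂(lawG r) - c ^ 2 := by
    have e : ∀ x, (h x - c) ^ 2 = (h x ^ 2 - 2 * c * h x) + c ^ 2 := fun x => by ring
    have hhc := hh.continuous
    simp_rw [e]
    rw [integral_add (hcint _ (by fun_prop)) (integrable_const _),
      integral_sub (hcint _ (by fun_prop)) (hcint _ (by fun_prop)), integral_const_mul, ← hc]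
    simp
    ring
  have hact : ∀ (i j : r) (u : RotG r), (act (rz i j)
      (me ((u : Matrix.orthogonalGroup r ℝ) : Matrix r r ℝ)) : EuclideanSpace ℝ (r × r)) =
      me (rz i j * ((u : Matrix.orthogonalGroup r ℝ) : Matrix r r ℝ)) := by
    intro i j u
    rw [act_def, mt_me]
  rw [e1, hc, hint (fun x => h x ^ 2) (hh.continuous.pow 2), hint _ hh.continuous, hint] at hmain
  · simpa only [hact] using hmain
  · refine continuous_finsetSum _ fun i _ => continuous_finsetSum _ fun j _ => ?_
    exact ((hh.continuous_fderiv (by norm_num)).clm_apply (continuous_act_fix _)).pow 2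

end Pool.Agent.Lib.MP_6d896a_gt.CJ
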