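import Mathlib
import Pool.Agent.Lib.MP_6d896a_gt.CJ.Defs
import Pool.Agent.Lib.MP_6d896a_gt.CJ.RotPoinc
import Pool.Agent.Lib.MP_6d896a_gt.CJ.Grad

/-!
Project CJ: Poincare inequality on the orbits of the conjugation action on tuples of trace zero
matrices.
-/

set_option autoImplicit false
set_option linter.unusedSectionVars false

namespace Pool.Agent.Lib.MP_6d896a_gt.CJ

open MeasureTheory ProbabilityTheory Matrix Set Filter
open Pool.Agent.Lib.MP_6d896a_gt.OM Pool.Agent.Lib.MP_6d896a_gt.UC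
open Pool.Agent.Lib.MP_6d896a_gt.UC.UR
open scoped ENNReal Topology

section conj

variable {κ r : Type} [Fintype κ] [Fintype r] [DecidableEq r]

/-- the quadratic map `X ↦ (Xᵀ A_l X)_l` -/
private noncomputable def cjop_Q (A : κ → Matrix r r ℝ) (X : EuclideanSpace ℝ (r × r)) :
    Tup κ r := tup fun l => (mt X)ᵀ * A l * mt X

private lemma cjop_Q_cd (A : κ → Matrix r r ℝ) : ContDiff ℝ 1 (cjop_Q A) := by
  have h : cjop_Q A = fun X : EuclideanSpace ℝ (r × r) => WithLp.toLp 2
      (fun p : κ × r × r => ∑ b, (∑ a, X (a, p.2.1) * A p.1 a b) * X (b, p.2.2)) := by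
    funext X
    ext p
    simp [cjop_Q, Matrix.mul_apply]
  rw [h]
  refine (PiLp.contDiff_toLp).comp (contDiff_pi.2 fun p => ?_)
  have hc : ∀ q : r × r, ContDiff ℝ 1 fun X : EuclideanSpace ℝ (r × r) => X q := fun q =>
    (EuclideanSpace.proj (𝕜 := ℝ) q).contDiff
  refine ContDiff.sum fun b _ => ContDiff.mul (ContDiff.sum fun a _ => ?_) (hc _)
  exact (hc _).mul contDiff_const

private lemma cjop_Q_line (A : κ → Matrix r r ℝ) (U Z : Matrix r r ℝ) (hZ : Zᵀ = -Z) (t : ℝ) :
    cjop_Q A (me U + t • me (Z * U)) =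
      (tup fun l => Uᵀ * A l * U) + t • (tup fun l => Uᵀ * (A l * Z - Z * A l) * U) -
        t ^ 2 • tup fun l => Uᵀ * (Z * A l * Z) * U := by
  have e : ∀ l, (mt (me U + t • me (Z * U)))ᵀ * A l * mt (me U + t • me (Z * U)) =
      Uᵀ * A l * U + t • (Uᵀ * (A l * Z - Z * A l) * U) - t ^ 2 • (Uᵀ * (Z * A l * Z) * U) := by
    intro l
    rw [map_add, map_smul, mt_me, mt_me, Matrix.transpose_add, Matrix.transpose_smul,
      Matrix.transpose_mul, hZ]
    simp only [Matrix.add_mul, Matrix.mul_add, Matrix.mul_sub, Matrix.sub_mul, Matrix.smul_mul,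
      Matrix.mul_smul, Matrix.mul_neg, Matrix.neg_mul, smul_sub, smul_neg, Matrix.mul_assoc,
      smul_smul, smul_add]
    rw [sq]
    abel
  ext p
  simp only [cjop_Q, tup_apply, PiLp.add_apply, PiLp.sub_apply, PiLp.smul_apply, smul_eq_mul]
  rw [e]
  simp

private lemma cjop_Q_deriv (A : κ → Matrix r r ℝ) (U Z : Matrix r r ℝ) (hZ : Zᵀ = -Z) :
    fderiv ℝ (cjop_Q A) (me U) (me (Z * U)) = tup fun l => Uᵀ * (A l * Z - Z * A l) * U := by
  have h1 : HasFDerivAt (cjop_Q A) (fderiv ℝ (cjop_Q A) (me U)) (me U) :=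
    ((cjop_Q_cd A).differentiable (by norm_num) _).hasFDerivAt
  have h2 : HasDerivAt (fun t : ℝ => (me U + t • me (Z * U) : EuclideanSpace ℝ (r × r)))
      (me (Z * U)) 0 := by
    have := ((hasDerivAt_id (0 : ℝ)).smul_const (me (Z * U) : EuclideanSpace ℝ (r × r))).const_add
      (me U)
    simpa using this
  have h3 : HasDerivAt (fun t : ℝ => cjop_Q A (me U + t • me (Z * U)))
      (fderiv ℝ (cjop_Q A) (me U) (me (Z * U))) 0 := by
    have h1' : HasFDerivAt (cjop_Q A) (fderiv ℝ (cjop_Q A) (me U))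
        (me U + (0 : ℝ) • me (Z * U)) := by
      rw [zero_smul, add_zero]; exact h1
    exact h1'.comp_hasDerivAt (0 : ℝ) h2
  have h4 : HasDerivAt (fun t : ℝ => cjop_Q A (me U + t • me (Z * U)))
      (tup fun l => Uᵀ * (A l * Z - Z * A l) * U) 0 := by
    have e : (fun t : ℝ => cjop_Q A (me U + t • me (Z * U))) = fun t : ℝ =>
        (tup fun l => Uᵀ * A l * U) + t • (tup fun l => Uᵀ * (A l * Z - Z * A l) * U) -
        t ^ 2 • tup fun l => Uᵀ * (Z * A l * Z) * U := by
      funext t; exact cjop_Q_line A U Z hZ t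
    rw [e]
    generalize (tup fun l => Uᵀ * A l * U : Tup κ r) = a
    generalize (tup fun l => Uᵀ * (A l * Z - Z * A l) * U : Tup κ r) = b
    generalize (tup fun l => Uᵀ * (Z * A l * Z) * U : Tup κ r) = c
    have h5 : HasDerivAt (fun t : ℝ => a + t • b) ((1 : ℝ) • b) 0 :=
      ((hasDerivAt_id' (0 : ℝ)).smul_const b).const_add a
    have h6 : HasDerivAt (fun t : ℝ => t ^ 2 • c) ((2 * (0 : ℝ) ^ 1) • c) 0 := by
      have := (hasDerivAt_pow 2 (0 : ℝ)).smul_const c
      simpa using this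
    have h7 := h5.sub h6
    rw [pow_one, mul_zero, zero_smul, sub_zero, one_smul] at h7
    exact h7
  exact h3.unique h4

private lemma cjop_inv_cont {N : ℕ} (R : Act r N) (x : Eu N) :
    Continuous fun u : RotG r => R.ρ u⁻¹ x := by
  have h1 : Continuous fun u : RotG r => ((u⁻¹, x) : RotG r × Eu N) :=
    (continuous_inv).prodMk continuous_const
  exact R.cont.comp h1

private lemma cjop_int {F : RotG r → ℝ} (hF : Continuous F) : Integrable F (haarG r) :=
  hF.integrable_of_hasCompactSupport (HasCompactSupport.of_compactSpace _)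

/-- the adjoint of the embedding -/
private noncomputable def cjop_P (κ r : Type) [Fintype κ] [Fintype r] :
    Tup κ r →L[ℝ] Eu (dW κ r) :=
  ContinuousLinearMap.adjoint (jt : Eu (dW κ r) →ₗᵢ[ℝ] Tup κ r).toContinuousLinearMap

private lemma cjop_P_inner (z : Tup κ r) (y : Eu (dW κ r)) :
    inner ℝ y (cjop_P κ r z) = inner ℝ (jt y) z :=
  ContinuousLinearMap.adjoint_inner_right _ _ _

private lemma cjop_P_jt (y : Eu (dW κ r)) : cjop_P κ r (jt y) = y := by
  refine ext_inner_left ℝ fun v => ?_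
  rw [cjop_P_inner, LinearIsometry.inner_map_map]

theorem cj_OP (hr : 3 ≤ Fintype.card r) : (cjAct κ r).OP (cW κ r) := by
  intro f hf x
  have hγ : (0 : ℝ) < (Fintype.card r : ℝ) - 2 := by
    have : (3 : ℝ) ≤ (Fintype.card r : ℝ) := by exact_mod_cast hr
    linarith
  set A : κ → Matrix r r ℝ := fun l => mx l (jt x) with hA
  set h : EuclideanSpace ℝ (r × r) → ℝ := fun X => f (cjop_P κ r (cjop_Q A X)) with hh
  have hf1 : ContDiff ℝ 1 f := hf.cd.of_le (by exact_mod_cast le_top)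
  have hcd : ContDiff ℝ 1 h := hf1.comp ((cjop_P κ r).contDiff.comp (cjop_Q_cd A))
  -- values on the group
  have hval : ∀ u : RotG r, cjop_P κ r (cjop_Q A
      (me ((u : Matrix.orthogonalGroup r ℝ) : Matrix r r ℝ))) = (cjAct κ r).ρ u⁻¹ x := by
    intro u
    rw [← cjop_P_jt ((cjAct κ r).ρ u⁻¹ x), jt_act, cj_apply]
    unfold cjop_Q
    rw [mt_me, InvMemClass.coe_inv, coe_inv_orth, Matrix.transpose_transpose]
  have hvh : ∀ u : RotG r, h (me ((u : Matrix.orthogonalGroup r ℝ) : Matrix r r ℝ)) =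
      f ((cjAct κ r).ρ u⁻¹ x) := fun u => by rw [hh]; simp only [hval]
  -- the gradient
  have hgrad : ∀ u : RotG r, ∑ i, ∑ j,
      (fderiv ℝ h (me ((u : Matrix.orthogonalGroup r ℝ) : Matrix r r ℝ))
        (me (rz i j * ((u : Matrix.orthogonalGroup r ℝ) : Matrix r r ℝ)))) ^ 2 ≤
      16 * (∑ l, opn (A l) ^ 2) * ‖fderiv ℝ f ((cjAct κ r).ρ u⁻¹ x)‖ ^ 2 := by
    intro u
    set U : Matrix r r ℝ := ((u : Matrix.orthogonalGroup r ℝ) : Matrix r r ℝ) with hU
    set y := (cjAct κ r).ρ u⁻¹ x with hy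
    set G : Eu (dW κ r) := (InnerProductSpace.toDual ℝ _).symm (fderiv ℝ f y) with hG
    have hGn : ‖G‖ = ‖fderiv ℝ f y‖ := by rw [hG, LinearIsometryEquiv.norm_map]
    have hGi : ∀ v, fderiv ℝ f y v = inner ℝ G v := fun v => by
      rw [hG, InnerProductSpace.toDual_symm_apply]
    set B : κ → Matrix r r ℝ := fun l => mx l (cj U (jt G)) with hB
    have hBl : ∀ l, B l = U * mx l (jt G) * Uᵀ := fun l => by rw [hB]; simp only [mx_cj]
    have e1 : ∀ i j, fderiv ℝ h (me U) (me (rz i j * U)) =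
        - ∑ l, ((B l)ᵀ * (rz i j * A l - A l * rz i j)).trace := by
      intro i j
      have c1 : HasFDerivAt (cjop_Q A) (fderiv ℝ (cjop_Q A) (me U)) (me U) :=
        ((cjop_Q_cd A).differentiable (by norm_num) _).hasFDerivAt
      have c2 : HasFDerivAt (fun X => cjop_P κ r (cjop_Q A X))
          ((cjop_P κ r).comp (fderiv ℝ (cjop_Q A) (me U))) (me U) :=
        (cjop_P κ r).hasFDerivAt.comp _ c1
      have c3 : HasFDerivAt f (fderiv ℝ f y) (cjop_P κ r (cjop_Q A (me U))) := by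
        rw [hU, hval u, ← hy]
        exact (hf1.differentiable (by norm_num) _).hasFDerivAt
      have c4 : HasFDerivAt h ((fderiv ℝ f y).comp
          ((cjop_P κ r).comp (fderiv ℝ (cjop_Q A) (me U)))) (me U) :=
        HasFDerivAt.comp (g := f) (f := fun X => cjop_P κ r (cjop_Q A X)) _ c3 c2
      rw [c4.fderiv]
      simp only [ContinuousLinearMap.comp_apply]
      rw [cjop_Q_deriv A U (rz i j) (rz_skew i j), hGi, cjop_P_inner, inner_tup,
        ← Finset.sum_neg_distrib]
      refine Finset.sum_congr rfl fun l _ => ?_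
      rw [mx_tup, hBl, ← Matrix.trace_neg]
      rw [Matrix.transpose_mul, Matrix.transpose_mul, Matrix.transpose_transpose]
      have e2 : (mx l (jt G))ᵀ * (Uᵀ * (A l * rz i j - rz i j * A l) * U) =
          ((mx l (jt G))ᵀ * Uᵀ * (A l * rz i j - rz i j * A l)) * U := by
        simp only [Matrix.mul_assoc]
      rw [e2, Matrix.trace_mul_comm]
      congr 1
      simp only [Matrix.mul_assoc, Matrix.mul_sub, neg_sub]
    have e3 : ∑ l, ((B l)ᵀ * B l).trace = ‖fderiv ℝ f y‖ ^ 2 := by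
      rw [← inner_tup, real_inner_self_eq_norm_sq]
      have : ‖cj U (jt G)‖ = ‖G‖ := by
        rw [hU, ← cjE_apply, LinearIsometryEquiv.norm_map, LinearIsometry.norm_map]
      rw [this, hGn]
    have e4 := cj_grad A B
    rw [e3] at e4
    refine le_trans (le_of_eq ?_) e4
    refine Finset.sum_congr rfl fun i _ => Finset.sum_congr rfl fun j _ => ?_
    rw [e1 i j, neg_sq]
  -- integration
  have hcont : Continuous fun u : RotG r => (cjAct κ r).ρ u⁻¹ x := cjop_inv_cont _ x
  have hcf : Continuous fun u : RotG r => ‖fderiv ℝ f ((cjAct κ r).ρ u⁻¹ x)‖ ^ 2 :=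
    (((hf1.continuous_fderiv (by norm_num)).comp hcont).norm).pow 2
  have hint : Integrable (fun u : RotG r => ‖fderiv ℝ f ((cjAct κ r).ρ u⁻¹ x)‖ ^ 2) (haarG r) :=
    cjop_int hcf
  have hmain := rot_poinc hr hcd
  simp only [hvh] at hmain
  have h5 : ∫ u : RotG r, ∑ i, ∑ j,
      (fderiv ℝ h (me ((u : Matrix.orthogonalGroup r ℝ) : Matrix r r ℝ))
        (me (rz i j * ((u : Matrix.orthogonalGroup r ℝ) : Matrix r r ℝ)))) ^ 2 ∂(haarG r) ≤
      ∫ u : RotG r, 16 * (∑ l, opn (A l) ^ 2) *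
        ‖fderiv ℝ f ((cjAct κ r).ρ u⁻¹ x)‖ ^ 2 ∂(haarG r) := by
    refine integral_mono_of_nonneg (Eventually.of_forall fun u => ?_) (hint.const_mul _)
      (Eventually.of_forall hgrad)
    exact Finset.sum_nonneg fun i _ => Finset.sum_nonneg fun j _ => sq_nonneg _
  rw [integral_const_mul] at h5
  unfold Act.avg
  refine hmain.trans ?_
  have h6 : (0 : ℝ) ≤ 1 / ((Fintype.card r : ℝ) - 2) := by positivity
  refine (mul_le_mul_of_nonneg_left h5 h6).trans (le_of_eq ?_)
  unfold cW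
  ring

end conj

end Pool.Agent.Lib.MP_6d896a_gt.CJ
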