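import Mathlib
import Pool.Agent.Lib.MP_6d896a_gt.FP.PLm

/-!
Project CJ, stage 2, piece M3: marginals of isotropic log-concave measures under coisometries.
-/

set_option autoImplicit false
set_option linter.unusedSectionVars false

namespace Pool.Agent.Lib.MP_6d896a_gt.CJ

open MeasureTheory ProbabilityTheory Matrix Set Filter
open scoped ENNReal Topology

/-- marginals under coisometries -/
theorem coiso_marg {E F : Type} [NormedAddCommGroup E] [InnerProductSpace ℝ E]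
    [FiniteDimensional ℝ E] [MeasurableSpace E] [BorelSpace E] [NormedAddCommGroup F]
    [InnerProductSpace ℝ F] [FiniteDimensional ℝ F] [MeasurableSpace F] [BorelSpace F]
    (Q : E →L[ℝ] F) (S : F →ₗᵢ[ℝ] E) (hQS : ∀ x y, inner ℝ (S y) x = inner ℝ y (Q x))
    (ν : Measure E) [IsProbabilityMeasure ν] (hpl : FP.PLm ν) (hac : ν ≪ volume)
    (hiso : ∀ ℓ : E →L[ℝ] ℝ, Var[fun x => ℓ x; ν] = ‖ℓ‖ ^ 2) :
    IsProbabilityMeasure (ν.map Q) ∧ FP.PLm (ν.map Q) ∧ ν.map Q ≪ volume ∧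
      ∀ ℓ : F →L[ℝ] ℝ, Var[fun x => ℓ x; ν.map Q] = ‖ℓ‖ ^ 2 := by
  have hQm : Measurable Q := Q.continuous.measurable
  have hQS1 : ∀ y, Q (S y) = y := by
    intro y
    apply ext_inner_left ℝ
    intro z
    rw [← hQS, S.inner_map_map]
  have hsurj : Function.Surjective (Q : E →ₗ[ℝ] F) := fun y => ⟨S y, hQS1 y⟩
  have hQle : ∀ x, ‖Q x‖ ≤ ‖x‖ := by
    intro x
    have h1 : ‖Q x‖ * ‖Q x‖ ≤ ‖Q x‖ * ‖x‖ := by
      calc ‖Q x‖ * ‖Q x‖ = inner ℝ (Q x) (Q x) := (real_inner_self_eq_norm_mul_norm _).symm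
        _ = inner ℝ (S (Q x)) x := (hQS x (Q x)).symm
        _ ≤ ‖S (Q x)‖ * ‖x‖ := real_inner_le_norm _ _
        _ = ‖Q x‖ * ‖x‖ := by rw [S.norm_map]
    rcases (norm_nonneg (Q x)).eq_or_lt with h | h
    · rw [← h]; exact norm_nonneg _
    · exact le_of_mul_le_mul_left h1 h
  refine ⟨Measure.isProbabilityMeasure_map hQm.aemeasurable,
    FP.PLm.map hpl (Q : E →ₗ[ℝ] F) hQm, ?_, ?_⟩
  · obtain ⟨c, -, hc⟩ := LinearMap.exists_map_addHaar_eq_smul_addHaar (Q : E →ₗ[ℝ] F)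
      (volume : Measure E) (volume : Measure F) hsurj
    have h1 : ν.map Q ≪ (volume : Measure E).map Q := hac.map hQm
    have h2 : (volume : Measure E).map Q = c • (volume : Measure F) := hc
    rw [h2] at h1
    exact h1.trans Measure.smul_absolutelyContinuous
  · intro ℓ
    rw [variance_map (by fun_prop) hQm.aemeasurable]
    have h1 := hiso (ℓ.comp Q)
    have h2 : ‖ℓ.comp Q‖ = ‖ℓ‖ := by
      apply le_antisymm
      · refine ContinuousLinearMap.opNorm_le_bound _ (norm_nonneg _) fun x => ?_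
        calc ‖(ℓ.comp Q) x‖ = ‖ℓ (Q x)‖ := rfl
          _ ≤ ‖ℓ‖ * ‖Q x‖ := ℓ.le_opNorm _
          _ ≤ ‖ℓ‖ * ‖x‖ := by gcongr; exact hQle x
      · refine ContinuousLinearMap.opNorm_le_bound _ (norm_nonneg _) fun y => ?_
        calc ‖ℓ y‖ = ‖(ℓ.comp Q) (S y)‖ := by
              rw [ContinuousLinearMap.comp_apply, hQS1]
          _ ≤ ‖ℓ.comp Q‖ * ‖S y‖ := ContinuousLinearMap.le_opNorm _ _
          _ = ‖ℓ.comp Q‖ * ‖y‖ := by rw [S.norm_map]
    rw [← h2, ← h1]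
    rfl

end Pool.Agent.Lib.MP_6d896a_gt.CJ
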