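import Pool.Agent.Lib.MP_6d896a_gt.CJ.Defs

/-!
Block embedding of rotations.
-/

set_option autoImplicit false
set_option linter.unusedSectionVars false

namespace Pool.Agent.Lib.MP_6d896a_gt.CJ

open MeasureTheory ProbabilityTheory Matrix Set Filter
open Pool.Agent.Lib.MP_6d896a_gt.OM Pool.Agent.Lib.MP_6d896a_gt.UC
open Pool.Agent.Lib.MP_6d896a_gt.UC.UR
open scoped ENNReal Topology

section conj

variable {κ r : Type} [Fintype κ] [Fintype r] [DecidableEq r]

/-- the inclusion matrix -/
private def incP (i0 : r) : Matrix r {i : r // i ≠ i0} ℝ :=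
  Matrix.of fun i j => if i = j then 1 else 0

/-- the corner matrix -/
private def crn (i0 : r) : Matrix r r ℝ :=
  Matrix.of fun i j => if i = i0 ∧ j = i0 then 1 else 0

private lemma incP_tr_mul (i0 : r) : (incP i0)ᵀ * incP i0 = 1 := by
  ext a b
  rw [Matrix.mul_apply, Matrix.one_apply]
  simp only [incP, Matrix.transpose_apply, Matrix.of_apply, mul_ite, mul_one, mul_zero]
  rw [Finset.sum_eq_single (b : r)]
  · by_cases h : a = b
    · subst h; simp
    · have : (b : r) ≠ a := fun h' => h (Subtype.ext h'.symm)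
      simp [h, this]
  · intro c _ hc
    simp [hc]
  · intro h; exact absurd (Finset.mem_univ _) h

private lemma crn_mul_incP (i0 : r) : crn i0 * incP i0 = 0 := by
  ext a b
  rw [Matrix.mul_apply]
  simp only [incP, crn, Matrix.of_apply, Matrix.zero_apply]
  refine Finset.sum_eq_zero fun c _ => ?_
  by_cases hc : c = b
  · have : c ≠ i0 := by rw [hc]; exact b.2
    simp [this]
  · simp [hc]

private lemma crn_tr (i0 : r) : (crn i0)ᵀ = crn i0 := by
  ext a b
  simp only [crn, Matrix.transpose_apply, Matrix.of_apply, and_comm]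

private lemma incP_tr_mul_crn (i0 : r) : (incP i0)ᵀ * crn i0 = 0 := by
  have h := congrArg Matrix.transpose (crn_mul_incP i0)
  rwa [Matrix.transpose_mul, crn_tr, Matrix.transpose_zero] at h

private lemma crn_mul_crn (i0 : r) : crn i0 * crn i0 = crn i0 := by
  ext a b
  rw [Matrix.mul_apply]
  simp only [crn, Matrix.of_apply]
  rw [Finset.sum_eq_single i0]
  · by_cases ha : a = i0 <;> by_cases hb : b = i0 <;> simp [ha, hb]
  · intro c _ hc; simp [hc]
  · intro h; exact absurd (Finset.mem_univ _) h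

private lemma incP_conj_apply (i0 : r) (A : Matrix {i : r // i ≠ i0} {i : r // i ≠ i0} ℝ)
    (a b : {i : r // i ≠ i0}) : (incP i0 * A * (incP i0)ᵀ) (a : r) (b : r) = A a b := by
  rw [Matrix.mul_apply, Finset.sum_eq_single b]
  · rw [Matrix.mul_apply, Finset.sum_eq_single a]
    · simp [incP]
    · intro c _ hc
      have : (a : r) ≠ c := fun h => hc (Subtype.ext h.symm)
      simp [incP, this]
    · intro h; exact absurd (Finset.mem_univ _) h
  · intro c _ hc
    have : (b : r) ≠ c := fun h => hc (Subtype.ext h.symm)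
    simp [incP, this]
  · intro h; exact absurd (Finset.mem_univ _) h

private lemma incP_conj_left (i0 : r) (A : Matrix {i : r // i ≠ i0} {i : r // i ≠ i0} ℝ)
    (j : r) : (incP i0 * A * (incP i0)ᵀ) i0 j = 0 := by
  rw [Matrix.mul_apply]
  refine Finset.sum_eq_zero fun c _ => ?_
  rw [Matrix.mul_apply, Finset.sum_eq_zero, zero_mul]
  intro d _
  have : i0 ≠ (d : r) := fun h => d.2 h.symm
  simp [incP, this]

private lemma incP_conj_right (i0 : r) (A : Matrix {i : r // i ≠ i0} {i : r // i ≠ i0} ℝ)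
    (j : r) : (incP i0 * A * (incP i0)ᵀ) j i0 = 0 := by
  rw [Matrix.mul_apply]
  refine Finset.sum_eq_zero fun c _ => ?_
  have : i0 ≠ (c : r) := fun h => c.2 h.symm
  simp [incP, this]

private lemma incP_conj_one (i0 : r) :
    incP i0 * (1 : Matrix {i : r // i ≠ i0} {i : r // i ≠ i0} ℝ) * (incP i0)ᵀ + crn i0 = 1 := by
  ext a b
  rw [Matrix.add_apply, Matrix.one_apply]
  by_cases ha : a = i0
  · subst ha
    rw [incP_conj_left]
    by_cases hb : b = a
    · subst hb; simp [crn]
    · have : a ≠ b := fun h => hb h.symm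
      simp [crn, hb, this]
  · by_cases hb : b = i0
    · subst hb
      rw [incP_conj_right]
      simp [crn, ha]
    · have h := incP_conj_apply i0 1 ⟨a, ha⟩ ⟨b, hb⟩
      simp only at h
      rw [h, Matrix.one_apply]
      simp [crn, ha]

/-- the block embedding as a ring homomorphism -/
private def emb (i0 : r) :
    (Matrix {i : r // i ≠ i0} {i : r // i ≠ i0} ℝ × ℝ) →+* Matrix r r ℝ where
  toFun p := incP i0 * p.1 * (incP i0)ᵀ + p.2 • crn i0
  map_one' := by
    simp only [Prod.fst_one, Prod.snd_one, one_smul]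
    exact incP_conj_one i0
  map_zero' := by simp
  map_add' p q := by
    simp only [Prod.fst_add, Prod.snd_add, Matrix.mul_add, Matrix.add_mul, add_smul]
    abel
  map_mul' p q := by
    simp only [Prod.fst_mul, Prod.snd_mul]
    have h1 : incP i0 * p.1 * (incP i0)ᵀ * (incP i0 * q.1 * (incP i0)ᵀ) =
        incP i0 * (p.1 * q.1) * (incP i0)ᵀ := by
      have : incP i0 * p.1 * (incP i0)ᵀ * (incP i0 * q.1 * (incP i0)ᵀ) =
          incP i0 * p.1 * ((incP i0)ᵀ * incP i0) * q.1 * (incP i0)ᵀ := by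
        simp only [Matrix.mul_assoc]
      rw [this, incP_tr_mul, Matrix.mul_one]
      simp only [Matrix.mul_assoc]
    have h2 : incP i0 * p.1 * (incP i0)ᵀ * (q.2 • crn i0) = 0 := by
      rw [Matrix.mul_smul, Matrix.mul_assoc, incP_tr_mul_crn, Matrix.mul_zero, smul_zero]
    have h3 : (p.2 • crn i0) * (incP i0 * q.1 * (incP i0)ᵀ) = 0 := by
      rw [Matrix.smul_mul, ← Matrix.mul_assoc, ← Matrix.mul_assoc, crn_mul_incP,
        Matrix.zero_mul, Matrix.zero_mul, smul_zero]
    have h4 : (p.2 • crn i0) * (q.2 • crn i0) = (p.2 * q.2) • crn i0 := by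
      rw [Matrix.smul_mul, Matrix.mul_smul, crn_mul_crn, smul_smul]
    rw [Matrix.mul_add, Matrix.add_mul, Matrix.add_mul, h1, h2, h3, h4]
    abel

private lemma emb_apply (i0 : r) (p : Matrix {i : r // i ≠ i0} {i : r // i ≠ i0} ℝ × ℝ) :
    emb i0 p = incP i0 * p.1 * (incP i0)ᵀ + p.2 • crn i0 := rfl

private lemma emb_tr (i0 : r) (A : Matrix {i : r // i ≠ i0} {i : r // i ≠ i0} ℝ) (t : ℝ) :
    (emb i0 (A, t))ᵀ = emb i0 (Aᵀ, t) := by
  rw [emb_apply, emb_apply]
  simp only [Matrix.transpose_add, Matrix.transpose_mul, Matrix.transpose_transpose,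
    Matrix.transpose_smul, crn_tr, Matrix.mul_assoc]

private lemma continuous_emb (i0 : r) : Continuous (emb i0) := by
  have : (emb i0 : _ → Matrix r r ℝ) =
      fun p => incP i0 * p.1 * (incP i0)ᵀ + p.2 • crn i0 := rfl
  rw [this]
  fun_prop

section norms

attribute [local instance] Matrix.linftyOpNormedRing Matrix.linftyOpNormedAlgebra

private lemma emb_exp (i0 : r) (Z : Matrix {i : r // i ≠ i0} {i : r // i ≠ i0} ℝ) :
    emb i0 (NormedSpace.exp Z, 1) = NormedSpace.exp (emb i0 (Z, 0)) := by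
  have h1 : emb i0 (NormedSpace.exp (Z, (0 : ℝ))) = NormedSpace.exp (emb i0 (Z, 0)) :=
    NormedSpace.map_exp (emb i0) (continuous_emb i0) (Z, 0)
  have h2 : NormedSpace.exp (Z, (0 : ℝ)) = (NormedSpace.exp Z, 1) := by
    refine Prod.ext ?_ ?_
    · exact Prod.fst_exp (Z, (0 : ℝ))
    · refine (Prod.snd_exp (Z, (0 : ℝ))).trans ?_
      simp
  rw [← h1, h2]

end norms

private lemma emb_orth (i0 : r) (u : Matrix.orthogonalGroup {i : r // i ≠ i0} ℝ) :
    emb i0 ((u : Matrix {i : r // i ≠ i0} {i : r // i ≠ i0} ℝ), 1) ∈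
      Matrix.orthogonalGroup r ℝ := by
  rw [Matrix.mem_orthogonalGroup_iff, emb_tr, ← map_mul]
  have : (((u : Matrix {i : r // i ≠ i0} {i : r // i ≠ i0} ℝ), (1 : ℝ)) *
      ((u : Matrix {i : r // i ≠ i0} {i : r // i ≠ i0} ℝ)ᵀ, (1 : ℝ))) = 1 := by
    refine Prod.ext ?_ ?_
    · exact orth_right u
    · simp
  rw [this, map_one]

private noncomputable def embO (i0 : r) (u : Matrix.orthogonalGroup {i : r // i ≠ i0} ℝ) :
    Matrix.orthogonalGroup r ℝ := ⟨_, emb_orth i0 u⟩

private lemma embO_rot (i0 : r) (v : Matrix.orthogonalGroup {i : r // i ≠ i0} ℝ)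
    (hv : v ∈ RotG {i : r // i ≠ i0}) : embO i0 v ∈ RotG r := by
  refine rot_induction (P := fun u => embO i0 u ∈ RotG r) ?_ ?_ ?_ ?_ ?_ hv
  · refine isClosed_RotG.preimage ?_
    refine Continuous.subtype_mk ?_ _
    exact (continuous_emb i0).comp (continuous_subtype_val.prodMk continuous_const)
  · intro Z hZ
    have hZ' : (emb i0 (Z, 0))ᵀ = -emb i0 (Z, 0) := by
      rw [emb_tr, hZ, emb_apply, emb_apply]
      simp
    have : embO i0 (expG Z hZ) = expG (emb i0 (Z, 0)) hZ' := by
      refine Subtype.ext ?_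
      exact emb_exp i0 Z
    rw [this]
    exact expG_mem _ _
  · have : embO i0 1 = 1 := by
      refine Subtype.ext ?_
      exact map_one (emb i0)
    rw [this]
    exact one_mem _
  · intro u w hu hw
    have : embO i0 (u * w) = embO i0 u * embO i0 w := by
      refine Subtype.ext ?_
      rw [Submonoid.coe_mul]
      simp only [embO]
      rw [← map_mul]
      congr 1
      refine Prod.ext rfl ?_
      simp
    rw [this]
    exact mul_mem hu hw
  · intro u hu
    have : embO i0 u⁻¹ = (embO i0 u)⁻¹ := by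
      refine Subtype.ext ?_
      rw [coe_inv_orth]
      simp only [embO]
      rw [emb_tr, coe_inv_orth]
    rw [this]
    exact inv_mem hu

/-- block embedding of rotations -/
theorem emb_rot (i0 : r) (v : Matrix.orthogonalGroup {i : r // i ≠ i0} ℝ)
    (hv : v ∈ RotG {i : r // i ≠ i0}) : ∃ g ∈ RotG r,
    (∀ i j : {i : r // i ≠ i0}, (g : Matrix r r ℝ) i j =
      (v : Matrix {i : r // i ≠ i0} {i : r // i ≠ i0} ℝ) i j) ∧
    (∀ i : r, i ≠ i0 → (g : Matrix r r ℝ) i i0 = 0) ∧
    (∀ j : r, j ≠ i0 → (g : Matrix r r ℝ) i0 j = 0) ∧ (g : Matrix r r ℝ) i0 i0 = 1 := by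
  have hg : ∀ a b : r, ((embO i0 v : Matrix.orthogonalGroup r ℝ) : Matrix r r ℝ) a b =
      (incP i0 * (v : Matrix {i : r // i ≠ i0} {i : r // i ≠ i0} ℝ) * (incP i0)ᵀ) a b +
        crn i0 a b := by
    intro a b
    change emb i0 _ a b = _
    rw [emb_apply, Matrix.add_apply, Matrix.smul_apply]
    simp
  refine ⟨embO i0 v, embO_rot i0 v hv, ?_, ?_, ?_, ?_⟩
  · intro i j
    rw [hg, incP_conj_apply]
    simp [crn, i.2]
  · intro i hi
    rw [hg, incP_conj_right]
    simp [crn, hi]
  · intro j hj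
    rw [hg, incP_conj_left]
    simp [crn, hj]
  · rw [hg, incP_conj_left]
    simp [crn]

end conj

end Pool.Agent.Lib.MP_6d896a_gt.CJ
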