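import Mathlib
import Pool.Agent.Lib.MP_6d896a_gt.CJ.Defs
import Pool.Agent.Lib.MP_6d896a_gt.CJ.EmbRot
import Pool.Agent.Lib.MP_6d896a_gt.OM.Tail
import Pool.Agent.Lib.MP_6d896a_gt.OM.Polar
import Pool.Agent.Lib.MP_6d896a_gt.FP.EM

/-!
Project CJ, piece P10b: concentration of a column of a random trace zero matrix with conjugation
invariant log-concave law.
-/

set_option autoImplicit false
set_option linter.unusedSectionVars false

namespace Pool.Agent.Lib.MP_6d896a_gt.CJ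

open MeasureTheory ProbabilityTheory Matrix Set Filter
open Pool.Agent.Lib.MP_6d896a_gt.OM Pool.Agent.Lib.MP_6d896a_gt.UC
open Pool.Agent.Lib.MP_6d896a_gt.UC.UR
open scoped ENNReal Topology

section conj

variable {κ r : Type} [Fintype κ] [Fintype r] [DecidableEq r]

/-- the off-diagonal entries of a column -/
private noncomputable def col (l : κ) (i0 : r) :
    Eu (dW κ r) →ₗ[ℝ] EuclideanSpace ℝ {i : r // i ≠ i0} where
  toFun x := WithLp.toLp 2 fun i => (jt x : Tup κ r) (l, (i : r), i0)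
  map_add' x y := by
    ext i
    simp
  map_smul' c x := by
    ext i
    simp

private lemma col_apply (l : κ) (i0 : r) (x : Eu (dW κ r)) (i : {i : r // i ≠ i0}) :
    col l i0 x i = (jt x : Tup κ r) (l, (i : r), i0) := rfl

private lemma col_cont (l : κ) (i0 : r) :
    Continuous (col l i0 : Eu (dW κ r) → EuclideanSpace ℝ {i : r // i ≠ i0}) :=
  LinearMap.continuous_of_finiteDimensional _

private lemma sum_split (i0 : r) (f : r → ℝ) :
    ∑ i, f i = f i0 + ∑ i : {i : r // i ≠ i0}, f i := by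
  exact Fintype.sum_eq_add_sum_subtype_ne f i0

private lemma col_equiv (l : κ) (i0 : r) (v : Matrix.orthogonalGroup {i : r // i ≠ i0} ℝ)
    (g : RotG r)
    (h1 : ∀ i j : {i : r // i ≠ i0}, ((g : Matrix.orthogonalGroup r ℝ) : Matrix r r ℝ) i j =
      (v : Matrix {i : r // i ≠ i0} {i : r // i ≠ i0} ℝ) i j)
    (h2 : ∀ i : r, i ≠ i0 → ((g : Matrix.orthogonalGroup r ℝ) : Matrix r r ℝ) i i0 = 0)
    (h3 : ∀ j : r, j ≠ i0 → ((g : Matrix.orthogonalGroup r ℝ) : Matrix r r ℝ) i0 j = 0)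
    (h4 : ((g : Matrix.orthogonalGroup r ℝ) : Matrix r r ℝ) i0 i0 = 1)
    (x : Eu (dW κ r)) :
    col l i0 ((cjAct κ r).ρ g x) = rv v (col l i0 x) := by
  ext i
  rw [col_apply, jt_act, rv_apply, ← mx_apply, mx_cj]
  set G := ((g : Matrix.orthogonalGroup r ℝ) : Matrix r r ℝ) with hG
  have e1 : (G * mx l (jt x) * Gᵀ) (i : r) i0 = (G * mx l (jt x)) (i : r) i0 := by
    rw [Matrix.mul_apply, sum_split i0]
    rw [Matrix.transpose_apply, h4, mul_one]
    have : ∑ j : {j : r // j ≠ i0}, (G * mx l (jt x)) (i : r) j * Gᵀ j i0 = 0 := by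
      refine Finset.sum_eq_zero fun j _ => ?_
      rw [Matrix.transpose_apply, h3 j j.2, mul_zero]
    rw [this, add_zero]
  rw [e1, Matrix.mul_apply, sum_split i0, h2 i i.2, zero_mul, zero_add]
  change _ = ∑ j, _
  refine Finset.sum_congr rfl fun j _ => ?_
  rw [h1]
  rfl

private lemma mean_zero {r : Type} [Fintype r] [DecidableEq r] (hr : 2 ≤ Fintype.card r)
    (ν : Measure (EuclideanSpace ℝ r)) [IsProbabilityMeasure ν]
    (hν : ∀ u ∈ RotG r, ν.map (rv u) = ν)
    (hint : ∀ i, Integrable (fun x : EuclideanSpace ℝ r => x i) ν) (i : r) :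
    ∫ x, x i ∂ν = 0 := by
  set b : r → ℝ := fun i => ∫ x, x i ∂ν with hb
  obtain ⟨u, hu, hub⟩ := rot_trans hr b (-b) (by simp)
  have h1 : (u : Matrix r r ℝ) *ᵥ b = b := by
    ext i
    have h2 : b i = ∫ x, (rv u x) i ∂ν := by
      conv_lhs => rw [hb]
      simp only
      conv_lhs => rw [← hν u hu]
      rw [integral_map]
      · exact (rv u).continuous.aemeasurable
      · fun_prop
    rw [h2, Matrix.mulVec, dotProduct]
    have h3 : ∀ x, (rv u x) i = ∑ k, (u : Matrix r r ℝ) i k * x k := by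
      intro x
      rw [rv_apply]
      rfl
    simp_rw [h3]
    rw [integral_finsetSum _ fun k _ => (hint k).const_mul _]
    refine Finset.sum_congr rfl fun k _ => ?_
    rw [integral_const_mul]
  rw [hub] at h1
  have := congrFun h1 i
  simp only [Pi.neg_apply] at this
  show b i = 0
  linarith

private lemma qf_conj (u : Matrix.orthogonalGroup r ℝ) (A : Matrix r r ℝ) (w : r → ℝ) :
    qf ((u : Matrix r r ℝ) * A * (u : Matrix r r ℝ)ᵀ) ((u : Matrix r r ℝ) *ᵥ w) = qf A w := by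
  have e1 : ((u : Matrix r r ℝ) * A * (u : Matrix r r ℝ)ᵀ) *ᵥ ((u : Matrix r r ℝ) *ᵥ w) =
      (u : Matrix r r ℝ) *ᵥ (A *ᵥ w) := by
    rw [Matrix.mulVec_mulVec, Matrix.mul_assoc, orth_left, Matrix.mul_one, Matrix.mulVec_mulVec]
  have e2 : ∑ i, ((u : Matrix r r ℝ) *ᵥ w) i * ((u : Matrix r r ℝ) *ᵥ (A *ᵥ w)) i =
      ∑ i, w i * (A *ᵥ w) i := by
    have h1 : ((u : Matrix r r ℝ) *ᵥ w) ⬝ᵥ ((u : Matrix r r ℝ) *ᵥ (A *ᵥ w)) = w ⬝ᵥ (A *ᵥ w) := by
      rw [Matrix.dotProduct_mulVec, Matrix.vecMul_mulVec, ← Matrix.dotProduct_mulVec]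
      simp [orth_left]
    simpa [dotProduct] using h1
  unfold qf
  rw [e1, dot_mulVec_orth, dot_mulVec_orth, e2]

private lemma qf_single (i0 : r) (A : Matrix r r ℝ) (s : ℝ) :
    qf A (fun i => if i = i0 then s else 0) = s ^ 4 * ∑ i : {i : r // i ≠ i0}, A i i0 ^ 2 := by
  have e1 : ∀ i, (A *ᵥ (fun i => if i = i0 then s else 0)) i = s * A i i0 := by
    intro i
    simp [Matrix.mulVec, dotProduct, mul_comm]
  unfold qf
  simp_rw [e1]
  have e2 : ∑ i, (if i = i0 then s else 0) ^ 2 = s ^ 2 := by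
    simp [ite_pow]
  have e3 : ∑ i, (if i = i0 then s else 0) * (s * A i i0) = s ^ 2 * A i0 i0 := by
    simp [ite_mul]
    ring
  rw [e2, e3, sum_split i0]
  have e4 : ∑ i : {i : r // i ≠ i0}, (s * A i i0) ^ 2 =
      s ^ 2 * ∑ i : {i : r // i ≠ i0}, A i i0 ^ 2 := by
    rw [Finset.mul_sum]
    exact Finset.sum_congr rfl fun i _ => by ring
  rw [e4]
  ring

private lemma col_tail (hr : 4 ≤ Fintype.card r) (ν : Measure (Eu (dW κ r)))
    [IsProbabilityMeasure ν]
    (hpl : FP.PLm ν) (hac : ν ≪ volume) (hinv : (cjAct κ r).Inv ν)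
    (hiso : ∀ ℓ : Eu (dW κ r) →L[ℝ] ℝ, Var[fun x => ℓ x; ν] = ‖ℓ‖ ^ 2) (l : κ) (i0 : r) :
    ν.real {x | 1440 * √(Fintype.card {i : r // i ≠ i0}) ≤ ‖col l i0 x‖} ≤
      (1 / 12) ^ (Fintype.card r - 1) := by
  have hcard : Fintype.card {i : r // i ≠ i0} = Fintype.card r - 1 := by
    simp [Fintype.card_subtype_compl]
  have hTm : Measurable (col l i0 : Eu (dW κ r) → EuclideanSpace ℝ {i : r // i ≠ i0}) :=
    (col_cont l i0).measurable
  set μ : Measure (EuclideanSpace ℝ {i : r // i ≠ i0}) := ν.map (col l i0) with hμ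
  have hprob : IsProbabilityMeasure μ := Measure.isProbabilityMeasure_map hTm.aemeasurable
  have hplμ : FP.PLm μ := hpl.map _ hTm
  have hinvμ : ∀ v ∈ RotG {i : r // i ≠ i0}, μ.map (rv v) = μ := by
    intro v hv
    obtain ⟨g, hg, h1, h2, h3, h4⟩ := emb_rot i0 v hv
    have hum : Measurable (rv v : EuclideanSpace ℝ {i : r // i ≠ i0} → _) :=
      (rv v).continuous.measurable
    have ham : Measurable ((cjAct κ r).ρ ⟨g, hg⟩ : Eu (dW κ r) → Eu (dW κ r)) :=
      ((cjAct κ r).ρ ⟨g, hg⟩).continuous.measurable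
    rw [hμ, Measure.map_map hum hTm]
    conv_rhs => rw [← hinv ⟨g, hg⟩, Measure.map_map hTm ham]
    congr 1
    funext x
    exact (col_equiv l i0 v ⟨g, hg⟩ h1 h2 h3 h4 x).symm
  have h := vec_tail (fun r _ _ hr x y h => rot_trans hr x y h) (by omega) μ hplμ hinvμ ?_ ?_
  · have hms : MeasurableSet {x : EuclideanSpace ℝ {i : r // i ≠ i0} |
        1440 * √(Fintype.card {i : r // i ≠ i0}) ≤ ‖x‖} :=
      (isClosed_le (by fun_prop) (by fun_prop)).measurableSet
    rw [hμ, map_measureReal_apply hTm hms, hcard] at h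
    rw [hcard]
    exact h
  · rw [hμ, Measure.map_apply hTm (measurableSet_singleton 0)]
    refine hac ?_
    have e1 : (col l i0 : Eu (dW κ r) → EuclideanSpace ℝ {i : r // i ≠ i0}) ⁻¹' {0} =
        (LinearMap.ker (col l i0 : Eu (dW κ r) →ₗ[ℝ] EuclideanSpace ℝ {i : r // i ≠ i0}) :
          Set (Eu (dW κ r))) := by
      ext x; simp
    rw [e1]
    refine Measure.addHaar_submodule _ _ ?_
    rw [Ne, LinearMap.ker_eq_top]
    intro h0
    obtain ⟨i1, hi1⟩ : ∃ i1 : r, i1 ≠ i0 := by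
      have : 1 < Fintype.card r := by omega
      exact Fintype.exists_ne_of_one_lt_card this i0
    have hmem : (tup (fun _ : κ => Matrix.single i1 i0 (1 : ℝ)) : Tup κ r) ∈ TrZ κ r := by
      rw [mem_TrZ]
      intro l'
      rw [mx_tup]
      exact Matrix.trace_single_eq_of_ne _ _ _ hi1
    obtain ⟨x, hx⟩ := jt_surj hmem
    have h5 : col l i0 x ⟨i1, hi1⟩ = 0 := by
      rw [h0]; rfl
    rw [col_apply, hx] at h5
    simp at h5
  · have hfun : ∀ i : {i : r // i ≠ i0}, ∃ ℓ : Eu (dW κ r) →L[ℝ] ℝ, (∀ x, ℓ x = col l i0 x i) ∧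
        ‖ℓ‖ ≤ 1 := by
      intro i
      refine ⟨LinearMap.toContinuousLinearMap
        { toFun := fun x => col l i0 x i
          map_add' := by intro x y; simp
          map_smul' := by intro c x; simp }, fun x => rfl, ?_⟩
      refine ContinuousLinearMap.opNorm_le_bound _ zero_le_one fun x => ?_
      rw [one_mul]
      change ‖(jt x : Tup κ r) (l, (i : r), i0)‖ ≤ ‖x‖
      rw [← (jt (κ := κ) (r := r)).norm_map x]
      exact PiLp.norm_apply_le _ _
    have hsq : Integrable (fun x : EuclideanSpace ℝ {i : r // i ≠ i0} => ‖x‖ ^ 2) μ :=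
      hplμ.sq_integrable
    have hL2 : ∀ i, MemLp (fun x : EuclideanSpace ℝ {i : r // i ≠ i0} => x i) 2 μ := by
      intro i
      rw [memLp_two_iff_integrable_sq (by fun_prop)]
      refine Integrable.mono' hsq (by fun_prop) (ae_of_all _ fun x => ?_)
      rw [Real.norm_eq_abs, abs_of_nonneg (by positivity), ← sq_abs]
      exact pow_le_pow_left₀ (abs_nonneg _) (PiLp.norm_apply_le x i) 2
    have hm0 := mean_zero (by omega) μ hinvμ fun i => (hL2 i).integrable (by norm_num)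
    have hone : ∀ i, ∫ x, (x i) ^ 2 ∂μ ≤ 1 := by
      intro i
      obtain ⟨ℓ, h1, h2⟩ := hfun i
      have h3 := hiso ℓ
      have h4 : Var[fun x => ℓ x; ν] = Var[fun x => x i; μ] := by
        rw [hμ, variance_map (by fun_prop) hTm.aemeasurable]
        congr 1
        funext x
        exact h1 x
      rw [h4, variance_eq_integral (by fun_prop), hm0 i] at h3
      simp only [sub_zero] at h3
      rw [h3]
      exact pow_le_one₀ (norm_nonneg _) h2
    have e : ∀ x : EuclideanSpace ℝ {i : r // i ≠ i0}, ‖x‖ ^ 2 = ∑ i, x i ^ 2 := by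
      intro x
      rw [EuclideanSpace.norm_sq_eq]
      simp
    simp_rw [e]
    rw [← ofReal_integral_eq_lintegral_ofReal
      (integrable_finsetSum _ fun i _ => (hL2 i).integrable_sq)
      (ae_of_all _ fun x => Finset.sum_nonneg fun i _ => sq_nonneg _),
      integral_finsetSum _ fun i _ => (hL2 i).integrable_sq]
    rw [← ENNReal.ofReal_natCast]
    refine ENNReal.ofReal_le_ofReal ?_
    refine (Finset.sum_le_sum fun i _ => hone i).trans ?_
    simp

/-- concentration in a given direction -/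
theorem qf_tail (hr : 4 ≤ Fintype.card r) (ν : Measure (Eu (dW κ r))) [IsProbabilityMeasure ν]
    (hpl : FP.PLm ν) (hac : ν ≪ volume) (hinv : (cjAct κ r).Inv ν)
    (hiso : ∀ ℓ : Eu (dW κ r) →L[ℝ] ℝ, Var[fun x => ℓ x; ν] = ‖ℓ‖ ^ 2) (l : κ)
    (u : r → ℝ) (hu : u ≠ 0) :
    ν.real {x | 1440 ^ 2 * (Fintype.card r : ℝ) * (∑ i, u i ^ 2) ^ 2 ≤ qf (mx l (jt x)) u} ≤
      (1 / 12) ^ (Fintype.card r - 1) := by
  have hne : Nonempty r := by
    rw [← Fintype.card_pos_iff]; omega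
  obtain ⟨i0⟩ := hne
  have hS : 0 < ∑ i, u i ^ 2 := by
    have h0 : 0 ≤ ∑ i, u i ^ 2 := Finset.sum_nonneg fun i _ => sq_nonneg _
    refine lt_of_le_of_ne h0 fun h => hu ?_
    funext i
    have := (Finset.sum_eq_zero_iff_of_nonneg (fun i _ => sq_nonneg (u i))).mp h.symm i
      (Finset.mem_univ i)
    simpa using this
  set s := √(∑ i, u i ^ 2) with hs
  have hs0 : 0 < s := Real.sqrt_pos.mpr hS
  have hs2 : s ^ 2 = ∑ i, u i ^ 2 := Real.sq_sqrt hS.le
  obtain ⟨g, hg, hgu⟩ := rot_trans (r := r) (by omega) (fun i => if i = i0 then s else 0) u (by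
    simp [ite_pow, hs2])
  have hq : Continuous fun x : Eu (dW κ r) => qf (mx l (jt x)) u := by
    have h1 : Continuous fun x : Eu (dW κ r) => (jt x : Tup κ r) := jt.continuous
    unfold qf
    simp only [Matrix.mulVec, dotProduct, mx_apply]
    fun_prop
  have hms : MeasurableSet {x : Eu (dW κ r) |
      1440 ^ 2 * (Fintype.card r : ℝ) * (∑ i, u i ^ 2) ^ 2 ≤ qf (mx l (jt x)) u} :=
    (isClosed_le continuous_const hq).measurableSet
  have ham : Measurable ((cjAct κ r).ρ ⟨g, hg⟩ : Eu (dW κ r) → Eu (dW κ r)) :=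
    ((cjAct κ r).ρ ⟨g, hg⟩).continuous.measurable
  refine le_trans ?_ (col_tail hr ν hpl hac hinv hiso l i0)
  conv_lhs => rw [← hinv ⟨g, hg⟩]
  rw [map_measureReal_apply ham hms]
  refine measureReal_mono ?_ (measure_ne_top _ _)
  intro x hx
  simp only [mem_preimage, mem_ofPred_eq] at hx ⊢
  rw [jt_act, mx_cj, ← hgu, qf_conj, qf_single, hgu, ← hs2] at hx
  have e1 : ∑ i : {i : r // i ≠ i0}, mx l (jt x) i i0 ^ 2 = ‖col l i0 x‖ ^ 2 := by
    rw [EuclideanSpace.norm_sq_eq]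
    simp [col_apply]
  rw [e1] at hx
  have h2 : 1440 ^ 2 * (Fintype.card r : ℝ) ≤ ‖col l i0 x‖ ^ 2 := by
    have h3 : (s ^ 2) ^ 2 = s ^ 4 := by ring
    rw [h3, mul_comm] at hx
    exact le_of_mul_le_mul_left hx (by positivity)
  have h3 : (1440 * √(Fintype.card {i : r // i ≠ i0})) ^ 2 ≤ ‖col l i0 x‖ ^ 2 := by
    refine le_trans ?_ h2
    rw [mul_pow, Real.sq_sqrt (by positivity)]
    have : (Fintype.card {i : r // i ≠ i0} : ℝ) ≤ Fintype.card r := by
      exact_mod_cast Fintype.card_subtype_le _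
    nlinarith
  exact (pow_le_pow_iff_left₀ (by positivity) (norm_nonneg _) (by norm_num)).mp h3

end conj

end Pool.Agent.Lib.MP_6d896a_gt.CJ
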