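import Pool.Agent.Lib.MP_6d896a_gt.OM.SmallDim

/-!
Project CJ: affine invariant Poincare inequality for log-concave measures in bounded dimension.
-/

set_option autoImplicit false

namespace Pool.Agent.Lib.MP_6d896a_gt.CJ

open MeasureTheory ProbabilityTheory Set Filter
open Pool.Agent.Lib.MP_6d896a_gt.OM
open scoped ENNReal Topology

/-- general inequality in bounded dimension (as `ap_small` in OM/SmallDim.lean) -/
theorem ap_dim : ∃ C : ℝ, 0 < C ∧ ∀ (E : Type) [NormedAddCommGroup E] [InnerProductSpace ℝ E]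
    [FiniteDimensional ℝ E] [MeasurableSpace E] [BorelSpace E] (μ : Measure E)
    [IsProbabilityMeasure μ], FP.PLm μ → μ ≪ volume → ∀ d : ℕ, Module.finrank ℝ E ≤ d →
    FP.AP μ (C * (d + 1)) := by
  obtain ⟨C, hC, hem⟩ := Pool.Agent.Lib.MP_6d896a_gt.FP.em
  refine ⟨C, hC, ?_⟩
  intro E _ _ _ _ _ μ hμ h hac d hdim
  obtain ⟨T, hT⟩ := FP.whiten μ (fun ℓ => clm_memLp h ℓ) (fun ℓ h0 => nondeg_of_ac h hac ℓ h0)
  have hTm : Measurable (T.symm : E → EuclideanSpace ℝ (Fin (Module.finrank ℝ E))) :=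
    T.symm.continuous.measurable
  have hprob : IsProbabilityMeasure (μ.map T.symm) :=
    Measure.isProbabilityMeasure_map hTm.aemeasurable
  have hPL : FP.PLm (μ.map T.symm) :=
    FP.PLm.map h (T.symm.toLinearEquiv.toLinearMap) hTm
  have hv : ∀ i, Var[fun x : EuclideanSpace ℝ (Fin (Module.finrank ℝ E)) => x i;
      μ.map T.symm] = 1 := by
    intro i
    have hpm : Measurable fun x : EuclideanSpace ℝ (Fin (Module.finrank ℝ E)) => x i := by
      fun_prop
    have h1 : Var[fun x : EuclideanSpace ℝ (Fin (Module.finrank ℝ E)) => x i; μ.map T.symm] =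
        Var[fun x => (T.symm x) i; μ] := variance_map hpm.aemeasurable hTm.aemeasurable
    rw [h1]
    have h2 := hT ((EuclideanSpace.proj i).comp
      (T.symm : E →L[ℝ] EuclideanSpace ℝ (Fin (Module.finrank ℝ E))))
    have h3 : (((EuclideanSpace.proj i : EuclideanSpace ℝ (Fin (Module.finrank ℝ E)) →L[ℝ] ℝ).comp
      (T.symm : E →L[ℝ] EuclideanSpace ℝ (Fin (Module.finrank ℝ E)))).comp
      (T : EuclideanSpace ℝ (Fin (Module.finrank ℝ E)) →L[ℝ] E)) =
      (EuclideanSpace.proj i : EuclideanSpace ℝ (Fin (Module.finrank ℝ E)) →L[ℝ] ℝ) := by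
      ext x
      simp
    rw [h3, FP.norm_sq_functional] at h2
    have h4 : ∑ j, ((EuclideanSpace.proj i : EuclideanSpace ℝ (Fin (Module.finrank ℝ E)) →L[ℝ] ℝ)
        (EuclideanSpace.single j (1 : ℝ))) ^ 2 = 1 := by
      simp
    rw [h4] at h2
    exact h2
  have hlv : FP.LVb (μ.map T.symm) (d + 1) := by
    intro g hg hb hL hl
    refine (lvb_of_iso hPL hv g hg hb hL hl).trans ?_
    have : (Module.finrank ℝ E : ℝ) ≤ d := by exact_mod_cast hdim
    linarith
  refine FP.ap_of_poinc T hT fun f hf hl => ?_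
  exact hem _ (μ.map T.symm) hPL (d + 1) (by positivity) hlv f hf hl

end Pool.Agent.Lib.MP_6d896a_gt.CJ
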