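import Mathlib
import Pool.Agent.Lib.MP_6d896a_gt.CJ.Defs
import Pool.Agent.Lib.MP_6d896a_gt.UC.Esa

/-!
Project CJ, piece P1: the resolvent equation with continuous compactly supported right hand side.
-/

set_option autoImplicit false
set_option linter.unusedSectionVars false

namespace Pool.Agent.Lib.MP_6d896a_gt.CJ

open MeasureTheory ProbabilityTheory Matrix Set Filter
open Pool.Agent.Lib.MP_6d896a_gt.OM Pool.Agent.Lib.MP_6d896a_gt.UC
open Pool.Agent.Lib.MP_6d896a_gt.UC.UR
open scoped ENNReal Topology

/-- mollifiers -/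
private noncomputable def esb (n k : ℕ) : ContDiffBump (0 : Eu n) where
  rIn := 1 / (2 * ((k : ℝ) + 1))
  rOut := 1 / ((k : ℝ) + 1)
  rIn_pos := by positivity
  rIn_lt_rOut := by
    rw [div_lt_div_iff₀ (by positivity) (by positivity)]
    have : (0 : ℝ) ≤ k := Nat.cast_nonneg k
    linarith

private lemma esb_tendsto (n : ℕ) : Tendsto (fun k => (esb n k).rOut) atTop (𝓝 0) :=
  tendsto_one_div_add_atTop_nhds_zero_nat

private lemma esb_le (n k : ℕ) : (esb n k).rOut ≤ 1 := by
  show 1 / ((k : ℝ) + 1) ≤ 1
  rw [div_le_one (by positivity)]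
  have : (0 : ℝ) ≤ k := Nat.cast_nonneg k
  linarith

open scoped Convolution in
/-- mollified function -/
private noncomputable def esm {n : ℕ} (k : ℕ) (g : Eu n → ℝ) (x : Eu n) : ℝ :=
  ((esb n k).normed volume ⋆[ContinuousLinearMap.lsmul ℝ ℝ, volume] g) x

private lemma esm_TT {n : ℕ} {g : Eu n → ℝ} (k : ℕ) (hg : Continuous g)
    (hc : HasCompactSupport g) : UC.TT (esm k g) where
  cd := (esb n k).hasCompactSupport_normed.contDiff_convolution_left _ (esb n k).contDiff_normed
    hg.locallyIntegrable
  cs := (esb n k).hasCompactSupport_normed.convolution _ hc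

private lemma esm_bound {n : ℕ} {g : Eu n → ℝ} (k : ℕ) {B : ℝ} (hB : ∀ x, |g x| ≤ B) (x : Eu n) :
    |esm k g x| ≤ B := by
  unfold esm convolution
  have hi := (esb n k).integrable_normed (μ := (volume : Measure (Eu n)))
  rw [← Real.norm_eq_abs]
  calc ‖∫ t, (ContinuousLinearMap.lsmul ℝ ℝ) ((esb n k).normed volume t) (g (x - t))‖
      ≤ ∫ t, ‖(ContinuousLinearMap.lsmul ℝ ℝ) ((esb n k).normed volume t) (g (x - t))‖ :=
        norm_integral_le_integral_norm _
    _ ≤ ∫ t, (esb n k).normed volume t * B := by
        apply integral_mono_of_nonneg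
        · filter_upwards with t using norm_nonneg _
        · exact hi.mul_const B
        · filter_upwards with t
          rw [ContinuousLinearMap.lsmul_apply, norm_smul, Real.norm_eq_abs,
            abs_of_nonneg ((esb n k).nonneg_normed t)]
          exact mul_le_mul_of_nonneg_left (hB _) ((esb n k).nonneg_normed t)
    _ = B := by
        rw [integral_mul_const, (esb n k).integral_normed, one_mul]

private lemma esm_supp {n : ℕ} {g : Eu n → ℝ} (k : ℕ) {R : ℝ} (hR : ∀ x, R < ‖x‖ → g x = 0)
    (x : Eu n) (hx : R + 1 < ‖x‖) : esm k g x = 0 := by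
  unfold esm convolution
  rw [show (fun t => (ContinuousLinearMap.lsmul ℝ ℝ) ((esb n k).normed volume t) (g (x - t))) =
    fun _ => (0 : ℝ) from ?_, integral_zero]
  funext t
  by_cases ht : ‖t‖ ≤ 1
  · rw [hR (x - t)]
    · simp
    · have := norm_sub_norm_le x t
      linarith
  · have h0 : (esb n k).normed volume t = 0 := by
      have h1 : t ∉ Function.support ((esb n k).normed (volume : Measure (Eu n))) := by
        rw [(esb n k).support_normed_eq]
        simp only [Metric.mem_ball, dist_zero_right, not_lt]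
        exact (esb_le n k).trans (not_le.1 ht).le
      exact Function.notMem_support.1 h1
    rw [h0]
    simp

/-- the resolvent equation with continuous compactly supported right hand side -/
theorem esa_cs {n : ℕ} {V : Eu n → ℝ} (hV : ContDiff ℝ 2 V) {l : ℝ} (hl : 0 < l)
    {φ : Eu n → ℝ} (hφ : Continuous φ) (hφc : HasCompactSupport φ) {ε : ℝ} (hε : 0 < ε) :
    ∃ u : Eu n → ℝ, UC.TT u ∧ Ex V (fun x => (l * u x - LL V u x - φ x) ^ 2) ≤ ε := by
  have hV1 : ContDiff ℝ 1 V := hV.of_le (by norm_num)
  have hVc : Continuous V := hV1.continuous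
  obtain ⟨B, hB⟩ := hφc.exists_bound_of_continuous hφ
  obtain ⟨R, hR⟩ := hφc.isCompact.isBounded.exists_norm_le
  have hR' : ∀ x, R < ‖x‖ → φ x = 0 := fun x hx =>
    image_eq_zero_of_notMem_tsupport fun h => absurd (hR x h) (not_le.2 hx)
  have hB0 : 0 ≤ B := (norm_nonneg _).trans (hB 0)
  have hB' : ∀ x, |φ x| ≤ B := hB
  have hT : ∀ k, UC.TT (esm k φ) := fun k => esm_TT k hφ hφc
  have hlim : ∀ x, Tendsto (fun k => esm k φ x) atTop (𝓝 (φ x)) := fun x =>
    ContDiffBump.convolution_tendsto_right_of_continuous (esb_tendsto n) hφ x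
  have hdom : Tendsto (fun k => ∫ x, (esm k φ x - φ x) ^ 2 * Real.exp (-V x)) atTop
      (𝓝 (∫ x, (φ x - φ x) ^ 2 * Real.exp (-V x))) := by
    apply tendsto_integral_of_dominated_convergence
      ((Metric.closedBall (0 : Eu n) (R + 1)).indicator
        (fun x => (2 * B) ^ 2 * Real.exp (-V x)))
    · intro k
      exact ((((hT k).continuous.sub hφ).pow 2).mul
        (Real.continuous_exp.comp hVc.neg)).aestronglyMeasurable
    · rw [integrable_indicator_iff Metric.isClosed_closedBall.measurableSet]
      exact ((continuous_const.mul (Real.continuous_exp.comp hVc.neg)).continuousOn).integrableOn_compact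
        (isCompact_closedBall _ _)
    · intro k
      filter_upwards with x
      by_cases hx : x ∈ Metric.closedBall (0 : Eu n) (R + 1)
      · rw [indicator_of_mem hx, Real.norm_eq_abs, abs_mul, Real.abs_exp, abs_pow]
        refine mul_le_mul_of_nonneg_right (pow_le_pow_left₀ (abs_nonneg _) ?_ 2)
          (Real.exp_nonneg _)
        have h1 := abs_sub (esm k φ x) (φ x)
        have h2 := esm_bound k hB' x
        have h3 := hB' x
        linarith
      · rw [indicator_of_notMem hx]
        have hx' : R + 1 < ‖x‖ := by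
          simpa [Metric.mem_closedBall, dist_zero_right] using hx
        rw [esm_supp k hR' x hx', hR' x (by linarith)]
        simp
    · filter_upwards with x
      exact (((hlim x).sub_const _).pow 2).mul_const _
  have h0 : ∫ x, (φ x - φ x) ^ 2 * Real.exp (-V x) = 0 := by simp
  rw [h0] at hdom
  obtain ⟨k, hk⟩ := (hdom.eventually (gt_mem_nhds (show (0 : ℝ) < ε / 4 by positivity))).exists
  obtain ⟨u, hu, h⟩ := esa hV hl (hT k) (ε := ε / 4) (by positivity)
  refine ⟨u, hu, ?_⟩
  set r : Eu n → ℝ := fun x => l * u x - LL V u x - esm k φ x with hr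
  set s : Eu n → ℝ := fun x => esm k φ x - φ x with hs
  have hrc : Continuous r :=
    ((continuous_const.mul hu.continuous).sub (esa_LL_cont hV1 hu)).sub (hT k).continuous
  have hrs : HasCompactSupport r := by
    refine HasCompactSupport.intro (K := tsupport u ∪ tsupport (LL V u) ∪ tsupport (esm k φ))
      ((hu.cs.isCompact.union (esa_LL_cs V hu).isCompact).union (hT k).cs.isCompact) ?_
    intro x hx
    simp only [mem_union, not_or] at hx
    rw [hr]
    dsimp only
    rw [image_eq_zero_of_notMem_tsupport hx.1.1, image_eq_zero_of_notMem_tsupport hx.1.2,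
      image_eq_zero_of_notMem_tsupport hx.2]
    simp
  have hsc : Continuous s := (hT k).continuous.sub hφ
  have hss : HasCompactSupport s := (hT k).cs.sub hφc
  have hsq : ∀ {p : Eu n → ℝ}, Continuous p → HasCompactSupport p →
      Integrable (fun x => p x ^ 2 * Real.exp (-V x)) := by
    intro p hp hps
    refine int_cs hVc (hp.pow 2) ?_
    have : (fun x => p x ^ 2) = fun x => p x * p x := funext fun x => sq _
    rw [this]
    exact hps.mul_left
  have hid : ∀ x, l * u x - LL V u x - φ x = r x + s x := by
    intro x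
    rw [hr, hs]
    ring
  have hr4 : Ex V (fun x => r x ^ 2) ≤ ε / 4 := h
  have hs4 : Ex V (fun x => s x ^ 2) ≤ ε / 4 := hk.le
  calc Ex V (fun x => (l * u x - LL V u x - φ x) ^ 2)
      ≤ Ex V (fun x => 2 * (r x ^ 2 + s x ^ 2)) := by
        refine Ex_mono ?_ ?_ ?_
        · simp_rw [hid]
          exact hsq (hrc.add hsc) (hrs.add hss)
        · have h3 : (fun x => (2 : ℝ) * (r x ^ 2 + s x ^ 2) * Real.exp (-V x)) =
              fun x => (2 : ℝ) * (r x ^ 2 * Real.exp (-V x) + s x ^ 2 * Real.exp (-V x)) := by
            funext x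
            ring
          rw [h3]
          exact ((hsq hrc hrs).add (hsq hsc hss)).const_mul _
        · intro x
          rw [hid]
          nlinarith [sq_nonneg (r x - s x)]
    _ = 2 * (Ex V (fun x => r x ^ 2) + Ex V (fun x => s x ^ 2)) := by
        rw [Ex_const_mul, Ex_add (hsq hrc hrs) (hsq hsc hss)]
    _ ≤ ε := by linarith

end Pool.Agent.Lib.MP_6d896a_gt.CJ
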