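import Mathlib
import Pool.Agent.Lib.MP_6d896a_gt.CJ.Defs

/-!
Project CJ, stage 2 (rotation invariant tuples of vectors and matrices): definitions.
-/

set_option autoImplicit false
set_option linter.unusedSectionVars false

namespace Pool.Agent.Lib.MP_6d896a_gt.CJ

open MeasureTheory ProbabilityTheory Matrix Set Filter
open Pool.Agent.Lib.MP_6d896a_gt.OM Pool.Agent.Lib.MP_6d896a_gt.UC
open Pool.Agent.Lib.MP_6d896a_gt.UC.UR
open scoped ENNReal Topology

section mixed

variable {ι κ r : Type} [Fintype ι] [Fintype κ] [Fintype r] [DecidableEq r]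

/-- the space of pairs of a rectangular matrix and a tuple of square matrices -/
abbrev Mi (ι κ r : Type) [Fintype ι] [Fintype κ] [Fintype r] :=
  EuclideanSpace ℝ ((r × ι) ⊕ (κ × r × r))

/-- the rectangular matrix -/
def pB : Mi ι κ r →ₗ[ℝ] EuclideanSpace ℝ (r × ι) where
  toFun x := WithLp.toLp 2 fun p => x (Sum.inl p)
  map_add' x y := by ext p; simp
  map_smul' c x := by ext p; simp

@[simp] lemma pB_apply (x : Mi ι κ r) (p : r × ι) : pB x p = x (Sum.inl p) := rfl

/-- the tuple of square matrices -/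
def pA : Mi ι κ r →ₗ[ℝ] Tup κ r where
  toFun x := WithLp.toLp 2 fun p => x (Sum.inr p)
  map_add' x y := by ext p; simp
  map_smul' c x := by ext p; simp

@[simp] lemma pA_apply (x : Mi ι κ r) (p : κ × r × r) : pA x p = x (Sum.inr p) := rfl

/-- the pair -/
def mk2 (b : EuclideanSpace ℝ (r × ι)) (a : Tup κ r) : Mi ι κ r :=
  WithLp.toLp 2 (Sum.elim (fun p => b p) (fun p => a p))

@[simp] lemma pB_mk2 (b : EuclideanSpace ℝ (r × ι)) (a : Tup κ r) : pB (mk2 b a) = b := by
  ext p; rfl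

@[simp] lemma pA_mk2 (b : EuclideanSpace ℝ (r × ι)) (a : Tup κ r) : pA (mk2 b a) = a := by
  ext p; rfl

@[simp] lemma mk2_eta (x : Mi ι κ r) : mk2 (pB x) (pA x) = x := by
  ext p
  rcases p with p | p <;> rfl

lemma mi_ext {x y : Mi ι κ r} (h1 : pB x = pB y) (h2 : pA x = pA y) : x = y := by
  rw [← mk2_eta x, ← mk2_eta y, h1, h2]

lemma mk2_add (b b' : EuclideanSpace ℝ (r × ι)) (a a' : Tup κ r) :
    mk2 (b + b') (a + a') = mk2 b a + mk2 b' a' := mi_ext (by simp) (by simp)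

lemma mk2_smul (c : ℝ) (b : EuclideanSpace ℝ (r × ι)) (a : Tup κ r) :
    mk2 (c • b) (c • a) = c • mk2 b a := mi_ext (by simp) (by simp)

lemma inner_mi (x y : Mi ι κ r) :
    inner ℝ x y = inner ℝ (pB x) (pB y) + inner ℝ (pA x) (pA y) := by
  rw [PiLp.inner_apply, Fintype.sum_sum_type, PiLp.inner_apply, PiLp.inner_apply]
  rfl

lemma norm_mi (x : Mi ι κ r) : ‖x‖ ^ 2 = ‖pB x‖ ^ 2 + ‖pA x‖ ^ 2 := by
  rw [← real_inner_self_eq_norm_sq, ← real_inner_self_eq_norm_sq, ← real_inner_self_eq_norm_sq,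
    inner_mi]

/-- the action of a matrix -/
def mi (U : Matrix r r ℝ) : Mi ι κ r →ₗ[ℝ] Mi ι κ r where
  toFun x := mk2 (act U (pB x)) (cj U (pA x))
  map_add' x y := by rw [map_add, map_add, map_add, map_add, mk2_add]
  map_smul' c x := by rw [map_smul, map_smul, map_smul, map_smul, mk2_smul]; rfl

@[simp] lemma pB_mi (U : Matrix r r ℝ) (x : Mi ι κ r) : pB (mi U x) = act U (pB x) := pB_mk2 _ _

@[simp] lemma pA_mi (U : Matrix r r ℝ) (x : Mi ι κ r) : pA (mi U x) = cj U (pA x) := pA_mk2 _ _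

lemma mi_mul (U V : Matrix r r ℝ) (x : Mi ι κ r) : mi (U * V) x = mi U (mi V x) :=
  mi_ext (by simp [act_mul]) (by simp [cj_mul])

@[simp] lemma mi_one (x : Mi ι κ r) : mi (1 : Matrix r r ℝ) x = x :=
  mi_ext (by simp) (by simp)

/-- the action of an orthogonal matrix, as an isometry -/
noncomputable def miE (u : Matrix.orthogonalGroup r ℝ) : Mi ι κ r ≃ₗᵢ[ℝ] Mi ι κ r where
  toFun := mi (u : Matrix r r ℝ)
  invFun := mi (u : Matrix r r ℝ)ᵀ
  map_add' := map_add _
  map_smul' c x := by simp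
  left_inv x := by rw [← mi_mul, orth_left, mi_one]
  right_inv x := by rw [← mi_mul, orth_right, mi_one]
  norm_map' x := by
    change ‖mi (u : Matrix r r ℝ) x‖ = ‖x‖
    have h : ‖mi (u : Matrix r r ℝ) x‖ ^ 2 = ‖x‖ ^ 2 := by
      rw [norm_mi, norm_mi x, pB_mi, pA_mi, norm_act]
      have h2 : ‖cj (u : Matrix r r ℝ) (pA x)‖ = ‖pA x‖ := (cjE u).norm_map (pA x)
      rw [h2]
    exact (pow_left_inj₀ (norm_nonneg _) (norm_nonneg _) (by norm_num)).mp h

@[simp] lemma miE_apply (u : Matrix.orthogonalGroup r ℝ) (x : Mi ι κ r) :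
    miE u x = mi (u : Matrix r r ℝ) x := rfl

/-- the square matrices have trace zero -/
def TZ (ι κ r : Type) [Fintype ι] [Fintype κ] [Fintype r] : Submodule ℝ (Mi ι κ r) :=
  (TrZ κ r).comap pA

lemma mem_TZ {x : Mi ι κ r} : x ∈ TZ ι κ r ↔ pA x ∈ TrZ κ r := Iff.rfl

lemma mi_mem_TZ (u : Matrix.orthogonalGroup r ℝ) {x : Mi ι κ r} (hx : x ∈ TZ ι κ r) :
    mi (u : Matrix r r ℝ) x ∈ TZ ι κ r := by
  rw [mem_TZ, pA_mi]
  exact cj_mem_TrZ u hx

/-- dimension -/
noncomputable abbrev dM (ι κ r : Type) [Fintype ι] [Fintype κ] [Fintype r] : ℕ :=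
  Module.finrank ℝ (TZ ι κ r)

/-- orthonormal coordinates -/
noncomputable def JM (ι κ r : Type) [Fintype ι] [Fintype κ] [Fintype r] :
    Eu (dM ι κ r) ≃ₗᵢ[ℝ] TZ ι κ r :=
  (stdOrthonormalBasis ℝ (TZ ι κ r)).repr.symm

/-- the pair with given coordinates -/
noncomputable def jm : Eu (dM ι κ r) →ₗᵢ[ℝ] Mi ι κ r :=
  (TZ ι κ r).subtypeₗᵢ.comp (JM ι κ r).toLinearIsometry

lemma jm_mem (x : Eu (dM ι κ r)) : (jm x : Mi ι κ r) ∈ TZ ι κ r := (JM ι κ r x).2

lemma jm_surj {y : Mi ι κ r} (hy : y ∈ TZ ι κ r) : ∃ x : Eu (dM ι κ r), (jm x : Mi ι κ r) = y :=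
  ⟨(JM ι κ r).symm ⟨y, hy⟩, by
    show ((JM ι κ r ((JM ι κ r).symm ⟨y, hy⟩) : TZ ι κ r) : Mi ι κ r) = y
    rw [LinearIsometryEquiv.apply_symm_apply]⟩

/-- the action of an orthogonal matrix on the subspace -/
noncomputable def miW (u : Matrix.orthogonalGroup r ℝ) : TZ ι κ r ≃ₗᵢ[ℝ] TZ ι κ r where
  toFun x := ⟨mi (u : Matrix r r ℝ) x, mi_mem_TZ u x.2⟩
  invFun x := ⟨mi (u : Matrix r r ℝ)ᵀ x, by
    have h := mi_mem_TZ u⁻¹ x.2
    rwa [coe_inv_orth] at h⟩
  map_add' x y := by ext1; simp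
  map_smul' c x := by ext1; simp
  left_inv x := by
    ext1
    simp only
    rw [← mi_mul, orth_left, mi_one]
  right_inv x := by
    ext1
    simp only
    rw [← mi_mul, orth_right, mi_one]
  norm_map' x := (miE u).norm_map (x : Mi ι κ r)

lemma miW_coe (u : Matrix.orthogonalGroup r ℝ) (x : TZ ι κ r) :
    ((miW u x : TZ ι κ r) : Mi ι κ r) = mi (u : Matrix r r ℝ) (x : Mi ι κ r) := rfl

lemma continuous_mi : Continuous fun p : Matrix r r ℝ × Mi ι κ r => mi p.1 p.2 := by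
  have hB : Continuous (pB : Mi ι κ r →ₗ[ℝ] EuclideanSpace ℝ (r × ι)) :=
    LinearMap.continuous_of_finiteDimensional _
  have hA : Continuous (pA : Mi ι κ r →ₗ[ℝ] Tup κ r) := LinearMap.continuous_of_finiteDimensional _
  have h1 : Continuous fun p : Matrix r r ℝ × Mi ι κ r => act p.1 (pB p.2) :=
    continuous_act.comp (continuous_fst.prodMk (hB.comp continuous_snd))
  have h2 : Continuous fun p : Matrix r r ℝ × Mi ι κ r => cj p.1 (pA p.2) :=
    continuous_cj.comp (continuous_fst.prodMk (hA.comp continuous_snd))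
  have h : (fun p : Matrix r r ℝ × Mi ι κ r => mi p.1 p.2) =
      fun p : Matrix r r ℝ × Mi ι κ r => WithLp.toLp 2 (Sum.elim
        (fun q => act p.1 (pB p.2) q) (fun q => cj p.1 (pA p.2) q)) := rfl
  rw [h]
  refine (PiLp.continuous_toLp 2 _).comp (continuous_pi fun q => ?_)
  rcases q with q | q
  · exact (PiLp.continuous_apply 2 _ q).comp h1
  · exact (PiLp.continuous_apply 2 _ q).comp h2

/-- the action of the rotations -/
noncomputable def miAct (ι κ r : Type) [Fintype ι] [Fintype κ] [Fintype r] [DecidableEq r] :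
    Act r (dM ι κ r) where
  ρ :=
    { toFun := fun g =>
        ((JM ι κ r).trans (miW (g : Matrix.orthogonalGroup r ℝ))).trans (JM ι κ r).symm
      map_one' := by
        ext1 x
        show (JM ι κ r).symm (miW ((1 : RotG r) : Matrix.orthogonalGroup r ℝ) (JM ι κ r x)) = x
        rw [LinearIsometryEquiv.symm_apply_eq]
        ext1
        rw [miW_coe]
        simp
      map_mul' := by
        intro g h
        ext1 x
        show (JM ι κ r).symm (miW ((g * h : RotG r) : Matrix.orthogonalGroup r ℝ) (JM ι κ r x)) =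
          (JM ι κ r).symm (miW (g : Matrix.orthogonalGroup r ℝ) (JM ι κ r ((JM ι κ r).symm
            (miW (h : Matrix.orthogonalGroup r ℝ) (JM ι κ r x)))))
        rw [LinearIsometryEquiv.apply_symm_apply]
        congr 1
        ext1
        rw [miW_coe, miW_coe, miW_coe, Subgroup.coe_mul, Submonoid.coe_mul, mi_mul] }
  cont := by
    have h1 : Continuous fun p : RotG r × Eu (dM ι κ r) =>
        (⟨mi (((p.1 : RotG r) : Matrix.orthogonalGroup r ℝ) : Matrix r r ℝ) (JM ι κ r p.2),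
          mi_mem_TZ _ (JM ι κ r p.2).2⟩ : TZ ι κ r) := by
      refine Continuous.subtype_mk ?_ _
      have h2 : Continuous fun p : RotG r × Eu (dM ι κ r) =>
          ((((p.1 : RotG r) : Matrix.orthogonalGroup r ℝ) : Matrix r r ℝ),
            (JM ι κ r p.2 : Mi ι κ r)) := by
        have h3 : Continuous (JM ι κ r) := (JM ι κ r).continuous
        fun_prop
      exact continuous_mi.comp h2
    exact (JM ι κ r).symm.continuous.comp h1

lemma jm_act (g : RotG r) (x : Eu (dM ι κ r)) :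
    (jm ((miAct ι κ r).ρ g x) : Mi ι κ r) =
      mi ((g : Matrix.orthogonalGroup r ℝ) : Matrix r r ℝ) (jm x) := by
  show ((JM ι κ r ((JM ι κ r).symm (miW (g : Matrix.orthogonalGroup r ℝ) (JM ι κ r x))) :
    TZ ι κ r) : Mi ι κ r) = _
  rw [LinearIsometryEquiv.apply_symm_apply]
  rfl

variable [DecidableEq ι]

/-- operator norm of a rectangular matrix -/
noncomputable def opB (y : EuclideanSpace ℝ (r × ι)) : ℝ :=
  ‖LinearMap.toContinuousLinearMap (Matrix.toEuclideanLin (mt y))‖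

/-- the weight -/
noncomputable def cM (ι κ r : Type) [Fintype ι] [Fintype κ] [Fintype r] [DecidableEq r]
    [DecidableEq ι] (x : Eu (dM ι κ r)) : ℝ :=
  32 / ((Fintype.card r : ℝ) - 2) * (opB (pB (jm x)) ^ 2 + ∑ l, opn (mx l (pA (jm x))) ^ 2)

end mixed

end Pool.Agent.Lib.MP_6d896a_gt.CJ
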