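import Mathlib
import Pool.Agent.Lib.MP_6d896a_gt.CJ.MDefs
import Pool.Agent.Lib.MP_6d896a_gt.Ex18

/-!
Project CJ, stage 2: from all tuples of vectors and matrices to the part without fixed vectors.
-/

set_option autoImplicit false
set_option linter.unusedSectionVars false

namespace Pool.Agent.Lib.MP_6d896a_gt.CJ

open MeasureTheory ProbabilityTheory Matrix Set Filter
open Pool.Agent.Lib.MP_6d896a_gt.OM Pool.Agent.Lib.MP_6d896a_gt.UC
open Pool.Agent.Lib.MP_6d896a_gt.UC.UR
open scoped ENNReal Topology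

section full

variable {δ ι κ r : Type} [Fintype δ] [Fintype ι] [Fintype κ] [Fintype r] [DecidableEq r]

/-- the space with fixed coordinates -/
abbrev Fd (δ ι κ r : Type) [Fintype δ] [Fintype ι] [Fintype κ] [Fintype r] :=
  EuclideanSpace ℝ (δ ⊕ ((r × ι) ⊕ (κ × r × r)))

/-- the part without the fixed coordinates -/
def pM : Fd δ ι κ r →ₗ[ℝ] Mi ι κ r where
  toFun x := WithLp.toLp 2 fun p => x (Sum.inr p)
  map_add' x y := by ext p; simp
  map_smul' c x := by ext p; simp

@[simp] lemma pM_apply (x : Fd δ ι κ r) (p : (r × ι) ⊕ (κ × r × r)) : pM x p = x (Sum.inr p) := rfl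

/-- the action of a matrix -/
def fi (U : Matrix r r ℝ) : Fd δ ι κ r →ₗ[ℝ] Fd δ ι κ r where
  toFun x := WithLp.toLp 2 (Sum.elim (fun a => x (Sum.inl a)) (fun q => mi U (pM x) q))
  map_add' x y := by
    ext p
    rcases p with p | p
    · simp
    · simp
  map_smul' c x := by
    ext p
    rcases p with p | p
    · simp
    · simp

@[simp] lemma fi_inl (U : Matrix r r ℝ) (x : Fd δ ι κ r) (a : δ) :
    fi U x (Sum.inl a) = x (Sum.inl a) := rfl

@[simp] lemma pM_fi (U : Matrix r r ℝ) (x : Fd δ ι κ r) : pM (fi U x) = mi U (pM x) := by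
  ext p
  rfl

lemma fd_ext {x y : Fd δ ι κ r} (h1 : ∀ a, x (Sum.inl a) = y (Sum.inl a)) (h2 : pM x = pM y) :
    x = y := by
  ext p
  rcases p with p | p
  · exact h1 p
  · exact congrArg (fun z : Mi ι κ r => z p) h2

lemma fi_mul (U V : Matrix r r ℝ) (x : Fd δ ι κ r) : fi (U * V) x = fi U (fi V x) :=
  fd_ext (by simp) (by simp [mi_mul])

@[simp] lemma fi_one (x : Fd δ ι κ r) : fi (1 : Matrix r r ℝ) x = x :=
  fd_ext (by simp) (by simp)

lemma norm_fd (x : Fd δ ι κ r) : ‖x‖ ^ 2 = ∑ a, x (Sum.inl a) ^ 2 + ‖pM x‖ ^ 2 := by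
  rw [EuclideanSpace.norm_sq_eq, EuclideanSpace.norm_sq_eq, Fintype.sum_sum_type]
  simp

/-- the action of an orthogonal matrix, as an isometry -/
noncomputable def fiE (u : Matrix.orthogonalGroup r ℝ) : Fd δ ι κ r ≃ₗᵢ[ℝ] Fd δ ι κ r where
  toFun := fi (u : Matrix r r ℝ)
  invFun := fi (u : Matrix r r ℝ)ᵀ
  map_add' := map_add _
  map_smul' c x := by simp
  left_inv x := by rw [← fi_mul, orth_left, fi_one]
  right_inv x := by rw [← fi_mul, orth_right, fi_one]
  norm_map' x := by
    change ‖fi (u : Matrix r r ℝ) x‖ = ‖x‖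
    have h : ‖fi (u : Matrix r r ℝ) x‖ ^ 2 = ‖x‖ ^ 2 := by
      rw [norm_fd, norm_fd x, pM_fi]
      have h2 : ‖mi (u : Matrix r r ℝ) (pM x)‖ = ‖pM x‖ := (miE u).norm_map (pM x)
      rw [h2]
      rfl
    exact (pow_left_inj₀ (norm_nonneg _) (norm_nonneg _) (by norm_num)).mp h

@[simp] lemma fiE_apply (u : Matrix.orthogonalGroup r ℝ) (x : Fd δ ι κ r) :
    fiE u x = fi (u : Matrix r r ℝ) x := rfl

/-- removing the traces -/
noncomputable def tzA : Tup κ r →ₗ[ℝ] Tup κ r where
  toFun a := tup fun l : κ => mx l a - ((mx l a).trace / Fintype.card r) • (1 : Matrix r r ℝ)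
  map_add' x y := by
    ext p
    simp only [map_add, Matrix.trace_add, add_div, add_smul, tup_apply, PiLp.add_apply,
      Matrix.sub_apply, Matrix.add_apply, Matrix.smul_apply]
    ring
  map_smul' c x := by
    ext p
    simp only [map_smul, Matrix.trace_smul, smul_eq_mul, mul_div_assoc, mul_smul, tup_apply,
      PiLp.smul_apply, Matrix.sub_apply, Matrix.smul_apply, RingHom.id_apply]
    ring

lemma mx_tzA (l : κ) (a : Tup κ r) :
    mx l (tzA a) = mx l a - ((mx l a).trace / Fintype.card r) • (1 : Matrix r r ℝ) := by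
  show mx l (tup (κ := κ) (r := r) fun l => mx l a - ((mx l a).trace / Fintype.card r) •
    (1 : Matrix r r ℝ)) = _
  rw [mx_tup]

lemma tzA_mem (hr : 0 < Fintype.card r) (a : Tup κ r) : tzA a ∈ TrZ κ r := by
  rw [mem_TrZ]
  intro l
  rw [mx_tzA, Matrix.trace_sub, Matrix.trace_smul, Matrix.trace_one, smul_eq_mul]
  have : (Fintype.card r : ℝ) ≠ 0 := by positivity
  field_simp
  ring

lemma tup_ext {a b : Tup κ r} (h : ∀ l, mx l a = mx l b) : a = b := by
  rw [← tup_mx a, ← tup_mx b]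
  congr 1
  funext l
  exact h l

lemma tzA_cj (u : Matrix.orthogonalGroup r ℝ) (a : Tup κ r) :
    tzA (cj (u : Matrix r r ℝ) a) = cj (u : Matrix r r ℝ) (tzA a) := by
  refine tup_ext fun l => ?_
  rw [mx_tzA, mx_cj, mx_cj, mx_tzA, Matrix.mul_sub, Matrix.sub_mul, Matrix.mul_smul,
    Matrix.mul_one, Matrix.smul_mul, orth_right, Matrix.trace_mul_comm, ← Matrix.mul_assoc,
    orth_left, Matrix.one_mul]

/-- the linear map to the part without fixed vectors -/
noncomputable def QM (hr : 0 < Fintype.card r) : Fd δ ι κ r →ₗ[ℝ] Eu (dM ι κ r) :=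
  (JM ι κ r).symm.toLinearEquiv.toLinearMap ∘ₗ
    (LinearMap.codRestrict (TZ ι κ r)
      ({ toFun := fun x => mk2 (pB (pM x)) (tzA (pA (pM x)))
         map_add' := fun x y => by rw [map_add, map_add, map_add, map_add, mk2_add]
         map_smul' := fun c x => by
          rw [map_smul, map_smul, map_smul, map_smul, mk2_smul]; rfl } :
        Fd δ ι κ r →ₗ[ℝ] Mi ι κ r)
      (fun x => by
        rw [mem_TZ]
        show pA (mk2 _ _) ∈ _
        rw [pA_mk2]
        exact tzA_mem hr _))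

lemma jm_QM (hr : 0 < Fintype.card r) (x : Fd δ ι κ r) :
    (jm (QM hr x) : Mi ι κ r) = mk2 (pB (pM x)) (tzA (pA (pM x))) := by
  show ((JM ι κ r ((JM ι κ r).symm _) : TZ ι κ r) : Mi ι κ r) = _
  rw [LinearIsometryEquiv.apply_symm_apply]
  rfl

lemma QM_act (hr : 0 < Fintype.card r) (g : RotG r) (x : Fd δ ι κ r) :
    QM hr (fi ((g : Matrix.orthogonalGroup r ℝ) : Matrix r r ℝ) x) =
      (miAct ι κ r).ρ g (QM hr x) := by
  apply (jm (ι := ι) (κ := κ) (r := r)).injective
  rw [jm_act, jm_QM, jm_QM]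
  refine mi_ext ?_ ?_
  · rw [pB_mk2, pB_mi, pB_mk2, pM_fi, pB_mi]
  · rw [pA_mk2, pA_mi, pA_mk2, pM_fi, pA_mi, tzA_cj]

lemma QM_ker (hr : 0 < Fintype.card r) :
    Module.finrank ℝ (LinearMap.ker (QM (δ := δ) (ι := ι) (κ := κ) (r := r) hr)) ≤
      Fintype.card δ + Fintype.card κ := by
  set L : LinearMap.ker (QM (δ := δ) (ι := ι) (κ := κ) (r := r) hr) →ₗ[ℝ] (δ ⊕ κ → ℝ) :=
    { toFun := fun x => Sum.elim (fun a => (x : Fd δ ι κ r) (Sum.inl a))
        (fun l => (mx l (pA (pM (x : Fd δ ι κ r)))).trace)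
      map_add' := fun x y => by
        funext p
        rcases p with p | p
        · simp
        · simp
      map_smul' := fun c x => by
        funext p
        rcases p with p | p
        · simp
        · simp } with hL
  have hinj : Function.Injective L := by
    rw [injective_iff_map_eq_zero]
    rintro ⟨x, hx⟩ h
    have h1 : QM hr x = 0 := hx
    have h2 : mk2 (pB (pM x)) (tzA (pA (pM x))) = (0 : Mi ι κ r) := by
      rw [← jm_QM hr x, h1, map_zero]
    have h3 : pB (pM x) = 0 := by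
      have := congrArg pB h2
      rwa [pB_mk2, map_zero] at this
    have h4 : tzA (pA (pM x)) = 0 := by
      have := congrArg pA h2
      rwa [pA_mk2, map_zero] at this
    have h5 : pA (pM x) = 0 := by
      refine tup_ext fun l => ?_
      have h6 := congrArg (mx l) h4
      rw [mx_tzA, map_zero] at h6
      have h7 : (mx l (pA (pM x))).trace = 0 := congrFun h (Sum.inr l)
      rw [h7, zero_div, zero_smul, sub_zero] at h6
      rw [h6, map_zero]
    apply Subtype.ext
    refine fd_ext (fun a => congrFun h (Sum.inl a)) ?_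
    show pM x = pM 0
    rw [map_zero]
    exact mi_ext (by rw [h3, map_zero]) (by rw [h5, map_zero])
  have h := LinearMap.finrank_le_finrank_of_injective hinj
  rwa [Module.finrank_fintype_fun_eq_card, Fintype.card_sum] at h

lemma QM_surj (hr : 0 < Fintype.card r) :
    Function.Surjective (QM (δ := δ) (ι := ι) (κ := κ) (r := r) hr) := by
  intro y
  refine ⟨WithLp.toLp 2 (Sum.elim (fun _ => 0) (fun q => (jm y : Mi ι κ r) q)), ?_⟩
  apply (jm (ι := ι) (κ := κ) (r := r)).injective
  rw [jm_QM]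
  have h1 : pM (WithLp.toLp 2 (Sum.elim (fun _ : δ => (0 : ℝ)) (fun q => (jm y : Mi ι κ r) q)) :
      Fd δ ι κ r) = jm y := by
    ext p
    rfl
  rw [h1]
  refine mi_ext (by rw [pB_mk2]) ?_
  rw [pA_mk2]
  refine tup_ext fun l => ?_
  rw [mx_tzA, mem_TrZ.1 (mem_TZ.1 (jm_mem y)) l, zero_div, zero_smul, sub_zero]

end full

section noise

variable {E : Type} [NormedAddCommGroup E] [InnerProductSpace ℝ E] [FiniteDimensional ℝ E]
  [MeasurableSpace E] [BorelSpace E]

lemma fG_iso {O : E ≃ₗᵢ[ℝ] E} {μ : Measure E} (h : μ.map O = μ) (d : ℝ) (x : E) :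
    FP.fG μ d (O x) = FP.fG μ d x := by
  unfold FP.fG
  have hk : Continuous (fun z : E => gk d (O x - z)) :=
    (gk_continuous d).comp (continuous_const.sub continuous_id)
  conv_lhs => rw [← h]
  rw [integral_map O.continuous.measurable.aemeasurable hk.aestronglyMeasurable]
  congr 1
  funext z
  rw [← map_sub]
  unfold gk
  rw [LinearIsometryEquiv.norm_map]

lemma cv_iso {O : E ≃ₗᵢ[ℝ] E} {μ : Measure E} [IsProbabilityMeasure μ] (h : μ.map O = μ) {t : ℝ}
    (ht : 0 < t) : (FP.cv μ t).map O = FP.cv μ t := by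
  have hd : (0 : ℝ) < 1 / (2 * t ^ 2) := by positivity
  rw [FP.cv_eq ht rfl]
  have hm : Measurable (O : E → E) := O.continuous.measurable
  ext s hs
  rw [Measure.map_apply hm hs, withDensity_apply _ (hm hs), withDensity_apply _ hs,
    ← (O.measurePreserving).setLIntegral_comp_preimage hs FP.fG_measurable.ennreal_ofReal]
  refine setLIntegral_congr_fun (hm hs) fun x _ => ?_
  rw [fG_iso h]

lemma cv_prob (μ : Measure E) [IsProbabilityMeasure μ] (t : ℝ) :
    IsProbabilityMeasure (FP.cv μ t) := by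
  unfold FP.cv
  exact Measure.isProbabilityMeasure_map (by fun_prop)

lemma cv_ac (μ : Measure E) [IsProbabilityMeasure μ] {t : ℝ} (ht : 0 < t) :
    FP.cv μ t ≪ volume := by
  rw [FP.cv_eq ht rfl]
  exact withDensity_absolutelyContinuous _ _

lemma cv_plm {μ : Measure E} [IsProbabilityMeasure μ] (hpl : FP.PLm μ) {t : ℝ} (ht : 0 < t) :
    FP.PLm (FP.cv μ t) := by
  have hd : (0 : ℝ) < 1 / (2 * t ^ 2) := by positivity
  have h0 : (∫⁻ x, ENNReal.ofReal (FP.fG μ (1 / (2 * t ^ 2)) x)) = 1 := by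
    have h1 := (cv_prob μ t).measure_univ
    rw [FP.cv_eq ht rfl, withDensity_apply _ MeasurableSet.univ, Measure.restrict_univ] at h1
    exact h1
  have hdens : FP.cv μ t = FP.dens (FP.fG μ (1 / (2 * t ^ 2))) := by
    unfold FP.dens
    rw [h0, inv_one, one_smul, FP.cv_eq ht rfl]
  rw [hdens]
  have hlc : FP.LCd (FP.fG μ (1 / (2 * t ^ 2))) := by
    refine ⟨fun x => integral_nonneg fun z => (gk_pos hd _).le, FP.fG_measurable,
      fun x y a b ha hb hab => ?_⟩
    have := FP.fG_logconcave hd hpl x y hb (by linarith : b < 1)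
    rwa [show 1 - b = a by linarith] at this
  exact hlc.plm (by rw [h0]; simp) (by rw [h0]; simp)

end noise

end Pool.Agent.Lib.MP_6d896a_gt.CJ
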