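import Mathlib
import Pool.Agent.Lib.MP_6d896a_gt.CJ.MProj
import Pool.Agent.Lib.MP_6d896a_gt.CJ.DimAP
import Pool.Agent.Lib.MP_6d896a_gt.FP.Image
import Pool.Agent.Lib.MP_6d896a_gt.FP.Codim
import Pool.Agent.Lib.MP_6d896a_gt.OM.Main

/-!
Project CJ, stage 2: the final statement, given the inequality for the part without fixed vectors
and the bound for marginals of small codimension.
-/

set_option autoImplicit false
set_option linter.unusedSectionVars false

namespace Pool.Agent.Lib.MP_6d896a_gt.CJ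

open MeasureTheory ProbabilityTheory Matrix Set Filter
open Pool.Agent.Lib.MP_6d896a_gt.OM Pool.Agent.Lib.MP_6d896a_gt.UC
open Pool.Agent.Lib.MP_6d896a_gt.UC.UR
open scoped ENNReal Topology

/-- marginals of small codimension -/
def CodimStat (C : ℝ) : Prop :=
  ∀ (E : Type) [NormedAddCommGroup E] [InnerProductSpace ℝ E] [FiniteDimensional ℝ E]
    [MeasurableSpace E] [BorelSpace E] (m : ℕ) (P : E →ₗ[ℝ] Eu m) (ν : Measure E)
    [IsProbabilityMeasure ν], FP.PLm ν → ∀ K : ℝ, 0 < K →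
    FP.AP (ν.map P) K → FP.AP ν (C * (K + Module.finrank ℝ (LinearMap.ker P)))

theorem codimStat : ∃ C : ℝ, 0 < C ∧ CodimStat C := by
  obtain ⟨C, hC, h⟩ := FP.ap_codim
  refine ⟨C, by linarith, ?_⟩
  intro E _ _ _ _ _ m P ν _ hpl K hK hAP
  set e : E ≃L[ℝ] Eu (Module.finrank ℝ E) :=
    (stdOrthonormalBasis ℝ E).repr.toContinuousLinearEquiv with he
  have hem : Measurable (e : E → Eu (Module.finrank ℝ E)) := e.continuous.measurable
  have hprob : IsProbabilityMeasure (ν.map e) := Measure.isProbabilityMeasure_map hem.aemeasurable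
  set P' : Eu (Module.finrank ℝ E) →L[ℝ] Eu m :=
    LinearMap.toContinuousLinearMap (P ∘ₗ e.symm.toLinearEquiv.toLinearMap) with hP'
  have hmap : (ν.map e).map P' = ν.map P := by
    rw [Measure.map_map P'.continuous.measurable hem]
    congr 1
    funext x
    show P (e.symm (e x)) = P x
    rw [e.symm_apply_apply]
  have h1 := h (Module.finrank ℝ E) m (ν.map e) (hpl.map e.toLinearEquiv.toLinearMap hem) P' K hK
    (by rw [hmap]; exact hAP)
  refine OM.AP_comp e (FP.AP.mono h1 (le_of_eq ?_))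
  have h2 : Module.finrank ℝ (LinearMap.ker (P' : Eu (Module.finrank ℝ E) →ₗ[ℝ] Eu m)) =
      Module.finrank ℝ (LinearMap.ker P) := by
    refine (LinearEquiv.finrank_eq (LinearEquiv.ofSubmodules e.symm.toLinearEquiv
      (LinearMap.ker (P' : Eu (Module.finrank ℝ E) →ₗ[ℝ] Eu m)) (LinearMap.ker P) ?_))
    ext x
    constructor
    · rintro ⟨y, hy, rfl⟩
      exact hy
    · intro hx
      refine ⟨e x, ?_, e.symm_apply_apply x⟩
      show P (e.symm (e x)) = 0
      rw [e.symm_apply_apply]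
      exact hx
  rw [h2]

/-- the inequality without fixed directions -/
def MiStat (C : ℝ) : Prop :=
  ∀ (ι κ r : Type) [Fintype ι] [Fintype κ] [Fintype r]
    [DecidableEq r] [DecidableEq ι] (ν : Measure (Eu (dM ι κ r))) [IsProbabilityMeasure ν],
    4 ≤ Fintype.card r → FP.PLm ν → ν ≪ volume → (miAct ι κ r).Inv ν →
    FP.AP ν (C * (1 + Fintype.card κ + (Fintype.card ι : ℝ) / Fintype.card r))

/-- the parameter -/
noncomputable def par (δ ι κ r : Type) [Fintype δ] [Fintype ι] [Fintype κ] [Fintype r] : ℝ :=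
  1 + Fintype.card δ + Fintype.card κ + (Fintype.card ι : ℝ) / Fintype.card r

lemma par_one (δ ι κ r : Type) [Fintype δ] [Fintype ι] [Fintype κ] [Fintype r] :
    1 ≤ par δ ι κ r := by
  unfold par
  have h1 : (0 : ℝ) ≤ Fintype.card δ := by positivity
  have h2 : (0 : ℝ) ≤ Fintype.card κ := by positivity
  have h3 : (0 : ℝ) ≤ (Fintype.card ι : ℝ) / Fintype.card r := by positivity
  linarith

private lemma map_ac {E F : Type} [NormedAddCommGroup E] [InnerProductSpace ℝ E]
    [FiniteDimensional ℝ E] [MeasurableSpace E] [BorelSpace E] [NormedAddCommGroup F]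
    [InnerProductSpace ℝ F] [FiniteDimensional ℝ F] [MeasurableSpace F] [BorelSpace F]
    (P : E →ₗ[ℝ] F) (hP : Function.Surjective P) {ν : Measure E} (hac : ν ≪ volume) :
    ν.map P ≪ volume := by
  have hm : Measurable (P : E → F) := P.continuous_of_finiteDimensional.measurable
  obtain ⟨c, _, hc⟩ := LinearMap.exists_map_addHaar_eq_smul_addHaar P (volume : Measure E)
    (volume : Measure F) hP
  refine (hac.map hm).trans ?_
  rw [hc]
  exact Measure.smul_absolutelyContinuous

theorem fd_ap {C0 C1 : ℝ} (hC0 : 0 < C0) (hC1 : 0 < C1) (hcod : CodimStat C0)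
    (hmi : MiStat C1) : ∃ D : ℝ, 1 ≤ D ∧
    ∀ (δ ι κ r : Type) [Fintype δ] [Fintype ι] [Fintype κ] [Fintype r] [DecidableEq r]
      [DecidableEq ι]
      (μ : Measure (Fd δ ι κ r)) [IsProbabilityMeasure μ], FP.PLm μ →
      (∀ g : RotG r, μ.map (fi ((g : Matrix.orthogonalGroup r ℝ) : Matrix r r ℝ)) = μ) →
      FP.AP μ (D * par δ ι κ r) := by
  obtain ⟨C2, hC2, hdim⟩ := ap_dim
  refine ⟨1 + C0 * (C1 + 2) + 9 * C2, by nlinarith [mul_pos hC0 hC1], ?_⟩
  intro δ ι κ r _ _ _ _ _ _ μ _ hpl hinv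
  have hpar := par_one δ ι κ r
  have hD0 : 0 < 1 + C0 * (C1 + 2) + 9 * C2 := by nlinarith [mul_pos hC0 hC1]
  refine EX.ap_of_cv hpl.sq_integrable (by positivity) fun t ht => ?_
  have hprob := cv_prob μ t
  have hpl' := cv_plm hpl ht
  have hac' := cv_ac μ ht
  have hδ : (0 : ℝ) ≤ Fintype.card δ := by positivity
  have hκ : (0 : ℝ) ≤ Fintype.card κ := by positivity
  have hι : (0 : ℝ) ≤ (Fintype.card ι : ℝ) / Fintype.card r := by positivity
  rcases Nat.lt_or_ge (Fintype.card r) 4 with hr | hr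
  · have h1 := hdim (Fd δ ι κ r) (FP.cv μ t) hpl' hac'
      (Fintype.card δ + (Fintype.card r * Fintype.card ι +
        Fintype.card κ * (Fintype.card r * Fintype.card r))) (by
        rw [finrank_euclideanSpace, Fintype.card_sum, Fintype.card_sum, Fintype.card_prod,
          Fintype.card_prod, Fintype.card_prod])
    refine FP.AP.mono h1 ?_
    have hr9 : (Fintype.card r : ℝ) * Fintype.card r ≤ 9 := by
      have : (Fintype.card r : ℝ) ≤ 3 := by exact_mod_cast (by omega : Fintype.card r ≤ 3)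
      have h0 : (0 : ℝ) ≤ Fintype.card r := by positivity
      nlinarith
    have hrι : (Fintype.card r : ℝ) * Fintype.card ι ≤
        9 * ((Fintype.card ι : ℝ) / Fintype.card r) := by
      rcases Nat.eq_zero_or_pos (Fintype.card r) with h0 | h0
      · rw [h0]; simp
      · have h0' : (0 : ℝ) < Fintype.card r := by exact_mod_cast h0
        have e : (Fintype.card r : ℝ) * Fintype.card ι =
            (Fintype.card r * Fintype.card r) * ((Fintype.card ι : ℝ) / Fintype.card r) := by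
          field_simp
        rw [e]
        exact mul_le_mul_of_nonneg_right hr9 hι
    have hκr : (Fintype.card κ : ℝ) * (Fintype.card r * Fintype.card r) ≤ 9 * Fintype.card κ := by
      nlinarith
    push_cast
    have h2 : C2 * ((Fintype.card δ : ℝ) + ((Fintype.card r : ℝ) * Fintype.card ι +
        Fintype.card κ * (Fintype.card r * Fintype.card r)) + 1) ≤ C2 * (9 * par δ ι κ r) := by
      refine mul_le_mul_of_nonneg_left ?_ hC2.le
      unfold par
      linarith
    refine h2.trans ?_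
    have h3 : 0 ≤ (1 + C0 * (C1 + 2)) * par δ ι κ r := by positivity
    nlinarith
  · have hr0 : 0 < Fintype.card r := by omega
    have hQm : Measurable (QM (δ := δ) (ι := ι) (κ := κ) (r := r) hr0 :
        Fd δ ι κ r → Eu (dM ι κ r)) :=
      (QM hr0).continuous_of_finiteDimensional.measurable
    have hprob' : IsProbabilityMeasure ((FP.cv μ t).map
        (QM (δ := δ) (ι := ι) (κ := κ) (r := r) hr0)) :=
      Measure.isProbabilityMeasure_map hQm.aemeasurable
    have hinv' : (miAct ι κ r).Inv ((FP.cv μ t).map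
        (QM (δ := δ) (ι := ι) (κ := κ) (r := r) hr0)) := by
      intro g
      rw [Measure.map_map ((miAct ι κ r).ρ g).continuous.measurable hQm]
      have h1 : (⇑((miAct ι κ r).ρ g) ∘ ⇑(QM (δ := δ) (ι := ι) (κ := κ) (r := r) hr0)) =
          (⇑(QM (δ := δ) (ι := ι) (κ := κ) (r := r) hr0) ∘
            ⇑(fi (δ := δ) (ι := ι) (κ := κ)
              ((g : Matrix.orthogonalGroup r ℝ) : Matrix r r ℝ))) := by
        funext x
        exact (QM_act hr0 g x).symm
      have hfm : Measurable (fi (δ := δ) (ι := ι) (κ := κ)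
          ((g : Matrix.orthogonalGroup r ℝ) : Matrix r r ℝ) : Fd δ ι κ r → Fd δ ι κ r) :=
        (fi _).continuous_of_finiteDimensional.measurable
      rw [h1, ← Measure.map_map hQm hfm]
      have h2 : (FP.cv μ t).map (fiE (g : Matrix.orthogonalGroup r ℝ)) = FP.cv μ t :=
        cv_iso (hinv g) ht
      exact congrArg (fun m => Measure.map (QM hr0) m) h2
    have h1 := hmi ι κ r ((FP.cv μ t).map (QM (δ := δ) (ι := ι) (κ := κ) (r := r) hr0)) hr
      (hpl'.map _ hQm) (map_ac _ (QM_surj hr0) hac') hinv'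
    set Z : ℝ := 1 + Fintype.card κ + (Fintype.card ι : ℝ) / Fintype.card r with hZ
    have hZ1 : 1 ≤ Z := by linarith
    have h2 := FP.AP.mono h1 (show C1 * Z ≤ (C1 + 1) * Z by nlinarith)
    have hK : 1 ≤ (C1 + 1) * Z := by nlinarith
    have h3 := hcod (Fd δ ι κ r) (dM ι κ r) (QM hr0) (FP.cv μ t) hpl' _
      (by linarith : 0 < (C1 + 1) * Z) h2
    refine FP.AP.mono h3 ?_
    have h4 : (Module.finrank ℝ (LinearMap.ker
        (QM (δ := δ) (ι := ι) (κ := κ) (r := r) hr0)) : ℝ) ≤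
        Fintype.card δ + Fintype.card κ := by
      exact_mod_cast QM_ker hr0
    have h5 : (C1 + 1) * Z + (Module.finrank ℝ (LinearMap.ker
        (QM (δ := δ) (ι := ι) (κ := κ) (r := r) hr0)) : ℝ) ≤ (C1 + 2) * par δ ι κ r := by
      have h6 : Z ≤ par δ ι κ r := by unfold par; linarith
      have h7 : (C1 + 1) * Z ≤ (C1 + 1) * par δ ι κ r := by
        exact mul_le_mul_of_nonneg_left h6 (by linarith)
      have h8 : (Fintype.card δ : ℝ) + Fintype.card κ ≤ par δ ι κ r := by unfold par; linarith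
      linarith
    have h9 := mul_le_mul_of_nonneg_left h5 hC0.le
    have h10 : 0 ≤ (1 + 9 * C2) * par δ ι κ r := by positivity
    nlinarith

/-- the action in coordinates -/
lemma fi_coord {n d m k : ℕ} (U : Matrix (Fin n) (Fin n) ℝ)
    (x : Fd (Fin d) (Fin m) (Fin k) (Fin n)) :
    fi U x = WithLp.toLp 2 (Sum.elim (fun a => x (Sum.inl a))
      (Sum.elim (fun p => ∑ a, U p.1 a * x (Sum.inr (Sum.inl (a, p.2))))
        (fun q => ∑ a, ∑ b, U q.2.1 a * x (Sum.inr (Sum.inr (q.1, a, b))) * U q.2.2 b))) := by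
  ext p
  rcases p with p | p | p
  · rfl
  · show act U (pB (pM x)) p = _
    obtain ⟨i, j⟩ := p
    rw [act_apply]
    rfl
  · show cj U (pA (pM x)) p = _
    obtain ⟨l, i, j⟩ := p
    rw [cj_apply, tup_apply]
    show (U * mx l (pA (pM x)) * Uᵀ) i j =
      ∑ a, ∑ b, U i a * x (Sum.inr (Sum.inr (l, a, b))) * U j b
    rw [Matrix.mul_apply, Finset.sum_comm]
    refine Finset.sum_congr rfl fun b _ => ?_
    rw [Matrix.mul_apply, Finset.sum_mul]
    rfl

/-- the final statement -/
theorem fd_cheeger_of {C0 C1 : ℝ} (hC0 : 0 < C0) (hC1 : 0 < C1) (hcod : CodimStat C0)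
    (hmi : MiStat C1) : ∃ C : ℝ, 0 < C ∧ ∀ (n d m k : ℕ)
    (μ : Measure (Fd (Fin d) (Fin m) (Fin k) (Fin n))) [IsProbabilityMeasure μ],
    FP.PLm μ →
    (∀ g : RotG (Fin n), μ.map (fi ((g : Matrix.orthogonalGroup (Fin n) ℝ) :
      Matrix (Fin n) (Fin n) ℝ)) = μ) →
    ∀ (N : ℕ) (T : Fd (Fin d) (Fin m) (Fin k) (Fin n) →ₗ[ℝ] EuclideanSpace ℝ (Fin N))
      (s : ℝ), 0 < s →
    (∀ θ : EuclideanSpace ℝ (Fin N), ‖θ‖ = 1 → Var[fun x => inner ℝ x θ; μ.map T] ≤ s) →
    ∀ S : Set (EuclideanSpace ℝ (Fin N)), MeasurableSet S →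
      ENNReal.ofReal (C / Real.sqrt ((1 + d + k + (m : ℝ) / n) * s)) *
        min (μ.map T S) (μ.map T Sᶜ) ≤
        Filter.liminf
          (fun ε : ℝ => (μ.map T (Metric.thickening ε S) - μ.map T S) / ENNReal.ofReal ε)
          (𝓝[>] 0) := by
  obtain ⟨D, hD, hap⟩ := fd_ap hC0 hC1 hcod hmi
  obtain ⟨c, hc, hch⟩ := FP.cheeger_image
  refine ⟨c / Real.sqrt D, by positivity, ?_⟩
  intro n d m k μ _ hpl hinv N T s hs hvar S hS
  have hpar := par_one (Fin d) (Fin m) (Fin k) (Fin n)
  have hK : 1 ≤ D * par (Fin d) (Fin m) (Fin k) (Fin n) := by nlinarith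
  refine le_trans ?_ (hch _ μ hpl _ hK (hap (Fin d) (Fin m) (Fin k) (Fin n) μ hpl hinv) N T s hs
    hvar S hS)
  refine mul_le_mul_left ?_ _
  apply ENNReal.ofReal_le_ofReal
  have hpe : par (Fin d) (Fin m) (Fin k) (Fin n) = 1 + d + k + (m : ℝ) / n := by
    unfold par
    simp
  rw [hpe, mul_assoc, div_div, Real.sqrt_mul (show (0 : ℝ) ≤ D by linarith)]

end Pool.Agent.Lib.MP_6d896a_gt.CJ
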