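import Mathlib
import Pool.Agent.Lib.MP_6d896a_gt.CJ.MDefs
import Pool.Agent.Lib.MP_6d896a_gt.OM.Main

/-!
Project CJ, stage 2, piece M4: second moment of the operator norm of a rectangular matrix.
-/

set_option autoImplicit false
set_option linter.unusedSectionVars false

namespace Pool.Agent.Lib.MP_6d896a_gt.CJ

open MeasureTheory ProbabilityTheory Matrix Set Filter
open Pool.Agent.Lib.MP_6d896a_gt.OM Pool.Agent.Lib.MP_6d896a_gt.UC
open Pool.Agent.Lib.MP_6d896a_gt.UC.UR
open scoped ENNReal Topology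

section mixed

variable {ι r : Type} [Fintype ι] [Fintype r] [DecidableEq r] [DecidableEq ι]

private lemma mm_nofix (hr : 2 ≤ Fintype.card r) (m : EuclideanSpace ℝ (r × ι))
    (h : ∀ u ∈ RotG r, act (u : Matrix r r ℝ) m = m) : m = 0 := by
  ext p
  obtain ⟨i, j⟩ := p
  obtain ⟨u, hu, hub⟩ := rot_trans hr (fun i => m (i, j)) (fun i => -m (i, j)) (by simp)
  have h1 := h u hu
  have h2 : (act (u : Matrix r r ℝ) m) (i, j) =
      ((u : Matrix r r ℝ) *ᵥ (fun i => m (i, j))) i := rfl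
  rw [h1, hub] at h2
  simp only [PiLp.zero_apply]
  linarith

private lemma mm_mean (hr : 2 ≤ Fintype.card r) (ν : Measure (EuclideanSpace ℝ (r × ι)))
    [IsProbabilityMeasure ν] (hpl : FP.PLm ν) (hinv : MInv ν)
    (L : EuclideanSpace ℝ (r × ι) →L[ℝ] ℝ) : ∫ x, L x ∂ν = 0 := by
  have hi2 := hpl.sq_integrable
  have hi : Integrable (fun x : EuclideanSpace ℝ (r × ι) => x) ν := by
    have h1 : MemLp (id : EuclideanSpace ℝ (r × ι) → EuclideanSpace ℝ (r × ι)) 2 ν := by
      rw [memLp_two_iff_integrable_sq_norm continuous_id.aestronglyMeasurable]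
      exact hi2
    exact h1.integrable (by norm_num)
  set m : EuclideanSpace ℝ (r × ι) := ∫ x, x ∂ν with hm
  have h0 : m = 0 := by
    refine mm_nofix hr m fun u hu => ?_
    set T : EuclideanSpace ℝ (r × ι) ≃ₗᵢ[ℝ] EuclideanSpace ℝ (r × ι) := actE u with hT
    have h1 : T m = ∫ x, T x ∂ν := by
      rw [hm]
      exact (T.toContinuousLinearEquiv.integral_comp_comm
        (fun x : EuclideanSpace ℝ (r × ι) => x)).symm
    have h2 : ∫ x, T x ∂ν = ∫ x, x ∂(ν.map T) :=
      (integral_map (f := fun x : EuclideanSpace ℝ (r × ι) => x) T.continuous.aemeasurable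
        continuous_id.aestronglyMeasurable).symm
    have h3 : ν.map T = ν := hinv u hu
    have h4 : T m = act (u : Matrix r r ℝ) m := actE_apply u m
    rw [← h4, h1, h2, h3]
  have h3 : ∫ x, L x ∂ν = L m := by
    rw [hm]
    exact L.integral_comp_comm hi
  rw [h3, h0, map_zero]

private lemma mm_opB_nonneg (y : EuclideanSpace ℝ (r × ι)) : 0 ≤ opB y := norm_nonneg _

private lemma mm_opB_le {y : EuclideanSpace ℝ (r × ι)} {R : ℝ} (hR : 0 ≤ R) (h : OpLe R y) :
    opB y ≤ R := by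
  unfold opB
  refine ContinuousLinearMap.opNorm_le_bound _ hR fun w => ?_
  rw [EuclideanSpace.norm_eq, EuclideanSpace.norm_eq, ← Real.sqrt_sq hR,
    ← Real.sqrt_mul (sq_nonneg R)]
  refine Real.sqrt_le_sqrt ?_
  have h1 := h w.ofLp
  simp only [Real.norm_eq_abs, sq_abs]
  exact h1

private lemma mm_opB_le_norm (y : EuclideanSpace ℝ (r × ι)) : opB y ≤ ‖y‖ := by
  refine mm_opB_le (norm_nonneg _) fun w => ?_
  have h1 : ‖y‖ ^ 2 = ∑ i, ∑ j, y (i, j) ^ 2 := by
    rw [EuclideanSpace.norm_sq_eq, Fintype.sum_prod_type]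
    simp only [Real.norm_eq_abs, sq_abs]
  rw [h1, Finset.sum_mul]
  refine Finset.sum_le_sum fun i _ => ?_
  exact Finset.sum_mul_sq_le_sq_mul_sq Finset.univ (fun j => y (i, j)) w

private lemma mm_opB_cont : Continuous (opB : EuclideanSpace ℝ (r × ι) → ℝ) := by
  have h1 : Continuous fun y : EuclideanSpace ℝ (r × ι) =>
      LinearMap.toContinuousLinearMap (Matrix.toEuclideanLin (mt y)) := by
    have h2 : Continuous ((LinearMap.toContinuousLinearMap (𝕜 := ℝ) (E := EuclideanSpace ℝ ι)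
        (F' := EuclideanSpace ℝ r)).toLinearMap.comp
        ((Matrix.toEuclideanLin (𝕜 := ℝ) (m := r) (n := ι)).toLinearMap.comp
          (mt (r := r) (ι := ι)))) :=
      LinearMap.continuous_of_finiteDimensional _
    exact h2
  exact h1.norm

theorem opB_moment1 : ∃ C : ℝ, 0 < C ∧ ∀ (ι r : Type) [Fintype ι] [Fintype r] [DecidableEq ι]
    [DecidableEq r] (ν : Measure (EuclideanSpace ℝ (r × ι))) [IsProbabilityMeasure ν],
    3 ≤ Fintype.card r → Fintype.card ι ≤ Fintype.card r → FP.PLm ν → ν ≪ volume → MInv ν →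
    (∀ ℓ : EuclideanSpace ℝ (r × ι) →L[ℝ] ℝ, Var[fun x => ℓ x; ν] = ‖ℓ‖ ^ 2) →
    Integrable (fun x : EuclideanSpace ℝ (r × ι) => opB x ^ 2) ν ∧
      ∫ x, opB x ^ 2 ∂ν ≤ C * Fintype.card r := by
  obtain ⟨C₁, hC₁, htail⟩ := op_tail (fun r _ _ hr x y h => rot_trans hr x y h)
  refine ⟨C₁ ^ 2 + 196608 + 1, by positivity, ?_⟩
  intro ι r _ _ _ _ ν hν hr hcard hpl hac hinv hiso
  set n : ℝ := (Fintype.card r : ℝ) with hn
  have hn3 : (3 : ℝ) ≤ n := by rw [hn]; exact_mod_cast hr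
  have hn0 : 0 < n := by linarith
  have hsn2 : Real.sqrt n ^ 2 = n := Real.sq_sqrt hn0.le
  -- fourth moments of the entries
  have hproj : ∀ p : r × ι, ‖(EuclideanSpace.proj p : EuclideanSpace ℝ (r × ι) →L[ℝ] ℝ)‖ = 1 := by
    intro p
    apply le_antisymm
    · refine ContinuousLinearMap.opNorm_le_bound _ zero_le_one fun x => ?_
      rw [one_mul]
      exact PiLp.norm_apply_le x p
    · have h1 := (EuclideanSpace.proj p : EuclideanSpace ℝ (r × ι) →L[ℝ] ℝ).le_opNorm
        (EuclideanSpace.single p 1)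
      rw [PiLp.norm_single] at h1
      simpa using h1
  have hent : ∀ p : r × ι, Integrable (fun x : EuclideanSpace ℝ (r × ι) => x p ^ 4) ν ∧
      ∫ x : EuclideanSpace ℝ (r × ι), x p ^ 4 ∂ν ≤ 393216 := by
    intro p
    have h1 := fourth_moment hpl (EuclideanSpace.proj p : EuclideanSpace ℝ (r × ι) →L[ℝ] ℝ)
      (by rw [hiso, hproj, one_pow])
    rw [mm_mean (by omega) ν hpl hinv] at h1
    simpa using h1
  set q : EuclideanSpace ℝ (r × ι) → ℝ := fun x => ∑ p : r × ι, x p ^ 4 with hq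
  have hqi : Integrable q ν := integrable_finsetSum _ fun p _ => (hent p).1
  have hcc : (Fintype.card (r × ι) : ℝ) ≤ n ^ 2 := by
    rw [Fintype.card_prod, sq]
    push_cast
    rw [hn]
    gcongr
  have hqe : ∫ x, q x ∂ν ≤ 393216 * n ^ 2 := by
    rw [hq, integral_finsetSum _ fun p _ => (hent p).1]
    refine (Finset.sum_le_sum fun p _ => (hent p).2).trans ?_
    rw [Finset.sum_const, Finset.card_univ, nsmul_eq_mul]
    nlinarith
  -- the good set
  set G : Set (EuclideanSpace ℝ (r × ι)) := {x | OpLe (C₁ * Real.sqrt n) x} with hG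
  have hGc : IsClosed G := isClosed_OpLe _
  have hGm : MeasurableSet Gᶜ := hGc.measurableSet.compl
  have hbad : ν.real Gᶜ ≤ Real.exp (-n) :=
    htail r ι ν hν hac hpl hinv hr hcard
      (fun w hw => second_moment (by omega) hpl hinv hiso w hw)
  -- the pointwise bound
  have hpt : ∀ x : EuclideanSpace ℝ (r × ι), opB x ^ 2 ≤
      C₁ ^ 2 * n + (1 / (2 * n)) * q x + n ^ 3 / 2 * (Gᶜ).indicator (fun _ => (1 : ℝ)) x := by
    intro x
    have hq0 : 0 ≤ q x := Finset.sum_nonneg fun _ _ => by positivity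
    by_cases hx : x ∈ G
    · have h1 : opB x ≤ C₁ * Real.sqrt n := mm_opB_le (by positivity) hx
      have h2 : opB x ^ 2 ≤ (C₁ * Real.sqrt n) ^ 2 :=
        pow_le_pow_left₀ (mm_opB_nonneg _) h1 2
      rw [mul_pow, hsn2] at h2
      have h4 : (Gᶜ).indicator (fun _ => (1 : ℝ)) x = 0 :=
        Set.indicator_of_notMem (by simpa using hx) _
      rw [h4]
      have h5 : 0 ≤ (1 / (2 * n)) * q x := by positivity
      linarith
    · have h4 : (Gᶜ).indicator (fun _ => (1 : ℝ)) x = 1 :=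
        Set.indicator_of_mem (by simpa using hx) _
      rw [h4]
      have h1 : opB x ^ 2 ≤ ‖x‖ ^ 2 := pow_le_pow_left₀ (mm_opB_nonneg _) (mm_opB_le_norm x) 2
      have h0 : ‖x‖ ^ 2 = ∑ p : r × ι, x p ^ 2 := by
        rw [EuclideanSpace.norm_sq_eq]
        simp only [Real.norm_eq_abs, sq_abs]
      have h2 : (‖x‖ ^ 2) ^ 2 ≤ n ^ 2 * q x := by
        have h3 := sq_sum_le_card_mul_sum_sq (s := (Finset.univ : Finset (r × ι)))
          (f := fun p : r × ι => x p ^ 2)
        rw [Finset.card_univ] at h3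
        rw [h0]
        refine h3.trans ?_
        have h5 : ∑ p : r × ι, (x p ^ 2) ^ 2 = q x := by
          rw [hq]
          exact Finset.sum_congr rfl fun p _ => by ring
        rw [h5]
        exact mul_le_mul_of_nonneg_right hcc hq0
      have h3 : ‖x‖ ^ 2 ≤ (‖x‖ ^ 2) ^ 2 / (2 * n ^ 3) + n ^ 3 / 2 := by
        have h5 : 0 ≤ (‖x‖ ^ 2 - n ^ 3) ^ 2 / (2 * n ^ 3) := by positivity
        have h6 : (‖x‖ ^ 2 - n ^ 3) ^ 2 / (2 * n ^ 3) =
            (‖x‖ ^ 2) ^ 2 / (2 * n ^ 3) + n ^ 3 / 2 - ‖x‖ ^ 2 := by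
          field_simp
          ring
        linarith
      have h7 : (‖x‖ ^ 2) ^ 2 / (2 * n ^ 3) ≤ (1 / (2 * n)) * q x := by
        rw [div_le_iff₀ (by positivity)]
        have e : 1 / (2 * n) * q x * (2 * n ^ 3) = n ^ 2 * q x := by
          field_simp
        rw [e]
        exact h2
      have h8 : (0 : ℝ) ≤ C₁ ^ 2 * n := by positivity
      linarith
  have hind : Integrable ((Gᶜ).indicator (fun _ => (1 : ℝ))) ν :=
    (integrable_const (1 : ℝ)).indicator hGm
  have hbi : Integrable (fun x => C₁ ^ 2 * n + (1 / (2 * n)) * q x +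
      n ^ 3 / 2 * (Gᶜ).indicator (fun _ => (1 : ℝ)) x) ν :=
    ((integrable_const _).add (hqi.const_mul _)).add (hind.const_mul _)
  have hi : Integrable (fun x : EuclideanSpace ℝ (r × ι) => opB x ^ 2) ν := by
    refine hbi.mono' (mm_opB_cont.pow 2).aestronglyMeasurable (ae_of_all _ fun x => ?_)
    rw [Real.norm_eq_abs, abs_of_nonneg (sq_nonneg _)]
    exact hpt x
  refine ⟨hi, ?_⟩
  refine (integral_mono hi hbi hpt).trans ?_
  have hi1 : Integrable (fun x => C₁ ^ 2 * n + (1 / (2 * n)) * q x) ν :=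
    (integrable_const _).add (hqi.const_mul _)
  have hi2 : Integrable (fun x => n ^ 3 / 2 * (Gᶜ).indicator (fun _ => (1 : ℝ)) x) ν :=
    hind.const_mul _
  have hv1 : ∫ x, (1 / (2 * n)) * q x ∂ν = (1 / (2 * n)) * ∫ x, q x ∂ν :=
    integral_const_mul _ _
  have hv2 : ∫ x, n ^ 3 / 2 * (Gᶜ).indicator (fun _ => (1 : ℝ)) x ∂ν =
      n ^ 3 / 2 * ν.real Gᶜ := by
    rw [integral_const_mul, integral_indicator_const _ hGm, smul_eq_mul, mul_one]
  rw [integral_add hi1 hi2, integral_add (integrable_const _) (hqi.const_mul _), hv1, hv2,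
    integral_const]
  simp only [probReal_univ, smul_eq_mul, one_mul]
  have h1 : 1 / (2 * n) * ∫ x, q x ∂ν ≤ 196608 * n := by
    have h2 : 1 / (2 * n) * ∫ x, q x ∂ν ≤ 1 / (2 * n) * (393216 * n ^ 2) :=
      mul_le_mul_of_nonneg_left hqe (by positivity)
    have h3 : 1 / (2 * n) * (393216 * n ^ 2) = 196608 * n := by
      field_simp
      ring
    linarith
  have h2 : n ^ 3 / 2 * ν.real Gᶜ ≤ n := by
    have h3 : n ^ 2 * Real.exp (-n) ≤ 2 := sq_mul_exp_neg_le hn0.le
    have h4 : n ^ 3 / 2 * ν.real Gᶜ ≤ n ^ 3 / 2 * Real.exp (-n) :=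
      mul_le_mul_of_nonneg_left hbad (by positivity)
    have h5 : n ^ 3 / 2 * Real.exp (-n) = n / 2 * (n ^ 2 * Real.exp (-n)) := by ring
    have h6 : n / 2 * (n ^ 2 * Real.exp (-n)) ≤ n / 2 * 2 :=
      mul_le_mul_of_nonneg_left h3 (by positivity)
    linarith
  linarith

end mixed

end Pool.Agent.Lib.MP_6d896a_gt.CJ
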