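import Mathlib
import Pool.Agent.Lib.MP_6d896a_gt.CJ.MDefs
import Pool.Agent.Lib.MP_6d896a_gt.CJ.CjFix
import Pool.Agent.Lib.MP_6d896a_gt.OM.Polar

/-!
Project CJ, stage 2, piece M1: the operator norm of a rectangular matrix, the weight of the mixed
action, and there are no fixed vectors.
-/

set_option autoImplicit false
set_option linter.unusedSectionVars false

namespace Pool.Agent.Lib.MP_6d896a_gt.CJ

open MeasureTheory ProbabilityTheory Matrix Set Filter
open Pool.Agent.Lib.MP_6d896a_gt.OM Pool.Agent.Lib.MP_6d896a_gt.UC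
open Pool.Agent.Lib.MP_6d896a_gt.UC.UR
open scoped ENNReal Topology

section mixed

variable {ι κ r : Type} [Fintype ι] [Fintype κ] [Fintype r] [DecidableEq r] [DecidableEq ι]

/-- the operator of a rectangular matrix -/
private noncomputable def mn_L :
    EuclideanSpace ℝ (r × ι) →ₗ[ℝ] (EuclideanSpace ℝ ι →L[ℝ] EuclideanSpace ℝ r) :=
  (LinearMap.toContinuousLinearMap (𝕜 := ℝ) (E := EuclideanSpace ℝ ι)
    (F' := EuclideanSpace ℝ r)).toLinearMap ∘ₗ
    ((Matrix.toEuclideanLin (𝕜 := ℝ) (m := r) (n := ι)).toLinearMap ∘ₗ mt)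

private lemma mn_L_norm (y : EuclideanSpace ℝ (r × ι)) : opB y = ‖mn_L y‖ := rfl

private lemma mn_L_apply (y : EuclideanSpace ℝ (r × ι)) (w : EuclideanSpace ℝ ι) (i : r) :
    (mn_L y w) i = ∑ j, y (i, j) * w j := by
  show (Matrix.toEuclideanLin (mt y) w) i = _
  rw [Matrix.toEuclideanLin_apply]
  rfl

private lemma mn_L_sq (y : EuclideanSpace ℝ (r × ι)) (w : EuclideanSpace ℝ ι) :
    ‖mn_L y w‖ ^ 2 = ∑ i, (∑ j, y (i, j) * w j) ^ 2 := by
  rw [EuclideanSpace.norm_sq_eq]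
  refine Finset.sum_congr rfl fun i _ => ?_
  rw [mn_L_apply, Real.norm_eq_abs, sq_abs]

private lemma mn_w_sq (w : EuclideanSpace ℝ ι) : ‖w‖ ^ 2 = ∑ j, w j ^ 2 := by
  rw [EuclideanSpace.norm_sq_eq]
  refine Finset.sum_congr rfl fun i _ => ?_
  rw [Real.norm_eq_abs, sq_abs]

lemma opB_nonneg (y : EuclideanSpace ℝ (r × ι)) : 0 ≤ opB y := norm_nonneg _

lemma opB_OpLe (y : EuclideanSpace ℝ (r × ι)) : OpLe (opB y) y := by
  intro w
  have h := ContinuousLinearMap.le_opNorm (mn_L y) (WithLp.toLp 2 w)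
  have h2 := pow_le_pow_left₀ (norm_nonneg _) h 2
  rw [mul_pow, mn_L_sq, mn_w_sq] at h2
  exact h2

lemma opB_le_of {y : EuclideanSpace ℝ (r × ι)} {R : ℝ} (hR : 0 ≤ R) (h : OpLe R y) :
    opB y ≤ R := by
  rw [mn_L_norm]
  refine ContinuousLinearMap.opNorm_le_bound _ hR fun w => ?_
  have h1 := h (fun j => w j)
  rw [← mn_L_sq, ← mn_w_sq, ← mul_pow] at h1
  exact (pow_le_pow_iff_left₀ (norm_nonneg _) (by positivity) (by norm_num)).1 h1

lemma opB_add (x y : EuclideanSpace ℝ (r × ι)) : opB (x + y) ≤ opB x + opB y := by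
  rw [mn_L_norm, mn_L_norm, mn_L_norm, map_add]
  exact norm_add_le _ _

lemma opB_smul (c : ℝ) (y : EuclideanSpace ℝ (r × ι)) : opB (c • y) = |c| * opB y := by
  rw [mn_L_norm, mn_L_norm, map_smul, norm_smul, Real.norm_eq_abs]

lemma opB_le_norm (y : EuclideanSpace ℝ (r × ι)) : opB y ≤ ‖y‖ := by
  refine opB_le_of (norm_nonneg _) fun w => ?_
  rw [norm_sq_eq_sum, Finset.sum_mul]
  refine Finset.sum_le_sum fun i _ => ?_
  exact Finset.sum_mul_sq_le_sq_mul_sq _ _ _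

lemma continuous_opB : Continuous (opB : EuclideanSpace ℝ (r × ι) → ℝ) := by
  have h : Continuous (mn_L : EuclideanSpace ℝ (r × ι) →ₗ[ℝ]
      (EuclideanSpace ℝ ι →L[ℝ] EuclideanSpace ℝ r)) :=
    LinearMap.continuous_of_finiteDimensional _
  exact h.norm

/-! ### weights -/

private lemma mn_wt_sq {N : ℕ} {V : Type*} [NormedAddCommGroup V] [NormedSpace ℝ V]
    (L : Eu N →L[ℝ] V) : Wt (fun x => ‖L x‖ ^ 2) := by
  refine ⟨L.continuous.norm.pow 2, fun x => sq_nonneg _, ?_, ‖L‖ ^ 2, fun x => ?_⟩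
  · intro x y t ht
    have h1 : ‖L (x + t • y)‖ ≤ ‖L x‖ + t * ‖L y‖ := by
      rw [map_add, map_smul]
      refine (norm_add_le _ _).trans ?_
      rw [norm_smul, Real.norm_eq_abs, abs_of_pos ht]
    have h2 : ‖L (x + t • y)‖ ^ 2 ≤ (‖L x‖ + t * ‖L y‖) ^ 2 :=
      pow_le_pow_left₀ (norm_nonneg _) h1 2
    nlinarith [mul_nonneg ht.le (sq_nonneg (‖L x‖ - ‖L y‖))]
  · rw [← mul_pow]
    exact pow_le_pow_left₀ (norm_nonneg _) (ContinuousLinearMap.le_opNorm _ _) 2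

private lemma mn_wt_add {N : ℕ} {c₁ c₂ : Eu N → ℝ} (h₁ : Wt c₁) (h₂ : Wt c₂) :
    Wt (fun x => c₁ x + c₂ x) := by
  obtain ⟨C₁, hC₁⟩ := h₁.bd
  obtain ⟨C₂, hC₂⟩ := h₂.bd
  refine ⟨h₁.cont.add h₂.cont, fun x => add_nonneg (h₁.nn x) (h₂.nn x), ?_, C₁ + C₂,
    fun x => ?_⟩
  · intro x y t ht
    have e1 := h₁.conv x y t ht
    have e2 := h₂.conv x y t ht
    calc _ ≤ ((1 + t) * c₁ x + (t ^ 2 + t) * c₁ y) + ((1 + t) * c₂ x + (t ^ 2 + t) * c₂ y) :=
          add_le_add e1 e2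
      _ = _ := by ring
  · rw [add_mul]
    exact add_le_add (hC₁ x) (hC₂ x)

private lemma mn_wt_mul {N : ℕ} {c : Eu N → ℝ} {K : ℝ} (hK : 0 ≤ K) (h : Wt c) :
    Wt (fun x => K * c x) := by
  obtain ⟨C, hC⟩ := h.bd
  refine ⟨continuous_const.mul h.cont, fun x => mul_nonneg hK (h.nn x), ?_, K * C, fun x => ?_⟩
  · intro x y t ht
    calc _ ≤ K * ((1 + t) * c x + (t ^ 2 + t) * c y) :=
          mul_le_mul_of_nonneg_left (h.conv x y t ht) hK
      _ = _ := by ring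
  · rw [mul_assoc]
    exact mul_le_mul_of_nonneg_left (hC x) hK

private lemma mn_wt_zero {N : ℕ} : Wt (fun _ : Eu N => (0 : ℝ)) :=
  ⟨continuous_const, fun _ => le_refl _, fun _ _ _ _ => by simp, 0, fun _ => by simp⟩

private lemma mn_wt_sum {N : ℕ} {α : Type*} (s : Finset α) {c : α → Eu N → ℝ}
    (h : ∀ a, Wt (c a)) : Wt (fun x => ∑ a ∈ s, c a x) := by
  classical
  induction s using Finset.induction_on with
  | empty =>
    simp only [Finset.sum_empty]
    exact mn_wt_zero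
  | insert a s ha ih =>
    simp only [Finset.sum_insert ha]
    exact mn_wt_add (h a) ih

/-- the operator given by a matrix of the tuple -/
private noncomputable def mn_A (l : κ) :
    Eu (dM ι κ r) →ₗ[ℝ] (EuclideanSpace ℝ r →L[ℝ] EuclideanSpace ℝ r) :=
  ((Matrix.toEuclideanCLM (n := r) (𝕜 := ℝ)).toAlgEquiv.toLinearMap ∘ₗ mx l) ∘ₗ
    (pA ∘ₗ (jm (ι := ι) (κ := κ) (r := r)).toLinearMap)

/-- the operator given by the rectangular matrix -/
private noncomputable def mn_B :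
    Eu (dM ι κ r) →ₗ[ℝ] (EuclideanSpace ℝ ι →L[ℝ] EuclideanSpace ℝ r) :=
  mn_L ∘ₗ (pB ∘ₗ (jm (ι := ι) (κ := κ) (r := r)).toLinearMap)

theorem cM_wt (hr : 3 ≤ Fintype.card r) : Wt (cM ι κ r) := by
  have hK : (0 : ℝ) ≤ 32 / ((Fintype.card r : ℝ) - 2) := by
    have : (3 : ℝ) ≤ Fintype.card r := by exact_mod_cast hr
    exact div_nonneg (by norm_num) (by linarith)
  have hc : cM ι κ r = fun x => 32 / ((Fintype.card r : ℝ) - 2) *
      (‖LinearMap.toContinuousLinearMap (mn_B (ι := ι) (κ := κ) (r := r)) x‖ ^ 2 +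
      ∑ l, ‖LinearMap.toContinuousLinearMap (mn_A (ι := ι) (κ := κ) (r := r) l) x‖ ^ 2) := by
    funext x
    rfl
  rw [hc]
  exact mn_wt_mul hK (mn_wt_add (mn_wt_sq _) (mn_wt_sum _ fun l => mn_wt_sq _))

/-! ### no fixed vectors -/

theorem mi_nofix (hr : 3 ≤ Fintype.card r) : (miAct ι κ r).NoFix := by
  intro v hv
  have hfix : ∀ g : RotG r, mi ((g : Matrix.orthogonalGroup r ℝ) : Matrix r r ℝ)
      (jm v : Mi ι κ r) = jm v := fun g => by rw [← jm_act, hv g]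
  have hA : pA (jm v : Mi ι κ r) = 0 := by
    obtain ⟨w, hw⟩ := jt_surj (mem_TZ.1 (jm_mem v))
    have hw0 : w = 0 := by
      refine cj_nofix hr w fun g => ?_
      refine (jt (κ := κ) (r := r)).injective ?_
      rw [jt_act, hw, ← pA_mi, hfix]
    rw [← hw, hw0, map_zero]
  have hB : pB (jm v : Mi ι κ r) = 0 := by
    ext p
    obtain ⟨i, j⟩ := p
    set b : r → ℝ := fun k => pB (jm v : Mi ι κ r) (k, j) with hb
    obtain ⟨u, hu, hub⟩ := rot_trans (by omega) b (-b) (by simp)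
    have h1 := congrArg pB (hfix ⟨u, hu⟩)
    rw [pB_mi] at h1
    have h2 : (u : Matrix r r ℝ) *ᵥ b = b := by
      funext k
      have h3 := congrArg (fun y : EuclideanSpace ℝ (r × ι) => y (k, j)) h1
      simp only at h3
      rw [act_apply] at h3
      rw [hb, Matrix.mulVec, dotProduct]
      exact h3
    rw [hub] at h2
    have h3 := congrFun h2 i
    simp only [Pi.neg_apply] at h3
    have h4 : b i = 0 := by linarith
    exact h4
  have h5 : ‖(jm v : Mi ι κ r)‖ = ‖v‖ := LinearIsometry.norm_map _ v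
  have h6 : (jm v : Mi ι κ r) = 0 := mi_ext (by rw [hB, map_zero]) (by rw [hA, map_zero])
  rw [h6, norm_zero] at h5
  exact norm_eq_zero.1 h5.symm

end mixed

end Pool.Agent.Lib.MP_6d896a_gt.CJ
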