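import Mathlib
import Pool.Agent.Lib.MP_6d896a_gt.CJ.MDefs

/-!
Project CJ, stage 2, piece M5: splitting the columns of a matrix into groups.
-/

set_option autoImplicit false
set_option linter.unusedSectionVars false

namespace Pool.Agent.Lib.MP_6d896a_gt.CJ

open MeasureTheory ProbabilityTheory Matrix Set Filter
open Pool.Agent.Lib.MP_6d896a_gt.OM Pool.Agent.Lib.MP_6d896a_gt.UC
open Pool.Agent.Lib.MP_6d896a_gt.UC.UR
open scoped ENNReal Topology

section mixed

variable {ι κ r : Type} [Fintype ι] [Fintype κ] [Fintype r] [DecidableEq r] [DecidableEq ι]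

/-- the matrix formed by some columns -/
def colR (s : Finset ι) : EuclideanSpace ℝ (r × ι) →ₗ[ℝ] EuclideanSpace ℝ (r × s) where
  toFun x := WithLp.toLp 2 fun p => x (p.1, p.2)
  map_add' x y := by ext p; simp
  map_smul' c x := by ext p; simp

@[simp] lemma colR_apply (s : Finset ι) (x : EuclideanSpace ℝ (r × ι)) (p : r × s) :
    colR s x p = x (p.1, (p.2 : ι)) := rfl

private lemma msplit_le (y : EuclideanSpace ℝ (r × ι)) (w : EuclideanSpace ℝ ι) :
    ‖Matrix.toEuclideanLin (mt y) w‖ ≤ opB y * ‖w‖ :=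
  (LinearMap.toContinuousLinearMap (Matrix.toEuclideanLin (mt y))).le_opNorm w

/-- splitting the columns into groups -/
theorem opB_split {m : ℕ} (c : Fin m → Finset ι) (hc : ∀ j : ι, ∃ a, j ∈ c a)
    (y : EuclideanSpace ℝ (r × ι)) :
    opB y ^ 2 ≤ ∑ a, opB (colR (c a) y) ^ 2 := by
  choose f hf using hc
  set S : ℝ := ∑ a, opB (colR (c a) y) ^ 2 with hS
  have hS0 : 0 ≤ S := Finset.sum_nonneg fun a _ => sq_nonneg _
  -- the pieces of a vector
  let wa : (a : Fin m) → EuclideanSpace ℝ ι → EuclideanSpace ℝ (c a) := fun a w =>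
    WithLp.toLp 2 fun j => if f (j : ι) = a then w j else 0
  have hwa : ∀ (a : Fin m) (w : EuclideanSpace ℝ ι) (j : c a),
      wa a w j = if f (j : ι) = a then w j else 0 := fun _ _ _ => rfl
  -- sums over a group
  have hgrp : ∀ (a : Fin m) (g : ι → ℝ),
      ∑ j : c a, (if f (j : ι) = a then g j else 0) = ∑ j, if f j = a then g j else 0 := by
    intro a g
    rw [Finset.sum_coe_sort (c a) (fun j => if f j = a then g j else 0)]
    refine Finset.sum_subset (Finset.subset_univ _) fun j _ hj => ?_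
    rw [if_neg]
    rintro rfl
    exact hj (hf j)
  have hswap : ∀ g : ι → ℝ, ∑ a : Fin m, ∑ j, (if f j = a then g j else 0) = ∑ j, g j := by
    intro g
    rw [Finset.sum_comm]
    refine Finset.sum_congr rfl fun j _ => ?_
    rw [Finset.sum_ite_eq]
    simp
  have hnorm : ∀ w : EuclideanSpace ℝ ι, ∑ a, ‖wa a w‖ ^ 2 = ‖w‖ ^ 2 := by
    intro w
    rw [EuclideanSpace.norm_sq_eq, ← hswap (fun j => ‖w j‖ ^ 2)]
    refine Finset.sum_congr rfl fun a _ => ?_
    rw [EuclideanSpace.norm_sq_eq, ← hgrp a]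
    refine Finset.sum_congr rfl fun j _ => ?_
    rw [hwa]
    split_ifs <;> simp
  have hsum : ∀ w : EuclideanSpace ℝ ι, Matrix.toEuclideanLin (mt y) w =
      ∑ a, Matrix.toEuclideanLin (mt (colR (c a) y)) (wa a w) := by
    intro w
    ext i
    have h1 : (Matrix.toEuclideanLin (mt y) w) i = ∑ j, y (i, j) * w j := by
      rw [Matrix.toEuclideanLin_apply]
      rfl
    have h2 : (∑ a, Matrix.toEuclideanLin (mt (colR (c a) y)) (wa a w)) i =
        ∑ a, (Matrix.toEuclideanLin (mt (colR (c a) y)) (wa a w)) i := by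
      simp
    rw [h1, h2, ← hswap (fun j => y (i, j) * w j)]
    refine Finset.sum_congr rfl fun a _ => ?_
    rw [← hgrp a, Matrix.toEuclideanLin_apply]
    show _ = ∑ j : c a, y (i, (j : ι)) * wa a w j
    refine Finset.sum_congr rfl fun j _ => ?_
    rw [hwa]
    split_ifs <;> simp
  have hb : opB y ≤ √S := by
    unfold opB
    refine ContinuousLinearMap.opNorm_le_bound _ (Real.sqrt_nonneg _) fun w => ?_
    show ‖Matrix.toEuclideanLin (mt y) w‖ ≤ √S * ‖w‖
    rw [hsum w]
    calc ‖∑ a, Matrix.toEuclideanLin (mt (colR (c a) y)) (wa a w)‖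
        ≤ ∑ a, ‖Matrix.toEuclideanLin (mt (colR (c a) y)) (wa a w)‖ := norm_sum_le _ _
      _ ≤ ∑ a, opB (colR (c a) y) * ‖wa a w‖ := Finset.sum_le_sum fun a _ => msplit_le _ _
      _ ≤ √(∑ a, opB (colR (c a) y) ^ 2) * √(∑ a, ‖wa a w‖ ^ 2) :=
          Real.sum_mul_le_sqrt_mul_sqrt _ _ _
      _ = √S * ‖w‖ := by rw [hnorm, Real.sqrt_sq (norm_nonneg _)]
  calc opB y ^ 2 ≤ √S ^ 2 := pow_le_pow_left₀ (norm_nonneg _) hb 2
    _ = S := Real.sq_sqrt hS0

theorem exists_groups (ι : Type) [Fintype ι] [DecidableEq ι] {b : ℕ} (hb : 0 < b) :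
    ∃ (m : ℕ) (c : Fin m → Finset ι), (m : ℝ) ≤ Fintype.card ι / b + 1 ∧
      (∀ a, (c a).card ≤ b) ∧ ∀ j : ι, ∃ a, j ∈ c a := by
  let e := Fintype.equivFin ι
  have hlt : ∀ j : ι, (e j : ℕ) / b < Fintype.card ι / b + 1 := fun j =>
    Nat.lt_succ_of_le (Nat.div_le_div_right (e j).2.le)
  refine ⟨Fintype.card ι / b + 1, fun a => Finset.univ.filter fun j => (e j : ℕ) / b = (a : ℕ),
    ?_, ?_, ?_⟩
  · push_cast
    have : ((Fintype.card ι / b : ℕ) : ℝ) ≤ (Fintype.card ι : ℝ) / b := Nat.cast_div_le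
    linarith
  · intro a
    have h1 : ((Finset.univ.filter fun j : ι => (e j : ℕ) / b = (a : ℕ)).image
        fun j => (e j : ℕ)) ⊆ Finset.Ico ((a : ℕ) * b) ((a : ℕ) * b + b) := by
      intro k hk
      simp only [Finset.mem_image, Finset.mem_filter, Finset.mem_univ, true_and] at hk
      obtain ⟨j, hj, rfl⟩ := hk
      rw [Finset.mem_Ico, ← hj]
      exact ⟨Nat.div_mul_le_self _ _, by
        have := Nat.lt_div_mul_add (a := (e j : ℕ)) hb
        exact this⟩
    have h2 : ((Finset.univ.filter fun j : ι => (e j : ℕ) / b = (a : ℕ)).image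
        fun j => (e j : ℕ)).card = (Finset.univ.filter fun j : ι => (e j : ℕ) / b = (a : ℕ)).card :=
      Finset.card_image_of_injective _ fun i j h => e.injective (Fin.ext h)
    rw [← h2]
    refine (Finset.card_le_card h1).trans ?_
    simp
  · intro j
    exact ⟨⟨(e j : ℕ) / b, hlt j⟩, by simp⟩

end mixed

end Pool.Agent.Lib.MP_6d896a_gt.CJ
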