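import Mathlib
import Pool.Agent.Lib.MP_6d896a_gt.CJ.MDefs
import Pool.Agent.Lib.MP_6d896a_gt.CJ.MNorm
import Pool.Agent.Lib.MP_6d896a_gt.CJ.Coiso
import Pool.Agent.Lib.MP_6d896a_gt.CJ.MMom
import Pool.Agent.Lib.MP_6d896a_gt.CJ.MSplit

/-!
Project CJ, stage 2: the second moment of the operator norm of a rectangular matrix with a rotation
invariant isotropic log-concave law, for any number of columns.
-/

set_option autoImplicit false
set_option linter.unusedSectionVars false

namespace Pool.Agent.Lib.MP_6d896a_gt.CJ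

open MeasureTheory ProbabilityTheory Matrix Set Filter
open Pool.Agent.Lib.MP_6d896a_gt.OM Pool.Agent.Lib.MP_6d896a_gt.UC
open Pool.Agent.Lib.MP_6d896a_gt.UC.UR
open scoped ENNReal Topology

section mixed

variable {ι κ r : Type} [Fintype ι] [Fintype κ] [Fintype r] [DecidableEq r] [DecidableEq ι]

/-- the coordinate restriction as a continuous linear map -/
private noncomputable def colRL (s : Finset ι) :
    EuclideanSpace ℝ (r × ι) →L[ℝ] EuclideanSpace ℝ (r × s) :=
  LinearMap.toContinuousLinearMap (colR s)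

private lemma colRL_apply (s : Finset ι) (x : EuclideanSpace ℝ (r × ι)) :
    colRL s x = colR s x := rfl

/-- extension by zero -/
private def extZ (s : Finset ι) : EuclideanSpace ℝ (r × s) →ₗ[ℝ] EuclideanSpace ℝ (r × ι) where
  toFun y := WithLp.toLp 2 fun p => if h : p.2 ∈ s then y (p.1, ⟨p.2, h⟩) else 0
  map_add' x y := by
    ext p
    by_cases h : p.2 ∈ s <;> simp [h]
  map_smul' c x := by
    ext p
    by_cases h : p.2 ∈ s <;> simp [h]

private lemma extZ_apply (s : Finset ι) (y : EuclideanSpace ℝ (r × s)) (i : r) (j : ι) :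
    extZ s y (i, j) = if h : j ∈ s then y (i, ⟨j, h⟩) else 0 := rfl

private lemma inner_extZ (s : Finset ι) (y : EuclideanSpace ℝ (r × s))
    (x : EuclideanSpace ℝ (r × ι)) : inner ℝ (extZ s y) x = inner ℝ y (colR s x) := by
  rw [inner_eq_sum, inner_eq_sum]
  refine Finset.sum_congr rfl fun i _ => ?_
  have h1 : ∑ j, extZ s y (i, j) * x (i, j) =
      ∑ j ∈ s, extZ s y (i, j) * x (i, j) := by
    symm
    apply Finset.sum_subset (Finset.subset_univ s)
    intro j _ hj
    rw [extZ_apply, dif_neg hj, zero_mul]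
  rw [h1, ← Finset.sum_coe_sort s]
  refine Finset.sum_congr rfl fun j _ => ?_
  rw [extZ_apply, dif_pos j.2]
  rfl

private lemma colR_extZ (s : Finset ι) (y : EuclideanSpace ℝ (r × s)) :
    colR s (extZ s y) = y := by
  ext p
  obtain ⟨i, j⟩ := p
  show extZ s y (i, (j : ι)) = y (i, j)
  rw [extZ_apply, dif_pos j.2]

private noncomputable def extI (s : Finset ι) :
    EuclideanSpace ℝ (r × s) →ₗᵢ[ℝ] EuclideanSpace ℝ (r × ι) where
  toLinearMap := extZ s
  norm_map' y := by
    have h : ‖extZ s y‖ ^ 2 = ‖y‖ ^ 2 := by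
      rw [← real_inner_self_eq_norm_sq, inner_extZ, colR_extZ, real_inner_self_eq_norm_sq]
    exact (pow_left_inj₀ (norm_nonneg _) (norm_nonneg _) (by norm_num)).mp h

private lemma colR_act (s : Finset ι) (U : Matrix r r ℝ) (x : EuclideanSpace ℝ (r × ι)) :
    colR s (act U x) = act U (colR s x) := by
  ext p
  obtain ⟨i, j⟩ := p
  show act U x (i, (j : ι)) = _
  rw [act_apply, act_apply]
  rfl

private lemma measurable_act (U : Matrix r r ℝ) :
    Measurable (act U : EuclideanSpace ℝ (r × ι) → EuclideanSpace ℝ (r × ι)) :=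
  (LinearMap.continuous_of_finiteDimensional _).measurable

private lemma minv_colR (s : Finset ι) {ν : Measure (EuclideanSpace ℝ (r × ι))} (h : MInv ν) :
    MInv (ν.map (colRL s)) := by
  intro u hu
  have h1 : Measurable (colRL s : EuclideanSpace ℝ (r × ι) → EuclideanSpace ℝ (r × s)) :=
    (colRL s).continuous.measurable
  rw [Measure.map_map (measurable_act _) h1]
  have h2 : (⇑(act (u : Matrix r r ℝ)) ∘ ⇑(colRL s) :
      EuclideanSpace ℝ (r × ι) → EuclideanSpace ℝ (r × s)) =
      ⇑(colRL s) ∘ ⇑(act (u : Matrix r r ℝ)) := by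
    funext x
    simp only [Function.comp_apply, colRL_apply, colR_act]
  rw [h2, ← Measure.map_map h1 (measurable_act _), h u hu]

theorem opB_moment : ∃ C : ℝ, 0 < C ∧ ∀ (ι r : Type) [Fintype ι] [Fintype r] [DecidableEq ι]
    [DecidableEq r] (ν : Measure (EuclideanSpace ℝ (r × ι))) [IsProbabilityMeasure ν],
    3 ≤ Fintype.card r → FP.PLm ν → ν ≪ volume → MInv ν →
    (∀ ℓ : EuclideanSpace ℝ (r × ι) →L[ℝ] ℝ, Var[fun x => ℓ x; ν] = ‖ℓ‖ ^ 2) →
    Integrable (fun x : EuclideanSpace ℝ (r × ι) => opB x ^ 2) ν ∧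
      ∫ x, opB x ^ 2 ∂ν ≤ C * (Fintype.card r + Fintype.card ι) := by
  obtain ⟨C, hC, hmom⟩ := opB_moment1
  refine ⟨C, hC, ?_⟩
  intro ι r _ _ _ _ ν _ hr hpl hac hinv hiso
  have hr0 : 0 < Fintype.card r := by omega
  obtain ⟨m, c, hm, hcard, hcov⟩ := exists_groups ι hr0
  have hblock : ∀ a, Integrable (fun x : EuclideanSpace ℝ (r × ι) => opB (colR (c a) x) ^ 2) ν ∧
      ∫ x, opB (colR (c a) x) ^ 2 ∂ν ≤ C * Fintype.card r := by
    intro a
    obtain ⟨h1, h2, h3, h4⟩ := coiso_marg (colRL (c a)) (extI (c a))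
      (fun x y => inner_extZ (c a) y x) ν hpl hac hiso
    have h5 := minv_colR (c a) hinv
    have h6 : Fintype.card (c a) ≤ Fintype.card r := by
      rw [Fintype.card_coe]; exact hcard a
    obtain ⟨h7, h8⟩ := hmom (c a) r (ν.map (colRL (c a))) hr h6 h2 h3 h5 h4
    have hmeas : Measurable (colRL (c a) :
        EuclideanSpace ℝ (r × ι) → EuclideanSpace ℝ (r × (c a))) :=
      (colRL (c a)).continuous.measurable
    refine ⟨?_, ?_⟩
    · exact (integrable_map_measure h7.aestronglyMeasurable hmeas.aemeasurable).mp h7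
    · rw [integral_map hmeas.aemeasurable h7.aestronglyMeasurable] at h8
      exact h8
  have hsum : Integrable (fun x : EuclideanSpace ℝ (r × ι) => ∑ a, opB (colR (c a) x) ^ 2) ν :=
    integrable_finsetSum _ fun a _ => (hblock a).1
  have hint : Integrable (fun x : EuclideanSpace ℝ (r × ι) => opB x ^ 2) ν := by
    refine hsum.mono' (continuous_opB.pow 2).aestronglyMeasurable (ae_of_all _ fun x => ?_)
    rw [Real.norm_of_nonneg (by positivity)]
    exact opB_split c hcov x
  refine ⟨hint, ?_⟩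
  have h1 : ∫ x, opB x ^ 2 ∂ν ≤ ∫ x, ∑ a, opB (colR (c a) x) ^ 2 ∂ν :=
    integral_mono hint hsum fun x => opB_split c hcov x
  rw [integral_finsetSum _ fun a _ => (hblock a).1] at h1
  have h2 : ∑ a, ∫ x, opB (colR (c a) x) ^ 2 ∂ν ≤ ∑ _a : Fin m, C * Fintype.card r :=
    Finset.sum_le_sum fun a _ => (hblock a).2
  rw [Finset.sum_const, Finset.card_univ, Fintype.card_fin, nsmul_eq_mul] at h2
  have h3 : (0 : ℝ) < Fintype.card r := by exact_mod_cast hr0
  have h4 : (m : ℝ) * (C * Fintype.card r) ≤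
      ((Fintype.card ι : ℝ) / Fintype.card r + 1) * (C * Fintype.card r) :=
    mul_le_mul_of_nonneg_right hm (by positivity)
  have h5 : ((Fintype.card ι : ℝ) / Fintype.card r + 1) * (C * Fintype.card r) =
      C * (Fintype.card r + Fintype.card ι) := by
    field_simp
    ring
  linarith

end mixed

end Pool.Agent.Lib.MP_6d896a_gt.CJ
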