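import Mathlib
import Pool.Agent.Lib.MP_6d896a_gt.CJ.Defs
import Pool.Agent.Lib.MP_6d896a_gt.OM.Polar

/-!
Project CJ, piece P9: operator norm of a trace zero matrix in terms of the quadratic forms `qf`,
and the parallelogram inequality for `qf`.
-/

set_option autoImplicit false
set_option linter.unusedSectionVars false

namespace Pool.Agent.Lib.MP_6d896a_gt.CJ

open MeasureTheory ProbabilityTheory Matrix Set Filter
open Pool.Agent.Lib.MP_6d896a_gt.OM Pool.Agent.Lib.MP_6d896a_gt.UC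
open Pool.Agent.Lib.MP_6d896a_gt.UC.UR
open scoped ENNReal Topology

section conj

variable {r : Type} [Fintype r] [DecidableEq r]

private lemma ssq (u : r → ℝ) : ∑ i, u i ^ 2 = u ⬝ᵥ u := by
  simp only [dotProduct, sq]

private lemma two_qf (A : Matrix r r ℝ) (u : r → ℝ) :
    2 * qf A u = ∑ i, ∑ j, ((A *ᵥ u) i * u j - u i * (A *ᵥ u) j) ^ 2 := by
  unfold qf
  generalize A *ᵥ u = a
  have h1 : ∀ i j, (a i * u j - u i * a j) ^ 2 =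
      a i ^ 2 * u j ^ 2 + u i ^ 2 * a j ^ 2 - 2 * ((u i * a i) * (u j * a j)) := by
    intro i j; ring
  simp only [h1, Finset.sum_add_distrib, Finset.sum_sub_distrib, ← Finset.mul_sum]
  simp only [← Finset.sum_mul]
  ring

/-- parallelogram identity for the quadratic map `u ↦ Au ∧ u` -/
theorem qf_split (A : Matrix r r ℝ) (u w : r → ℝ) {T : ℝ} (h : 4 * T < qf A u) :
    T < qf A (u + w) ∨ T < qf A (u - w) ∨ T < qf A w := by
  by_contra hcon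
  push Not at hcon
  obtain ⟨h1, h2, h3⟩ := hcon
  have key : 2 * qf A u ≤ 2 * qf A (u + w) + 2 * qf A (u - w) + 2 * (2 * qf A w) := by
    rw [two_qf, two_qf, two_qf, two_qf, Finset.mul_sum, ← Finset.sum_add_distrib,
      ← Finset.sum_add_distrib]
    refine Finset.sum_le_sum fun i _ => ?_
    rw [Finset.mul_sum, ← Finset.sum_add_distrib, ← Finset.sum_add_distrib]
    refine Finset.sum_le_sum fun j _ => ?_
    simp only [Matrix.mulVec_add, Matrix.mulVec_sub, Pi.add_apply, Pi.sub_apply]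
    generalize A *ᵥ u = a
    generalize A *ᵥ w = b
    have e : ∀ x y z : ℝ, (x / 2 + y / 2 - z) ^ 2 ≤ x ^ 2 + y ^ 2 + 2 * z ^ 2 := by
      intro x y z
      nlinarith [sq_nonneg (z + (x + y) / 2), sq_nonneg (x - y)]
    have := e ((a i + b i) * (u j + w j) - (u i + w i) * (a j + b j))
      ((a i - b i) * (u j - w j) - (u i - w i) * (a j - b j)) (b i * w j - w i * b j)
    refine le_trans (le_of_eq ?_) this
    ring
  linarith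

private lemma cross {A : Matrix r r ℝ} {S : ℝ}
    (h : ∀ u : r → ℝ, qf A u ≤ S ^ 2 * (∑ i, u i ^ 2) ^ 2) (u v : r → ℝ) (huv : u ⬝ᵥ v = 0) :
    (v ⬝ᵥ A *ᵥ u) ^ 2 ≤ S ^ 2 * (u ⬝ᵥ u) * (v ⬝ᵥ v) := by
  rcases eq_or_ne u 0 with rfl | hu
  · simp
  have hp : 0 < u ⬝ᵥ u := by
    have := dotProduct_star_self_pos_iff (v := u)
    simpa using this.mpr hu
  have hv : 0 ≤ v ⬝ᵥ v := by
    rw [← ssq]; positivity
  have hq := h u
  unfold qf at hq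
  rw [ssq, ssq] at hq
  change _ - (u ⬝ᵥ A *ᵥ u) ^ 2 ≤ _ at hq
  set a := A *ᵥ u with ha
  -- the orthogonal part
  have hcs : (((u ⬝ᵥ u) • a - (u ⬝ᵥ a) • u) ⬝ᵥ v) ^ 2 ≤
      (((u ⬝ᵥ u) • a - (u ⬝ᵥ a) • u) ⬝ᵥ ((u ⬝ᵥ u) • a - (u ⬝ᵥ a) • u)) * (v ⬝ᵥ v) := by
    have := Finset.sum_mul_sq_le_sq_mul_sq Finset.univ ((u ⬝ᵥ u) • a - (u ⬝ᵥ a) • u) v
    rw [ssq v, ssq ((u ⬝ᵥ u) • a - (u ⬝ᵥ a) • u)] at this
    exact this
  simp only [sub_dotProduct, dotProduct_sub, smul_dotProduct, dotProduct_smul, smul_eq_mul,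
    huv, mul_zero, sub_zero, dotProduct_comm a u, dotProduct_comm a v] at hcs
  have h2 : (u ⬝ᵥ u) ^ 2 * (v ⬝ᵥ a) ^ 2 ≤ (u ⬝ᵥ u) ^ 2 * (S ^ 2 * (u ⬝ᵥ u) * (v ⬝ᵥ v)) := by
    calc (u ⬝ᵥ u) ^ 2 * (v ⬝ᵥ a) ^ 2 ≤
        (u ⬝ᵥ u) * ((a ⬝ᵥ a) * (u ⬝ᵥ u) - (u ⬝ᵥ a) ^ 2) * (v ⬝ᵥ v) := by nlinarith [hcs]
      _ ≤ (u ⬝ᵥ u) * (S ^ 2 * (u ⬝ᵥ u) ^ 2) * (v ⬝ᵥ v) := by gcongr
      _ = _ := by ring
  exact le_of_mul_le_mul_left h2 (by positivity)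

private lemma diag_diff {A : Matrix r r ℝ} {S : ℝ} (hS : 0 ≤ S)
    (h : ∀ u : r → ℝ, qf A u ≤ S ^ 2 * (∑ i, u i ^ 2) ^ 2) (u v : r → ℝ) (huv : u ⬝ᵥ v = 0)
    (hu : u ⬝ᵥ u = 1) (hv : v ⬝ᵥ v = 1) : |u ⬝ᵥ A *ᵥ u - v ⬝ᵥ A *ᵥ v| ≤ 4 * S := by
  have hvu : v ⬝ᵥ u = 0 := by rw [dotProduct_comm, huv]
  have h1 := cross h u v huv
  have h2 := cross h v u hvu
  have h3 := cross h (u + v) (u - v) (by
    simp only [dotProduct_sub, add_dotProduct, huv, hvu, hu, hv]; ring)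
  have e1 : (u + v) ⬝ᵥ (u + v) = 2 := by
    simp only [dotProduct_add, add_dotProduct, huv, hvu, hu, hv]; ring
  have e2 : (u - v) ⬝ᵥ (u - v) = 2 := by
    simp only [dotProduct_sub, sub_dotProduct, huv, hvu, hu, hv]; ring
  rw [e1, e2] at h3
  rw [hu, hv] at h1 h2
  have b1 : |v ⬝ᵥ A *ᵥ u| ≤ S := abs_le_of_sq_le_sq (by linarith) hS
  have b2 : |u ⬝ᵥ A *ᵥ v| ≤ S := abs_le_of_sq_le_sq (by linarith) hS
  have b3 : |(u - v) ⬝ᵥ A *ᵥ (u + v)| ≤ 2 * S :=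
    abs_le_of_sq_le_sq (by nlinarith [h3]) (by linarith)
  have e3 : (u - v) ⬝ᵥ A *ᵥ (u + v) =
      (u ⬝ᵥ A *ᵥ u - v ⬝ᵥ A *ᵥ v) + u ⬝ᵥ A *ᵥ v - v ⬝ᵥ A *ᵥ u := by
    simp only [Matrix.mulVec_add, dotProduct_add, sub_dotProduct]; ring
  rw [e3] at b3
  rw [abs_le] at *
  constructor <;> linarith [b1.1, b1.2, b2.1, b2.2, b3.1, b3.2]

private lemma col_dot (g : Matrix.orthogonalGroup r ℝ) (i j : r) :
    (g : Matrix r r ℝ) *ᵥ Pi.single i 1 ⬝ᵥ (g : Matrix r r ℝ) *ᵥ Pi.single j 1 =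
      if i = j then 1 else 0 := by
  rw [dotProduct_mulVec, Matrix.vecMul_mulVec, orth_left, Matrix.vecMul_one]
  simp [Pi.single_apply, eq_comm]

private lemma sum_diag (g : Matrix.orthogonalGroup r ℝ) (A : Matrix r r ℝ) :
    ∑ j, (g : Matrix r r ℝ) *ᵥ Pi.single j 1 ⬝ᵥ A *ᵥ ((g : Matrix r r ℝ) *ᵥ Pi.single j 1) =
      A.trace := by
  have h1 : ∀ j, (g : Matrix r r ℝ) *ᵥ Pi.single j 1 ⬝ᵥ
      A *ᵥ ((g : Matrix r r ℝ) *ᵥ Pi.single j 1) =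
      ((g : Matrix r r ℝ)ᵀ * A * (g : Matrix r r ℝ)) j j := by
    intro j
    have hc : (g : Matrix r r ℝ) *ᵥ Pi.single j 1 = fun i => (g : Matrix r r ℝ) i j := by
      funext i
      simp
    rw [hc]
    simp only [Matrix.mul_apply, dotProduct, Matrix.mulVec, Matrix.transpose_apply,
      Finset.sum_mul, Finset.mul_sum]
    rw [Finset.sum_comm]
    refine Finset.sum_congr rfl fun a _ => Finset.sum_congr rfl fun b _ => ?_
    ring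
  simp only [h1]
  change ((g : Matrix r r ℝ)ᵀ * A * (g : Matrix r r ℝ)).trace = A.trace
  rw [Matrix.trace_mul_comm, ← Matrix.mul_assoc, orth_right, Matrix.one_mul]

private lemma diag_bound (hr : 2 ≤ Fintype.card r) {A : Matrix r r ℝ} (htr : A.trace = 0) {S : ℝ}
    (hS : 0 ≤ S) (h : ∀ u : r → ℝ, qf A u ≤ S ^ 2 * (∑ i, u i ^ 2) ^ 2) (u : r → ℝ)
    (hu : u ⬝ᵥ u = 1) : |u ⬝ᵥ A *ᵥ u| ≤ 4 * S := by
  have hne : Nonempty r := by
    rw [← Fintype.card_pos_iff]; omega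
  obtain ⟨i0⟩ := hne
  obtain ⟨g, -, hg⟩ := rot_trans hr (Pi.single i0 1) u (by
    rw [ssq, ssq, hu]; simp)
  set c : r → r → ℝ := fun j => (g : Matrix r r ℝ) *ᵥ Pi.single j 1 with hc
  have hcu : c i0 = u := hg
  have hsum : ∑ j, c j ⬝ᵥ A *ᵥ (c j) = 0 := by
    rw [← htr]; exact sum_diag g A
  have hd : ∀ j, |u ⬝ᵥ A *ᵥ u - c j ⬝ᵥ A *ᵥ (c j)| ≤ 4 * S := by
    intro j
    by_cases hj : i0 = j
    · subst hj
      rw [hcu, sub_self, abs_zero]; positivity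
    · refine diag_diff hS h u (c j) ?_ hu ?_
      · rw [← hcu]
        have := col_dot g i0 j
        rw [if_neg hj] at this
        exact this
      · have := col_dot g j j
        rw [if_pos rfl] at this
        exact this
  have hcard : (0 : ℝ) < Fintype.card r := by
    have : 0 < Fintype.card r := by omega
    exact_mod_cast this
  have h1 : (Fintype.card r : ℝ) * (u ⬝ᵥ A *ᵥ u) =
      ∑ j, (u ⬝ᵥ A *ᵥ u - c j ⬝ᵥ A *ᵥ (c j)) := by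
    rw [Finset.sum_sub_distrib, hsum, sub_zero]
    simp
  have h2 : |(Fintype.card r : ℝ) * (u ⬝ᵥ A *ᵥ u)| ≤ (Fintype.card r : ℝ) * (4 * S) := by
    rw [h1]
    refine (Finset.abs_sum_le_sum_abs _ _).trans ?_
    refine (Finset.sum_le_sum fun j _ => hd j).trans ?_
    simp
  rw [abs_mul, abs_of_pos hcard] at h2
  exact le_of_mul_le_mul_left h2 hcard

private lemma mulVec_bound (hr : 2 ≤ Fintype.card r) {A : Matrix r r ℝ} (htr : A.trace = 0)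
    {S : ℝ} (hS : 0 ≤ S) (h : ∀ u : r → ℝ, qf A u ≤ S ^ 2 * (∑ i, u i ^ 2) ^ 2) (w : r → ℝ) :
    ∑ i, (A *ᵥ w) i ^ 2 ≤ (5 * S) ^ 2 * ∑ i, w i ^ 2 := by
  rcases eq_or_ne w 0 with rfl | hw
  · simp
  have hp : 0 < w ⬝ᵥ w := by
    have := dotProduct_star_self_pos_iff (v := w)
    simpa using this.mpr hw
  rw [ssq, ssq]
  set t := Real.sqrt (w ⬝ᵥ w) with ht
  have ht0 : 0 < t := Real.sqrt_pos.mpr hp
  have htt : t ^ 2 = w ⬝ᵥ w := Real.sq_sqrt hp.le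
  set u : r → ℝ := t⁻¹ • w with hu
  have hwu : w = t • u := by
    rw [hu, smul_smul, mul_inv_cancel₀ ht0.ne', one_smul]
  have huu : u ⬝ᵥ u = 1 := by
    rw [hu, smul_dotProduct, dotProduct_smul, smul_eq_mul, smul_eq_mul, ← htt]
    field_simp
  have hb := diag_bound hr htr hS h u huu
  have hq := h u
  unfold qf at hq
  rw [ssq, ssq] at hq
  change _ - (u ⬝ᵥ A *ᵥ u) ^ 2 ≤ _ at hq
  rw [huu] at hq
  have hb2 : (u ⬝ᵥ A *ᵥ u) ^ 2 ≤ (4 * S) ^ 2 := by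
    rw [← sq_abs]
    gcongr
  have h3 : (A *ᵥ u) ⬝ᵥ (A *ᵥ u) ≤ (5 * S) ^ 2 := by nlinarith [sq_nonneg S]
  have h4 : (A *ᵥ w) ⬝ᵥ (A *ᵥ w) = t ^ 2 * ((A *ᵥ u) ⬝ᵥ (A *ᵥ u)) := by
    rw [hwu, Matrix.mulVec_smul, smul_dotProduct, dotProduct_smul, smul_eq_mul, smul_eq_mul]
    ring
  rw [h4, ← htt]
  nlinarith [mul_le_mul_of_nonneg_left h3 (sq_nonneg t)]

private lemma opn_le_of_aux (A : Matrix r r ℝ) {S : ℝ} (hS : 0 ≤ S)
    (h : ∀ w : r → ℝ, ∑ i, (A *ᵥ w) i ^ 2 ≤ S ^ 2 * ∑ i, w i ^ 2) : opn A ≤ S := by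
  unfold opn
  refine ContinuousLinearMap.opNorm_le_bound _ hS fun w => ?_
  rw [EuclideanSpace.norm_eq, EuclideanSpace.norm_eq, ← Real.sqrt_sq hS,
    ← Real.sqrt_mul (sq_nonneg S)]
  refine Real.sqrt_le_sqrt ?_
  have := h w.ofLp
  simpa [Matrix.ofLp_toEuclideanCLM] using this

/-- operator norm of a trace zero matrix -/
theorem opn_of_qf (hr : 2 ≤ Fintype.card r) {A : Matrix r r ℝ} (htr : A.trace = 0) {S : ℝ}
    (hS : 0 ≤ S) (h : ∀ u : r → ℝ, qf A u ≤ S ^ 2 * (∑ i, u i ^ 2) ^ 2) : opn A ≤ 5 * S :=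
  opn_le_of_aux A (by linarith) (mulVec_bound hr htr hS h)

end conj

end Pool.Agent.Lib.MP_6d896a_gt.CJ
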