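import Mathlib
import Pool.Agent.Lib.MP_6d896a_gt.CJ.Defs
import Pool.Agent.Lib.MP_6d896a_gt.OM.Cut
import Pool.Agent.Lib.MP_6d896a_gt.FP.EM
import Pool.Agent.Lib.MP_6d896a_gt.CJ.CjFix
import Pool.Agent.Lib.MP_6d896a_gt.CJ.OpnTr
import Pool.Agent.Lib.MP_6d896a_gt.CJ.ColTail
import Pool.Agent.Lib.MP_6d896a_gt.CJ.AllDir

/-!
Project CJ, piece P12: second moment of the operator norm.
-/

set_option autoImplicit false
set_option linter.unusedSectionVars false

namespace Pool.Agent.Lib.MP_6d896a_gt.CJ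

open MeasureTheory ProbabilityTheory Matrix Set Filter
open Pool.Agent.Lib.MP_6d896a_gt.OM Pool.Agent.Lib.MP_6d896a_gt.UC
open Pool.Agent.Lib.MP_6d896a_gt.UC.UR
open scoped ENNReal Topology

section conj

variable {κ r : Type} [Fintype κ] [Fintype r] [DecidableEq r]

/-- the entry of a matrix, as a functional -/
private noncomputable def omEnt (l : κ) (i j : r) : Eu (dW κ r) →L[ℝ] ℝ :=
  (EuclideanSpace.proj (l, i, j) : Tup κ r →L[ℝ] ℝ).comp
    (jt (κ := κ) (r := r)).toContinuousLinearMap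

private lemma omEnt_apply (l : κ) (i j : r) (x : Eu (dW κ r)) :
    omEnt l i j x = mx l (jt x) i j := rfl

private lemma omEnt_norm (l : κ) (i j : r) : ‖omEnt (κ := κ) (r := r) l i j‖ ≤ 1 := by
  refine ContinuousLinearMap.opNorm_le_bound _ zero_le_one fun x => ?_
  rw [one_mul, omEnt_apply, ← (jt (κ := κ) (r := r)).norm_map x]
  exact PiLp.norm_apply_le (jt x : Tup κ r) (l, i, j)

private lemma om_mean (hr : 3 ≤ Fintype.card r) (ν : Measure (Eu (dW κ r)))
    [IsProbabilityMeasure ν] (hpl : FP.PLm ν) (hinv : (cjAct κ r).Inv ν)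
    (L : Eu (dW κ r) →L[ℝ] ℝ) : ∫ x, L x ∂ν = 0 := by
  have hi2 := hpl.sq_integrable
  have hi : Integrable (fun x : Eu (dW κ r) => x) ν := by
    have h1 : MemLp (id : Eu (dW κ r) → Eu (dW κ r)) 2 ν := by
      rw [memLp_two_iff_integrable_sq_norm continuous_id.aestronglyMeasurable]
      exact hi2
    exact h1.integrable (by norm_num)
  set m : Eu (dW κ r) := ∫ x, x ∂ν with hm
  have h0 : m = 0 := by
    refine cj_nofix hr m fun g => ?_
    set T : Eu (dW κ r) ≃ₗᵢ[ℝ] Eu (dW κ r) := (cjAct κ r).ρ g with hT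
    have h1 : T m = ∫ x, T x ∂ν := by
      rw [hm]
      exact (T.toContinuousLinearEquiv.integral_comp_comm (fun x : Eu (dW κ r) => x)).symm
    have h2 : ∫ x, T x ∂ν = ∫ x, x ∂(ν.map T) :=
      (integral_map (f := fun x : Eu (dW κ r) => x) T.continuous.aemeasurable
        continuous_id.aestronglyMeasurable).symm
    rw [h1, h2, hinv g]
  have h3 : ∫ x, L x ∂ν = L m := by
    rw [hm]
    exact L.integral_comp_comm hi
  rw [h3, h0, map_zero]

private lemma om_four {N : ℕ} (ν : Measure (Eu N)) [IsProbabilityMeasure ν] (hpl : FP.PLm ν)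
    (hiso : ∀ ℓ : Eu N →L[ℝ] ℝ, Var[fun x => ℓ x; ν] = ‖ℓ‖ ^ 2) (L : Eu N →L[ℝ] ℝ)
    (hL : ‖L‖ ≤ 1) (hm : ∫ x, L x ∂ν = 0) :
    Integrable (fun x => L x ^ 4) ν ∧ ∫ x, L x ^ 4 ∂ν ≤ 393216 := by
  by_cases h0 : L = 0
  · subst h0
    simp
  have hn : 0 < ‖L‖ := norm_pos_iff.2 h0
  set M : Eu N →L[ℝ] ℝ := ‖L‖⁻¹ • L with hM
  have hMn : ‖M‖ = 1 := by
    rw [hM, norm_smul, norm_inv, norm_norm, inv_mul_cancel₀ hn.ne']
  have hMv : Var[fun x => M x; ν] = 1 := by rw [hiso, hMn, one_pow]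
  have hMm : ∫ x, M x ∂ν = 0 := by
    simp only [hM, _root_.smul_apply, smul_eq_mul]
    rw [integral_const_mul, hm, mul_zero]
  have h1 := fourth_moment hpl M hMv
  rw [hMm] at h1
  simp only [sub_zero] at h1
  have e : ∀ x, L x ^ 4 = ‖L‖ ^ 4 * M x ^ 4 := by
    intro x
    simp only [hM, _root_.smul_apply, smul_eq_mul]
    rw [← mul_pow, ← mul_assoc, mul_inv_cancel₀ hn.ne', one_mul]
  simp only [e]
  refine ⟨h1.1.const_mul _, ?_⟩
  rw [integral_const_mul]
  have h2 : ‖L‖ ^ 4 ≤ 1 := pow_le_one₀ hn.le hL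
  have h3 : 0 ≤ ∫ x, M x ^ 4 ∂ν := integral_nonneg fun x => by positivity
  have h4 : 0 ≤ ‖L‖ ^ 4 := by positivity
  nlinarith [h1.2]

private lemma om_opn_nonneg (A : Matrix r r ℝ) : 0 ≤ opn A := norm_nonneg _

/-- squared Hilbert-Schmidt norm -/
private noncomputable def omHS (A : Matrix r r ℝ) : ℝ := ∑ p : r × r, A p.1 p.2 ^ 2

private lemma omHS_nonneg (A : Matrix r r ℝ) : 0 ≤ omHS A :=
  Finset.sum_nonneg fun _ _ => sq_nonneg _

private lemma om_opn_le_of (A : Matrix r r ℝ) {S : ℝ} (hS : 0 ≤ S)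
    (h : ∀ w : r → ℝ, ∑ i, (A *ᵥ w) i ^ 2 ≤ S ^ 2 * ∑ i, w i ^ 2) : opn A ≤ S := by
  unfold opn
  refine ContinuousLinearMap.opNorm_le_bound _ hS fun w => ?_
  rw [EuclideanSpace.norm_eq, EuclideanSpace.norm_eq, ← Real.sqrt_sq hS,
    ← Real.sqrt_mul (sq_nonneg S)]
  refine Real.sqrt_le_sqrt ?_
  have := h w.ofLp
  simpa [Matrix.ofLp_toEuclideanCLM] using this

private lemma om_opn_sq_le (A : Matrix r r ℝ) : opn A ^ 2 ≤ omHS A := by
  have h1 : opn A ≤ Real.sqrt (omHS A) := by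
    refine om_opn_le_of A (Real.sqrt_nonneg _) fun w => ?_
    rw [Real.sq_sqrt (omHS_nonneg A)]
    have h2 : ∀ i, (A *ᵥ w) i ^ 2 ≤ (∑ j, A i j ^ 2) * ∑ j, w j ^ 2 := fun i =>
      Finset.sum_mul_sq_le_sq_mul_sq Finset.univ (fun j => A i j) w
    calc ∑ i, (A *ᵥ w) i ^ 2 ≤ ∑ i, (∑ j, A i j ^ 2) * ∑ j, w j ^ 2 :=
          Finset.sum_le_sum fun i _ => h2 i
      _ = omHS A * ∑ j, w j ^ 2 := by
          rw [← Finset.sum_mul]
          unfold omHS
          rw [Fintype.sum_prod_type]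
  calc opn A ^ 2 ≤ Real.sqrt (omHS A) ^ 2 := pow_le_pow_left₀ (om_opn_nonneg A) h1 2
    _ = omHS A := Real.sq_sqrt (omHS_nonneg A)

private lemma om_hs_sq (A : Matrix r r ℝ) :
    omHS A ^ 2 ≤ (Fintype.card r : ℝ) ^ 2 * ∑ p : r × r, A p.1 p.2 ^ 4 := by
  have h1 := sq_sum_le_card_mul_sum_sq (s := (Finset.univ : Finset (r × r)))
    (f := fun p : r × r => A p.1 p.2 ^ 2)
  rw [Finset.card_univ, Fintype.card_prod] at h1
  unfold omHS
  refine h1.trans (le_of_eq ?_)
  push_cast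
  rw [sq]
  congr 1
  exact Finset.sum_congr rfl fun p _ => by ring

private lemma om_qf_cont (l : κ) (u : r → ℝ) :
    Continuous fun x : Eu (dW κ r) => qf (mx l (jt x)) u := by
  have h1 : ∀ i j : r, Continuous fun x : Eu (dW κ r) => mx l (jt x) i j := fun i j =>
    (omEnt l i j).continuous
  have h2 : ∀ i : r, Continuous fun x : Eu (dW κ r) => (mx l (jt x) *ᵥ u) i := fun i => by
    show Continuous fun x : Eu (dW κ r) => ∑ j, mx l (jt x) i j * u j
    exact continuous_finsetSum _ fun j _ => (h1 i j).mul continuous_const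
  unfold qf
  refine Continuous.sub (Continuous.mul (continuous_finsetSum _ fun i _ => (h2 i).pow 2)
    continuous_const) (Continuous.pow (continuous_finsetSum _ fun i _ =>
      continuous_const.mul (h2 i)) 2)

private lemma om_opn_cont (l : κ) : Continuous fun x : Eu (dW κ r) => opn (mx l (jt x)) := by
  have h1 : Continuous fun x : Eu (dW κ r) =>
      (Matrix.toEuclideanCLM (𝕜 := ℝ) (n := r)) (mx l (jt x)) := by
    have h2 : Continuous (((Matrix.toEuclideanCLM (𝕜 := ℝ) (n := r)).toAlgEquiv.toLinearMap.comp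
      ((mx l).comp (jt (κ := κ) (r := r)).toLinearMap)) : Eu (dW κ r) →ₗ[ℝ] _) :=
      LinearMap.continuous_of_finiteDimensional _
    exact h2
  exact h1.norm

theorem opn_moment : ∃ C : ℝ, 0 < C ∧ ∀ (κ r : Type) [Fintype κ] [Fintype r] [DecidableEq r]
    (ν : Measure (Eu (dW κ r))) [IsProbabilityMeasure ν], 4 ≤ Fintype.card r →
    FP.PLm ν → ν ≪ volume → (cjAct κ r).Inv ν →
    (∀ ℓ : Eu (dW κ r) →L[ℝ] ℝ, Var[fun x => ℓ x; ν] = ‖ℓ‖ ^ 2) → ∀ l : κ,
    Integrable (fun x : Eu (dW κ r) => opn (mx l (jt x)) ^ 2) ν ∧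
      ∫ x, opn (mx l (jt x)) ^ 2 ∂ν ≤ C * Fintype.card r := by
  refine ⟨57600 ^ 2 + 196608 + 18, by norm_num, ?_⟩
  intro κ r _ _ _ ν _ hr hpl hac hinv hiso l
  set n : ℝ := (Fintype.card r : ℝ) with hn
  have hn4 : (4 : ℝ) ≤ n := by rw [hn]; exact_mod_cast hr
  have hn0 : 0 < n := by linarith
  have hsn : 0 ≤ Real.sqrt n := Real.sqrt_nonneg _
  have hsn2 : Real.sqrt n ^ 2 = n := Real.sq_sqrt hn0.le
  -- the moments of the entries
  have hent : ∀ i j : r, Integrable (fun x : Eu (dW κ r) => mx l (jt x) i j ^ 4) ν ∧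
      ∫ x : Eu (dW κ r), mx l (jt x) i j ^ 4 ∂ν ≤ 393216 := fun i j =>
    om_four ν hpl hiso (omEnt l i j) (omEnt_norm l i j)
      (om_mean (by omega) ν hpl hinv (omEnt l i j))
  set q : Eu (dW κ r) → ℝ := fun x => ∑ p : r × r, mx l (jt x) p.1 p.2 ^ 4 with hq
  have hqi : Integrable q ν := integrable_finsetSum _ fun p _ => (hent p.1 p.2).1
  have hqe : ∫ x, q x ∂ν ≤ 393216 * n ^ 2 := by
    rw [hq, integral_finsetSum _ fun p _ => (hent p.1 p.2).1]
    refine (Finset.sum_le_sum fun p _ => (hent p.1 p.2).2).trans (le_of_eq ?_)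
    rw [Finset.sum_const, Finset.card_univ, Fintype.card_prod, nsmul_eq_mul]
    push_cast
    rw [← hn]
    ring
  -- the good set
  set G : Set (Eu (dW κ r)) := {x | ∀ u : r → ℝ,
    qf (mx l (jt x)) u ≤ (8 * (1440 * Real.sqrt n)) ^ 2 * (∑ i, u i ^ 2) ^ 2} with hG
  have hGc : IsClosed G := by
    have h1 : G = ⋂ u : r → ℝ, {x : Eu (dW κ r) |
      qf (mx l (jt x)) u ≤ (8 * (1440 * Real.sqrt n)) ^ 2 * (∑ i, u i ^ 2) ^ 2} := by
      ext x
      simp [hG]
    rw [h1]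
    exact isClosed_iInter fun u => isClosed_le (om_qf_cont l u) continuous_const
  have hGm : MeasurableSet Gᶜ := hGc.measurableSet.compl
  have hbad : ν.real Gᶜ ≤ 36 * (1 / 6) ^ Fintype.card r := by
    have h1 := all_dir ν (fun x : Eu (dW κ r) => mx l (jt x))
      (fun i j => (omEnt l i j).continuous.measurable) (by omega)
      (S := 1440 * Real.sqrt n) (p := (1 / 12) ^ (Fintype.card r - 1)) (by positivity)
      (by positivity) (fun u hu => by
        have h2 := qf_tail hr ν hpl hac hinv hiso l u hu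
        have e : (1440 * Real.sqrt n) ^ 2 = 1440 ^ 2 * n := by rw [mul_pow, hsn2]
        rw [e]
        exact h2)
    have e1 : Gᶜ = {x : Eu (dW κ r) | ¬ ∀ u : r → ℝ,
        qf (mx l (jt x)) u ≤ (8 * (1440 * Real.sqrt n)) ^ 2 * (∑ i, u i ^ 2) ^ 2} := by
      ext x
      simp [hG]
    rw [e1]
    refine h1.trans (le_of_eq ?_)
    obtain ⟨m, hm⟩ : ∃ m, Fintype.card r = m + 1 := ⟨Fintype.card r - 1, by omega⟩
    rw [hm, Nat.add_sub_cancel]
    have e2 : (1 / 6 : ℝ) ^ (m + 1) = 2 ^ (m + 1) * (1 / 12) ^ (m + 1) := by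
      rw [← mul_pow]; norm_num
    rw [e2, pow_succ (1 / 12 : ℝ) m]
    ring
  -- the pointwise bound
  have hpt : ∀ x : Eu (dW κ r), opn (mx l (jt x)) ^ 2 ≤
      57600 ^ 2 * n + (1 / (2 * n)) * q x + n ^ 3 / 2 * (Gᶜ).indicator (fun _ => (1 : ℝ)) x := by
    intro x
    have hq0 : 0 ≤ q x := Finset.sum_nonneg fun _ _ => by positivity
    by_cases hx : x ∈ G
    · have h1 : opn (mx l (jt x)) ≤ 5 * (8 * (1440 * Real.sqrt n)) :=
        opn_of_qf (by omega) (mem_TrZ.1 (jt_mem x) l) (by positivity) hx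
      have h2 : opn (mx l (jt x)) ^ 2 ≤ (5 * (8 * (1440 * Real.sqrt n))) ^ 2 :=
        pow_le_pow_left₀ (om_opn_nonneg _) h1 2
      have h3 : (5 * (8 * (1440 * Real.sqrt n))) ^ 2 = 57600 ^ 2 * n := by
        rw [← mul_assoc, ← mul_assoc, mul_pow, hsn2]
        norm_num
      have h4 : (Gᶜ).indicator (fun _ => (1 : ℝ)) x = 0 :=
        Set.indicator_of_notMem (by simpa using hx) _
      rw [h4]
      have h5 : 0 ≤ (1 / (2 * n)) * q x := by positivity
      linarith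
    · have h4 : (Gᶜ).indicator (fun _ => (1 : ℝ)) x = 1 :=
        Set.indicator_of_mem (by simpa using hx) _
      rw [h4]
      have h1 := om_opn_sq_le (mx l (jt x))
      have h2 := om_hs_sq (mx l (jt x))
      have h3 : omHS (mx l (jt x)) ≤ omHS (mx l (jt x)) ^ 2 / (2 * n ^ 3) + n ^ 3 / 2 := by
        have h5 : 0 ≤ (omHS (mx l (jt x)) - n ^ 3) ^ 2 / (2 * n ^ 3) := by positivity
        have h6 : (omHS (mx l (jt x)) - n ^ 3) ^ 2 / (2 * n ^ 3) =
            omHS (mx l (jt x)) ^ 2 / (2 * n ^ 3) + n ^ 3 / 2 - omHS (mx l (jt x)) := by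
          field_simp
          ring
        linarith
      have h7 : omHS (mx l (jt x)) ^ 2 / (2 * n ^ 3) ≤ (1 / (2 * n)) * q x := by
        rw [div_le_iff₀ (by positivity)]
        have e : 1 / (2 * n) * q x * (2 * n ^ 3) = n ^ 2 * q x := by
          field_simp
        rw [e]
        exact h2
      have h8 : (0 : ℝ) ≤ 57600 ^ 2 * n := by positivity
      linarith
  have hind : Integrable ((Gᶜ).indicator (fun _ => (1 : ℝ))) ν :=
    (integrable_const (1 : ℝ)).indicator hGm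
  have hbi : Integrable (fun x => 57600 ^ 2 * n + (1 / (2 * n)) * q x +
      n ^ 3 / 2 * (Gᶜ).indicator (fun _ => (1 : ℝ)) x) ν :=
    ((integrable_const _).add (hqi.const_mul _)).add (hind.const_mul _)
  have hi : Integrable (fun x : Eu (dW κ r) => opn (mx l (jt x)) ^ 2) ν := by
    refine hbi.mono' ((om_opn_cont l).pow 2).aestronglyMeasurable (ae_of_all _ fun x => ?_)
    rw [Real.norm_eq_abs, abs_of_nonneg (sq_nonneg _)]
    exact hpt x
  refine ⟨hi, ?_⟩
  refine (integral_mono hi hbi hpt).trans ?_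
  have hi1 : Integrable (fun x => 57600 ^ 2 * n + (1 / (2 * n)) * q x) ν :=
    (integrable_const _).add (hqi.const_mul _)
  have hi2 : Integrable (fun x => n ^ 3 / 2 * (Gᶜ).indicator (fun _ => (1 : ℝ)) x) ν :=
    hind.const_mul _
  have hv1 : ∫ x, (1 / (2 * n)) * q x ∂ν = (1 / (2 * n)) * ∫ x, q x ∂ν :=
    integral_const_mul _ _
  have hv2 : ∫ x, n ^ 3 / 2 * (Gᶜ).indicator (fun _ => (1 : ℝ)) x ∂ν =
      n ^ 3 / 2 * ν.real Gᶜ := by
    rw [integral_const_mul, integral_indicator_const _ hGm, smul_eq_mul, mul_one]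
  rw [integral_add hi1 hi2, integral_add (integrable_const _) (hqi.const_mul _), hv1, hv2,
    integral_const]
  simp only [probReal_univ, smul_eq_mul, one_mul]
  have h1 : 1 / (2 * n) * ∫ x, q x ∂ν ≤ 196608 * n := by
    have h2 : 1 / (2 * n) * ∫ x, q x ∂ν ≤ 1 / (2 * n) * (393216 * n ^ 2) :=
      mul_le_mul_of_nonneg_left hqe (by positivity)
    have h3 : 1 / (2 * n) * (393216 * n ^ 2) = 196608 * n := by
      field_simp
      ring
    linarith
  have h2 : n ^ 3 / 2 * ν.real Gᶜ ≤ 18 * n := by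
    have h3 : n ^ 2 * (1 / 6) ^ Fintype.card r ≤ 1 := by
      have h4 : n ^ 2 ≤ 6 ^ Fintype.card r := by
        have h5 : ∀ m : ℕ, m ^ 2 ≤ 6 ^ m := by
          intro m
          have h6 : m < 2 ^ m := Nat.lt_two_pow_self
          calc m ^ 2 ≤ (2 ^ m) ^ 2 := Nat.pow_le_pow_left h6.le 2
            _ = 4 ^ m := by
                rw [← pow_mul, mul_comm, pow_mul]
                norm_num
            _ ≤ 6 ^ m := Nat.pow_le_pow_left (by norm_num) m
        rw [hn]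
        exact_mod_cast h5 (Fintype.card r)
      rw [one_div, inv_pow, ← div_eq_mul_inv, div_le_one (by positivity)]
      exact h4
    calc n ^ 3 / 2 * ν.real Gᶜ ≤ n ^ 3 / 2 * (36 * (1 / 6) ^ Fintype.card r) :=
          mul_le_mul_of_nonneg_left hbad (by positivity)
      _ = 18 * n * (n ^ 2 * (1 / 6) ^ Fintype.card r) := by ring
      _ ≤ 18 * n * 1 := mul_le_mul_of_nonneg_left h3 (by positivity)
      _ = 18 * n := by ring
  linarith

end conj

end Pool.Agent.Lib.MP_6d896a_gt.CJ
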