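import Mathlib
import Pool.Agent.Lib.MP_6d896a_gt.CJ.MDefs
import Pool.Agent.Lib.MP_6d896a_gt.CJ.OpnMom
import Pool.Agent.Lib.MP_6d896a_gt.CJ.Coiso
import Pool.Agent.Lib.MP_6d896a_gt.CJ.MMom2

/-!
Project CJ, stage 2, piece M7: the mean of the weight of the mixed space.
-/

set_option autoImplicit false
set_option linter.unusedSectionVars false

namespace Pool.Agent.Lib.MP_6d896a_gt.CJ

open MeasureTheory ProbabilityTheory Matrix Set Filter
open Pool.Agent.Lib.MP_6d896a_gt.OM Pool.Agent.Lib.MP_6d896a_gt.UC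
open Pool.Agent.Lib.MP_6d896a_gt.UC.UR
open scoped ENNReal Topology

section mixed

variable {ι κ r : Type} [Fintype ι] [Fintype κ] [Fintype r] [DecidableEq r]

private lemma mk2_mem_TZ0 (b : EuclideanSpace ℝ (r × ι)) : mk2 b 0 ∈ TZ ι κ r := by
  rw [mem_TZ, pA_mk2]
  exact Submodule.zero_mem _

private lemma mk2_mem_TZ1 (y : Eu (dW κ r)) : mk2 (0 : EuclideanSpace ℝ (r × ι)) (jt y) ∈ TZ ι κ r := by
  rw [mem_TZ, pA_mk2]
  exact jt_mem y

private lemma jm_symm {y : Mi ι κ r} (hy : y ∈ TZ ι κ r) :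
    (jm ((JM ι κ r).symm ⟨y, hy⟩) : Mi ι κ r) = y := by
  show ((JM ι κ r ((JM ι κ r).symm ⟨y, hy⟩) : TZ ι κ r) : Mi ι κ r) = y
  rw [LinearIsometryEquiv.apply_symm_apply]

private lemma jt_symm {y : Tup κ r} (hy : y ∈ TrZ κ r) :
    (jt ((JW κ r).symm ⟨y, hy⟩) : Tup κ r) = y := by
  show ((JW κ r ((JW κ r).symm ⟨y, hy⟩) : TrZ κ r) : Tup κ r) = y
  rw [LinearIsometryEquiv.apply_symm_apply]

/-- the rectangular part -/
private noncomputable def QB (ι κ r : Type) [Fintype ι] [Fintype κ] [Fintype r] [DecidableEq r] :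
    Eu (dM ι κ r) →L[ℝ] EuclideanSpace ℝ (r × ι) :=
  LinearMap.toContinuousLinearMap (pB.comp (jm (ι := ι) (κ := κ) (r := r)).toLinearMap)

private lemma QB_apply (x : Eu (dM ι κ r)) : QB ι κ r x = pB (jm x) := rfl

/-- the embedding of the rectangular matrices -/
private noncomputable def SB (ι κ r : Type) [Fintype ι] [Fintype κ] [Fintype r] [DecidableEq r] :
    EuclideanSpace ℝ (r × ι) →ₗᵢ[ℝ] Eu (dM ι κ r) where
  toFun b := (JM ι κ r).symm ⟨mk2 b 0, mk2_mem_TZ0 b⟩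
  map_add' x y := by
    rw [← map_add]
    congr 1
    ext1
    show mk2 (x + y) (0 : Tup κ r) = mk2 x 0 + mk2 y 0
    rw [← mk2_add, add_zero]
  map_smul' c x := by
    rw [RingHom.id_apply, ← map_smul]
    congr 1
    ext1
    show mk2 (c • x) (0 : Tup κ r) = c • mk2 x 0
    rw [← mk2_smul, smul_zero]
  norm_map' x := by
    show ‖(JM ι κ r).symm ⟨mk2 x 0, mk2_mem_TZ0 x⟩‖ = ‖x‖
    rw [LinearIsometryEquiv.norm_map]
    show ‖mk2 x (0 : Tup κ r)‖ = ‖x‖
    have h : ‖mk2 x (0 : Tup κ r)‖ ^ 2 = ‖x‖ ^ 2 := by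
      rw [norm_mi, pB_mk2, pA_mk2]
      simp
    exact (pow_left_inj₀ (norm_nonneg _) (norm_nonneg _) (by norm_num)).mp h

private lemma jm_SB (b : EuclideanSpace ℝ (r × ι)) : (jm (SB ι κ r b) : Mi ι κ r) = mk2 b 0 :=
  jm_symm _

private lemma QB_SB (x : Eu (dM ι κ r)) (y : EuclideanSpace ℝ (r × ι)) :
    inner ℝ (SB ι κ r y) x = inner ℝ y (QB ι κ r x) := by
  rw [← (jm (ι := ι) (κ := κ) (r := r)).inner_map_map, jm_SB, inner_mi, pB_mk2, pA_mk2,
    inner_zero_left, add_zero, QB_apply]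

/-- the square part -/
private noncomputable def QA (ι κ r : Type) [Fintype ι] [Fintype κ] [Fintype r] [DecidableEq r] :
    Eu (dM ι κ r) →L[ℝ] Eu (dW κ r) :=
  LinearMap.toContinuousLinearMap
    { toFun := fun x => (JW κ r).symm ⟨pA (jm x), jm_mem x⟩
      map_add' := fun x y => by
        rw [← map_add]
        congr 1
        ext1
        show pA (jm (x + y)) = pA (jm x) + pA (jm y)
        rw [map_add, map_add]
      map_smul' := fun c x => by
        rw [RingHom.id_apply, ← map_smul]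
        congr 1
        ext1
        show pA (jm (c • x)) = c • pA (jm x)
        rw [map_smul, map_smul] }

private lemma jt_QA (x : Eu (dM ι κ r)) : (jt (QA ι κ r x) : Tup κ r) = pA (jm x) :=
  jt_symm (jm_mem x)

/-- the embedding of the tuples of square matrices -/
private noncomputable def SA (ι κ r : Type) [Fintype ι] [Fintype κ] [Fintype r] [DecidableEq r] :
    Eu (dW κ r) →ₗᵢ[ℝ] Eu (dM ι κ r) where
  toFun y := (JM ι κ r).symm ⟨mk2 0 (jt y), mk2_mem_TZ1 y⟩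
  map_add' x y := by
    rw [← map_add]
    congr 1
    ext1
    show mk2 (0 : EuclideanSpace ℝ (r × ι)) (jt (x + y)) = mk2 0 (jt x) + mk2 0 (jt y)
    rw [← mk2_add, add_zero, map_add]
  map_smul' c x := by
    rw [RingHom.id_apply, ← map_smul]
    congr 1
    ext1
    show mk2 (0 : EuclideanSpace ℝ (r × ι)) (jt (c • x)) = c • mk2 0 (jt x)
    rw [← mk2_smul, smul_zero, map_smul]
  norm_map' x := by
    show ‖(JM ι κ r).symm ⟨mk2 0 (jt x), mk2_mem_TZ1 x⟩‖ = ‖x‖
    rw [LinearIsometryEquiv.norm_map]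
    show ‖mk2 (0 : EuclideanSpace ℝ (r × ι)) (jt x)‖ = ‖x‖
    have h : ‖mk2 (0 : EuclideanSpace ℝ (r × ι)) (jt x)‖ ^ 2 = ‖x‖ ^ 2 := by
      rw [norm_mi, pB_mk2, pA_mk2, LinearIsometry.norm_map]
      simp
    exact (pow_left_inj₀ (norm_nonneg _) (norm_nonneg _) (by norm_num)).mp h

private lemma jm_SA (y : Eu (dW κ r)) : (jm (SA ι κ r y) : Mi ι κ r) = mk2 0 (jt y) :=
  jm_symm _

private lemma QA_SA (x : Eu (dM ι κ r)) (y : Eu (dW κ r)) :
    inner ℝ (SA ι κ r y) x = inner ℝ y (QA ι κ r x) := by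
  rw [← (jm (ι := ι) (κ := κ) (r := r)).inner_map_map, jm_SA, inner_mi, pB_mk2, pA_mk2,
    inner_zero_left, zero_add, ← (jt (κ := κ) (r := r)).inner_map_map, jt_QA]

private lemma QB_inv {ν : Measure (Eu (dM ι κ r))} (hinv : (miAct ι κ r).Inv ν) :
    MInv (ν.map (QB ι κ r)) := by
  intro u hu
  have h1 := hinv ⟨u, hu⟩
  have hm : Measurable (QB ι κ r) := (QB ι κ r).continuous.measurable
  have ha : Measurable (act (u : Matrix r r ℝ) : EuclideanSpace ℝ (r × ι) → _) :=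
    (actE u).continuous.measurable
  have hρ : Measurable ((miAct ι κ r).ρ ⟨u, hu⟩) := ((miAct ι κ r).ρ ⟨u, hu⟩).continuous.measurable
  rw [Measure.map_map ha hm]
  have hc : (act (u : Matrix r r ℝ) : EuclideanSpace ℝ (r × ι) → _) ∘ (QB ι κ r) =
      (QB ι κ r) ∘ ((miAct ι κ r).ρ ⟨u, hu⟩) := by
    funext x
    simp only [Function.comp_apply, QB_apply]
    rw [jm_act, pB_mi]
  rw [hc, ← Measure.map_map hm hρ, h1]

private lemma QA_inv {ν : Measure (Eu (dM ι κ r))} (hinv : (miAct ι κ r).Inv ν) :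
    (cjAct κ r).Inv (ν.map (QA ι κ r)) := by
  intro g
  have h1 := hinv g
  have hm : Measurable (QA ι κ r) := (QA ι κ r).continuous.measurable
  have ha : Measurable ((cjAct κ r).ρ g) := ((cjAct κ r).ρ g).continuous.measurable
  have hρ : Measurable ((miAct ι κ r).ρ g) := ((miAct ι κ r).ρ g).continuous.measurable
  rw [Measure.map_map ha hm]
  have hc : ((cjAct κ r).ρ g) ∘ (QA ι κ r) = (QA ι κ r) ∘ ((miAct ι κ r).ρ g) := by
    funext x
    apply (jt (κ := κ) (r := r)).injective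
    simp only [Function.comp_apply]
    rw [jt_act, jt_QA, jt_QA, jm_act, pA_mi]
  rw [hc, ← Measure.map_map hm hρ, h1]

/-! ### M7 -/

theorem cM_moment : ∃ C : ℝ, 0 < C ∧ ∀ (ι κ r : Type) [Fintype ι] [Fintype κ] [Fintype r]
    [DecidableEq r] [DecidableEq ι] (ν : Measure (Eu (dM ι κ r))) [IsProbabilityMeasure ν],
    4 ≤ Fintype.card r → FP.PLm ν → ν ≪ volume → (miAct ι κ r).Inv ν →
    (∀ ℓ : Eu (dM ι κ r) →L[ℝ] ℝ, Var[fun x => ℓ x; ν] = ‖ℓ‖ ^ 2) →
    ∫ x, cM ι κ r x ∂ν ≤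
      C * (1 + Fintype.card κ + (Fintype.card ι : ℝ) / Fintype.card r) := by
  obtain ⟨C1, hC1, hB⟩ := opB_moment
  obtain ⟨C2, hC2, hA⟩ := opn_moment
  refine ⟨64 * (C1 + C2), by positivity, ?_⟩
  intro ι κ r _ _ _ _ _ ν _ hr hpl hac hinv hiso
  -- the rectangular part
  obtain ⟨pB1, pB2, pB3, pB4⟩ := coiso_marg (QB ι κ r) (SB ι κ r) QB_SB ν hpl hac hiso
  obtain ⟨iB, mB⟩ := hB ι r (ν.map (QB ι κ r)) (by omega) pB2 pB3 (QB_inv hinv) pB4
  -- the square part
  obtain ⟨pA1, pA2, pA3, pA4⟩ := coiso_marg (QA ι κ r) (SA ι κ r) QA_SA ν hpl hac hiso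
  have hA' := hA κ r (ν.map (QA ι κ r)) hr pA2 pA3 (QA_inv hinv) pA4
  have hmB : AEMeasurable (QB ι κ r) ν := (QB ι κ r).continuous.aemeasurable
  have hmA : AEMeasurable (QA ι κ r) ν := (QA ι κ r).continuous.aemeasurable
  have iB' : Integrable (fun x : Eu (dM ι κ r) => opB (pB (jm x)) ^ 2) ν :=
    (integrable_map_measure iB.aestronglyMeasurable hmB).mp iB
  have mB' : ∫ x, opB (pB (jm x)) ^ 2 ∂ν ≤ C1 * (Fintype.card r + Fintype.card ι) := by
    rw [integral_map hmB iB.aestronglyMeasurable] at mB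
    exact mB
  have iA' : ∀ l : κ, Integrable (fun x : Eu (dM ι κ r) => opn (mx l (pA (jm x))) ^ 2) ν := by
    intro l
    have h := (integrable_map_measure (hA' l).1.aestronglyMeasurable hmA).mp (hA' l).1
    refine h.congr (ae_of_all _ fun x => ?_)
    simp only [Function.comp_apply]
    rw [jt_QA]
  have mA' : ∀ l : κ, ∫ x, opn (mx l (pA (jm x))) ^ 2 ∂ν ≤ C2 * Fintype.card r := by
    intro l
    have h := (hA' l).2
    rw [integral_map hmA (hA' l).1.aestronglyMeasurable] at h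
    refine le_trans (le_of_eq ?_) h
    refine integral_congr_ae (ae_of_all _ fun x => ?_)
    simp only
    rw [jt_QA]
  have hr4 : (4 : ℝ) ≤ Fintype.card r := by exact_mod_cast hr
  have hr0 : (0 : ℝ) < Fintype.card r := by linarith
  have hr2 : (0 : ℝ) < (Fintype.card r : ℝ) - 2 := by linarith
  have e1 : ∫ x, cM ι κ r x ∂ν = 32 / ((Fintype.card r : ℝ) - 2) *
      (∫ x, opB (pB (jm x)) ^ 2 ∂ν + ∑ l, ∫ x, opn (mx l (pA (jm x))) ^ 2 ∂ν) := by
    unfold cM
    rw [integral_const_mul, integral_add iB' (integrable_finsetSum _ fun l _ => iA' l),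
      integral_finsetSum _ fun l _ => iA' l]
  have e2 : ∑ l : κ, ∫ x, opn (mx l (pA (jm x))) ^ 2 ∂ν ≤ Fintype.card κ * (C2 * Fintype.card r) := by
    refine le_trans (Finset.sum_le_sum fun l _ => mA' l) ?_
    rw [Finset.sum_const, Finset.card_univ, nsmul_eq_mul]
  have e3 : 32 / ((Fintype.card r : ℝ) - 2) ≤ 64 / Fintype.card r := by
    rw [div_le_div_iff₀ hr2 hr0]
    linarith
  have hκ : (0 : ℝ) ≤ Fintype.card κ := Nat.cast_nonneg _
  have hι : (0 : ℝ) ≤ Fintype.card ι := Nat.cast_nonneg _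
  have e4 : ∫ x, cM ι κ r x ∂ν ≤ 64 / Fintype.card r *
      (C1 * (Fintype.card r + Fintype.card ι) + Fintype.card κ * (C2 * Fintype.card r)) := by
    rw [e1]
    refine mul_le_mul e3 (add_le_add mB' e2) ?_ (by positivity)
    refine add_nonneg (integral_nonneg fun x => sq_nonneg _)
      (Finset.sum_nonneg fun l _ => integral_nonneg fun x => sq_nonneg _)
  refine le_trans e4 ?_
  have e5 : 64 / (Fintype.card r : ℝ) *
      (C1 * (Fintype.card r + Fintype.card ι) + Fintype.card κ * (C2 * Fintype.card r)) =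
      64 * (C1 * (1 + (Fintype.card ι : ℝ) / Fintype.card r) + C2 * Fintype.card κ) := by
    field_simp
  rw [e5]
  have hq : 0 ≤ (Fintype.card ι : ℝ) / Fintype.card r := by positivity
  nlinarith [mul_nonneg hC1.le hκ, mul_nonneg hC2.le hq]

end mixed

end Pool.Agent.Lib.MP_6d896a_gt.CJ
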