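import Mathlib
import Pool.Agent.Lib.MP_6d896a_gt.CJ.MDefs
import Pool.Agent.Lib.MP_6d896a_gt.CJ.RotPoinc
import Pool.Agent.Lib.MP_6d896a_gt.CJ.MNorm
import Pool.Agent.Lib.MP_6d896a_gt.CJ.Grad

/-!
Project CJ, stage 2, piece M2: Poincare inequality on the orbits of the mixed action.
-/

set_option autoImplicit false
set_option linter.unusedSectionVars false

namespace Pool.Agent.Lib.MP_6d896a_gt.CJ

open MeasureTheory ProbabilityTheory Matrix Set Filter
open Pool.Agent.Lib.MP_6d896a_gt.OM Pool.Agent.Lib.MP_6d896a_gt.UC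
open Pool.Agent.Lib.MP_6d896a_gt.UC.UR
open scoped ENNReal Topology

section mixed

variable {ι κ r : Type} [Fintype ι] [Fintype κ] [Fintype r] [DecidableEq r]

/-- the coordinates of the orthogonal projection -/
private noncomputable def pj : Mi ι κ r →L[ℝ] Eu (dM ι κ r) :=
  (JM ι κ r).symm.toLinearIsometry.toContinuousLinearMap.comp (TZ ι κ r).orthogonalProjectionOnto

private lemma pj_jm (x : Eu (dM ι κ r)) : pj (jm x : Mi ι κ r) = x := by
  show (JM ι κ r).symm ((TZ ι κ r).orthogonalProjectionOnto ((JM ι κ r x : TZ ι κ r) : Mi ι κ r)) = x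
  rw [Submodule.orthogonalProjectionOnto_mem_subspace_eq_self, LinearIsometryEquiv.symm_apply_apply]

private lemma norm_pj (y : Mi ι κ r) : ‖pj y‖ ≤ ‖y‖ := by
  show ‖(JM ι κ r).symm ((TZ ι κ r).orthogonalProjectionOnto y)‖ ≤ ‖y‖
  rw [LinearIsometryEquiv.norm_map]
  exact Submodule.norm_orthogonalProjectionOnto_apply_le _ _

/-- the derivative of the action in the direction of a matrix -/
private def qq (Z : Matrix r r ℝ) (y : Mi ι κ r) : Mi ι κ r :=
  mk2 (act Z (pB y)) (tup fun l => Z * mx l (pA y) - mx l (pA y) * Z)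

/-- homogeneous form of the bound of the rotational derivatives -/
private lemma rot_grad' [DecidableEq ι] {R : ℝ} {b : EuclideanSpace ℝ (r × ι)} (hx : OpLe R b)
    (G : EuclideanSpace ℝ (r × ι)) :
    ∑ i, ∑ j, (inner ℝ G (act (rz i j) b)) ^ 2 ≤ 4 * R ^ 2 * ‖G‖ ^ 2 := by
  by_cases hG : G = 0
  · subst hG
    simp
  have hG0 : 0 < ‖G‖ := norm_pos_iff.2 hG
  have h := rot_grad_bound hx (InnerProductSpace.toDual ℝ _ (‖G‖⁻¹ • G)) (by
    rw [LinearIsometryEquiv.norm_map, norm_smul, norm_inv, norm_norm, inv_mul_cancel₀ hG0.ne'])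
  have e : ∀ i j : r, (InnerProductSpace.toDual ℝ _ (‖G‖⁻¹ • G) (act (rz i j) b)) ^ 2 =
      (‖G‖⁻¹) ^ 2 * (inner ℝ G (act (rz i j) b)) ^ 2 := by
    intro i j
    rw [InnerProductSpace.toDual_apply_apply, real_inner_smul_left, mul_pow]
  simp only [e, ← Finset.mul_sum] at h
  have h2 : ‖G‖ ^ 2 * ((‖G‖⁻¹) ^ 2 * ∑ i, ∑ j, (inner ℝ G (act (rz i j) b)) ^ 2) ≤
      ‖G‖ ^ 2 * (4 * R ^ 2) := mul_le_mul_of_nonneg_left h (sq_nonneg _)
  have h3 : ‖G‖ ^ 2 * ((‖G‖⁻¹) ^ 2 * ∑ i, ∑ j, (inner ℝ G (act (rz i j) b)) ^ 2) =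
      ∑ i, ∑ j, (inner ℝ G (act (rz i j) b)) ^ 2 := by
    rw [← mul_assoc, ← mul_pow, mul_inv_cancel₀ hG0.ne', one_pow, one_mul]
  rw [h3] at h2
  linarith

/-- the bound of the derivatives -/
private lemma grad_bound [DecidableEq ι] (y : Mi ι κ r) (M : Mi ι κ r →L[ℝ] ℝ) :
    ∑ i, ∑ j, (M (qq (rz i j) y)) ^ 2 ≤
      32 * (opB (pB y) ^ 2 + ∑ l, opn (mx l (pA y)) ^ 2) * ‖M‖ ^ 2 := by
  set G : Mi ι κ r := (InnerProductSpace.toDual ℝ _).symm M with hG
  have hMG : ∀ z, M z = inner ℝ (pB G) (pB z) + inner ℝ (pA G) (pA z) := by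
    intro z
    rw [← inner_mi, hG, InnerProductSpace.toDual_symm_apply]
  have hGn : ‖pB G‖ ^ 2 + ‖pA G‖ ^ 2 = ‖M‖ ^ 2 := by
    rw [← norm_mi, hG, LinearIsometryEquiv.norm_map]
  have h1 := rot_grad' (opB_OpLe (pB y)) (pB G)
  have h2 := cj_grad (fun l => mx l (pA y)) (fun l => mx l (pA G))
  have e2 : ∑ l, ((mx l (pA G))ᵀ * mx l (pA G)).trace = ‖pA G‖ ^ 2 := by
    rw [← real_inner_self_eq_norm_sq, inner_tup]
  have e3 : ∀ i j : r, ∑ l, ((mx l (pA G))ᵀ * (rz i j * mx l (pA y) -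
      mx l (pA y) * rz i j)).trace = inner ℝ (pA G) (pA (qq (rz i j) y)) := by
    intro i j
    rw [inner_tup]
    simp [qq]
  rw [e2] at h2
  simp only [e3] at h2
  have e4 : ∀ i j : r, inner ℝ (pB G) (act (rz i j) (pB y)) =
      inner ℝ (pB G) (pB (qq (rz i j) y)) := by
    intro i j
    simp [qq]
  simp only [e4] at h1
  have hS : 0 ≤ ∑ l, opn (mx l (pA y)) ^ 2 := Finset.sum_nonneg fun l _ => sq_nonneg _
  have hb : 0 ≤ opB (pB y) ^ 2 := sq_nonneg _
  calc ∑ i, ∑ j, (M (qq (rz i j) y)) ^ 2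
      ≤ ∑ i, ∑ j, (2 * (inner ℝ (pB G) (pB (qq (rz i j) y))) ^ 2 +
          2 * (inner ℝ (pA G) (pA (qq (rz i j) y))) ^ 2) := by
        refine Finset.sum_le_sum fun i _ => Finset.sum_le_sum fun j _ => ?_
        rw [hMG]
        nlinarith [sq_nonneg (inner ℝ (pB G) (pB (qq (rz i j) y)) -
          inner ℝ (pA G) (pA (qq (rz i j) y)))]
    _ = 2 * ∑ i, ∑ j, (inner ℝ (pB G) (pB (qq (rz i j) y))) ^ 2 +
          2 * ∑ i, ∑ j, (inner ℝ (pA G) (pA (qq (rz i j) y))) ^ 2 := by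
        simp only [Finset.sum_add_distrib, Finset.mul_sum]
    _ ≤ 2 * (4 * opB (pB y) ^ 2 * ‖pB G‖ ^ 2) +
          2 * (16 * (∑ l, opn (mx l (pA y)) ^ 2) * ‖pA G‖ ^ 2) := by
        linarith
    _ ≤ _ := by
        rw [← hGn]
        nlinarith [mul_nonneg hb (sq_nonneg ‖pA G‖), mul_nonneg hS (sq_nonneg ‖pB G‖),
          mul_nonneg hb (sq_nonneg ‖pB G‖)]

/-- the orbit map, on all matrices -/
private def Ph (y : Mi ι κ r) (w : EuclideanSpace ℝ (r × r)) : Mi ι κ r := mi (mt w)ᵀ y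

private lemma Ph_apply (y : Mi ι κ r) (w : EuclideanSpace ℝ (r × r)) :
    Ph y w = mk2 (me ((mt w)ᵀ * mt (pB y))) (tup fun l => (mt w)ᵀ * mx l (pA y) * mt w) := by
  unfold Ph
  refine mi_ext ?_ ?_
  · rw [pB_mi, pB_mk2, act_def]
  · rw [pA_mi, pA_mk2, cj_apply]
    simp

private lemma Ph_contDiff (y : Mi ι κ r) : ContDiff ℝ 1 (Ph y) := by
  rw [contDiff_euclidean]
  intro p
  have hc : ∀ q : r × r, ContDiff ℝ 1 fun w : EuclideanSpace ℝ (r × r) => w q := fun q =>
    (EuclideanSpace.proj q : EuclideanSpace ℝ (r × r) →L[ℝ] ℝ).contDiff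
  rcases p with p | p
  · have h : (fun w => Ph y w (Sum.inl p)) =
        fun w : EuclideanSpace ℝ (r × r) => ∑ k, w (k, p.1) * (pB y) (k, p.2) := by
      funext w
      rw [Ph_apply]
      show ((mt w)ᵀ * mt (pB y)) p.1 p.2 = _
      rw [Matrix.mul_apply]
      rfl
    rw [h]
    exact ContDiff.sum fun k _ => (hc _).mul contDiff_const
  · have h : (fun w => Ph y w (Sum.inr p)) =
        fun w : EuclideanSpace ℝ (r × r) => ∑ b, (∑ a, w (a, p.2.1) * (pA y) (p.1, a, b)) *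
          w (b, p.2.2) := by
      funext w
      rw [Ph_apply]
      show ((mt w)ᵀ * mx p.1 (pA y) * mt w) p.2.1 p.2.2 = _
      rw [Matrix.mul_apply]
      refine Finset.sum_congr rfl fun b _ => ?_
      rw [Matrix.mul_apply]
      rfl
    rw [h]
    exact ContDiff.sum fun b _ => ContDiff.mul
      (ContDiff.sum fun a _ => (hc (a, p.2.1)).mul contDiff_const) (hc (b, p.2.2))

/-- the derivative of the orbit map -/
private lemma Ph_deriv (y : Mi ι κ r) (u : Matrix.orthogonalGroup r ℝ) {Z : Matrix r r ℝ}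
    (hZ : Zᵀ = -Z) :
    HasDerivAt (fun t : ℝ => Ph y (me (u : Matrix r r ℝ) + t • me (Z * (u : Matrix r r ℝ))))
      (-(mi (u : Matrix r r ℝ)ᵀ (qq Z y))) 0 := by
  set U : Matrix r r ℝ := (u : Matrix r r ℝ) with hU
  have e : (fun t : ℝ => Ph y (me U + t • me (Z * U))) = fun t : ℝ =>
      Ph y (me U) + t • (-(mi Uᵀ (qq Z y))) +
        t ^ 2 • mk2 0 (tup fun l => (Z * U)ᵀ * mx l (pA y) * (Z * U)) := by
    funext t
    have hm : (mt (me U + t • me (Z * U)) : Matrix r r ℝ) = U + t • (Z * U) := by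
      rw [map_add, map_smul, mt_me, mt_me]
    refine mi_ext ?_ ?_
    · rw [Ph_apply, Ph_apply, hm, mt_me]
      simp only [pB_mk2, map_add, map_smul, map_neg, pB_mi, smul_zero, add_zero]
      rw [Matrix.transpose_add, Matrix.transpose_smul, Matrix.transpose_mul, hZ, Matrix.add_mul,
        map_add]
      congr 1
      rw [Matrix.smul_mul, map_smul]
      congr 1
      simp only [qq, pB_mk2]
      rw [act_def, act_def, mt_me, ← map_neg]
      congr 1
      rw [Matrix.mul_neg, Matrix.neg_mul, Matrix.mul_assoc]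
    · rw [Ph_apply, Ph_apply, hm, mt_me]
      simp only [pA_mk2, map_add, map_smul, map_neg, pA_mi]
      rw [← tup_mx (cj Uᵀ (pA (qq Z y)))]
      ext p
      simp only [PiLp.add_apply, PiLp.smul_apply, PiLp.neg_apply, tup_apply, mx_cj, smul_eq_mul,
        qq, pA_mk2, mx_tup, Matrix.transpose_transpose]
      have h : (U + t • (Z * U))ᵀ * mx p.1 (pA y) * (U + t • (Z * U)) =
          Uᵀ * mx p.1 (pA y) * U + t • (-(Uᵀ * (Z * mx p.1 (pA y) - mx p.1 (pA y) * Z) * U)) +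
            t ^ 2 • ((Z * U)ᵀ * mx p.1 (pA y) * (Z * U)) := by
        rw [Matrix.transpose_add, Matrix.transpose_smul, Matrix.transpose_mul, hZ]
        simp only [Matrix.add_mul, Matrix.mul_add, Matrix.smul_mul, Matrix.mul_smul,
          Matrix.mul_neg, Matrix.neg_mul, Matrix.mul_sub, Matrix.sub_mul, Matrix.mul_assoc,
          smul_neg, smul_smul, smul_sub, smul_add, neg_sub]
        rw [pow_two]
        abel
      rw [h]
      simp only [Matrix.add_apply, Matrix.smul_apply, Matrix.neg_apply, smul_eq_mul]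
  rw [e]
  have h1 : HasDerivAt (fun t : ℝ => t • (-(mi Uᵀ (qq Z y)))) (-(mi Uᵀ (qq Z y))) 0 := by
    simpa using (hasDerivAt_id (0 : ℝ)).smul_const (-(mi Uᵀ (qq Z y)))
  have h2 : HasDerivAt (fun t : ℝ => t ^ 2 •
      mk2 0 (tup fun l => (Z * U)ᵀ * mx l (pA y) * (Z * U))) (0 : Mi ι κ r) 0 := by
    have := (hasDerivAt_pow 2 (0 : ℝ)).smul_const
      (mk2 0 (tup fun l => (Z * U)ᵀ * mx l (pA y) * (Z * U)) : Mi ι κ r)
    simpa using this
  have h3 := ((hasDerivAt_const (0 : ℝ) (Ph y (me U))).add h1).add h2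
  rw [zero_add, add_zero] at h3
  exact h3

private lemma cont_orb {N : ℕ} (R : Act r N) (x : Eu N) :
    Continuous fun g : RotG r => R.ρ g⁻¹ x :=
  R.cont.comp (continuous_inv.prodMk continuous_const)

variable [DecidableEq ι]

theorem mi_OP (hr : 3 ≤ Fintype.card r) : (miAct ι κ r).OP (cM ι κ r) := by
  intro f hf x
  have hγ : (0 : ℝ) < (Fintype.card r : ℝ) - 2 := by
    have : (3 : ℝ) ≤ (Fintype.card r : ℝ) := by exact_mod_cast hr
    linarith
  set y : Mi ι κ r := jm x with hy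
  set h : EuclideanSpace ℝ (r × r) → ℝ := fun w => f (pj (Ph y w)) with hh
  have hf1 : ContDiff ℝ 1 f := hf.cd.of_le (by exact_mod_cast le_top)
  have hp1 : ContDiff ℝ 1 fun w => pj (Ph y w) :=
    (ContinuousLinearMap.contDiff (pj : Mi ι κ r →L[ℝ] Eu (dM ι κ r))).comp (Ph_contDiff y)
  have hh1 : ContDiff ℝ 1 h := hf1.comp hp1
  have hval : ∀ g : RotG r, pj (Ph y (me ((g : Matrix.orthogonalGroup r ℝ) : Matrix r r ℝ))) =
      (miAct ι κ r).ρ g⁻¹ x := by
    intro g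
    have h1 := jm_act g⁻¹ x
    have h2 : (((g⁻¹ : RotG r) : Matrix.orthogonalGroup r ℝ) : Matrix r r ℝ) =
        ((g : Matrix.orthogonalGroup r ℝ) : Matrix r r ℝ)ᵀ := by
      rw [Subgroup.coe_inv, coe_inv_orth]
    rw [h2] at h1
    unfold Ph
    rw [mt_me, hy, ← h1, pj_jm]
  have hval' : ∀ g : RotG r, h (me ((g : Matrix.orthogonalGroup r ℝ) : Matrix r r ℝ)) =
      f ((miAct ι κ r).ρ g⁻¹ x) := fun g => by rw [hh]; simp only; rw [hval]
  have hP := rot_poinc hr hh1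
  simp only [hval'] at hP
  -- the derivatives
  have hder : ∀ (g : RotG r) (i j : r),
      fderiv ℝ h (me ((g : Matrix.orthogonalGroup r ℝ) : Matrix r r ℝ))
        (me (rz i j * ((g : Matrix.orthogonalGroup r ℝ) : Matrix r r ℝ))) =
      -(((fderiv ℝ f ((miAct ι κ r).ρ g⁻¹ x)).comp pj).comp
        ((miE (g : Matrix.orthogonalGroup r ℝ)⁻¹ : Mi ι κ r ≃ₗᵢ[ℝ] Mi ι κ r)
          |>.toLinearIsometry.toContinuousLinearMap) (qq (rz i j) y)) := by
    intro g i j
    set U : Matrix r r ℝ := ((g : Matrix.orthogonalGroup r ℝ) : Matrix r r ℝ) with hU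
    have d1 : HasDerivAt (fun t : ℝ => h (me U + t • me (rz i j * U)))
        (fderiv ℝ h (me U) (me (rz i j * U))) 0 := by
      have hd : HasFDerivAt h (fderiv ℝ h (me U)) (me U + (0 : ℝ) • me (rz i j * U)) := by
        rw [zero_smul, add_zero]
        exact (hh1.differentiable (by norm_num) _).hasFDerivAt
      have hl : HasDerivAt (fun t : ℝ => me U + t • me (rz i j * U)) (me (rz i j * U)) 0 := by
        simpa using ((hasDerivAt_id (0 : ℝ)).smul_const (me (rz i j * U))).const_add (me U)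
      exact hd.comp_hasDerivAt (0 : ℝ) hl
    have d2 : HasDerivAt (fun t : ℝ => h (me U + t • me (rz i j * U)))
        (fderiv ℝ f ((miAct ι κ r).ρ g⁻¹ x) (pj (-(mi Uᵀ (qq (rz i j) y))))) 0 := by
      have hd := Ph_deriv y (g : Matrix.orthogonalGroup r ℝ) (rz_skew i j)
      have hp : HasDerivAt (fun t : ℝ => pj (Ph y (me U + t • me (rz i j * U))))
          (pj (-(mi Uᵀ (qq (rz i j) y)))) 0 := pj.hasFDerivAt.comp_hasDerivAt (0 : ℝ) hd
      have hfd : HasFDerivAt f (fderiv ℝ f ((miAct ι κ r).ρ g⁻¹ x))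
          (pj (Ph y (me U + (0 : ℝ) • me (rz i j * U)))) := by
        rw [zero_smul, add_zero, hval]
        exact (hf1.differentiable (by norm_num) _).hasFDerivAt
      exact hfd.comp_hasDerivAt (0 : ℝ) hp
    rw [d1.unique d2, map_neg, map_neg]
    have hz : mi Uᵀ (qq (rz i j) y) = miE (g : Matrix.orthogonalGroup r ℝ)⁻¹ (qq (rz i j) y) := by
      rw [miE_apply, coe_inv_orth]
    rw [hz]
    rfl
  -- pointwise bound
  set S : ℝ := opB (pB y) ^ 2 + ∑ l, opn (mx l (pA y)) ^ 2 with hS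
  have hS0 : 0 ≤ S := add_nonneg (sq_nonneg _) (Finset.sum_nonneg fun l _ => sq_nonneg _)
  have hpt : ∀ g : RotG r, ∑ i, ∑ j,
      (fderiv ℝ h (me ((g : Matrix.orthogonalGroup r ℝ) : Matrix r r ℝ))
        (me (rz i j * ((g : Matrix.orthogonalGroup r ℝ) : Matrix r r ℝ)))) ^ 2 ≤
      32 * S * ‖fderiv ℝ f ((miAct ι κ r).ρ g⁻¹ x)‖ ^ 2 := by
    intro g
    simp only [hder, neg_sq]
    refine (grad_bound y _).trans ?_
    refine mul_le_mul_of_nonneg_left ?_ (mul_nonneg (by norm_num) hS0)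
    refine pow_le_pow_left₀ (norm_nonneg _) ?_ 2
    refine ContinuousLinearMap.opNorm_le_bound _ (norm_nonneg _) fun z => ?_
    show ‖fderiv ℝ f ((miAct ι κ r).ρ g⁻¹ x) (pj (miE (g : Matrix.orthogonalGroup r ℝ)⁻¹ z))‖ ≤ _
    refine (ContinuousLinearMap.le_opNorm _ _).trans ?_
    refine mul_le_mul_of_nonneg_left ?_ (norm_nonneg _)
    refine (norm_pj _).trans ?_
    rw [LinearIsometryEquiv.norm_map]
  -- integrate
  have hcg : Continuous fun g : RotG r => (miAct ι κ r).ρ g⁻¹ x := cont_orb (miAct ι κ r) x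
  have hc1 : Continuous fun g : RotG r => 32 * S * ‖fderiv ℝ f ((miAct ι κ r).ρ g⁻¹ x)‖ ^ 2 :=
    continuous_const.mul ((((hf1.continuous_fderiv (by norm_num)).comp hcg).norm).pow 2)
  have hme : Continuous fun g : RotG r =>
      (me ((g : Matrix.orthogonalGroup r ℝ) : Matrix r r ℝ) : EuclideanSpace ℝ (r × r)) := by
    have h0 : Continuous (me : Matrix r r ℝ →ₗ[ℝ] EuclideanSpace ℝ (r × r)) :=
      LinearMap.continuous_of_finiteDimensional _
    exact h0.comp (by fun_prop)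
  have hme2 : ∀ i j : r, Continuous fun g : RotG r =>
      (me (rz i j * ((g : Matrix.orthogonalGroup r ℝ) : Matrix r r ℝ)) :
        EuclideanSpace ℝ (r × r)) := by
    intro i j
    have h0 : Continuous (me : Matrix r r ℝ →ₗ[ℝ] EuclideanSpace ℝ (r × r)) :=
      LinearMap.continuous_of_finiteDimensional _
    exact h0.comp (by fun_prop)
  have hc2 : Continuous fun g : RotG r => ∑ i, ∑ j,
      (fderiv ℝ h (me ((g : Matrix.orthogonalGroup r ℝ) : Matrix r r ℝ))
        (me (rz i j * ((g : Matrix.orthogonalGroup r ℝ) : Matrix r r ℝ)))) ^ 2 := by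
    refine continuous_finsetSum _ fun i _ => continuous_finsetSum _ fun j _ => ?_
    exact (((hh1.continuous_fderiv (by norm_num)).comp hme).clm_apply (hme2 i j)).pow 2
  have hint : ∀ F : RotG r → ℝ, Continuous F → Integrable F (haarG r) := fun F hF =>
    hF.integrable_of_hasCompactSupport (HasCompactSupport.of_compactSpace F)
  have hI : ∫ g : RotG r, ∑ i, ∑ j,
      (fderiv ℝ h (me ((g : Matrix.orthogonalGroup r ℝ) : Matrix r r ℝ))
        (me (rz i j * ((g : Matrix.orthogonalGroup r ℝ) : Matrix r r ℝ)))) ^ 2 ∂(haarG r) ≤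
      32 * S * ∫ g : RotG r, ‖fderiv ℝ f ((miAct ι κ r).ρ g⁻¹ x)‖ ^ 2 ∂(haarG r) := by
    rw [← integral_const_mul]
    exact integral_mono (hint _ hc2) (hint _ hc1) hpt
  unfold Act.avg
  refine hP.trans ?_
  refine (mul_le_mul_of_nonneg_left hI (by positivity)).trans (le_of_eq ?_)
  unfold cM
  rw [← hy, ← hS]
  field_simp

end mixed

end Pool.Agent.Lib.MP_6d896a_gt.CJ
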