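import Mathlib
import Pool.Agent.Lib.MP_6d896a_gt.CJ.Defs
import Pool.Agent.Lib.MP_6d896a_gt.OM.SmallDim
import Pool.Agent.Lib.MP_6d896a_gt.FP.EM
import Pool.Agent.Lib.MP_6d896a_gt.FP.Whiten

/-!
Project CJ, piece P5: the affine invariant Poincare inequality from the Lipschitz variance bound
in isotropic position.
-/

set_option autoImplicit false
set_option linter.unusedSectionVars false

namespace Pool.Agent.Lib.MP_6d896a_gt.CJ

open MeasureTheory ProbabilityTheory Matrix Set Filter
open Pool.Agent.Lib.MP_6d896a_gt.OM Pool.Agent.Lib.MP_6d896a_gt.UC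
open Pool.Agent.Lib.MP_6d896a_gt.UC.UR
open scoped ENNReal Topology

variable {n : ℕ}

/-- spectral functions of a symmetric operator with eigenbasis `b` -/
private noncomputable def sfo (b : OrthonormalBasis (Fin n) ℝ (Eu n)) (s : Fin n → ℝ) :
    Eu n →ₗ[ℝ] Eu n where
  toFun := fun x => ∑ k, (s k * inner ℝ (b k) x) • b k
  map_add' := fun x y => by
    rw [← Finset.sum_add_distrib]
    refine Finset.sum_congr rfl fun k _ => ?_
    rw [inner_add_right, mul_add, add_smul]
  map_smul' := fun c x => by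
    simp only [RingHom.id_apply]
    rw [Finset.smul_sum]
    refine Finset.sum_congr rfl fun k _ => ?_
    rw [inner_smul_right, smul_smul]
    congr 1
    ring

private lemma sfo_apply (b : OrthonormalBasis (Fin n) ℝ (Eu n)) (s : Fin n → ℝ) (x : Eu n) :
    sfo b s x = ∑ k, (s k * inner ℝ (b k) x) • b k := rfl

private lemma inner_sfo (b : OrthonormalBasis (Fin n) ℝ (Eu n)) (s : Fin n → ℝ) (x : Eu n)
    (k : Fin n) : inner ℝ (b k) (sfo b s x) = s k * inner ℝ (b k) x := by
  rw [sfo_apply]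
  exact b.orthonormal.inner_right_fintype _ k

private lemma sfo_sfo (b : OrthonormalBasis (Fin n) ℝ (Eu n)) (s t : Fin n → ℝ)
    (h : ∀ k, s k * t k = 1) (x : Eu n) : sfo b s (sfo b t x) = x := by
  refine InnerProductSpace.ext_inner_left_basis b.toBasis fun k => ?_
  rw [OrthonormalBasis.coe_toBasis, inner_sfo, inner_sfo, ← mul_assoc, h, one_mul]

private lemma opnorm_sq_basis' (b : OrthonormalBasis (Fin n) ℝ (Eu n)) (M : Eu n →L[ℝ] ℝ) :
    ‖M‖ ^ 2 = ∑ k, M (b k) ^ 2 := by
  set m : Eu n := (InnerProductSpace.toDual ℝ (Eu n)).symm M with hm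
  have h1 : ∀ x, M x = inner ℝ m x := fun x => by
    rw [hm, InnerProductSpace.toDual_symm_apply]
  have h2 : ‖M‖ = ‖m‖ := by
    rw [hm, LinearIsometryEquiv.norm_map]
  rw [h2, ← b.sum_sq_norm_inner_right m]
  refine Finset.sum_congr rfl fun k _ => ?_
  rw [h1, real_inner_comm, Real.norm_eq_abs, sq_abs]

private lemma memLp_id' {ν : Measure (Eu n)} [IsProbabilityMeasure ν] (hpl : FP.PLm ν) :
    MemLp id 2 ν := by
  rw [← memLp_norm_iff (by fun_prop)]
  rw [memLp_two_iff_integrable_sq (by fun_prop)]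
  exact hpl.sq_integrable

/-- the covariance operator -/
private noncomputable def covOp (ν : Measure (Eu n)) : Eu n →ₗ[ℝ] Eu n where
  toFun x := (InnerProductSpace.toDual ℝ (Eu n)).symm (covarianceBilin ν x)
  map_add' x y := by simp
  map_smul' c x := by simp

private lemma covOp_inner (ν : Measure (Eu n)) (x y : Eu n) :
    inner ℝ (covOp ν x) y = covarianceBilin ν x y := by
  show inner ℝ ((InnerProductSpace.toDual ℝ (Eu n)).symm (covarianceBilin ν x)) y = _
  rw [InnerProductSpace.toDual_symm_apply]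

private lemma covOp_symm (ν : Measure (Eu n)) : (covOp ν).IsSymmetric := by
  intro x y
  rw [covOp_inner, real_inner_comm, covOp_inner, covarianceBilin_comm]

private lemma covOp_iso {ν : Measure (Eu n)} [IsProbabilityMeasure ν] (hpl : FP.PLm ν)
    (O : Eu n ≃ₗᵢ[ℝ] Eu n) (hO : ν.map O = ν) (x : Eu n) : covOp ν (O x) = O (covOp ν x) := by
  refine ext_inner_right ℝ fun y => ?_
  rw [covOp_inner, O.inner_map_eq_flip, covOp_inner]
  have h1 := covarianceBilin_map (memLp_id' hpl)
    ((O.toContinuousLinearEquiv : Eu n ≃L[ℝ] Eu n) : Eu n →L[ℝ] Eu n) (O x) y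
  have h2 : (((O.toContinuousLinearEquiv : Eu n ≃L[ℝ] Eu n) : Eu n →L[ℝ] Eu n) :
      Eu n → Eu n) = O := rfl
  rw [h2, hO] at h1
  rw [h1]
  have h3 : ∀ z, (ContinuousLinearMap.adjoint
      ((O.toContinuousLinearEquiv : Eu n ≃L[ℝ] Eu n) : Eu n →L[ℝ] Eu n)) z = O.symm z := by
    intro z
    refine ext_inner_right ℝ fun w => ?_
    rw [ContinuousLinearMap.adjoint_inner_left]
    change inner ℝ z (O w) = _
    rw [← O.symm.inner_map_map z (O w), O.symm_apply_apply]
  rw [h3, h3, O.symm_apply_apply]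

private lemma whiten_comm {r : Type} [Fintype r] [DecidableEq r] (R : Act r n)
    {ν : Measure (Eu n)} [IsProbabilityMeasure ν] (hpl : FP.PLm ν) (hac : ν ≪ volume)
    (hinv : R.Inv ν) :
    ∃ T : Eu n ≃L[ℝ] Eu n, (∀ ℓ : Eu n →L[ℝ] ℝ,
      Var[fun x => ℓ x; ν] = ‖ℓ.comp (T : Eu n →L[ℝ] Eu n)‖ ^ 2) ∧
      ∀ g x, T (R.ρ g x) = R.ρ g (T x) := by
  have hid := memLp_id' hpl
  have hn : Module.finrank ℝ (Eu n) = n := by simp
  have hQs := covOp_symm ν
  set b : OrthonormalBasis (Fin n) ℝ (Eu n) := hQs.eigenvectorBasis hn with hb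
  set q : Fin n → ℝ := hQs.eigenvalues hn with hq
  have hQb : ∀ k, covOp ν (b k) = q k • b k := fun k => hQs.apply_eigenvectorBasis hn k
  -- variances of functionals
  have hvar : ∀ m : Eu n, Var[fun x => inner ℝ m x; ν] = ∑ k, q k * inner ℝ (b k) m ^ 2 := by
    intro m
    rw [← covarianceBilin_self hid, ← covOp_inner, ← b.sum_inner_mul_inner]
    refine Finset.sum_congr rfl fun k _ => ?_
    have h1 := hQs (b k) m
    rw [hQb, real_inner_smul_left] at h1
    rw [real_inner_comm, ← h1]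
    ring
  have hqpos : ∀ k, 0 < q k := by
    intro k
    have h1 : Var[fun x => inner ℝ (b k) x; ν] = q k := by
      rw [hvar, Finset.sum_eq_single k]
      · rw [real_inner_self_eq_norm_sq, b.norm_eq_one]
        ring
      · intro j _ hj
        rw [b.inner_eq_zero hj]
        ring
      · intro h
        exact absurd (Finset.mem_univ k) h
    rcases (variance_nonneg (fun x => inner ℝ (b k) x) ν).lt_or_eq with h | h
    · rwa [h1] at h
    · exfalso
      have h2 : (innerSL ℝ (b k) : Eu n →L[ℝ] ℝ) = 0 :=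
        nondeg_of_ac hpl hac (innerSL ℝ (b k)) (by simpa using h.symm)
      have h3 : innerSL ℝ (b k) (b k) = 0 := by rw [h2]; rfl
      rw [innerSL_apply_apply, real_inner_self_eq_norm_sq, b.norm_eq_one] at h3
      norm_num at h3
  set σ : Fin n → ℝ := fun k => Real.sqrt (q k) with hσ
  have hσpos : ∀ k, 0 < σ k := fun k => Real.sqrt_pos.2 (hqpos k)
  have hσ2 : ∀ k, σ k ^ 2 = q k := fun k => Real.sq_sqrt (hqpos k).le
  let e : Eu n ≃ₗ[ℝ] Eu n :=
    { sfo b σ with
      invFun := sfo b (fun k => (σ k)⁻¹)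
      left_inv := fun x => sfo_sfo b _ _ (fun k => inv_mul_cancel₀ (hσpos k).ne') x
      right_inv := fun x => sfo_sfo b _ _ (fun k => mul_inv_cancel₀ (hσpos k).ne') x }
  have he : ∀ x, e x = sfo b σ x := fun x => rfl
  refine ⟨e.toContinuousLinearEquiv, ?_, ?_⟩
  · intro ℓ
    set m : Eu n := (InnerProductSpace.toDual ℝ (Eu n)).symm ℓ with hm
    have h1 : ∀ x, ℓ x = inner ℝ m x := fun x => by
      rw [hm, InnerProductSpace.toDual_symm_apply]
    have h2 : (fun z => ℓ z) = fun z => inner ℝ m z := funext h1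
    rw [h2, hvar, opnorm_sq_basis' b]
    refine Finset.sum_congr rfl fun k _ => ?_
    have h3 : sfo b σ (b k) = σ k • b k := by
      refine InnerProductSpace.ext_inner_left_basis b.toBasis fun j => ?_
      rw [OrthonormalBasis.coe_toBasis, inner_sfo, inner_smul_right]
      by_cases hj : j = k
      · subst hj; rfl
      · rw [b.inner_eq_zero hj]; ring
    have h4 : (ℓ.comp (e.toContinuousLinearEquiv : Eu n →L[ℝ] Eu n)) (b k) =
        ℓ (sfo b σ (b k)) := rfl
    rw [h4, h3, map_smul, smul_eq_mul, h1, ← hσ2 k, real_inner_comm]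
    ring
  · intro g x
    change sfo b σ (R.ρ g x) = R.ρ g (sfo b σ x)
    have hkey : ∀ j k, σ j * inner ℝ (b j) (R.ρ g (b k)) = σ k * inner ℝ (b j) (R.ρ g (b k)) := by
      intro j k
      have h1 : inner ℝ (b j) (covOp ν (R.ρ g (b k))) = q j * inner ℝ (b j) (R.ρ g (b k)) := by
        have := hQs (b j) (R.ρ g (b k))
        rw [← this, hQb, real_inner_smul_left]
      have h2 : inner ℝ (b j) (covOp ν (R.ρ g (b k))) = q k * inner ℝ (b j) (R.ρ g (b k)) := by
        rw [covOp_iso hpl (R.ρ g) (hinv g), hQb, map_smul, inner_smul_right]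
      by_cases h0 : inner ℝ (b j) (R.ρ g (b k)) = 0
      · rw [h0]; ring
      · have h3 : q j = q k := mul_right_cancel₀ h0 (h1.symm.trans h2)
        simp only [hσ, h3]
    refine InnerProductSpace.ext_inner_left_basis b.toBasis fun j => ?_
    rw [OrthonormalBasis.coe_toBasis, inner_sfo, sfo_apply]
    have hx : x = ∑ k, (inner ℝ (b k) x) • b k := (b.sum_repr' x).symm
    conv_lhs => rw [hx]
    rw [map_sum, map_sum, inner_sum, inner_sum, Finset.mul_sum]
    refine Finset.sum_congr rfl fun k _ => ?_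
    rw [map_smul, map_smul, inner_smul_right, inner_smul_right]
    have := hkey j k
    calc σ j * (inner ℝ (b k) x * inner ℝ (b j) (R.ρ g (b k)))
        = inner ℝ (b k) x * (σ j * inner ℝ (b j) (R.ρ g (b k))) := by ring
      _ = _ := by rw [this]; ring

/-- affine invariant Poincare inequality from the Lipschitz variance bound in isotropic position
(as `refl_ap_of`, with `FP.em`; the whitening map commutes with the action) -/
theorem orb_ap : ∃ C : ℝ, 0 < C ∧ ∀ (r : Type) [Fintype r] [DecidableEq r] (n : ℕ)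
    (R : Act r n) (M : ℝ), 0 < M →
    (∀ (ν : Measure (Eu n)) [IsProbabilityMeasure ν], FP.PLm ν → ν ≪ volume → R.Inv ν →
      (∀ ℓ : Eu n →L[ℝ] ℝ, Var[fun x => ℓ x; ν] = ‖ℓ‖ ^ 2) → FP.LVb ν M) →
    ∀ (ν : Measure (Eu n)) [IsProbabilityMeasure ν], FP.PLm ν → ν ≪ volume → R.Inv ν →
      FP.AP ν (C * M) := by
  obtain ⟨C, hC, hem⟩ := FP.em
  refine ⟨C, hC, ?_⟩
  intro r _ _ n R M hM hlv ν _ hpl hac hinv
  obtain ⟨T, hT, hTR⟩ := whiten_comm R hpl hac hinv
  have hTm : Measurable (T.symm : Eu n → Eu n) := T.symm.continuous.measurable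
  have hprob : IsProbabilityMeasure (ν.map T.symm) :=
    Measure.isProbabilityMeasure_map hTm.aemeasurable
  have hPL : FP.PLm (ν.map T.symm) := FP.PLm.map hpl (T.symm.toLinearEquiv.toLinearMap) hTm
  have hac' : ν.map T.symm ≪ volume := by
    have h1 : ν.map T.symm ≪ (volume : Measure (Eu n)).map T.symm := hac.map hTm
    have h2 : ((volume : Measure (Eu n)).map T.symm).IsAddHaarMeasure :=
      T.symm.isAddHaarMeasure_map volume
    exact h1.trans (Measure.absolutelyContinuous_isAddHaarMeasure _ _)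
  have hinv' : R.Inv (ν.map T.symm) := by
    intro g
    have hg : Measurable (R.ρ g : Eu n → Eu n) := (R.ρ g).continuous.measurable
    rw [Measure.map_map hg hTm]
    have h1 : (R.ρ g : Eu n → Eu n) ∘ T.symm = T.symm ∘ (R.ρ g : Eu n → Eu n) := by
      funext x
      show R.ρ g (T.symm x) = T.symm (R.ρ g x)
      rw [← T.symm_apply_apply (R.ρ g (T.symm x)), hTR, T.apply_symm_apply]
    rw [h1, ← Measure.map_map hTm hg, hinv g]
  have hiso : ∀ ℓ : Eu n →L[ℝ] ℝ, Var[fun x => ℓ x; ν.map T.symm] = ‖ℓ‖ ^ 2 := by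
    intro ℓ
    have h1 : Var[fun x => ℓ x; ν.map T.symm] = Var[fun x => ℓ (T.symm x); ν] :=
      variance_map ℓ.continuous.measurable.aemeasurable hTm.aemeasurable
    rw [h1]
    have h2 := hT (ℓ.comp (T.symm : Eu n →L[ℝ] Eu n))
    have h3 : (ℓ.comp (T.symm : Eu n →L[ℝ] Eu n)).comp (T : Eu n →L[ℝ] Eu n) = ℓ := by
      ext x
      simp
    rw [h3] at h2
    exact h2
  exact FP.ap_of_poinc T hT fun f hf hl =>
    hem _ (ν.map T.symm) hPL M hM (hlv _ hPL hac' hinv' hiso) f hf hl

end Pool.Agent.Lib.MP_6d896a_gt.CJ
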