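import Mathlib
import Pool.Agent.Lib.MP_6d896a_gt.CJ.Defs
import Pool.Agent.Lib.MP_6d896a_gt.UR.Defs
import Pool.Agent.Lib.MP_6d896a_gt.UR.RotR
import Pool.Agent.Lib.MP_6d896a_gt.UR.VpGP
import Pool.Agent.Lib.MP_6d896a_gt.UR.ExtR
import Pool.Agent.Lib.MP_6d896a_gt.Sym14
import Pool.Agent.Lib.MP_6d896a_gt.Ex8
import Pool.Agent.Lib.MP_6d896a_gt.FP.EM

/-!
Project CJ, piece P4: from strongly convex potentials to all invariant log-concave measures.
-/

set_option autoImplicit false
set_option linter.unusedSectionVars false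

namespace Pool.Agent.Lib.MP_6d896a_gt.CJ

open MeasureTheory ProbabilityTheory Matrix Set Filter
open Pool.Agent.Lib.MP_6d896a_gt.OM Pool.Agent.Lib.MP_6d896a_gt.UC
open Pool.Agent.Lib.MP_6d896a_gt.UC.UR
open scoped ENNReal Topology

section abstract

variable {r : Type} [Fintype r] [DecidableEq r] {n : ℕ}

private lemma oc_restrict_ball {ν : Measure (Eu n)} {O : Eu n ≃ₗᵢ[ℝ] Eu n} (hν : ν.map O = ν)
    (r : ℝ) : (ν.restrict (Metric.closedBall 0 r)).map O = ν.restrict (Metric.closedBall 0 r) := by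
  have hc : Measurable (O : Eu n → Eu n) := O.continuous.measurable
  have hpre : O ⁻¹' (Metric.closedBall 0 r) = Metric.closedBall (0 : Eu n) r := by
    ext x
    simp only [Set.mem_preimage, mem_closedBall_zero_iff]
    rw [LinearIsometryEquiv.norm_map]
  have h1 := Measure.restrict_map (μ := ν) hc (s := Metric.closedBall 0 r)
    (Metric.isClosed_closedBall.measurableSet)
  rw [hν, hpre] at h1
  exact h1.symm

/-- the mean vanishes by symmetry -/
private lemma oc_mean_zero (R : Act r n) (hfix : R.NoFix) {V : Eu n → ℝ} (hV : Continuous V)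
    (hint : Integrable (fun x => ‖x‖) (tgt V)) (hinv : ∀ g x, V (R.ρ g x) = V x)
    (w : Eu n) : ∫ y, inner ℝ y w ∂(tgt V) = 0 := by
  have hid : Integrable (fun y : Eu n => y) (tgt V) :=
    (integrable_norm_iff (continuous_id.aestronglyMeasurable)).1 hint
  set v : Eu n := ∫ y, y ∂(tgt V) with hv
  have hin : ∀ w : Eu n, ∫ y, inner ℝ y w ∂(tgt V) = inner ℝ v w := by
    intro w
    have h1 := integral_inner (𝕜 := ℝ) hid w
    rw [real_inner_comm, hv, ← h1]
    congr 1
    funext y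
    rw [real_inner_comm]
  have hz : v = 0 := by
    refine hfix v fun g => ?_
    refine ext_inner_right ℝ fun w => ?_
    have h1 : inner ℝ (R.ρ g v) w = inner ℝ v ((R.ρ g).symm w) := by
      conv_lhs => rw [← (R.ρ g).apply_symm_apply w]
      exact (R.ρ g).inner_map_map _ _
    have h2 := EX.tgt_iso hV (R := R.ρ g) (hinv g) (fun y => inner ℝ y w)
    have h3 : ∀ y : Eu n, (inner ℝ (R.ρ g y) w : ℝ) = inner ℝ y ((R.ρ g).symm w) := by
      intro y
      conv_lhs => rw [← (R.ρ g).apply_symm_apply w]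
      exact (R.ρ g).inner_map_map _ _
    simp only [h3] at h2
    rw [h1, ← hin, h2, hin]
  rw [hin, hz, inner_zero_left]

private lemma oc_moment2 {V : Eu n → ℝ} {D : Eu n → Eu n} {kap Lam C3 : ℝ}
    (hP : Pot V D kap Lam C3) : Integrable (fun x => ‖x‖ ^ 2) (tgt V) := by
  unfold tgt
  have hmV : Measurable (fun x => ENNReal.ofReal (Real.exp (-V x))) :=
    (Real.measurable_exp.comp hP.cV.measurable.neg).ennreal_ofReal
  refine ⟨(continuous_norm.pow 2).measurable.aestronglyMeasurable, ?_⟩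
  unfold HasFiniteIntegral
  have hm2 : Measurable (fun x : Eu n => ‖‖x‖ ^ 2‖ₑ) := by fun_prop
  rw [lintegral_withDensity_eq_lintegral_mul _ hmV hm2]
  refine lt_of_le_of_lt ?_ hP.mom
  apply lintegral_mono
  intro x
  simp only [Pi.mul_apply]
  rw [← ofReal_norm, Real.norm_of_nonneg (by positivity),
    ← ENNReal.ofReal_mul (Real.exp_pos _).le]
  apply ENNReal.ofReal_le_ofReal
  apply mul_le_mul_of_nonneg_left _ (Real.exp_pos _).le
  have h2 : ‖x‖ ^ 2 ≤ (1 + ‖x‖) ^ 2 :=
    pow_le_pow_left₀ (norm_nonneg _) (by linarith [norm_nonneg x]) 2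
  have h3 : (1 + ‖x‖) ^ 2 ≤ (1 + ‖x‖) ^ 4 :=
    pow_le_pow_right₀ (by linarith [norm_nonneg x]) (by norm_num)
  exact h2.trans h3

/-- from strongly convex potentials to all invariant log-concave measures
(as `refl_poincare_CL_of`) -/
theorem orb_CL (R : Act r n) (hfix : R.NoFix) {c : Eu n → ℝ} (hc : Wt c)
    (main : ∀ {V : Eu n → ℝ} {κ Λ S : ℝ}, GP V κ Λ S → ∀ {c0 : ℝ}, 0 < c0 → HP V c0 →
      (∀ g x, V (R.ρ g x) = V x) → ∀ {f : Eu n → ℝ} {b l L : ℝ}, CL f b l L →
      ∫ x, f x ^ 2 ∂(tgt V) - (∫ x, f x ∂(tgt V)) ^ 2 ≤ (5 * Ex V c) * l ^ 2)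
    (ν : Measure (Eu n)) [IsProbabilityMeasure ν] (hpl : FP.PLm ν) (hinv : R.Inv ν)
    {f : Eu n → ℝ} {b l L : ℝ} (hf : CL f b l L) :
    ∫ x, f x ^ 2 ∂ν - (∫ x, f x ∂ν) ^ 2 ≤ (5 * ∫ x, c x ∂ν) * l ^ 2 := by
  set t : ℕ → ℝ := fun k => 1 / ((k : ℝ) + 1) with ht
  have ht0 : ∀ k, 0 < t k := fun k => by rw [ht]; positivity
  have htlim : Tendsto t atTop (𝓝 0) := tendsto_one_div_add_atTop_nhds_zero_nat
  set m : ℕ → Measure (Eu n) := fun k => ν.restrict (Metric.closedBall 0 (k : ℝ))
    with hm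
  have h2 := hpl.sq_integrable
  obtain ⟨Cc, hCc⟩ := hc.bd
  have hcν : Integrable c ν := by
    refine (h2.const_mul Cc).mono' hc.cont.aestronglyMeasurable (ae_of_all _ fun y => ?_)
    rw [Real.norm_eq_abs, abs_of_nonneg (hc.nn y)]
    exact hCc y
  have hgi := gauss_pow (n := n) 2
  have hcg : Integrable c (stdGaussian (Eu n)) := by
    refine (hgi.const_mul Cc).mono' hc.cont.aestronglyMeasurable (ae_of_all _ fun y => ?_)
    rw [Real.norm_eq_abs, abs_of_nonneg (hc.nn y)]
    exact hCc y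
  set g2 : ℝ := ∫ z, c z ∂(stdGaussian (Eu n)) with hg2
  have hg20 : 0 ≤ g2 := integral_nonneg fun z => hc.nn z
  have hcI : 0 ≤ ∫ x, c x ∂ν := integral_nonneg fun z => hc.nn z
  set J : ℕ → (Eu n → ℝ) → ℝ := fun k F =>
    ∫ x, F x * Real.exp (-(t k) * ‖x‖ ^ 2) ∂(FP.cv (m k) (t k)) with hJ
  -- limits
  have hlimJ : ∀ (F : Eu n → ℝ), Continuous F → ∀ B, (∀ x, |F x| ≤ B) →
      Tendsto (fun k => J k F) atTop (𝓝 (∫ x, F x ∂ν)) := by
    intro F hF B hB
    apply FP.cv_tendsto ν (C := B) (H := fun k x => F x * Real.exp (-(t k) * ‖x‖ ^ 2))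
    · intro k
      exact (hF.mul (by fun_prop)).measurable
    · intro k x
      rw [abs_mul, abs_of_pos (Real.exp_pos _)]
      have h1 : Real.exp (-(t k) * ‖x‖ ^ 2) ≤ 1 := by
        apply Real.exp_le_one_iff.mpr
        have := mul_nonneg (ht0 k).le (sq_nonneg ‖x‖)
        linarith
      calc |F x| * Real.exp (-(t k) * ‖x‖ ^ 2) ≤ |F x| * 1 :=
            mul_le_mul_of_nonneg_left h1 (abs_nonneg _)
        _ ≤ B := by rw [mul_one]; exact hB x
    · intro p
      have l1 : Tendsto (fun k => p.1 + t k • p.2) atTop (𝓝 (p.1 + (0 : ℝ) • p.2)) :=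
        (htlim.smul_const p.2).const_add p.1
      rw [zero_smul, add_zero] at l1
      have l2 : Tendsto (fun k => F (p.1 + t k • p.2)) atTop (𝓝 (F p.1)) :=
        (hF.tendsto p.1).comp l1
      have l3 : Tendsto (fun k => Real.exp (-(t k) * ‖p.1 + t k • p.2‖ ^ 2)) atTop
          (𝓝 (Real.exp (-0 * ‖p.1‖ ^ 2))) :=
        (Real.continuous_exp.tendsto _).comp ((htlim.neg).mul ((l1.norm).pow 2))
      have l4 := l2.mul l3
      simpa using l4
  have hJ1 : Tendsto (fun k => J k (fun _ => 1)) atTop (𝓝 1) := by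
    have := hlimJ (fun _ => 1) continuous_const 1 (by simp)
    simpa using this
  have hfc := hf.cd.continuous
  have hJf : Tendsto (fun k => J k f) atTop (𝓝 (∫ x, f x ∂ν)) := hlimJ f hfc b hf.bd
  have hJf2 : Tendsto (fun k => J k (fun x => f x ^ 2)) atTop (𝓝 (∫ x, f x ^ 2 ∂ν)) :=
    hlimJ _ (hfc.pow 2) (b ^ 2) (fun x => by
      rw [abs_pow]; exact pow_le_pow_left₀ (abs_nonneg _) (hf.bd x) 2)
  -- the weight
  set Bk : ℕ → ℝ := fun k => (1 + t k) * (∫ x, c x ∂ν) + (t k ^ 2 + t k) * g2 with hBk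
  have hBlim : Tendsto Bk atTop (𝓝 (∫ x, c x ∂ν)) := by
    have : Tendsto Bk atTop (𝓝 ((1 + 0) * (∫ x, c x ∂ν) + (0 ^ 2 + 0) * g2)) :=
      ((htlim.const_add 1).mul_const _).add (((htlim.pow 2).add htlim).mul_const g2)
    simpa using this
  have hmom : ∀ k, J k c ≤ Bk k := by
    intro k
    have htk := ht0 k
    have hSm : Measurable (fun p : Eu n × Eu n =>
      p.1 + t k • p.2) := by fun_prop
    have hcc := hc.cont
    have hFc : Continuous (fun y : Eu n =>
      c y * Real.exp (-(t k) * ‖y‖ ^ 2)) := by fun_prop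
    have e1 : J k c = ∫ p, (c (p.1 + t k • p.2) *
        Real.exp (-(t k) * ‖p.1 + t k • p.2‖ ^ 2))
        ∂((m k).prod (stdGaussian (Eu n))) := by
      rw [hJ]
      simp only []
      unfold FP.cv
      rw [integral_map hSm.aemeasurable hFc.aestronglyMeasurable]
    rw [e1]
    have hj2 : Integrable c (m k) := hcν.restrict (s := Metric.closedBall 0 (k : ℝ))
    have i1 : Integrable (fun p : Eu n × Eu n =>
        (1 + t k) * c p.1) ((m k).prod (stdGaussian (Eu n))) :=
      (hj2.comp_fst _).const_mul _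
    have i2 : Integrable (fun p : Eu n × Eu n =>
        (t k ^ 2 + t k) * c p.2) ((m k).prod (stdGaussian (Eu n))) :=
      (hcg.comp_snd _).const_mul _
    have hpt : ∀ p : Eu n × Eu n,
        0 ≤ c (p.1 + t k • p.2) * Real.exp (-(t k) * ‖p.1 + t k • p.2‖ ^ 2) ∧
        c (p.1 + t k • p.2) * Real.exp (-(t k) * ‖p.1 + t k • p.2‖ ^ 2) ≤
        (1 + t k) * c p.1 + (t k ^ 2 + t k) * c p.2 := by
      intro p
      have hnn := hc.nn (p.1 + t k • p.2)
      refine ⟨mul_nonneg hnn (Real.exp_pos _).le, ?_⟩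
      have h3 : Real.exp (-(t k) * ‖p.1 + t k • p.2‖ ^ 2) ≤ 1 := by
        apply Real.exp_le_one_iff.mpr
        have := mul_nonneg htk.le (sq_nonneg ‖p.1 + t k • p.2‖)
        linarith
      calc _ ≤ c (p.1 + t k • p.2) * 1 := mul_le_mul_of_nonneg_left h3 hnn
        _ ≤ _ := by
          rw [mul_one]
          exact hc.conv p.1 p.2 (t k) htk
    have h3 : ∫ p, (c (p.1 + t k • p.2) *
        Real.exp (-(t k) * ‖p.1 + t k • p.2‖ ^ 2))
        ∂((m k).prod (stdGaussian (Eu n))) ≤
        ∫ p, ((1 + t k) * c p.1 + (t k ^ 2 + t k) * c p.2)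
        ∂((m k).prod (stdGaussian (Eu n))) := by
      apply integral_mono_of_nonneg (ae_of_all _ fun p => (hpt p).1) (i1.add i2)
      exact ae_of_all _ fun p => (hpt p).2
    refine h3.trans ?_
    rw [integral_add i1 i2, integral_const_mul, integral_const_mul,
      integral_fun_fst (f := fun y : Eu n => c y),
      integral_fun_snd (f := fun y : Eu n => c y)]
    have h4 : ∫ y, c y ∂(m k) ≤ ∫ x, c x ∂ν :=
      setIntegral_le_integral hcν (ae_of_all _ fun y => hc.nn y)
    have h5 : (m k).real Set.univ ≤ 1 := by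
      rw [hm, measureReal_restrict_apply MeasurableSet.univ]
      exact measureReal_le_one
    rw [probReal_univ, one_smul, smul_eq_mul]
    have h6 := mul_le_mul_of_nonneg_left h4 (by positivity : 0 ≤ 1 + t k)
    have h7 : (m k).real Set.univ * g2 ≤ g2 := mul_le_of_le_one_left hg20 h5
    have h8 := mul_le_mul_of_nonneg_left h7 (by positivity : 0 ≤ t k ^ 2 + t k)
    rw [hBk]
    exact add_le_add h6 h8
  -- the inequality for each `k`
  have hev : ∀ᶠ k in atTop, J k (fun x => f x ^ 2) / J k (fun _ => 1) -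
      (J k f / J k (fun _ => 1)) ^ 2 ≤
      (5 * (Bk k / J k (fun _ => 1))) * l ^ 2 := by
    filter_upwards [hJ1.eventually (lt_mem_nhds (by norm_num : (1 / 2 : ℝ) < 1))] with k hk
    have htk := ht0 k
    have hJpos : 0 < J k (fun _ => 1) := by linarith
    have hmk : m k ≠ 0 := by
      intro h0
      have : J k (fun _ => 1) = 0 := by
        rw [hJ]
        simp only []
        rw [h0]
        unfold FP.cv
        simp
      linarith
    have : IsFiniteMeasure (m k) := by rw [hm]; infer_instance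
    have hR : ∀ᵐ z ∂(m k), ‖z‖ ≤ (k : ℝ) := by
      rw [hm]
      filter_upwards [ae_restrict_mem (Metric.isClosed_closedBall (x := (0 : Eu n))
        (ε := (k : ℝ))).measurableSet] with z hz
      rwa [mem_closedBall_zero_iff] at hz
    have hdt : 1 / (2 * t k ^ 2) = 1 / (2 * t k ^ 2) := rfl
    set d := 1 / (2 * t k ^ 2) with hd
    have hd0 : 0 < d := by positivity
    have hplk : FP.PLm (m k) := hpl.restrict_ball k
    have hsymk : ∀ g, (m k).map (R.ρ g) = m k := fun g => oc_restrict_ball (hinv g) k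
    have hpot := FP.Vp_pot hd0 hmk (Nat.cast_nonneg k) hR hplk htk
      (0 : Eu n)
    set V := FP.Vp (m k) d (t k) 0 with hV
    have hVA : ∀ g x, V (R.ρ g x) = V x := fun g x =>
      Vp_iso (R.ρ g) (hsymk g) hd0 hmk hR htk x
    set c1 := (gZ (Eu n) (t k))⁻¹ with hc1
    have hc10 : 0 < c1 := inv_pos.mpr (gZ_pos htk)
    have hint : ∀ F : Eu n → ℝ, ∫ x, F x ∂(tgt V) = c1 * J k F := by
      intro F
      rw [integral_tgt hpot.cV, hJ]
      simp only []
      rw [FP.cv_integral htk hdt, ← integral_const_mul]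
      congr 1
      funext x
      rw [hV, FP.exp_neg_Vp hd0 hmk hR htk 0 x, sub_zero]
      unfold gk
      ring
    have hmass : (tgt V).real Set.univ = c1 * J k (fun _ => 1) := by
      have h1 : (tgt V).real Set.univ = ∫ _y, (1 : ℝ) ∂(tgt V) := by simp
      rw [h1, hint]
    have hmpos : 0 < (tgt V).real Set.univ := by rw [hmass]; positivity
    have hm2 := oc_moment2 hpot
    set Q : ℝ := ∫ x, ‖x‖ ^ 2 ∂(tgt V) with hQ
    have hQ0 : 0 ≤ Q := integral_nonneg fun x => by positivity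
    have hSk : 0 < Q / (tgt V).real Set.univ + 1 := by positivity
    have hGP := Vp_GP hd0 hmk hR htk hplk (Nat.cast_nonneg k) hSk
      (fun w => oc_mean_zero R hfix hpot.cV (tgt_moment hpot) hVA w)
      (fun w => by
        have h1 : ∫ y, inner ℝ y w ^ 2 ∂(tgt V) ≤ ∫ y, ‖w‖ ^ 2 * ‖y‖ ^ 2 ∂(tgt V) := by
          apply integral_mono_of_nonneg (ae_of_all _ fun y => sq_nonneg _)
            (hm2.const_mul _)
          refine ae_of_all _ fun y => ?_
          have h3 := norm_inner_le_norm (𝕜 := ℝ) y w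
          show inner ℝ y w ^ 2 ≤ ‖w‖ ^ 2 * ‖y‖ ^ 2
          rw [← sq_abs, ← mul_pow, mul_comm]
          exact pow_le_pow_left₀ (abs_nonneg _) h3 2
        rw [integral_const_mul, ← hQ] at h1
        have h4 : (Q / (tgt V).real Set.univ + 1) * ‖w‖ ^ 2 * (tgt V).real Set.univ =
            ‖w‖ ^ 2 * Q + ‖w‖ ^ 2 * (tgt V).real Set.univ := by
          field_simp
        rw [h4]
        have h5 : 0 ≤ ‖w‖ ^ 2 * (tgt V).real Set.univ := by positivity
        linarith)
    obtain ⟨c0, hc00, hHP0⟩ := Vp_apriori hd0 hmk hR htk hplk (Nat.cast_nonneg k)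
    have key := main hGP hc00 hHP0
      (fun g x => by
        show V (R.ρ g x) + _ = V x + _
        rw [hVA g x]) hf
    have hcV' : Continuous (fun x => V x + Real.log ((tgt V).real Set.univ)) :=
      hpot.cV.add continuous_const
    have hint' : ∀ F : Eu n → ℝ,
        ∫ x, F x ∂(tgt (fun x => V x + Real.log ((tgt V).real Set.univ))) =
          J k F / J k (fun _ => 1) := by
      intro F
      rw [integral_tgt hcV']
      have e1 : ∀ x, F x * Real.exp (-(V x + Real.log ((tgt V).real Set.univ))) =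
          ((tgt V).real Set.univ)⁻¹ * (F x * Real.exp (-V x)) := by
        intro x
        rw [neg_add, Real.exp_add, Real.exp_neg (Real.log _), Real.exp_log hmpos]
        ring
      simp only [e1]
      rw [integral_const_mul, ← integral_tgt hpot.cV, hint, hmass]
      field_simp
    have hEx : Ex (fun x => V x + Real.log ((tgt V).real Set.univ)) c =
        J k c / J k (fun _ => 1) := by
      rw [← hint', integral_tgt hcV']
      rfl
    rw [hint', hint', hEx] at key
    refine key.trans ?_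
    have h7 := div_le_div_of_nonneg_right (hmom k) hJpos.le
    have h8 : 5 * (J k c / J k (fun _ => 1)) ≤ 5 * (Bk k / J k (fun _ => 1)) := by linarith
    exact mul_le_mul_of_nonneg_right h8 (sq_nonneg l)
  -- limit
  have hl1 := (hJf2.div hJ1 one_ne_zero).sub ((hJf.div hJ1 one_ne_zero).pow 2)
  have hl2 := ((hBlim.div hJ1 one_ne_zero).const_mul 5).mul_const (l ^ 2)
  have := le_of_tendsto_of_tendsto hl1 hl2 hev
  simpa using this

end abstract

end Pool.Agent.Lib.MP_6d896a_gt.CJ
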