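import Mathlib
import Pool.Agent.Lib.MP_6d896a_gt.TgtInt
import Pool.Agent.Lib.MP_6d896a_gt.CJ.Defs
import Pool.Agent.Lib.MP_6d896a_gt.UC.Basic

/-!
Project CJ, piece P3: from test functions to bounded `C^1` functions with bounded gradient, for
the Lipschitz form of the variance bound.
-/

set_option autoImplicit false
set_option linter.unusedSectionVars false

namespace Pool.Agent.Lib.MP_6d896a_gt.CJ

open MeasureTheory ProbabilityTheory Matrix Set Filter
open Pool.Agent.Lib.MP_6d896a_gt.OM Pool.Agent.Lib.MP_6d896a_gt.UC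
open Pool.Agent.Lib.MP_6d896a_gt.UC.UR
open scoped ENNReal Topology NNReal ContDiff Convolution

variable {n : ℕ} {V f g u : Eu n → ℝ} {κ Λ S : ℝ}

/-- mollifiers -/
private noncomputable def oxb (n k : ℕ) : ContDiffBump (0 : Eu n) where
  rIn := 1 / (2 * ((k : ℝ) + 1))
  rOut := 1 / ((k : ℝ) + 1)
  rIn_pos := by positivity
  rIn_lt_rOut := by
    rw [div_lt_div_iff₀ (by positivity) (by positivity)]
    have : (0 : ℝ) ≤ k := Nat.cast_nonneg k
    linarith

private lemma oxb_tendsto (n : ℕ) : Tendsto (fun k => (oxb n k).rOut) atTop (𝓝 0) :=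
  tendsto_one_div_add_atTop_nhds_zero_nat

/-- mollified function -/
private noncomputable def oxm (k : ℕ) (g : Eu n → ℝ) (x : Eu n) : ℝ :=
  ((oxb n k).normed volume ⋆[ContinuousLinearMap.lsmul ℝ ℝ, volume] g) x

private lemma oxm_TT (k : ℕ) (hg : Continuous g) (hc : HasCompactSupport g) : UC.TT (oxm k g) where
  cd := (oxb n k).hasCompactSupport_normed.contDiff_convolution_left _ (oxb n k).contDiff_normed
    hg.locallyIntegrable
  cs := (oxb n k).hasCompactSupport_normed.convolution _ hc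

private lemma oxm_fderiv (k : ℕ) (hg : ContDiff ℝ 1 g) (hc : HasCompactSupport g) (x : Eu n) :
    fderiv ℝ (oxm k g) x =
      ((oxb n k).normed volume ⋆[ContinuousLinearMap.lsmul ℝ ℝ, volume] (fderiv ℝ g)) x := by
  have h := hc.hasFDerivAt_convolution_right (ContinuousLinearMap.lsmul ℝ ℝ)
    (μ := (volume : Measure (Eu n)))
    ((oxb n k).continuous_normed (μ := (volume : Measure (Eu n)))).locallyIntegrable hg x
  have h2 : fderiv ℝ (oxm k g) x = _ := h.fderiv
  rw [h2]
  unfold convolution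
  apply integral_congr_ae
  filter_upwards with t
  ext v
  simp [ContinuousLinearMap.precompR_apply]

private lemma ox_conv_bound {F : Type*} [NormedAddCommGroup F] [NormedSpace ℝ F] [CompleteSpace F]
    (k : ℕ) {G : Eu n → F} {B : ℝ} (hB : ∀ x, ‖G x‖ ≤ B) (x : Eu n) :
    ‖((oxb n k).normed volume ⋆[ContinuousLinearMap.lsmul ℝ ℝ, volume] G) x‖ ≤ B := by
  unfold convolution
  have hi := (oxb n k).integrable_normed (μ := (volume : Measure (Eu n)))
  calc ‖∫ t, (ContinuousLinearMap.lsmul ℝ ℝ) ((oxb n k).normed volume t) (G (x - t))‖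
      ≤ ∫ t, ‖(ContinuousLinearMap.lsmul ℝ ℝ) ((oxb n k).normed volume t) (G (x - t))‖ :=
        norm_integral_le_integral_norm _
    _ ≤ ∫ t, (oxb n k).normed volume t * B := by
        apply integral_mono_of_nonneg
        · filter_upwards with t using norm_nonneg _
        · exact hi.mul_const B
        · filter_upwards with t
          rw [ContinuousLinearMap.lsmul_apply, norm_smul, Real.norm_eq_abs,
            abs_of_nonneg ((oxb n k).nonneg_normed t)]
          exact mul_le_mul_of_nonneg_left (hB _) ((oxb n k).nonneg_normed t)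
    _ = B := by
        rw [integral_mul_const, (oxb n k).integral_normed, one_mul]

private lemma ox_bint (hV : Continuous V) (hi : Integrable (fun x => Real.exp (-V x)))
    {F : Eu n → ℝ} (hF : Continuous F) {B : ℝ} (hB : ∀ x, |F x| ≤ B) :
    Integrable (fun x => F x * Real.exp (-V x)) := by
  apply Integrable.mono' (hi.const_mul B) (by fun_prop)
  filter_upwards with x
  rw [Real.norm_eq_abs, abs_mul, Real.abs_exp]
  exact mul_le_mul_of_nonneg_right (hB x) (Real.exp_nonneg _)

private lemma ox_dom_lim (hV : Continuous V) (hi : Integrable (fun x => Real.exp (-V x)))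
    {F : ℕ → Eu n → ℝ} {G : Eu n → ℝ} (hF : ∀ k, Continuous (F k)) {B : ℝ}
    (hB : ∀ k x, |F k x| ≤ B) (hl : ∀ x, Tendsto (fun k => F k x) atTop (𝓝 (G x))) :
    Tendsto (fun k => ∫ x, F k x * Real.exp (-V x)) atTop (𝓝 (∫ x, G x * Real.exp (-V x))) := by
  apply tendsto_integral_of_dominated_convergence (fun x => B * Real.exp (-V x))
  · intro k
    exact ((hF k).mul (by fun_prop)).aestronglyMeasurable
  · exact hi.const_mul B
  · intro k
    filter_upwards with x
    rw [Real.norm_eq_abs, abs_mul, Real.abs_exp]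
    exact mul_le_mul_of_nonneg_right (hB k x) (Real.exp_nonneg _)
  · filter_upwards with x
    exact (hl x).mul_const _

/-- `C^1` functions with compact support -/
private lemma ox_ext_cpt (hV : Continuous V) (hi : Integrable (fun x => Real.exp (-V x))) {B : ℝ}
    (hP : ∀ (f : Eu n → ℝ) (l : ℝ), UC.TT f → (∀ x, ‖fderiv ℝ f x‖ ≤ l) →
      Ex V (fun x => f x ^ 2) - (Ex V f) ^ 2 ≤ B * l ^ 2)
    (hg : ContDiff ℝ 1 g) (hc : HasCompactSupport g) {l : ℝ}
    (hl : ∀ x, ‖fderiv ℝ g x‖ ≤ l) :
    (∫ x, g x ^ 2 * Real.exp (-V x)) - (∫ x, g x * Real.exp (-V x)) ^ 2 ≤ B * l ^ 2 := by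
  obtain ⟨b, hb⟩ := hc.exists_bound_of_continuous hg.continuous
  have hb0 : 0 ≤ b := (norm_nonneg _).trans (hb 0)
  have hT : ∀ k, UC.TT (oxm k g) := fun k => oxm_TT k hg.continuous hc
  have hmb : ∀ k x, |oxm k g x| ≤ b := fun k x => ox_conv_bound k hb x
  have hmb' : ∀ k x, ‖fderiv ℝ (oxm k g) x‖ ≤ l := by
    intro k x
    rw [oxm_fderiv k hg hc]
    exact ox_conv_bound k hl x
  have hml : ∀ x, Tendsto (fun k => oxm k g x) atTop (𝓝 (g x)) := fun x =>
    ContDiffBump.convolution_tendsto_right_of_continuous (oxb_tendsto n) hg.continuous x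
  have key : ∀ k, (∫ x, oxm k g x ^ 2 * Real.exp (-V x)) -
      (∫ x, oxm k g x * Real.exp (-V x)) ^ 2 ≤ B * l ^ 2 := fun k =>
    hP (oxm k g) l (hT k) (hmb' k)
  have hL := ox_dom_lim (F := fun k x => oxm k g x ^ 2) (G := fun x => g x ^ 2) hV hi
    (fun k => (hT k).cd.continuous.pow 2) (B := b ^ 2)
    (fun k x => by
      rw [abs_pow]
      exact pow_le_pow_left₀ (abs_nonneg _) (hmb k x) 2)
    (fun x => (hml x).pow 2)
  have hM := ox_dom_lim (F := fun k x => oxm k g x) (G := fun x => g x) hV hi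
    (fun k => (hT k).cd.continuous) (B := b) hmb hml
  exact le_of_tendsto' (hL.sub (hM.pow 2)) key

/-- radial cut-off function -/
private noncomputable def oxcut (x : Eu n) : ℝ := Real.smoothTransition (2 - ‖x‖ ^ 2)

private lemma oxcut_smooth : ContDiff ℝ ∞ (oxcut (n := n)) := by
  unfold oxcut
  exact Real.smoothTransition.contDiff.comp (contDiff_const.sub (contDiff_norm_sq ℝ))

private lemma oxcut_cs : HasCompactSupport (oxcut (n := n)) := by
  apply HasCompactSupport.of_support_subset_isCompact (isCompact_closedBall (0 : Eu n) 2)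
  intro x hx
  rw [mem_closedBall_zero_iff]
  by_contra h
  push Not at h
  apply hx
  unfold oxcut
  apply Real.smoothTransition.zero_of_nonpos
  nlinarith

private lemma oxcut_nonneg (x : Eu n) : 0 ≤ oxcut x := Real.smoothTransition.nonneg _
private lemma oxcut_le (x : Eu n) : oxcut x ≤ 1 := Real.smoothTransition.le_one _
private lemma oxcut_zero : oxcut (0 : Eu n) = 1 := by
  unfold oxcut
  apply Real.smoothTransition.one_of_one_le
  norm_num

/-- from test functions to bounded smooth functions with bounded gradient (as `hp_ext`) -/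
theorem orb_ext {V : Eu n → ℝ} {κ Λ S : ℝ} (hU : GP V κ Λ S) {B : ℝ} (hB : 0 ≤ B)
    (hT : ∀ (f : Eu n → ℝ) (l : ℝ), UC.TT f → (∀ x, ‖fderiv ℝ f x‖ ≤ l) →
      Ex V (fun x => f x ^ 2) - (Ex V f) ^ 2 ≤ B * l ^ 2)
    {f : Eu n → ℝ} {b l L : ℝ} (hf : CL f b l L) :
    ∫ x, f x ^ 2 ∂(tgt V) - (∫ x, f x ∂(tgt V)) ^ 2 ≤ B * l ^ 2 := by
  have _ := hB
  have hV := hU.cd.continuous
  rw [integral_tgt hV, integral_tgt hV]
  obtain ⟨M, hM⟩ := (oxcut_cs (n := n).fderiv ℝ).exists_bound_of_continuous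
    (oxcut_smooth.continuous_fderiv (by simp))
  have hM0 : 0 ≤ M := (norm_nonneg _).trans (hM 0)
  have hU0 : 0 ≤ b := (abs_nonneg _).trans (hf.bd 0)
  have hL0 : 0 ≤ l := (norm_nonneg _).trans (hf.gd 0)
  set a : ℕ → ℝ := fun k => 1 / ((k : ℝ) + 1) with ha
  have ha0 : ∀ k, 0 ≤ a k := fun k => by positivity
  have hal : Tendsto a atTop (𝓝 0) := tendsto_one_div_add_atTop_nhds_zero_nat
  set G : ℕ → Eu n → ℝ := fun k x => oxcut (a k • x) * f x with hG
  have hdr : ∀ k x, HasFDerivAt (fun x : Eu n => oxcut (a k • x))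
      (a k • fderiv ℝ oxcut (a k • x)) x := by
    intro k x
    have h1 : HasFDerivAt (oxcut (n := n)) (fderiv ℝ oxcut (a k • x)) (a k • x) :=
      ((oxcut_smooth.differentiable (by simp)) _).hasFDerivAt
    have h2 : HasFDerivAt (fun x : Eu n => a k • x) (a k • ContinuousLinearMap.id ℝ (Eu n)) x :=
      (hasFDerivAt_id x).const_smul (a k)
    have h3 := h1.comp x h2
    have e : (fderiv ℝ oxcut (a k • x)).comp (a k • ContinuousLinearMap.id ℝ (Eu n)) =
        a k • fderiv ℝ oxcut (a k • x) := by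
      ext v
      simp
    rw [e] at h3
    exact h3
  have hdG : ∀ k x, fderiv ℝ (G k) x = oxcut (a k • x) • fderiv ℝ f x +
      f x • (a k • fderiv ℝ oxcut (a k • x)) := by
    intro k x
    exact ((hdr k x).mul ((hf.cd.differentiable (by simp)) x).hasFDerivAt).fderiv
  have hGc : ∀ k, ContDiff ℝ 1 (G k) := by
    intro k
    have h1 : ContDiff ℝ 1 (fun x : Eu n => oxcut (a k • x)) :=
      (oxcut_smooth.of_le (by exact_mod_cast le_top)).comp (contDiff_const_smul (a k))
    exact h1.mul hf.cd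
  have hGs : ∀ k, HasCompactSupport (G k) := by
    intro k
    have h1 : HasCompactSupport (fun x : Eu n => oxcut (a k • x)) := by
      have hk : a k ≠ 0 := by rw [ha]; positivity
      exact oxcut_cs.comp_homeomorph (Homeomorph.smulOfNeZero (a k) hk)
    exact h1.mul_right
  have hgr : ∀ k x, ‖fderiv ℝ (G k) x‖ ≤ l + b * (a k * M) := by
    intro k x
    rw [hdG]
    refine (norm_add_le _ _).trans (add_le_add ?_ ?_)
    · rw [norm_smul, Real.norm_eq_abs, abs_of_nonneg (oxcut_nonneg _)]
      calc oxcut (a k • x) * ‖fderiv ℝ f x‖ ≤ 1 * l :=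
            mul_le_mul (oxcut_le _) (hf.gd x) (norm_nonneg _) zero_le_one
        _ = l := one_mul l
    · rw [norm_smul, Real.norm_eq_abs, norm_smul, Real.norm_eq_abs, abs_of_nonneg (ha0 k)]
      apply mul_le_mul (hf.bd x) _ (mul_nonneg (ha0 k) (norm_nonneg _)) hU0
      exact mul_le_mul_of_nonneg_left (hM _) (ha0 k)
  have key : ∀ k, (∫ x, G k x ^ 2 * Real.exp (-V x)) - (∫ x, G k x * Real.exp (-V x)) ^ 2 ≤
      B * (l + b * (a k * M)) ^ 2 := fun k =>
    ox_ext_cpt hV hU.int hT (hGc k) (hGs k) (hgr k)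
  have hrl : ∀ x : Eu n, Tendsto (fun k => oxcut (a k • x)) atTop (𝓝 1) := by
    intro x
    have h1 : Tendsto (fun k => a k • x) atTop (𝓝 (0 : Eu n)) := by
      have := hal.smul_const x
      rwa [zero_smul] at this
    have h2 := (oxcut_smooth.continuous.tendsto (0 : Eu n)).comp h1
    rw [oxcut_zero] at h2
    exact h2
  have hGb : ∀ k x, |G k x| ≤ b := by
    intro k x
    simp only [hG]
    rw [abs_mul, abs_of_nonneg (oxcut_nonneg _)]
    calc oxcut (a k • x) * |f x| ≤ 1 * b :=
          mul_le_mul (oxcut_le _) (hf.bd x) (abs_nonneg _) zero_le_one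
      _ = b := one_mul b
  have hGl : ∀ x, Tendsto (fun k => G k x) atTop (𝓝 (f x)) := by
    intro x
    have := (hrl x).mul_const (f x)
    rwa [one_mul] at this
  have hL := ox_dom_lim (F := fun k x => G k x ^ 2) (G := fun x => f x ^ 2) hV hU.int
    (fun k => (hGc k).continuous.pow 2) (B := b ^ 2)
    (fun k x => by
      rw [abs_pow]
      exact pow_le_pow_left₀ (abs_nonneg _) (hGb k x) 2)
    (fun x => (hGl x).pow 2)
  have hMm := ox_dom_lim (F := fun k x => G k x) (G := fun x => f x) hV hU.int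
    (fun k => (hGc k).continuous) (B := b) hGb hGl
  have hR : Tendsto (fun k => B * (l + b * (a k * M)) ^ 2) atTop (𝓝 (B * l ^ 2)) := by
    have h1 : Tendsto (fun k => B * (l + b * (a k * M)) ^ 2) atTop
        (𝓝 (B * (l + b * (0 * M)) ^ 2)) :=
      (((hal.mul_const M).const_mul b).const_add l).pow 2 |>.const_mul B
    simpa using h1
  exact le_of_tendsto_of_tendsto' (hL.sub (hMm.pow 2)) hR key

end Pool.Agent.Lib.MP_6d896a_gt.CJ
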