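import Mathlib
import Pool.Agent.Lib.MP_6d896a_gt.CJ.Defs
import Pool.Agent.Lib.MP_6d896a_gt.UC.Bochner
import Pool.Agent.Lib.MP_6d896a_gt.Ex8

/-!
Project CJ: variance bound for functions under an isometric action of the rotation group.
-/

set_option autoImplicit false
set_option linter.unusedSectionVars false

namespace Pool.Agent.Lib.MP_6d896a_gt.CJ

open MeasureTheory ProbabilityTheory Matrix Set Filter
open Pool.Agent.Lib.MP_6d896a_gt.OM Pool.Agent.Lib.MP_6d896a_gt.UC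
open Pool.Agent.Lib.MP_6d896a_gt.UC.UR
open scoped ENNReal Topology

lemma sq_dev {α : Type} [MeasurableSpace α] {μ : Measure α} [IsProbabilityMeasure μ] {f : α → ℝ}
    (hf : Integrable f μ) (hf2 : Integrable (fun x => f x ^ 2) μ) :
    ∫ x, (f x - ∫ y, f y ∂μ) ^ 2 ∂μ = ∫ x, f x ^ 2 ∂μ - (∫ x, f x ∂μ) ^ 2 := by
  set m := ∫ x, f x ∂μ with hm
  have i1 : Integrable (fun x => 2 * m * f x) μ := hf.const_mul _
  have i2 : Integrable (fun x => f x ^ 2 - 2 * m * f x) μ := hf2.sub i1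
  have h1 : ∫ x, (f x - m) ^ 2 ∂μ = ∫ x, (f x ^ 2 - 2 * m * f x + m ^ 2) ∂μ :=
    integral_congr_ae (ae_of_all _ fun x => by ring)
  rw [h1, integral_add i2 (integrable_const _), integral_sub hf2 i1, integral_const_mul,
    integral_const, ← hm]
  simp
  ring

section cc

variable {n : ℕ}

/-- continuous with compact support -/
structure CC (a : Eu n → ℝ) : Prop where
  c : Continuous a
  s : HasCompactSupport a

lemma CC.add {a b : Eu n → ℝ} (ha : CC a) (hb : CC b) : CC (fun x => a x + b x) :=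
  ⟨ha.c.add hb.c, ha.s.add hb.s⟩

lemma CC.neg {a : Eu n → ℝ} (ha : CC a) : CC (fun x => - a x) := ⟨ha.c.neg, ha.s.neg⟩

lemma CC.sub {a b : Eu n → ℝ} (ha : CC a) (hb : CC b) : CC (fun x => a x - b x) := by
  simpa only [sub_eq_add_neg] using ha.add hb.neg

lemma CC.mul {a b : Eu n → ℝ} (ha : CC a) (hb : CC b) : CC (fun x => a x * b x) :=
  ⟨ha.c.mul hb.c, ha.s.mul_right⟩

lemma CC.const_mul {a : Eu n → ℝ} (ha : CC a) (t : ℝ) : CC (fun x => t * a x) :=
  ⟨continuous_const.mul ha.c, ha.s.mul_left⟩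

lemma CC.sq {a : Eu n → ℝ} (ha : CC a) : CC (fun x => a x ^ 2) := by
  simpa only [_root_.sq] using ha.mul ha

lemma CC.sum {ι : Type} (s : Finset ι) {F : ι → Eu n → ℝ} (h : ∀ k ∈ s, CC (F k)) :
    CC (fun x => ∑ k ∈ s, F k x) := by
  classical
  induction s using Finset.induction_on with
  | empty => simpa using ⟨continuous_const, HasCompactSupport.zero⟩
  | insert k s hk ih =>
    simp only [Finset.sum_insert hk]
    exact (h k (Finset.mem_insert_self _ _)).add (ih fun j hj => h j (Finset.mem_insert_of_mem hj))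

lemma CC.sqrt {a : Eu n → ℝ} (ha : CC a) : CC (fun x => Real.sqrt (a x)) :=
  ⟨Real.continuous_sqrt.comp ha.c, ha.s.comp_left Real.sqrt_zero⟩

lemma CC.int {a : Eu n → ℝ} (ha : CC a) (P : Measure (Eu n)) [IsFiniteMeasure P] :
    Integrable a P := ha.c.integrable_of_hasCompactSupport ha.s

lemma CC.bdd {a : Eu n → ℝ} (ha : CC a) : ∃ ρ : ℝ, ∀ x, ρ < ‖x‖ → a x = 0 := by
  obtain ⟨ρ, hρ⟩ := ha.s.isCompact.isBounded.subset_closedBall (0 : Eu n)
  refine ⟨ρ, fun x hx => ?_⟩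
  by_contra h
  have := hρ (subset_tsupport _ h)
  rw [mem_closedBall_zero_iff] at this
  linarith

lemma TT.cc {a : Eu n → ℝ} (ha : UC.TT a) : CC a := ⟨ha.continuous, ha.cs⟩

/-- covariance -/
noncomputable def Cv (P : Measure (Eu n)) (a b : Eu n → ℝ) : ℝ :=
  ∫ x, a x * b x ∂P - (∫ x, a x ∂P) * ∫ x, b x ∂P

variable {P : Measure (Eu n)} [IsProbabilityMeasure P] {a b c : Eu n → ℝ}

lemma Cv_comm (a b : Eu n → ℝ) : Cv P a b = Cv P b a := by
  unfold Cv
  rw [mul_comm (∫ x, a x ∂P)]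
  congr 1
  exact integral_congr_ae (ae_of_all _ fun x => mul_comm _ _)

lemma Cv_add_right (ha : CC a) (hb : CC b) (hc : CC c) :
    Cv P a (fun x => b x + c x) = Cv P a b + Cv P a c := by
  unfold Cv
  rw [integral_add (hb.int P) (hc.int P)]
  have : ∫ x, a x * (b x + c x) ∂P = ∫ x, a x * b x ∂P + ∫ x, a x * c x ∂P := by
    rw [← integral_add ((ha.mul hb).int P) ((ha.mul hc).int P)]
    exact integral_congr_ae (ae_of_all _ fun x => by ring)
  rw [this]; ring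

lemma Cv_mul_right (a b : Eu n → ℝ) (t : ℝ) :
    Cv P a (fun x => t * b x) = t * Cv P a b := by
  unfold Cv
  rw [integral_const_mul]
  have : ∫ x, a x * (t * b x) ∂P = t * ∫ x, a x * b x ∂P := by
    rw [← integral_const_mul]
    exact integral_congr_ae (ae_of_all _ fun x => by ring)
  rw [this]; ring

lemma Cv_sub_right (ha : CC a) (hb : CC b) (hc : CC c) :
    Cv P a (fun x => b x - c x) = Cv P a b - Cv P a c := by
  have h := Cv_add_right (P := P) ha hb (hc.const_mul (-1))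
  rw [Cv_mul_right] at h
  have e : (fun x => b x - c x) = fun x => b x + -1 * c x := by funext x; ring
  rw [e, h]; ring

lemma Cv_add_left (ha : CC a) (hb : CC b) (hc : CC c) :
    Cv P (fun x => a x + b x) c = Cv P a c + Cv P b c := by
  rw [Cv_comm, Cv_add_right hc ha hb, Cv_comm c a, Cv_comm c b]

lemma Cv_mul_left (a b : Eu n → ℝ) (t : ℝ) :
    Cv P (fun x => t * a x) b = t * Cv P a b := by
  rw [Cv_comm, Cv_mul_right, Cv_comm]

lemma Cv_sub_left (ha : CC a) (hb : CC b) (hc : CC c) :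
    Cv P (fun x => a x - b x) c = Cv P a c - Cv P b c := by
  rw [Cv_comm, Cv_sub_right hc ha hb, Cv_comm c a, Cv_comm c b]

lemma Cv_self (ha : CC a) : Cv P a a = ∫ x, (a x - ∫ y, a y ∂P) ^ 2 ∂P := by
  rw [sq_dev (ha.int P) (ha.sq.int P)]
  unfold Cv
  have h2 : ∫ x, a x * a x ∂P = ∫ x, a x ^ 2 ∂P :=
    integral_congr_ae (ae_of_all _ fun x => by ring)
  rw [h2, _root_.sq]

lemma Cv_self_nonneg (ha : CC a) : 0 ≤ Cv P a a := by
  rw [Cv_self ha]
  exact integral_nonneg fun x => sq_nonneg _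

lemma Cv_self_le (a : Eu n → ℝ) : Cv P a a ≤ ∫ x, a x ^ 2 ∂P := by
  unfold Cv
  have h2 : ∫ x, a x * a x ∂P = ∫ x, a x ^ 2 ∂P :=
    integral_congr_ae (ae_of_all _ fun x => by ring)
  rw [h2]
  nlinarith [mul_self_nonneg (∫ x, a x ∂P)]

lemma Cv_cs (ha : CC a) (hb : CC b) : Cv P a b ^ 2 ≤ Cv P a a * Cv P b b := by
  have h : ∀ t : ℝ, 0 ≤ Cv P b b * (t * t) + 2 * Cv P a b * t + Cv P a a := by
    intro t
    have h1 := Cv_self_nonneg (P := P) (ha.add (hb.const_mul t))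
    rw [Cv_add_right (ha.add (hb.const_mul t)) ha (hb.const_mul t),
      Cv_add_left ha (hb.const_mul t) ha, Cv_add_left ha (hb.const_mul t) (hb.const_mul t),
      Cv_mul_right, Cv_mul_left, Cv_mul_left, Cv_mul_right, Cv_comm b a] at h1
    nlinarith
  have h2 := discrim_le_zero h
  unfold discrim at h2
  nlinarith

lemma Cv_cs' (ha : CC a) (hb : CC b) :
    |Cv P a b| ≤ Real.sqrt (Cv P a a) * Real.sqrt (Cv P b b) := by
  rw [← Real.sqrt_mul (Cv_self_nonneg ha)]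
  exact Real.abs_le_sqrt (Cv_cs ha hb)

end cc

section avg

variable {r : Type} [Fintype r] [DecidableEq r] {n : ℕ}

lemma Act.cont_inv (R : Act r n) : Continuous fun p : RotG r × Eu n => R.ρ p.1⁻¹ p.2 :=
  R.cont.comp ((continuous_fst.inv).prodMk continuous_snd)

lemma Act.cont_left (R : Act r n) (x : Eu n) : Continuous fun g : RotG r => R.ρ g x :=
  R.cont.comp (continuous_id.prodMk continuous_const)

lemma Act.cont_left_inv (R : Act r n) (x : Eu n) : Continuous fun g : RotG r => R.ρ g⁻¹ x :=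
  (R.cont_left x).comp continuous_inv

lemma int_G {E : Type} [NormedAddCommGroup E] {F : RotG r → E} (hF : Continuous F) :
    Integrable F (haarG r) := by
  obtain ⟨C, hC⟩ := (isCompact_univ (X := RotG r)).exists_bound_of_continuousOn hF.continuousOn
  exact Integrable.of_bound hF.aestronglyMeasurable_of_compactSpace C
    (Eventually.of_forall fun u => hC u (Set.mem_univ u))

lemma Act.mul_apply (R : Act r n) (g h : RotG r) (x : Eu n) : R.ρ (g * h) x = R.ρ g (R.ρ h x) := by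
  rw [map_mul]; rfl

lemma Act.inv_apply (R : Act r n) (g : RotG r) (x : Eu n) : R.ρ g⁻¹ (R.ρ g x) = x := by
  rw [← R.mul_apply, inv_mul_cancel, map_one]; rfl

lemma Act.apply_inv (R : Act r n) (g : RotG r) (x : Eu n) : R.ρ g (R.ρ g⁻¹ x) = x := by
  rw [← R.mul_apply, mul_inv_cancel, map_one]; rfl

lemma Act.avg_cont (R : Act r n) {F : Eu n → ℝ} (hF : Continuous F) : Continuous (R.avg F) := by
  have h := continuous_parametric_integral_of_continuous (μ := haarG r)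
    (f := fun (x : Eu n) (g : RotG r) => F (R.ρ g⁻¹ x))
    (hF.comp (R.cont_inv.comp (continuous_snd.prodMk continuous_fst))) isCompact_univ
  simp only [Measure.restrict_univ] at h
  exact h

lemma Act.avg_zero (R : Act r n) {F : Eu n → ℝ} {ρ : ℝ} (hF : ∀ x, ρ < ‖x‖ → F x = 0) {x : Eu n}
    (hx : ρ < ‖x‖) : R.avg F x = 0 := by
  unfold Act.avg
  have : ∀ g : RotG r, F (R.ρ g⁻¹ x) = 0 := fun g => hF _ (by
    rw [LinearIsometryEquiv.norm_map]; exact hx)
  simp only [this, integral_zero]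

lemma cc_of {F : Eu n → ℝ} (hF : Continuous F) {ρ : ℝ} (h : ∀ x, ρ < ‖x‖ → F x = 0) : CC F :=
  ⟨hF, HasCompactSupport.of_support_subset_isCompact (isCompact_closedBall (0 : Eu n) ρ)
    fun x hx => by
      rw [mem_closedBall_zero_iff]
      by_contra hc
      exact hx (h x (not_le.mp hc))⟩

lemma Act.avg_cc (R : Act r n) {F : Eu n → ℝ} (hF : CC F) : CC (R.avg F) := by
  obtain ⟨ρ, hρ⟩ := hF.bdd
  exact cc_of (R.avg_cont hF.c) fun x hx => R.avg_zero hρ hx

lemma Act.avg_inv (R : Act r n) (F : Eu n → ℝ) (h : RotG r) (x : Eu n) :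
    R.avg F (R.ρ h x) = R.avg F x := by
  have h1 := integral_mul_left_eq_self (μ := haarG r) (fun u : RotG r => F (R.ρ u⁻¹ x)) h⁻¹
  unfold Act.avg
  rw [← h1]
  refine integral_congr_ae (Eventually.of_forall fun u => ?_)
  change F (R.ρ u⁻¹ (R.ρ h x)) = F (R.ρ (h⁻¹ * u)⁻¹ x)
  rw [← R.mul_apply, _root_.mul_inv_rev, inv_inv]

lemma Act.avg_sum (R : Act r n) {ι : Type} (s : Finset ι) {F : ι → Eu n → ℝ}
    (h : ∀ k ∈ s, Continuous (F k)) (x : Eu n) :
    R.avg (fun x => ∑ k ∈ s, F k x) x = ∑ k ∈ s, R.avg (F k) x := by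
  unfold Act.avg
  exact integral_finsetSum _ fun k hk => int_G ((h k hk).comp (R.cont_left_inv x))

lemma Act.avg_sq_le (R : Act r n) {F : Eu n → ℝ} (hF : Continuous F) (x : Eu n) :
    (R.avg F x) ^ 2 ≤ R.avg (fun x => F x ^ 2) x := by
  have hc : Continuous fun g : RotG r => F (R.ρ g⁻¹ x) := hF.comp (R.cont_left_inv x)
  have h1 : 0 ≤ ∫ g, (F (R.ρ g⁻¹ x) - R.avg F x) ^ 2 ∂(haarG r) :=
    integral_nonneg fun g => sq_nonneg _
  have h2 := sq_dev (μ := haarG r) (int_G hc) (int_G (hc.pow 2))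
  have h3 : ∫ g, F (R.ρ g⁻¹ x) ∂(haarG r) = R.avg F x := rfl
  have h4 : ∫ g, F (R.ρ g⁻¹ x) ^ 2 ∂(haarG r) = R.avg (fun x => F x ^ 2) x := rfl
  rw [h3, h4] at h2
  linarith

/-- Fubini -/
lemma fub {Φ : RotG r × Eu n → ℝ} (hΦ : Continuous Φ) {ρ : ℝ}
    (h0 : ∀ g x, ρ < ‖x‖ → Φ (g, x) = 0) (P : Measure (Eu n)) [IsFiniteMeasure P] :
    Integrable Φ ((haarG r).prod P) := by
  obtain ⟨C, hC⟩ := ((isCompact_univ (X := RotG r)).prod
    (isCompact_closedBall (0 : Eu n) ρ)).exists_bound_of_continuousOn hΦ.continuousOn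
  refine Integrable.of_bound hΦ.aestronglyMeasurable (max C 0) (Eventually.of_forall ?_)
  rintro ⟨g, x⟩
  by_cases hx : ρ < ‖x‖
  · rw [h0 g x hx]; simp
  · exact (hC (g, x) ⟨Set.mem_univ _, mem_closedBall_zero_iff.mpr (not_lt.mp hx)⟩).trans
      (le_max_left _ _)

lemma fub_swap {Φ : RotG r → Eu n → ℝ} (hΦ : Continuous fun p : RotG r × Eu n => Φ p.1 p.2) {ρ : ℝ}
    (h0 : ∀ g x, ρ < ‖x‖ → Φ g x = 0) (P : Measure (Eu n)) [IsFiniteMeasure P] :
    ∫ g, ∫ x, Φ g x ∂P ∂(haarG r) = ∫ x, ∫ g, Φ g x ∂(haarG r) ∂P :=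
  integral_integral_swap (fub (Φ := fun p => Φ p.1 p.2) hΦ h0 P)

lemma fub_int {Φ : RotG r → Eu n → ℝ} (hΦ : Continuous fun p : RotG r × Eu n => Φ p.1 p.2) {ρ : ℝ}
    (h0 : ∀ g x, ρ < ‖x‖ → Φ g x = 0) (P : Measure (Eu n)) [IsFiniteMeasure P] :
    Integrable (fun g => ∫ x, Φ g x ∂P) (haarG r) :=
  (fub (Φ := fun p => Φ p.1 p.2) hΦ h0 P).integral_prod_left

lemma Act.avg_int (R : Act r n) {V : Eu n → ℝ} (hV : Continuous V)
    (hinv : ∀ g x, V (R.ρ g x) = V x) [IsProbabilityMeasure (tgt V)] {F : Eu n → ℝ} (hF : CC F) :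
    ∫ x, R.avg F x ∂(tgt V) = ∫ x, F x ∂(tgt V) := by
  obtain ⟨ρ, hρ⟩ := hF.bdd
  unfold Act.avg
  rw [← fub_swap (Φ := fun g x => F (R.ρ g⁻¹ x)) (hF.c.comp R.cont_inv) (ρ := ρ)
    (fun g x hx => hρ _ (by rw [LinearIsometryEquiv.norm_map]; exact hx)) (tgt V)]
  have : ∀ g : RotG r, ∫ x, F (R.ρ g⁻¹ x) ∂(tgt V) = ∫ x, F x ∂(tgt V) := fun g =>
    EX.tgt_iso hV (R := R.ρ g⁻¹) (hinv g⁻¹) F
  simp only [this, integral_const, probReal_univ, smul_eq_mul, one_mul]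

/-- averages of vectors vanish if there is no fixed vector -/
lemma Act.NoFix.avg_vec {R : Act r n} (hfix : R.NoFix) (a : Eu n) :
    ∫ g, R.ρ g a ∂(haarG r) = 0 := by
  refine hfix _ fun h => ?_
  have h1 : R.ρ h (∫ g, R.ρ g a ∂(haarG r)) = ∫ g, R.ρ h (R.ρ g a) ∂(haarG r) :=
    ((R.ρ h).toContinuousLinearEquiv.integral_comp_comm (fun g => R.ρ g a)).symm
  rw [h1]
  have h2 : ∀ g, R.ρ h (R.ρ g a) = R.ρ (h * g) a := fun g => (R.mul_apply h g a).symm
  simp only [h2]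
  exact integral_mul_left_eq_self (μ := haarG r) (fun g => R.ρ g a) h

lemma Act.NoFix.avg_lin {R : Act r n} (hfix : R.NoFix) (L : Eu n →L[ℝ] ℝ) (e : Eu n) :
    ∫ g, L (R.ρ g⁻¹ e) ∂(haarG r) = 0 := by
  set a := (InnerProductSpace.toDual ℝ (Eu n)).symm L with ha
  have h1 : ∀ g : RotG r, L (R.ρ g⁻¹ e) = inner ℝ e (R.ρ g a) := by
    intro g
    have h2 : L (R.ρ g⁻¹ e) = inner ℝ a (R.ρ g⁻¹ e) := by
      rw [ha, InnerProductSpace.toDual_symm_apply]
    rw [h2, ← (R.ρ g).inner_map_map, R.apply_inv, real_inner_comm]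
  simp only [h1]
  rw [integral_inner (int_G (R.cont_left a)), hfix.avg_vec, inner_zero_right]

/-- translates of test functions -/
lemma Act.tt (R : Act r n) {f : Eu n → ℝ} (hf : UC.TT f) (g : RotG r) :
    UC.TT (fun x => f (R.ρ g⁻¹ x)) :=
  ⟨hf.cd.comp (R.ρ g⁻¹).contDiff, hf.cs.comp_homeomorph (R.ρ g⁻¹).toHomeomorph⟩

lemma Act.fd (R : Act r n) {f : Eu n → ℝ} (hf : UC.TT f) (g : RotG r) (x v : Eu n) :
    fderiv ℝ (fun x => f (R.ρ g⁻¹ x)) x v = fderiv ℝ f (R.ρ g⁻¹ x) (R.ρ g⁻¹ v) := by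
  rw [(EX.comp_iso_fderiv (hf.cd.of_le (by exact_mod_cast le_top)) (R.ρ g⁻¹) x).fderiv]
  rfl

lemma Act.fd_norm (R : Act r n) {f : Eu n → ℝ} (hf : UC.TT f) (g : RotG r) (x : Eu n) :
    ‖fderiv ℝ (fun x => f (R.ρ g⁻¹ x)) x‖ = ‖fderiv ℝ f (R.ρ g⁻¹ x)‖ := by
  rw [(EX.comp_iso_fderiv (hf.cd.of_le (by exact_mod_cast le_top)) (R.ρ g⁻¹) x).fderiv,
    EX.comp_iso_norm]

lemma Ex_tgt {V : Eu n → ℝ} (hV : Continuous V) (F : Eu n → ℝ) :
    Ex V F = ∫ x, F x ∂(tgt V) := (integral_tgt hV F).symm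

/-- the distance of the gradient to its average -/
noncomputable def G0 (R : Act r n) (w : Eu n → ℝ) (x : Eu n) : ℝ :=
  Real.sqrt (∑ j, (pd j w x - R.avg (pd j w) x) ^ 2)

lemma G0_cc (R : Act r n) {w : Eu n → ℝ} (hw : UC.TT w) : CC (G0 R w) :=
  (CC.sum _ fun j _ => ((TT.cc (hw.pd j)).sub (R.avg_cc (TT.cc (hw.pd j)))).sq).sqrt

lemma fdc {f : Eu n → ℝ} (hf : UC.TT f) : Continuous (fderiv ℝ f) :=
  (hf.cd.of_le (by exact_mod_cast le_top : ((1 : ℕ∞) : WithTop ℕ∞) ≤ _)).continuous_fderiv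
    (by norm_num)

lemma grad_term {V : Eu n → ℝ} (hV : ContDiff ℝ 1 V) (R : Act r n)
    (hinv : ∀ g x, V (R.ρ g x) = V x) [IsProbabilityMeasure (tgt V)] (hfix : R.NoFix)
    {f w : Eu n → ℝ} (hf : UC.TT f) (hw : UC.TT w) {l : ℝ} (hl : ∀ x, ‖fderiv ℝ f x‖ ≤ l) :
    - ∫ x, R.avg f x * LL V w x ∂(tgt V) ≤ l * ∫ x, G0 R w x ∂(tgt V) := by
  have hVc := hV.continuous
  set P := tgt V with hP
  have hLc : CC (LL V w) := ⟨(LL_cont hV hw).1, (LL_cont hV hw).2⟩
  obtain ⟨ρ, hρ⟩ := (TT.cc hf).bdd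
  have hAc : Continuous fun p : RotG r × Eu n => f (R.ρ p.1⁻¹ p.2) * LL V w p.2 :=
    (hf.continuous.comp R.cont_inv).mul (hLc.c.comp continuous_snd)
  have hA0 : ∀ (g : RotG r) (x : Eu n), ρ < ‖x‖ → f (R.ρ g⁻¹ x) * LL V w x = 0 := fun g x hx => by
    rw [hρ _ (by rwa [LinearIsometryEquiv.norm_map]), zero_mul]
  set A : RotG r → ℝ := fun g => ∫ x, f (R.ρ g⁻¹ x) * LL V w x ∂P with hAd
  have hA : ∫ x, R.avg f x * LL V w x ∂P = ∫ g, A g ∂(haarG r) := by
    rw [hAd, fub_swap (Φ := fun g x => f (R.ρ g⁻¹ x) * LL V w x) hAc hA0 P]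
    refine integral_congr_ae (ae_of_all _ fun x => ?_)
    show R.avg f x * LL V w x = ∫ g, f (R.ρ g⁻¹ x) * LL V w x ∂(haarG r)
    rw [integral_mul_const]
    rfl
  have hAi : Integrable A (haarG r) := fub_int (Φ := fun g x => f (R.ρ g⁻¹ x) * LL V w x) hAc hA0 P
  have hAg : ∀ g, A g = - ∑ j, ∫ x, pd j w x * pd j (fun x => f (R.ρ g⁻¹ x)) x ∂P := by
    intro g
    have h := green hV hw (R.tt hf g)
    unfold Df at h
    simp only [Ex_tgt hVc] at h
    rw [← h]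
    exact integral_congr_ae (ae_of_all _ fun x => mul_comm _ _)
  set m : Fin n → Eu n → ℝ := fun j => R.avg (pd j w) with hmd
  have hm : ∀ j, CC (m j) := fun j => R.avg_cc (TT.cc (hw.pd j))
  set B : Fin n → RotG r → ℝ := fun j g =>
    ∫ x, m j x * pd j (fun x => f (R.ρ g⁻¹ x)) x ∂P with hBd
  have hB : ∀ j, ∫ g, B j g ∂(haarG r) = 0 := by
    intro j
    obtain ⟨ρ', hρ'⟩ := (hm j).bdd
    have e : ∀ g, B j g = ∫ x, m j x * fderiv ℝ f x (R.ρ g⁻¹ (ej j)) ∂P := by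
      intro g
      rw [hBd]
      simp only
      rw [hP, ← EX.tgt_iso hVc (R := R.ρ g) (hinv g)
        (fun x => m j x * pd j (fun x => f (R.ρ g⁻¹ x)) x)]
      refine integral_congr_ae (ae_of_all _ fun x => ?_)
      show m j (R.ρ g x) * fderiv ℝ (fun x => f (R.ρ g⁻¹ x)) (R.ρ g x) (ej j) = _
      rw [hmd]
      simp only
      rw [R.avg_inv, R.fd hf, R.inv_apply]
    simp only [e]
    rw [fub_swap (Φ := fun g x => m j x * fderiv ℝ f x (R.ρ g⁻¹ (ej j))) ?_ (ρ := ρ') ?_ P]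
    · have : ∀ x, ∫ g, m j x * fderiv ℝ f x (R.ρ g⁻¹ (ej j)) ∂(haarG r) = 0 := fun x => by
        rw [integral_const_mul, hfix.avg_lin, mul_zero]
      simp only [this, integral_zero]
    · exact ((hm j).c.comp continuous_snd).mul (((fdc hf).comp continuous_snd).clm_apply
        ((R.cont_left_inv _).comp continuous_fst))
    · intro g x hx
      rw [hρ' x hx, zero_mul]
  have hBi : ∀ j, Integrable (B j) (haarG r) := by
    intro j
    obtain ⟨ρ', hρ'⟩ := (hm j).bdd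
    have e : B j = fun g => ∫ x, m j x * fderiv ℝ f (R.ρ g⁻¹ x) (R.ρ g⁻¹ (ej j)) ∂P := by
      funext g
      refine integral_congr_ae (ae_of_all _ fun x => ?_)
      show m j x * fderiv ℝ (fun x => f (R.ρ g⁻¹ x)) x (ej j) = _
      rw [R.fd hf]
    rw [e]
    refine fub_int (Φ := fun g x => m j x * fderiv ℝ f (R.ρ g⁻¹ x) (R.ρ g⁻¹ (ej j))) ?_
      (ρ := ρ') ?_ P
    · exact ((hm j).c.comp continuous_snd).mul (((fdc hf).comp R.cont_inv).clm_apply
        ((R.cont_left_inv _).comp continuous_fst))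
    · intro g x hx
      rw [hρ' x hx, zero_mul]
  have key : ∀ g, - A g - ∑ j, B j g ≤ l * ∫ x, G0 R w x ∂P := by
    intro g
    have hfg := R.tt hf g
    have i1 : ∀ j, Integrable (fun x => pd j w x * pd j (fun x => f (R.ρ g⁻¹ x)) x) P := fun j =>
      ((TT.cc (hw.pd j)).mul (TT.cc (hfg.pd j))).int P
    have i2 : ∀ j, Integrable (fun x => m j x * pd j (fun x => f (R.ρ g⁻¹ x)) x) P := fun j =>
      ((hm j).mul (TT.cc (hfg.pd j))).int P
    have i3 : ∀ j, CC (fun x => (pd j w x - m j x) * pd j (fun x => f (R.ρ g⁻¹ x)) x) := fun j =>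
      (((TT.cc (hw.pd j)).sub (hm j)).mul (TT.cc (hfg.pd j)))
    have e : - A g - ∑ j, B j g =
        ∫ x, ∑ j, (pd j w x - m j x) * pd j (fun x => f (R.ρ g⁻¹ x)) x ∂P := by
      rw [hAg g, neg_neg, ← Finset.sum_sub_distrib, integral_finsetSum _ fun j _ => (i3 j).int P]
      refine Finset.sum_congr rfl fun j _ => ?_
      rw [hBd]
      simp only
      rw [← integral_sub (i1 j) (i2 j)]
      exact integral_congr_ae (ae_of_all _ fun x => by ring)
    rw [e, ← integral_const_mul]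
    refine integral_mono ((CC.sum _ fun j _ => i3 j).int P) (((G0_cc R hw).int P).const_mul l)
      fun x => ?_
    have h1 := Real.sum_mul_le_sqrt_mul_sqrt Finset.univ (fun j => pd j w x - m j x)
      (fun j => pd j (fun x => f (R.ρ g⁻¹ x)) x)
    have h2 : Real.sqrt (∑ j, pd j (fun x => f (R.ρ g⁻¹ x)) x ^ 2) ≤ l := by
      rw [← norm_fderiv_sq, Real.sqrt_sq (norm_nonneg _), R.fd_norm hf]
      exact hl _
    have h3 : Real.sqrt (∑ j, (pd j w x - m j x) ^ 2) = G0 R w x := rfl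
    rw [h3] at h1
    show ∑ j, (pd j w x - m j x) * pd j (fun x => f (R.ρ g⁻¹ x)) x ≤ l * G0 R w x
    have h4 : 0 ≤ G0 R w x := Real.sqrt_nonneg _
    nlinarith
  have h5 : ∫ g, (- A g - ∑ j, B j g) ∂(haarG r) ≤ l * ∫ x, G0 R w x ∂P := by
    have h6 : Integrable (fun g => - A g - ∑ j, B j g) (haarG r) :=
      hAi.neg.sub (integrable_finsetSum _ fun j _ => hBi j)
    have h7 := integral_mono h6 (integrable_const (l * ∫ x, G0 R w x ∂P)) key
    simpa using h7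
  have h8 : ∫ g, (- A g - ∑ j, B j g) ∂(haarG r) = - ∫ g, A g ∂(haarG r) := by
    have h9 : ∫ g, (- A g - ∑ j, B j g) ∂(haarG r) =
        ∫ g, - A g ∂(haarG r) - ∫ g, ∑ j, B j g ∂(haarG r) :=
      integral_sub hAi.neg (integrable_finsetSum _ fun j _ => hBi j)
    rw [h9, integral_neg, integral_finsetSum _ fun j _ => hBi j]
    simp [hB]
  rw [hA, ← h8]
  exact h5

lemma G0_int_le {V : Eu n → ℝ} (hV : ContDiff ℝ 2 V)
    (hconv : ∀ x v, 0 ≤ fderiv ℝ (fderiv ℝ V) x v v) (R : Act r n)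
    (hinv : ∀ g x, V (R.ρ g x) = V x) [IsProbabilityMeasure (tgt V)] {c : Eu n → ℝ} (hc : Wt c)
    (hci : Integrable c (tgt V)) (hop : R.OP c) {w : Eu n → ℝ} (hw : UC.TT w) {t : ℝ}
    (ht : 0 < t) :
    ∫ x, G0 R w x ∂(tgt V) ≤
      (t * ∫ x, c x ∂(tgt V) + (∫ x, LL V w x ^ 2 ∂(tgt V)) / t) / 2 := by
  have hVc := hV.continuous
  set Yf : Eu n → ℝ := fun x => ∑ j, ‖fderiv ℝ (pd j w) x‖ ^ 2 with hY
  have hYj : ∀ j, CC (fun x => ‖fderiv ℝ (pd j w) x‖ ^ 2) := fun j =>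
    ⟨(fdc (hw.pd j)).norm.pow 2, (((hw.pd j).cs.fderiv (𝕜 := ℝ)).norm).comp_left
      (g := fun y : ℝ => y ^ 2) (by norm_num)⟩
  have hYc : CC Yf := CC.sum _ fun j _ => hYj j
  have h1 : ∀ x, R.avg (G0 R w) x ≤ (t * c x + R.avg Yf x / t) / 2 := by
    intro x
    have a1 := R.avg_sq_le (G0_cc R hw).c x
    have a2 : R.avg (fun x => G0 R w x ^ 2) x ≤ c x * R.avg Yf x := by
      have e1 : (fun x => G0 R w x ^ 2) = fun x => ∑ j, (pd j w x - R.avg (pd j w) x) ^ 2 := by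
        funext y
        exact Real.sq_sqrt (Finset.sum_nonneg fun j _ => sq_nonneg _)
      have e3 := R.avg_sum Finset.univ (F := fun j x => (pd j w x - R.avg (pd j w) x) ^ 2)
        (fun j _ => (((hw.pd j).continuous).sub (R.avg_cont (hw.pd j).continuous)).pow 2) x
      have e4 := R.avg_sum Finset.univ (F := fun j x => ‖fderiv ℝ (pd j w) x‖ ^ 2)
        (fun j _ => (hYj j).c) x
      rw [e1, hY, e3, e4, Finset.mul_sum]
      refine Finset.sum_le_sum fun j _ => ?_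
      have hcj : Continuous fun g : RotG r => pd j w (R.ρ g⁻¹ x) :=
        (hw.pd j).continuous.comp (R.cont_left_inv x)
      have e2 : R.avg (fun y => (pd j w y - R.avg (pd j w) y) ^ 2) x =
          ∫ g, (pd j w (R.ρ g⁻¹ x) - ∫ g, pd j w (R.ρ g⁻¹ x) ∂(haarG r)) ^ 2 ∂(haarG r) := by
        refine integral_congr_ae (ae_of_all _ fun g => ?_)
        show (pd j w (R.ρ g⁻¹ x) - R.avg (pd j w) (R.ρ g⁻¹ x)) ^ 2 = _
        rw [R.avg_inv]
        rfl
      rw [e2, sq_dev (int_G hcj) (int_G (hcj.pow 2))]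
      exact hop (pd j w) (hw.pd j) x
    have a3 : 0 ≤ R.avg Yf x := integral_nonneg fun g => Finset.sum_nonneg fun j _ => sq_nonneg _
    have a4 := hc.nn x
    have a5 : R.avg (G0 R w) x ^ 2 ≤ ((t * c x + R.avg Yf x / t) / 2) ^ 2 := by
      have a6 : t * c x * (R.avg Yf x / t) = c x * R.avg Yf x := by field_simp
      nlinarith [sq_nonneg (t * c x - R.avg Yf x / t)]
    exact le_of_sq_le_sq a5 (by positivity)
  have h2 : ∫ x, R.avg (G0 R w) x ∂(tgt V) ≤ ∫ x, (t * c x + R.avg Yf x / t) / 2 ∂(tgt V) :=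
    integral_mono ((R.avg_cc (G0_cc R hw)).int _)
      (((hci.const_mul t).add (((R.avg_cc hYc).int _).div_const t)).div_const 2) h1
  rw [R.avg_int hVc hinv (G0_cc R hw)] at h2
  have h3 : ∫ x, (t * c x + R.avg Yf x / t) / 2 ∂(tgt V) =
      (t * ∫ x, c x ∂(tgt V) + (∫ x, Yf x ∂(tgt V)) / t) / 2 := by
    rw [integral_div, integral_add (hci.const_mul t) (((R.avg_cc hYc).int _).div_const t),
      integral_const_mul, integral_div, R.avg_int hVc hinv hYc]
  have h4 : ∫ x, Yf x ∂(tgt V) ≤ ∫ x, LL V w x ^ 2 ∂(tgt V) := by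
    have b1 := bochner hV hconv hw
    rw [Ex_tgt hVc] at b1
    refine le_trans (le_of_eq ?_) b1
    rw [hY, integral_finsetSum _ fun j _ => (hYj j).int _]
    refine Finset.sum_congr rfl fun j _ => ?_
    rw [Df_eq V (hw.pd j) hVc, integral_tgt hVc]
  rw [h3] at h2
  refine h2.trans ?_
  have h5 : (∫ x, Yf x ∂(tgt V)) / t ≤ (∫ x, LL V w x ^ 2 ∂(tgt V)) / t :=
    div_le_div_of_nonneg_right h4 ht.le
  linarith

lemma gp_prob {V : Eu n → ℝ} {κ Λ S : ℝ} (hU : GP V κ Λ S) : IsProbabilityMeasure (tgt V) := by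
  constructor
  unfold tgt
  rw [withDensity_apply _ MeasurableSet.univ, Measure.restrict_univ,
    ← ofReal_integral_eq_lintegral_ofReal hU.int (Eventually.of_forall fun x => (Real.exp_pos _).le)]
  have := hU.mass
  unfold Ex at this
  simp only [one_mul] at this
  rw [this, ENNReal.ofReal_one]

lemma int_tgt {V F : Eu n → ℝ} (hV : Continuous V)
    (hF : Integrable fun x => F x * Real.exp (-V x)) : Integrable F (tgt V) := by
  unfold tgt
  have e3 : (fun x => ENNReal.ofReal (Real.exp (-V x))) =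
      fun x => ((Real.toNNReal (Real.exp (-V x)) : NNReal) : ℝ≥0∞) := rfl
  have hm : Measurable (fun x => Real.toNNReal (Real.exp (-V x))) :=
    (Real.measurable_exp.comp hV.measurable.neg).real_toNNReal
  rw [e3, integrable_withDensity_iff_integrable_smul hm]
  refine hF.congr (ae_of_all _ fun x => ?_)
  show F x * Real.exp (-V x) = Real.toNNReal (Real.exp (-V x)) • F x
  rw [NNReal.smul_def, Real.coe_toNNReal _ (Real.exp_pos _).le, smul_eq_mul, mul_comm]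

lemma Wt.int {V : Eu n → ℝ} {κ Λ S : ℝ} (hU : GP V κ Λ S) {c : Eu n → ℝ} (hc : Wt c) :
    Integrable c (tgt V) := by
  obtain ⟨C, hC⟩ := hc.bd
  have h1 : Integrable (fun x : Eu n => C * ‖x‖ ^ 2) (tgt V) :=
    (int_tgt hU.cd.continuous hU.momi).const_mul C
  refine h1.mono' hc.cont.aestronglyMeasurable (ae_of_all _ fun x => ?_)
  rw [Real.norm_eq_abs, abs_of_nonneg (hc.nn x)]
  exact hC x

/-- the invariant part -/
lemma inv_part {V : Eu n → ℝ} {κ Λ S : ℝ} (hU : GP V κ Λ S) {c0 : ℝ} (hc0 : 0 < c0)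
    (hP : HP V c0)
    (hesa : ∀ φ : Eu n → ℝ, Continuous φ → HasCompactSupport φ → ∀ ε : ℝ, 0 < ε →
      ∃ u : Eu n → ℝ, UC.TT u ∧ Ex V (fun x => (1 / c0 * u x - LL V u x - φ x) ^ 2) ≤ ε)
    (R : Act r n) (hV : ∀ g x, V (R.ρ g x) = V x) (hfix : R.NoFix)
    {c : Eu n → ℝ} (hc : Wt c) (hop : R.OP c) {f : Eu n → ℝ} (hf : UC.TT f) {l : ℝ}
    (hl0 : 0 < l) (hl : ∀ x, ‖fderiv ℝ f x‖ ≤ l) {η : ℝ} (hη : 0 < η) :
    Cv (tgt V) (R.avg f) (R.avg f) ≤ 4 * l ^ 2 * ∫ x, c x ∂(tgt V) +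
      8 * Real.sqrt (Cv (tgt V) (R.avg f) (R.avg f)) * η + η ^ 2 := by
  have hVc := hU.cd.continuous
  have hV1 : ContDiff ℝ 1 V := hU.cd.of_le (by norm_num)
  have hprob := gp_prob hU
  have hfb : CC (R.avg f) := R.avg_cc (TT.cc hf)
  obtain ⟨w, hw, hwε⟩ := hesa (R.avg f) hfb.c hfb.s (η ^ 2) (by positivity)
  rw [Ex_tgt hVc] at hwε
  set P := tgt V with hPd
  have hwc := TT.cc hw
  have hLc : CC (LL V w) := ⟨(LL_cont hV1 hw).1, (LL_cont hV1 hw).2⟩
  have hec : CC (fun x => 1 / c0 * w x - LL V w x - R.avg f x) :=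
    ((hwc.const_mul _).sub hLc).sub hfb
  set e : Eu n → ℝ := fun x => 1 / c0 * w x - LL V w x - R.avg f x with he
  have huc : CC (fun x => 1 / c0 * w x - LL V w x) := (hwc.const_mul _).sub hLc
  set u : Eu n → ℝ := fun x => 1 / c0 * w x - LL V w x with hu
  have hue : u = fun x => R.avg f x + e x := by
    funext x
    simp only [hu, he]
    ring
  -- numbers
  set v := Cv P (R.avg f) (R.avg f) with hv
  set Ve := Cv P e e with hVe
  set vu := Cv P u u with hvu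
  set W := Cv P w w with hW
  set q := Cv P u w with hq
  have hv0 : 0 ≤ v := Cv_self_nonneg hfb
  have hVe0 : 0 ≤ Ve := Cv_self_nonneg hec
  have hVeη : Ve ≤ η ^ 2 := (Cv_self_le e).trans hwε
  have hsVe : Real.sqrt Ve ≤ η := by
    rw [← Real.sqrt_sq hη.le]
    exact Real.sqrt_le_sqrt hVeη
  have hvu0 : 0 ≤ vu := Cv_self_nonneg huc
  have hW0 : 0 ≤ W := Cv_self_nonneg hwc
  have hcs1 : |Cv P (R.avg f) e| ≤ Real.sqrt v * η :=
    (Cv_cs' hfb hec).trans (mul_le_mul_of_nonneg_left hsVe (Real.sqrt_nonneg _))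
  have hvu1 : vu = v + 2 * Cv P (R.avg f) e + Ve := by
    rw [hvu, hue, Cv_add_right (hfb.add hec) hfb hec, Cv_add_left hfb hec hfb,
      Cv_add_left hfb hec hec, Cv_comm e (R.avg f)]
    ring
  have hvs : Real.sqrt v ^ 2 = v := Real.sq_sqrt hv0
  have hvu2 : vu ≤ (Real.sqrt v + η) ^ 2 := by
    rw [hvu1]
    have := (abs_le.mp hcs1).2
    nlinarith
  have hvu3 : Real.sqrt vu ≤ Real.sqrt v + η := by
    rw [← Real.sqrt_sq (show 0 ≤ Real.sqrt v + η by positivity)]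
    exact Real.sqrt_le_sqrt hvu2
  -- the generator
  have hL0 : ∫ x, LL V w x ∂P = 0 := by
    rw [← Ex_tgt hVc]; exact Ex_LL hV1 hw
  have hLw : LL V w = fun x => 1 / c0 * w x - u x := by
    funext x
    simp only [hu]
    ring
  have hDf : Df V w w = q - 1 / c0 * W := by
    have h1 := green hV1 hw hw
    rw [Ex_tgt hVc] at h1
    have h2 : Cv P (LL V w) w = ∫ x, LL V w x * w x ∂P := by
      unfold Cv
      rw [hL0, zero_mul, sub_zero]
    have h3 : Cv P (LL V w) w = 1 / c0 * W - q := by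
      rw [hLw, Cv_sub_left (hwc.const_mul _) huc hwc, Cv_mul_left]
    linarith
  have hpw : W ≤ c0 * Df V w w := by
    have h1 := hP w hw
    rw [Ex_tgt hVc, Ex_tgt hVc] at h1
    refine le_trans (le_of_eq ?_) h1
    rw [hW]
    unfold Cv
    rw [_root_.sq]
    congr 1
    exact integral_congr_ae (ae_of_all _ fun x => by ring)
  have hWq : 2 * W ≤ c0 * q := by
    rw [hDf] at hpw
    have : c0 * (q - 1 / c0 * W) = c0 * q - W := by field_simp
    linarith
  have hLL : ∫ x, LL V w x ^ 2 ∂P ≤ vu := by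
    have h1 : Cv P (LL V w) (LL V w) = ∫ x, LL V w x ^ 2 ∂P := by
      unfold Cv
      rw [hL0, zero_mul, sub_zero]
      exact integral_congr_ae (ae_of_all _ fun x => by ring)
    have h2 : Cv P (LL V w) (LL V w) = 1 / c0 * (1 / c0) * W - 2 * (1 / c0) * q + vu := by
      rw [hLw, Cv_sub_right ((hwc.const_mul _).sub huc) (hwc.const_mul _) huc, Cv_mul_right,
        Cv_sub_left (hwc.const_mul _) huc hwc, Cv_sub_left (hwc.const_mul _) huc huc,
        Cv_mul_left, Cv_mul_left, Cv_comm w u]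
      ring
    rw [← h1, h2]
    have h3 : 1 / c0 * (1 / c0) * (2 * W) ≤ 1 / c0 * q := by
      have := mul_le_mul_of_nonneg_left hWq (show 0 ≤ 1 / c0 * (1 / c0) by positivity)
      refine this.trans (le_of_eq ?_)
      field_simp
    have h4 : 0 ≤ 1 / c0 * (1 / c0) * W := by positivity
    nlinarith
  have hsW : 1 / c0 * Real.sqrt W ≤ Real.sqrt vu / 2 := by
    have h1 : q ^ 2 ≤ vu * W := Cv_cs huc hwc
    have h2 : 4 * W ≤ c0 ^ 2 * vu := by
      by_cases h0 : W = 0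
      · rw [h0]; simp; positivity
      · have hWp : 0 < W := lt_of_le_of_ne hW0 (Ne.symm h0)
        have h3 : (2 * W) ^ 2 ≤ c0 ^ 2 * (vu * W) := by
          calc (2 * W) ^ 2 ≤ (c0 * q) ^ 2 := pow_le_pow_left₀ (by positivity) hWq 2
            _ = c0 ^ 2 * q ^ 2 := by ring
            _ ≤ c0 ^ 2 * (vu * W) := mul_le_mul_of_nonneg_left h1 (by positivity)
        have h4 : W * (4 * W) ≤ W * (c0 ^ 2 * vu) := by nlinarith
        exact le_of_mul_le_mul_left h4 hWp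
    have h5 : (2 * Real.sqrt W) ^ 2 ≤ (c0 * Real.sqrt vu) ^ 2 := by
      rw [mul_pow, mul_pow, Real.sq_sqrt hW0, Real.sq_sqrt hvu0]
      linarith
    have h6 : 2 * Real.sqrt W ≤ c0 * Real.sqrt vu := le_of_sq_le_sq h5 (by positivity)
    rw [one_div, inv_mul_le_iff₀ hc0]
    linarith
  have hcs2 : 1 / c0 * Cv P (R.avg f) w ≤ Real.sqrt v * ((Real.sqrt v + η) / 2) := by
    have h1 := (abs_le.mp (Cv_cs' (P := P) hfb hwc)).2
    have h2 : 1 / c0 * Cv P (R.avg f) w ≤ 1 / c0 * (Real.sqrt v * Real.sqrt W) :=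
      mul_le_mul_of_nonneg_left h1 (by positivity)
    have h3 : 1 / c0 * (Real.sqrt v * Real.sqrt W) = Real.sqrt v * (1 / c0 * Real.sqrt W) := by
      ring
    rw [h3] at h2
    exact h2.trans (mul_le_mul_of_nonneg_left (hsW.trans (by linarith)) (Real.sqrt_nonneg _))
  -- the key estimate
  have hmain : - ∫ x, R.avg f x * LL V w x ∂P ≤
      l ^ 2 * ∫ x, c x ∂P + (Real.sqrt v + η) ^ 2 / 4 := by
    have h1 := grad_term hV1 R hV hfix hf hw hl
    have h2 := G0_int_le hU.cd (fun x v => le_trans (mul_nonneg hU.kpos.le (sq_nonneg _))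
      (hU.conv x v)) R hV hc (hc.int hU) hop hw (t := 2 * l) (by positivity)
    have h3 : (∫ x, LL V w x ^ 2 ∂P) / (2 * l) ≤ (Real.sqrt v + η) ^ 2 / (2 * l) :=
      div_le_div_of_nonneg_right (hLL.trans hvu2) (by positivity)
    have h4 : l * ∫ x, G0 R w x ∂P ≤
        l * ((2 * l * ∫ x, c x ∂P + (Real.sqrt v + η) ^ 2 / (2 * l)) / 2) := by
      refine mul_le_mul_of_nonneg_left (h2.trans ?_) hl0.le
      linarith
    have h5 : l * ((2 * l * ∫ x, c x ∂P + (Real.sqrt v + η) ^ 2 / (2 * l)) / 2) =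
        l ^ 2 * ∫ x, c x ∂P + (Real.sqrt v + η) ^ 2 / 4 := by
      field_simp
      ring
    linarith
  have hvv : v = - ∫ x, R.avg f x * LL V w x ∂P + 1 / c0 * Cv P (R.avg f) w -
      Cv P (R.avg f) e := by
    have h1 : Cv P (R.avg f) (LL V w) = ∫ x, R.avg f x * LL V w x ∂P := by
      unfold Cv
      rw [hL0, mul_zero, sub_zero]
    have h2 : Cv P (R.avg f) (LL V w) = 1 / c0 * Cv P (R.avg f) w - (v + Cv P (R.avg f) e) := by
      rw [hLw, hue, Cv_sub_right hfb (hwc.const_mul _) (hfb.add hec), Cv_mul_right,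
        Cv_add_right hfb hfb hec]
    linarith
  have h9 := (abs_le.mp hcs1).1
  nlinarith [Real.sqrt_nonneg v]

/-- the variance bound, given the solutions of the resolvent equation -/
theorem orb_var_of {V : Eu n → ℝ} {κ Λ S : ℝ} (hU : GP V κ Λ S) {c0 : ℝ} (hc0 : 0 < c0)
    (hP : HP V c0)
    (hesa : ∀ φ : Eu n → ℝ, Continuous φ → HasCompactSupport φ → ∀ ε : ℝ, 0 < ε →
      ∃ u : Eu n → ℝ, UC.TT u ∧ Ex V (fun x => (1 / c0 * u x - LL V u x - φ x) ^ 2) ≤ ε)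
    (R : Act r n) (hV : ∀ g x, V (R.ρ g x) = V x) (hfix : R.NoFix)
    {c : Eu n → ℝ} (hc : Wt c) (hop : R.OP c) {f : Eu n → ℝ} (hf : UC.TT f) {l : ℝ}
    (hl : ∀ x, ‖fderiv ℝ f x‖ ≤ l) :
    Ex V (fun x => f x ^ 2) - (Ex V f) ^ 2 ≤ 5 * Ex V c * l ^ 2 := by
  have hVc := hU.cd.continuous
  have hprob := gp_prob hU
  have hfc := TT.cc hf
  have hfb : CC (R.avg f) := R.avg_cc hfc
  have hci := hc.int hU
  rw [Ex_tgt hVc, Ex_tgt hVc, Ex_tgt hVc]
  set P := tgt V with hPd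
  have hC0 : 0 ≤ ∫ x, c x ∂P := integral_nonneg hc.nn
  have hl0 : 0 ≤ l := (norm_nonneg _).trans (hl 0)
  rcases hl0.eq_or_lt with h0 | hlp
  · have h1 : ∀ x, f x = f 0 := fun x => is_const_of_fderiv_eq_zero hf.differentiable
      (fun y => norm_le_zero_iff.mp ((hl y).trans h0.symm.le)) x 0
    have h2 : ∫ x, f x ^ 2 ∂P = f 0 ^ 2 := by
      simp only [h1, integral_const, probReal_univ, smul_eq_mul, one_mul]
    have h3 : ∫ x, f x ∂P = f 0 := by
      simp only [h1, integral_const, probReal_univ, smul_eq_mul, one_mul]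
    rw [h2, h3, ← h0]
    simp
  -- invariant part
  have hinv : Cv P (R.avg f) (R.avg f) ≤ 4 * l ^ 2 * ∫ x, c x ∂P := by
    set v := Cv P (R.avg f) (R.avg f) with hv
    refine le_of_forall_pos_le_add fun δ hδ => ?_
    have hA : 0 < 8 * Real.sqrt v + 1 := by positivity
    set η := min 1 (δ / (8 * Real.sqrt v + 1)) with hη
    have hη0 : 0 < η := lt_min one_pos (by positivity)
    have hη1 : η ≤ 1 := min_le_left _ _
    have hη2 : η * (8 * Real.sqrt v + 1) ≤ δ := by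
      have := min_le_right 1 (δ / (8 * Real.sqrt v + 1))
      rwa [← hη, le_div_iff₀ hA] at this
    have h1 := inv_part hU hc0 hP hesa R hV hfix hc hop hf hlp hl hη0
    rw [← hv] at h1
    nlinarith
  -- orbit part
  have horb : ∫ x, f x ^ 2 ∂P - ∫ x, R.avg f x ^ 2 ∂P ≤ (∫ x, c x ∂P) * l ^ 2 := by
    have h1 : ∫ x, R.avg (fun x => f x ^ 2) x ∂P = ∫ x, f x ^ 2 ∂P := R.avg_int hVc hV hfc.sq
    rw [← h1, ← integral_sub ((R.avg_cc hfc.sq).int P) (hfb.sq.int P), ← integral_mul_const]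
    refine integral_mono (((R.avg_cc hfc.sq).int P).sub (hfb.sq.int P)) (hci.mul_const _)
      fun x => ?_
    show R.avg (fun x => f x ^ 2) x - R.avg f x ^ 2 ≤ c x * l ^ 2
    refine (hop f hf x).trans (mul_le_mul_of_nonneg_left ?_ (hc.nn x))
    have hcont : Continuous fun g : RotG r => ‖fderiv ℝ f (R.ρ g⁻¹ x)‖ ^ 2 :=
      (((fdc hf).comp (R.cont_left_inv x)).norm).pow 2
    have h2 := integral_mono (μ := haarG r) (int_G hcont) (integrable_const (l ^ 2)) fun g =>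
      pow_le_pow_left₀ (norm_nonneg _) (hl (R.ρ g⁻¹ x)) 2
    simpa using h2
  have hmean : ∫ x, R.avg f x ∂P = ∫ x, f x ∂P := R.avg_int hVc hV hfc
  have hcv : Cv P (R.avg f) (R.avg f) = ∫ x, R.avg f x ^ 2 ∂P - (∫ x, f x ∂P) ^ 2 := by
    unfold Cv
    rw [hmean, ← _root_.sq]
    congr 1
    exact integral_congr_ae (ae_of_all _ fun x => by ring)
  nlinarith

end avg

end Pool.Agent.Lib.MP_6d896a_gt.CJ
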