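import Mathlib
import Pool.Agent.Lib.MP_6d896a_gt.CJ.OrbVar
import Pool.Agent.Lib.MP_6d896a_gt.CJ.EsaCs
import Pool.Agent.Lib.MP_6d896a_gt.CJ.OrbExt
import Pool.Agent.Lib.MP_6d896a_gt.CJ.OrbCL
import Pool.Agent.Lib.MP_6d896a_gt.CJ.OrbAP

/-!
Project CJ: the orbit principle.
-/

set_option autoImplicit false
set_option linter.unusedSectionVars false

namespace Pool.Agent.Lib.MP_6d896a_gt.CJ

open MeasureTheory ProbabilityTheory Matrix Set Filter
open Pool.Agent.Lib.MP_6d896a_gt.OM Pool.Agent.Lib.MP_6d896a_gt.UC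
open Pool.Agent.Lib.MP_6d896a_gt.UC.UR
open scoped ENNReal Topology

section abstract

variable {r : Type} [Fintype r] [DecidableEq r] {n : ℕ}

theorem orb_var {V : Eu n → ℝ} {κ Λ S : ℝ} (hU : GP V κ Λ S) {c0 : ℝ} (hc0 : 0 < c0)
    (hP : HP V c0) (R : Act r n) (hV : ∀ g x, V (R.ρ g x) = V x) (hfix : R.NoFix)
    {c : Eu n → ℝ} (hc : Wt c) (hop : R.OP c) {f : Eu n → ℝ} (hf : UC.TT f) {l : ℝ}
    (hl : ∀ x, ‖fderiv ℝ f x‖ ≤ l) :
    Ex V (fun x => f x ^ 2) - (Ex V f) ^ 2 ≤ 5 * Ex V c * l ^ 2 :=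
  orb_var_of hU hc0 hP (fun φ h1 h2 ε hε => esa_cs hU.cd (one_div_pos.mpr hc0) h1 h2 hε) R hV hfix
    hc hop hf hl

/-- the orbit principle in isotropic position -/
theorem orb_lvb (R : Act r n) (hfix : R.NoFix) {c : Eu n → ℝ} (hc : Wt c) (hop : R.OP c)
    (ν : Measure (Eu n)) [IsProbabilityMeasure ν] (hpl : FP.PLm ν) (hinv : R.Inv ν) :
    FP.LVb ν (5 * ∫ x, c x ∂ν) := by
  intro g hg hgb hgL hg1
  obtain ⟨b, hb⟩ := hgb
  obtain ⟨L, hL⟩ := hgL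
  have hCL : CL g b 1 L := ⟨hg, hb, hg1, hL⟩
  have h1 := orb_CL R hfix hc
    (fun {V κ' Λ S} hU {c0} hc0 hP hV {f b l L} hf =>
      orb_ext hU (by
        have : 0 ≤ Ex V c := integral_nonneg fun x =>
          mul_nonneg (hc.nn x) (Real.exp_pos _).le
        positivity)
        (fun f l hf hl => orb_var hU hc0 hP R hV hfix hc hop hf hl)
        hf) ν hpl hinv hCL
  have hgm : MemLp g 2 ν := MemLp.of_bound hg.continuous.aestronglyMeasurable b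
    (ae_of_all _ fun x => by rw [Real.norm_eq_abs]; exact hb x)
  rw [variance_eq_sub hgm]
  refine le_trans h1 ?_
  rw [one_pow, mul_one]

/-- the orbit principle -/
theorem orb_principle : ∃ C : ℝ, 0 < C ∧ ∀ (r : Type) [Fintype r] [DecidableEq r] (n : ℕ)
    (R : Act r n) (M : ℝ) (c : Eu n → ℝ), 0 < M → R.NoFix → Wt c → R.OP c →
    (∀ (ν : Measure (Eu n)) [IsProbabilityMeasure ν], FP.PLm ν → ν ≪ volume → R.Inv ν →
      (∀ ℓ : Eu n →L[ℝ] ℝ, Var[fun x => ℓ x; ν] = ‖ℓ‖ ^ 2) → ∫ x, c x ∂ν ≤ M) →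
    ∀ (ν : Measure (Eu n)) [IsProbabilityMeasure ν], FP.PLm ν → ν ≪ volume → R.Inv ν →
      FP.AP ν (C * M) := by
  obtain ⟨C, hC, hap⟩ := orb_ap
  refine ⟨C * 5, by positivity, ?_⟩
  intro r _ _ n R M c hM hfix hc hop hmom ν _ hpl hac hinv
  have h := hap r n R (5 * M) (by positivity) (fun ν' _ hpl' hac' hinv' hiso' => ?_) ν hpl hac hinv
  · rw [mul_assoc]
    exact h
  · intro g hg hgb hgL hg1
    refine (orb_lvb R hfix hc hop ν' hpl' hinv' g hg hgb hgL hg1).trans ?_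
    exact mul_le_mul_of_nonneg_left (hmom ν' hpl' hac' hinv' hiso') (by norm_num)

end abstract

end Pool.Agent.Lib.MP_6d896a_gt.CJ
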