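import Mathlib
import Pool.Agent.Lib.MP_6d896a_gt.CJ.OrbMain
import Pool.Agent.Lib.MP_6d896a_gt.CJ.MNorm
import Pool.Agent.Lib.MP_6d896a_gt.CJ.MOP
import Pool.Agent.Lib.MP_6d896a_gt.CJ.MMom3
import Pool.Agent.Lib.MP_6d896a_gt.CJ.MFinalOf

/-!
Project CJ, stage 2: the inequality for rotation invariant log-concave laws without fixed vectors.
-/

set_option autoImplicit false
set_option linter.unusedSectionVars false

namespace Pool.Agent.Lib.MP_6d896a_gt.CJ

open MeasureTheory ProbabilityTheory Matrix Set Filter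
open Pool.Agent.Lib.MP_6d896a_gt.OM Pool.Agent.Lib.MP_6d896a_gt.UC
open Pool.Agent.Lib.MP_6d896a_gt.UC.UR
open scoped ENNReal Topology

/-- the inequality without fixed directions -/
theorem miStat : ∃ C : ℝ, 0 < C ∧ MiStat C := by
  obtain ⟨C1, hC1, hap⟩ := orb_principle
  obtain ⟨C2, hC2, hmom⟩ := cM_moment
  refine ⟨C1 * C2, by positivity, ?_⟩
  intro ι κ r _ _ _ _ _ ν _ hr hpl hac hinv
  have hr3 : 3 ≤ Fintype.card r := by omega
  have hZ0 : 0 < 1 + (Fintype.card κ : ℝ) + (Fintype.card ι : ℝ) / Fintype.card r := by positivity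
  have key := hap r (dM ι κ r) (miAct ι κ r)
    (C2 * (1 + (Fintype.card κ : ℝ) + (Fintype.card ι : ℝ) / Fintype.card r)) (cM ι κ r)
    (by positivity) (mi_nofix hr3) (cM_wt hr3) (mi_OP hr3)
    (fun ν' _ hpl' hac' hinv' hiso' => hmom ι κ r ν' hr hpl' hac' hinv' hiso') ν hpl hac hinv
  rw [mul_assoc]
  exact key

end Pool.Agent.Lib.MP_6d896a_gt.CJ
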