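import Mathlib
import Pool.Agent.Lib.MP_6d896a_gt.CJ.MFinalOf
import Pool.Agent.Lib.MP_6d896a_gt.Sym15

/-!
Project CJ, stage 2: the statement in plain coordinates.
-/

set_option autoImplicit false
set_option linter.unusedSectionVars false

open Pointwise

namespace Pool.Agent.Lib.MP_6d896a_gt.CJ

open MeasureTheory ProbabilityTheory Matrix Set Filter
open Pool.Agent.Lib.MP_6d896a_gt.OM Pool.Agent.Lib.MP_6d896a_gt.UC
open Pool.Agent.Lib.MP_6d896a_gt.UC.UR
open scoped ENNReal Topology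

/-- coordinates -/
def eP (d m k n : ℕ) :
    ((Fin d → ℝ) × (Fin m → Fin n → ℝ) × (Fin k → Fin n → Fin n → ℝ)) ≃ₗ[ℝ]
      Fd (Fin d) (Fin m) (Fin k) (Fin n) where
  toFun x := WithLp.toLp 2 (Sum.elim (fun a => x.1 a)
    (Sum.elim (fun p => x.2.1 p.2 p.1) (fun q => x.2.2 q.1 q.2.1 q.2.2)))
  invFun y := (fun a => y (Sum.inl a), fun j i => y (Sum.inr (Sum.inl (i, j))),
    fun l i j => y (Sum.inr (Sum.inr (l, i, j))))
  map_add' x y := by
    ext p
    rcases p with p | p | p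
    · simp
    · simp
    · simp
  map_smul' c x := by
    ext p
    rcases p with p | p | p
    · simp
    · simp
    · simp
  left_inv x := rfl
  right_inv y := by
    ext p
    rcases p with p | p | p <;> rfl

lemma fi_eP {d m k n : ℕ} (U : Matrix (Fin n) (Fin n) ℝ)
    (x : (Fin d → ℝ) × (Fin m → Fin n → ℝ) × (Fin k → Fin n → Fin n → ℝ)) :
    fi U (eP d m k n x) = eP d m k n (x.1, fun j i => ∑ a, U i a * x.2.1 j a,
      fun l i j => ∑ a, ∑ b, U i a * x.2.2 l a b * U j b) := by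
  ext p
  rcases p with p | p | p
  · rfl
  · show act U (pB (pM (eP d m k n x))) p = _
    obtain ⟨i, j⟩ := p
    rw [act_apply]
    rfl
  · show cj U (pA (pM (eP d m k n x))) p = _
    obtain ⟨l, i, j⟩ := p
    rw [cj_apply, tup_apply]
    show (U * mx l (pA (pM (eP d m k n x))) * Uᵀ) i j =
      ∑ a, ∑ b, U i a * x.2.2 l a b * U j b
    rw [Matrix.mul_apply, Finset.sum_comm]
    refine Finset.sum_congr rfl fun b _ => ?_
    rw [Matrix.mul_apply, Finset.sum_mul]
    rfl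

theorem plain_of {C : ℝ}
    (h : ∀ (n d m k : ℕ)
    (μ : Measure (Fd (Fin d) (Fin m) (Fin k) (Fin n))) [IsProbabilityMeasure μ],
    FP.PLm μ →
    (∀ g : RotG (Fin n), μ.map (fi ((g : Matrix.orthogonalGroup (Fin n) ℝ) :
      Matrix (Fin n) (Fin n) ℝ)) = μ) →
    ∀ (N : ℕ) (T : Fd (Fin d) (Fin m) (Fin k) (Fin n) →ₗ[ℝ] EuclideanSpace ℝ (Fin N))
      (s : ℝ), 0 < s →
    (∀ θ : EuclideanSpace ℝ (Fin N), ‖θ‖ = 1 → Var[fun x => inner ℝ x θ; μ.map T] ≤ s) →
    ∀ S : Set (EuclideanSpace ℝ (Fin N)), MeasurableSet S →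
      ENNReal.ofReal (C / Real.sqrt ((1 + d + k + (m : ℝ) / n) * s)) *
        min (μ.map T S) (μ.map T Sᶜ) ≤
        Filter.liminf
          (fun ε : ℝ => (μ.map T (Metric.thickening ε S) - μ.map T S) / ENNReal.ofReal ε)
          (𝓝[>] 0))
    (n d m k : ℕ)
    (μ : Measure ((Fin d → ℝ) × (Fin m → Fin n → ℝ) × (Fin k → Fin n → Fin n → ℝ)))
    (hμ : IsProbabilityMeasure μ)
    (hlc : ∀ (A B : Set ((Fin d → ℝ) × (Fin m → Fin n → ℝ) × (Fin k → Fin n → Fin n → ℝ)))
      (t : ℝ), IsCompact A → IsCompact B → 0 < t → t < 1 →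
        (μ A) ^ t * (μ B) ^ (1 - t) ≤ μ (t • A + (1 - t) • B))
    (hinv : ∀ U : Matrix (Fin n) (Fin n) ℝ, U.transpose * U = 1 → U.det = 1 →
      μ.map (fun x => (x.1, fun j i => ∑ a, U i a * x.2.1 j a,
        fun l i j => ∑ a, ∑ b, U i a * x.2.2 l a b * U j b)) = μ)
    (N : ℕ) (T : ((Fin d → ℝ) × (Fin m → Fin n → ℝ) × (Fin k → Fin n → Fin n → ℝ)) →ₗ[ℝ]
      EuclideanSpace ℝ (Fin N)) (ν : Measure (EuclideanSpace ℝ (Fin N))) (hν : ν = μ.map T)
    (s : ℝ) (hs : 0 < s)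
    (hvar : ∀ θ : EuclideanSpace ℝ (Fin N), ‖θ‖ = 1 →
      ProbabilityTheory.variance (fun x => inner ℝ x θ) ν ≤ s)
    (S : Set (EuclideanSpace ℝ (Fin N))) (hS : MeasurableSet S) :
    ENNReal.ofReal (C / Real.sqrt ((1 + d + k + (m : ℝ) / n) * s)) * min (ν S) (ν Sᶜ) ≤
      Filter.liminf
        (fun ε : ℝ => (ν (Metric.thickening ε S) - ν S) / ENNReal.ofReal ε)
        (nhdsWithin 0 (Set.Ioi 0)) := by
  subst hν
  have hpl : FP.PLm μ := plm_of_borell hlc
  have hem : Measurable (eP d m k n) :=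
    (eP d m k n).toLinearMap.continuous_of_finiteDimensional.measurable
  have hprob : IsProbabilityMeasure (μ.map (eP d m k n)) :=
    Measure.isProbabilityMeasure_map hem.aemeasurable
  have hpl' : FP.PLm (μ.map (eP d m k n)) := hpl.map (eP d m k n).toLinearMap hem
  have hinv' : ∀ g : RotG (Fin n), (μ.map (eP d m k n)).map
      (fi ((g : Matrix.orthogonalGroup (Fin n) ℝ) : Matrix (Fin n) (Fin n) ℝ)) =
      μ.map (eP d m k n) := by
    intro g
    have h1 := hinv ((g : Matrix.orthogonalGroup (Fin n) ℝ) : Matrix (Fin n) (Fin n) ℝ)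
      (orth_left _) (det_rot g.2)
    have hfm : Measurable (fi (δ := Fin d) (ι := Fin m) (κ := Fin k)
        ((g : Matrix.orthogonalGroup (Fin n) ℝ) : Matrix (Fin n) (Fin n) ℝ)) :=
      (fi _).continuous_of_finiteDimensional.measurable
    rw [Measure.map_map hfm hem]
    conv_rhs => rw [← h1]
    have hGm : Measurable (fun x : (Fin d → ℝ) × (Fin m → Fin n → ℝ) ×
        (Fin k → Fin n → Fin n → ℝ) => (x.1, (fun j i => ∑ a,
          ((g : Matrix.orthogonalGroup (Fin n) ℝ) : Matrix (Fin n) (Fin n) ℝ) i a * x.2.1 j a :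
          Fin m → Fin n → ℝ),
        (fun l i j => ∑ a, ∑ b,
          ((g : Matrix.orthogonalGroup (Fin n) ℝ) : Matrix (Fin n) (Fin n) ℝ) i a * x.2.2 l a b *
          ((g : Matrix.orthogonalGroup (Fin n) ℝ) : Matrix (Fin n) (Fin n) ℝ) j b :
          Fin k → Fin n → Fin n → ℝ))) := by
      apply Continuous.measurable
      fun_prop
    rw [Measure.map_map hem hGm]
    congr 1
    funext x
    exact fi_eP _ x
  have hT : (μ.map (eP d m k n)).map (T ∘ₗ (eP d m k n).symm.toLinearMap) = μ.map T := by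
    have hTm : Measurable (T ∘ₗ (eP d m k n).symm.toLinearMap) :=
      (T ∘ₗ (eP d m k n).symm.toLinearMap).continuous_of_finiteDimensional.measurable
    rw [Measure.map_map hTm hem]
    congr 1
  have key := h n d m k (μ.map (eP d m k n)) hpl' hinv' N
    (T ∘ₗ (eP d m k n).symm.toLinearMap) s hs
  rw [hT] at key
  exact key hvar S hS

end Pool.Agent.Lib.MP_6d896a_gt.CJ
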