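import Mathlib
import Pool.Agent.Lib.MP_6d896a_gt.CJ.Defs
import Pool.Agent.Lib.MP_6d896a_gt.Ex14

/-!
From tuples of trace zero matrices to all tuples.
-/

set_option autoImplicit false
set_option linter.unusedSectionVars false

namespace Pool.Agent.Lib.MP_6d896a_gt.CJ

open MeasureTheory ProbabilityTheory Matrix Set Filter
open Pool.Agent.Lib.MP_6d896a_gt.OM Pool.Agent.Lib.MP_6d896a_gt.UC
open Pool.Agent.Lib.MP_6d896a_gt.UC.UR
open scoped ENNReal Topology

section conj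

variable {κ r : Type} [Fintype κ] [Fintype r] [DecidableEq r]

/-- tuples of scalar matrices are orthogonal to tuples of trace zero matrices -/
private lemma td_scal (c : κ → ℝ) :
    (tup (fun l => c l • (1 : Matrix r r ℝ)) : Tup κ r) ∈ (TrZ κ r)ᗮ := by
  rw [Submodule.mem_orthogonal]
  intro x hx
  rw [inner_tup]
  refine Finset.sum_eq_zero fun l _ => ?_
  rw [mx_tup, Matrix.mul_smul, Matrix.mul_one, Matrix.trace_smul, Matrix.trace_transpose,
    mem_TrZ.1 hx l, smul_zero]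

/-- the orthogonal complement consists of tuples of scalar matrices -/
private lemma td_eq {u : Tup κ r} (hu : u ∈ (TrZ κ r)ᗮ) :
    ∃ c : κ → ℝ, u = tup (fun l => c l • (1 : Matrix r r ℝ)) := by
  refine ⟨fun l => (mx l u).trace / (Fintype.card r : ℝ), ?_⟩
  set w : Tup κ r := tup (fun l => ((mx l u).trace / (Fintype.card r : ℝ)) •
    (1 : Matrix r r ℝ)) with hw
  have h1 : u - w ∈ (TrZ κ r)ᗮ := Submodule.sub_mem _ hu (td_scal _)
  have h2 : u - w ∈ TrZ κ r := by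
    rw [mem_TrZ]
    intro l
    rw [map_sub, hw, mx_tup, Matrix.trace_sub, Matrix.trace_smul, Matrix.trace_one, smul_eq_mul]
    by_cases hr : (Fintype.card r : ℝ) = 0
    · have hr' : IsEmpty r := by
        rw [← Fintype.card_eq_zero_iff]
        exact_mod_cast hr
      rw [hr, mul_zero, sub_zero]
      simp [Matrix.trace]
    · field_simp
      ring
  have h3 : u - w = 0 := by
    have h4 := (Submodule.mem_orthogonal _ _).1 h1 _ h2
    exact inner_self_eq_zero.1 h4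
  exact sub_eq_zero.1 h3

/-- rotations fix the orthogonal complement -/
private lemma td_fix {u : Tup κ r} (hu : u ∈ (TrZ κ r)ᗮ) (g : Matrix.orthogonalGroup r ℝ) :
    cj (g : Matrix r r ℝ) u = u := by
  obtain ⟨c, rfl⟩ := td_eq hu
  rw [cj_apply]
  congr 1
  funext l
  rw [mx_tup, Matrix.mul_smul, Matrix.mul_one, Matrix.smul_mul, orth_right]

/-- dimension of the orthogonal complement -/
private lemma td_dim : Module.finrank ℝ ((TrZ κ r)ᗮ : Submodule ℝ (Tup κ r)) ≤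
    Fintype.card κ := by
  set L : ((TrZ κ r)ᗮ : Submodule ℝ (Tup κ r)) →ₗ[ℝ] (κ → ℝ) :=
    LinearMap.pi fun l => (Matrix.traceLinearMap r ℝ ℝ ∘ₗ mx l) ∘ₗ (TrZ κ r)ᗮ.subtype with hL
  have hinj : Function.Injective L := by
    rw [injective_iff_map_eq_zero]
    intro u hu
    have h2 : (u : Tup κ r) ∈ TrZ κ r := by
      rw [mem_TrZ]
      intro l
      exact congrFun hu l
    have h4 := (Submodule.mem_orthogonal _ _).1 u.2 _ h2
    exact Subtype.ext (inner_self_eq_zero.1 h4)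
  have h := LinearMap.finrank_le_finrank_of_injective hinj
  rwa [Module.finrank_fintype_fun_eq_card] at h

/-- coordinates adapted to trace zero tuples -/
private lemma td_coord :
    ∃ m ≤ Fintype.card κ, ∃ e : (Fin m ⊕ Fin (dW κ r) → ℝ) ≃L[ℝ] Tup κ r,
      ∀ y, ∃ u ∈ (TrZ κ r)ᗮ, ∀ x : Eu (dW κ r),
        e (Sum.elim y (EuclideanSpace.equiv (Fin (dW κ r)) ℝ x)) = u + jt x := by
  have hc : IsCompl (TrZ κ r)ᗮ (TrZ κ r) := (Submodule.isCompl_orthogonal (TrZ κ r)).symm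
  set e : (Fin (Module.finrank ℝ ((TrZ κ r)ᗮ : Submodule ℝ (Tup κ r))) ⊕ Fin (dW κ r) → ℝ)
      ≃ₗ[ℝ] Tup κ r :=
    ((LinearEquiv.sumArrowLequivProdArrow _ _ ℝ ℝ).trans
      (((EuclideanSpace.equiv _ ℝ).symm.toLinearEquiv.trans
        (stdOrthonormalBasis ℝ ((TrZ κ r)ᗮ : Submodule ℝ (Tup κ r))).repr.symm.toLinearEquiv).prodCongr
        ((EuclideanSpace.equiv _ ℝ).symm.toLinearEquiv.trans (JW κ r).toLinearEquiv))).trans
      (Submodule.prodEquivOfIsCompl (TrZ κ r)ᗮ (TrZ κ r) hc) with he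
  refine ⟨_, td_dim, e.toContinuousLinearEquiv, fun y => ?_⟩
  refine ⟨((stdOrthonormalBasis ℝ ((TrZ κ r)ᗮ : Submodule ℝ (Tup κ r))).repr.symm
    ((EuclideanSpace.equiv _ ℝ).symm y) : ((TrZ κ r)ᗮ : Submodule ℝ (Tup κ r))),
    SetLike.coe_mem _, fun x => ?_⟩
  rfl

/-- from trace zero tuples to all tuples (as `rf_dens` in UR/ReflFinalOf.lean) -/
theorem tup_dens {C : ℝ} (hC : 1 ≤ C) (hfib : FP.FibreStat C) {K : ℝ} (hK : 1 ≤ K)
    (hap : ∀ (ν : Measure (Eu (dW κ r))) [IsProbabilityMeasure ν], FP.PLm ν → ν ≪ volume →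
      (cjAct κ r).Inv ν → FP.AP ν K)
    (ρ : Tup κ r → ℝ) (hρ : FP.LCd ρ) (h0 : ∫⁻ x, ENNReal.ofReal (ρ x) ≠ 0)
    (ht : ∫⁻ x, ENNReal.ofReal (ρ x) ≠ ∞)
    (hinv : ∀ g : RotG r, ∀ x, ρ (cj ((g : Matrix.orthogonalGroup r ℝ) : Matrix r r ℝ) x) = ρ x) :
    FP.AP (FP.dens ρ) (C ^ Fintype.card κ * K) := by
  classical
  obtain ⟨m, hm, e, he⟩ := td_coord (κ := κ) (r := r)
  suffices h : FP.AP (FP.dens ρ) (C ^ m * K) by
    intro f hf hl
    refine (h f hf hl).trans ?_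
    refine mul_le_mul_of_nonneg_right ?_ (integral_nonneg fun x => variance_nonneg _ _)
    exact mul_le_mul_of_nonneg_right (pow_le_pow_right₀ hC hm) (by linarith)
  refine EX.AP.lin (E := Fin m ⊕ Fin (dW κ r) → ℝ) (F := Tup κ r) e ?_
  obtain ⟨h0', ht'⟩ := EX.lint_lin_ne e h0 ht
  have hρ' : FP.LCd (fun z => ρ (e z)) := by
    have := EX.LCd.lin (e : (Fin m ⊕ Fin (dW κ r) → ℝ) →L[ℝ] Tup κ r) 0 hρ
    simpa using this
  refine EX.base_iter hC hfib _ (Fin (dW κ r)) (fun z => ρ (e z)) hρ' h0' ht' _ hK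
    fun y hy0 hyt => ?_
  have hlc : FP.LCd (fun x : Fin (dW κ r) → ℝ => ρ (e (Sum.elim y x))) := by
    refine hρ'.comp_linear (fun x : Fin (dW κ r) → ℝ =>
      (Sum.elim y x : Fin m ⊕ Fin (dW κ r) → ℝ)) ?_ ?_
    · refine measurable_pi_lambda _ fun w => ?_
      rcases w with w | w
      · exact measurable_const
      · exact measurable_pi_apply w
    · intro x z a b hab
      funext w
      rcases w with w | w
      · show y w = a * y w + b * y w
        rw [← add_mul, hab, one_mul]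
      · rfl
  set ε : Eu (dW κ r) ≃L[ℝ] (Fin (dW κ r) → ℝ) :=
    EuclideanSpace.equiv (Fin (dW κ r)) ℝ with hε
  refine EX.AP.lin (E := Eu (dW κ r)) (F := Fin (dW κ r) → ℝ) ε ?_
  obtain ⟨hz0, hzt⟩ := EX.lint_lin_ne ε hy0 hyt
  have hlc' : FP.LCd (fun x : Eu (dW κ r) => ρ (e (Sum.elim y (ε x)))) := by
    have := EX.LCd.lin (ε : Eu (dW κ r) →L[ℝ] (Fin (dW κ r) → ℝ)) 0 hlc
    simpa using this
  have : IsProbabilityMeasure
      (FP.dens (fun x : Eu (dW κ r) => ρ (e (Sum.elim y (ε x))))) :=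
    FP.dens_prob hz0 hzt
  obtain ⟨u, hu, hue⟩ := he y
  refine hap _ (hlc'.plm hz0 hzt) ?_ fun g => ?_
  · unfold FP.dens
    exact (withDensity_absolutelyContinuous _ _).smul_left _
  · have hR : ∀ x : Eu (dW κ r),
        ρ (e (Sum.elim y (ε ((cjAct κ r).ρ g x)))) = ρ (e (Sum.elim y (ε x))) := by
      intro x
      rw [← hinv g (e (Sum.elim y (ε x)))]
      congr 1
      rw [hε, hue, hue, jt_act, map_add, td_fix hu]
    have h1 := EX.dens_lin ((cjAct κ r).ρ g).toContinuousLinearEquiv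
      (fun x : Eu (dW κ r) => ρ (e (Sum.elim y (ε x))))
    have h2 : (fun x : Eu (dW κ r) =>
        ρ (e (Sum.elim y (ε (((cjAct κ r).ρ g).toContinuousLinearEquiv x))))) =
        fun x => ρ (e (Sum.elim y (ε x))) := funext fun x => hR x
    rw [h2] at h1
    exact h1

end conj

end Pool.Agent.Lib.MP_6d896a_gt.CJ
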